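import Pool.Agent.P.MP_b5e666_co.Main

namespace Pool.Agent.P.MP_b5e666_co.JoinedSmallEdges

open Pool.Agent.P.MP_b5e666_co in
theorem result :
    ∀ n k : ℕ, 1 ≤ n → k * k + 1 ≤ n + k → ∀ H : Finset (Finset (Fin n)),
      (H : Set (Finset (Fin n))).Intersecting →
      ((∀ F ∈ H, F.card ≤ k) ∨
        ∃ B ∈ H, ∃ B' ∈ H, ∃ B'' ∈ H, B.card ≤ k ∧ B'.card ≤ k ∧ B''.card ≤ k ∧
          (B ∩ B').card = 1 ∧ B ∩ B' ∩ B'' = ∅) →
      ∃ f : Finset (Fin n) → Fin n,
        ∀ F ∈ H, ∀ F' ∈ H, F ≠ F' → f F = f F' → 2 ≤ (F ∩ F').card := by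
  intro n k hn hk H hH h
  apply Col.toFin hn
  rcases h with h | ⟨B, hB, B', hB', B'', hB'', h1, h2, h3, h4, h5⟩
  · exact col_rank hn hk hH h
  · obtain ⟨z, hz⟩ := Finset.card_eq_one.1 h4
    have hz' : z ∉ B'' := by
      intro hc
      have : z ∈ B ∩ B' ∩ B'' := Finset.mem_inter.2 ⟨hz ▸ Finset.mem_singleton_self z, hc⟩
      rw [h5] at this
      exact absurd this (Finset.notMem_empty z)
    refine (col_three hH hB hB' hB'' hz hz').mono ?_
    have h6 : (B.card - 1) * (B'.card - 1) ≤ (k - 1) * (k - 1) :=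
      Nat.mul_le_mul (by omega) (by omega)
    rcases k with _ | k
    · simp only [Nat.zero_sub, mul_zero] at h6
      omega
    · simp only [Nat.add_sub_cancel] at h6
      nlinarith

end Pool.Agent.P.MP_b5e666_co.JoinedSmallEdges
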