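import Mathlib

set_option autoImplicit false

open Finset

noncomputable section

namespace Pool.Agent.P.MP_b5e666_co.Lar

/-- filter with a classical decision procedure -/
def flt {α : Type} (s : Finset α) (P : α → Prop) : Finset α :=
  @Finset.filter α P (fun a => Classical.propDecidable (P a)) s

@[simp] theorem mem_flt {α : Type} {s : Finset α} {P : α → Prop} {a : α} :
    a ∈ flt s P ↔ a ∈ s ∧ P a := by
  unfold flt; exact @Finset.mem_filter α P (fun a => Classical.propDecidable (P a)) s a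

theorem flt_eq {α : Type} (s : Finset α) (P : α → Prop) [DecidablePred P] :
    flt s P = s.filter P := by
  ext a; simp

theorem flt_subset {α : Type} (s : Finset α) (P : α → Prop) : flt s P ⊆ s :=
  fun _ h => (mem_flt.1 h).1

theorem card_flt_le {α : Type} (s : Finset α) (P : α → Prop) : (flt s P).card ≤ s.card :=
  card_le_card (flt_subset s P)

theorem flt_mono {α : Type} {s t : Finset α} {P Q : α → Prop} (h : ∀ a, a ∈ s → P a → a ∈ t ∧ Q a) :
    flt s P ⊆ flt t Q := fun a ha => mem_flt.2 (h a (mem_flt.1 ha).1 (mem_flt.1 ha).2)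

/-- real indicator of a proposition -/
def ind (P : Prop) : ℝ := @ite ℝ P (Classical.propDecidable P) 1 0

theorem ind_pos {P : Prop} (h : P) : ind P = 1 := by unfold ind; exact if_pos h
theorem ind_neg {P : Prop} (h : ¬ P) : ind P = 0 := by unfold ind; exact if_neg h
theorem ind_eq (P : Prop) [Decidable P] : ind P = if P then 1 else 0 := by
  by_cases h : P
  · rw [ind_pos h, if_pos h]
  · rw [ind_neg h, if_neg h]
theorem ind_nonneg (P : Prop) : 0 ≤ ind P := by
  by_cases h : P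
  · rw [ind_pos h]; norm_num
  · rw [ind_neg h]
theorem ind_le_one (P : Prop) : ind P ≤ 1 := by
  by_cases h : P
  · rw [ind_pos h]
  · rw [ind_neg h]; norm_num
theorem ind_mono {P Q : Prop} (h : P → Q) : ind P ≤ ind Q := by
  by_cases hp : P
  · rw [ind_pos hp, ind_pos (h hp)]
  · rw [ind_neg hp]; exact ind_nonneg Q
theorem ind_congr {P Q : Prop} (h : P ↔ Q) : ind P = ind Q := by rw [propext h]
theorem ind_and (P Q : Prop) : ind (P ∧ Q) = ind P * ind Q := by
  by_cases hp : P <;> by_cases hq : Q <;> simp [ind_pos, ind_neg, hp, hq]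
theorem ind_not (P : Prop) : ind (¬ P) = 1 - ind P := by
  by_cases hp : P <;> simp [ind_pos, ind_neg, hp]
theorem ind_or_le (P Q : Prop) : ind (P ∨ Q) ≤ ind P + ind Q := by
  by_cases hp : P <;> by_cases hq : Q <;> simp [ind_pos, ind_neg, hp, hq]
theorem ind_forall {α : Type} (s : Finset α) (P : α → Prop) :
    ind (∀ a ∈ s, P a) = ∏ a ∈ s, ind (P a) := by
  by_cases h : ∀ a ∈ s, P a
  · rw [ind_pos h]; exact (prod_eq_one fun a ha => ind_pos (h a ha)).symm
  · rw [ind_neg h]; push Not at h; obtain ⟨a, ha, hn⟩ := h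
    exact (prod_eq_zero ha (ind_neg hn)).symm
theorem ind_exists_le {α : Type} (s : Finset α) (P : α → Prop) :
    ind (∃ a ∈ s, P a) ≤ ∑ a ∈ s, ind (P a) := by
  by_cases h : ∃ a ∈ s, P a
  · rw [ind_pos h]; obtain ⟨a, ha, hp⟩ := h
    calc (1 : ℝ) = ind (P a) := (ind_pos hp).symm
      _ ≤ _ := single_le_sum (f := fun a => ind (P a)) (fun b _ => ind_nonneg _) ha
  · rw [ind_neg h]; exact sum_nonneg fun a _ => ind_nonneg _
theorem card_flt {α : Type} (s : Finset α) (P : α → Prop) :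
    ((flt s P).card : ℝ) = ∑ a ∈ s, ind (P a) := by
  classical
  rw [flt_eq, card_filter]; push_cast
  exact sum_congr rfl fun a _ => (ind_eq _).symm

/-- zero-one value of a bit -/
def bit (b : Bool) : ℝ := if b then 1 else 0
/-- sign of a bit -/
def sg (b : Bool) : ℝ := if b then 1 else -1

@[simp] theorem bit_true : bit true = 1 := rfl
@[simp] theorem bit_false : bit false = 0 := rfl
@[simp] theorem sg_true : sg true = 1 := rfl
@[simp] theorem sg_false : sg false = -1 := rfl
theorem sg_eq (b : Bool) : sg b = 2 * bit b - 1 := by cases b <;> norm_num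
theorem abs_sg (b : Bool) : |sg b| = 1 := by cases b <;> simp
theorem bit_eq_ind (b : Bool) : bit b = ind (b = true) := by
  cases b
  · rw [ind_neg (by simp)]; rfl
  · rw [ind_pos rfl]; rfl

section prob
variable {ι β : Type} [Fintype ι] [DecidableEq ι] [Fintype β]

/-- one probability vector per coordinate -/
def IsP (p : ι → β → ℝ) : Prop := (∀ i c, 0 ≤ p i c) ∧ ∀ i, ∑ c, p i c = 1

/-- expectation under the product of the weights -/
def Ex (p : ι → β → ℝ) (F : (ι → β) → ℝ) : ℝ := ∑ w : ι → β, (∏ i, p i (w i)) * F w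

/-- probability under the product of the weights -/
def Pr (p : ι → β → ℝ) (A : (ι → β) → Prop) : ℝ := Ex p (fun w => ind (A w))

/-- independent coins -/
def bern (σ : ι → ℝ) : ι → Bool → ℝ := fun i b => if b then σ i else 1 - σ i

/-- uniform weights -/
def unif (ι β : Type) [Fintype β] : ι → β → ℝ := fun _ _ => (Fintype.card β : ℝ)⁻¹

/-- the set of coordinates with value true -/
def supp (ξ : ι → Bool) : Finset ι := flt univ (fun i => ξ i = true)

/-- a function that reads only the coordinates in A -/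
def Dep {γ : Type} (F : (ι → β) → γ) (A : Finset ι) : Prop :=
  ∀ w w' : ι → β, (∀ i ∈ A, w i = w' i) → F w = F w'

omit [DecidableEq ι] in
@[simp] theorem mem_supp {ξ : ι → Bool} {i : ι} : i ∈ supp ξ ↔ ξ i = true := by simp [supp]

omit [DecidableEq ι] in
theorem card_supp (ξ : ι → Bool) : ((supp ξ).card : ℝ) = ∑ i, bit (ξ i) := by
  unfold supp; rw [card_flt]; exact sum_congr rfl fun i _ => (bit_eq_ind _).symm

omit [Fintype ι] [DecidableEq ι] in
theorem isP_bern {σ : ι → ℝ} (h0 : ∀ i, 0 ≤ σ i) (h1 : ∀ i, σ i ≤ 1) : IsP (bern σ) := by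
  refine ⟨fun i c => ?_, fun i => ?_⟩
  · cases c
    · simp [bern, h1 i]
    · simp [bern, h0 i]
  · simp [bern]

omit [Fintype ι] [DecidableEq ι] in
theorem isP_unif [Nonempty β] : IsP (unif ι β) := by
  refine ⟨fun i c => by simp [unif], fun i => ?_⟩
  have : (Fintype.card β : ℝ) ≠ 0 := by exact_mod_cast Fintype.card_ne_zero
  simp [unif, this]

omit [Fintype ι] [DecidableEq ι] in
theorem unif_bool : unif ι Bool = bern (fun _ => 1 / 2) := by
  funext i b; cases b <;> simp [unif, bern]; norm_num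

theorem Ex_prod (p : ι → β → ℝ) (φ : ι → β → ℝ) :
    Ex p (fun w => ∏ i, φ i (w i)) = ∏ i, ∑ c, p i c * φ i c := by
  unfold Ex
  rw [Finset.prod_univ_sum]
  simp only [Fintype.piFinset_univ, ← prod_mul_distrib]

theorem Ex_congr (p : ι → β → ℝ) {F G : (ι → β) → ℝ} (h : ∀ w, F w = G w) : Ex p F = Ex p G := by
  rw [funext h]

theorem Ex_add (p : ι → β → ℝ) (F G : (ι → β) → ℝ) :
    Ex p (fun w => F w + G w) = Ex p F + Ex p G := by
  simp only [Ex, mul_add, sum_add_distrib]

theorem Ex_sub (p : ι → β → ℝ) (F G : (ι → β) → ℝ) :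
    Ex p (fun w => F w - G w) = Ex p F - Ex p G := by
  simp only [Ex, mul_sub, sum_sub_distrib]

theorem Ex_const_mul (p : ι → β → ℝ) (c : ℝ) (F : (ι → β) → ℝ) :
    Ex p (fun w => c * F w) = c * Ex p F := by
  simp only [Ex, mul_sum]; exact sum_congr rfl fun w _ => by ring

theorem Ex_mul_const (p : ι → β → ℝ) (c : ℝ) (F : (ι → β) → ℝ) :
    Ex p (fun w => F w * c) = Ex p F * c := by
  simp only [Ex, sum_mul]; exact sum_congr rfl fun w _ => by ring

theorem Ex_sum {α : Type} (p : ι → β → ℝ) (s : Finset α) (F : α → (ι → β) → ℝ) :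
    Ex p (fun w => ∑ a ∈ s, F a w) = ∑ a ∈ s, Ex p (F a) := by
  simp only [Ex, mul_sum]; exact sum_comm

theorem Ex_comm {ι' β' : Type} [Fintype ι'] [DecidableEq ι'] [Fintype β'] (p : ι → β → ℝ)
    (p' : ι' → β' → ℝ) (F : (ι → β) → (ι' → β') → ℝ) :
    Ex p (fun w => Ex p' (fun v => F w v)) = Ex p' (fun v => Ex p (fun w => F w v)) := by
  simp only [Ex, mul_sum]; rw [sum_comm]
  exact sum_congr rfl fun v _ => sum_congr rfl fun w _ => by ring

theorem Ex_const {p : ι → β → ℝ} (hp : IsP p) (c : ℝ) : Ex p (fun _ => c) = c := by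
  have h := Ex_prod p (fun _ _ => (1 : ℝ))
  simp only [prod_const_one, mul_one, hp.2] at h
  have h2 := Ex_const_mul p c (fun _ => 1)
  simpa [h] using h2

theorem Ex_mono {p : ι → β → ℝ} (hp : IsP p) {F G : (ι → β) → ℝ} (h : ∀ w, F w ≤ G w) :
    Ex p F ≤ Ex p G :=
  sum_le_sum fun w _ => mul_le_mul_of_nonneg_left (h w) (prod_nonneg fun i _ => hp.1 i _)

theorem Ex_nonneg {p : ι → β → ℝ} (hp : IsP p) {F : (ι → β) → ℝ} (h : ∀ w, 0 ≤ F w) :
    0 ≤ Ex p F := by
  have := Ex_mono hp (F := fun _ => 0) h; rwa [Ex_const hp] at this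

theorem Ex_le_const {p : ι → β → ℝ} (hp : IsP p) {F : (ι → β) → ℝ} {c : ℝ} (h : ∀ w, F w ≤ c) :
    Ex p F ≤ c := by
  have := Ex_mono hp (G := fun _ => c) h; rwa [Ex_const hp] at this

theorem abs_Ex_le {p : ι → β → ℝ} (hp : IsP p) (F : (ι → β) → ℝ) :
    |Ex p F| ≤ Ex p (fun w => |F w|) := by
  refine abs_le.2 ⟨?_, Ex_mono hp fun w => le_abs_self _⟩
  have := Ex_mono hp (F := fun w => (-1) * |F w|) (G := F) fun w => by
    have := neg_abs_le (F w); linarith
  rw [Ex_const_mul] at this; linarith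

/-- expectation of a function of one coordinate -/
theorem Ex_coord {p : ι → β → ℝ} (hp : IsP p) (i : ι) (φ : β → ℝ) :
    Ex p (fun w => φ (w i)) = ∑ c, p i c * φ c := by
  have h := Ex_prod p (fun j c => if j = i then φ c else 1)
  have e1 : ∀ w : ι → β, (∏ j, if j = i then φ (w j) else 1) = φ (w i) := fun w => by
    rw [Finset.prod_ite_eq']; simp
  have e2 : (∏ j, ∑ c, p j c * (if j = i then φ c else 1)) = ∑ c, p i c * φ c := by
    rw [Finset.prod_eq_single i]
    · simp
    · intro j _ hj; simp [hj, hp.2 j]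
    · simp
  simp only [e1] at h; rw [h, e2]

theorem Ex_bit {σ : ι → ℝ} (h0 : ∀ i, 0 ≤ σ i) (h1 : ∀ i, σ i ≤ 1) (i : ι) :
    Ex (bern σ) (fun w => bit (w i)) = σ i := by
  rw [Ex_coord (isP_bern h0 h1) i bit]; simp [bern]

theorem Pr_nonneg {p : ι → β → ℝ} (hp : IsP p) (A : (ι → β) → Prop) : 0 ≤ Pr p A :=
  Ex_nonneg hp fun _ => ind_nonneg _

theorem Pr_le_one {p : ι → β → ℝ} (hp : IsP p) (A : (ι → β) → Prop) : Pr p A ≤ 1 :=
  Ex_le_const hp fun _ => ind_le_one _

theorem Pr_mono {p : ι → β → ℝ} (hp : IsP p) {A B : (ι → β) → Prop} (h : ∀ w, A w → B w) :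
    Pr p A ≤ Pr p B := Ex_mono hp fun w => ind_mono (h w)

theorem Pr_congr (p : ι → β → ℝ) {A B : (ι → β) → Prop} (h : ∀ w, A w ↔ B w) :
    Pr p A = Pr p B := Ex_congr p fun w => ind_congr (h w)

theorem Pr_not {p : ι → β → ℝ} (hp : IsP p) (A : (ι → β) → Prop) :
    Pr p (fun w => ¬ A w) = 1 - Pr p A := by
  unfold Pr; simp only [ind_not]; rw [Ex_sub, Ex_const hp]

theorem Pr_or_le {p : ι → β → ℝ} (hp : IsP p) (A B : (ι → β) → Prop) :
    Pr p (fun w => A w ∨ B w) ≤ Pr p A + Pr p B := by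
  unfold Pr; rw [← Ex_add]; exact Ex_mono hp fun w => ind_or_le _ _

theorem Pr_exists_le {α : Type} {p : ι → β → ℝ} (hp : IsP p) (s : Finset α)
    (A : α → (ι → β) → Prop) : Pr p (fun w => ∃ a ∈ s, A a w) ≤ ∑ a ∈ s, Pr p (A a) := by
  unfold Pr; rw [← Ex_sum]; exact Ex_mono hp fun w => ind_exists_le s (fun a => A a w)

theorem Pr_false {p : ι → β → ℝ} (hp : IsP p) {A : (ι → β) → Prop} (h : ∀ w, ¬ A w) :
    Pr p A = 0 := by
  unfold Pr; rw [Ex_congr p (G := fun _ => 0) fun w => ind_neg (h w), Ex_const hp]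

theorem Pr_true {p : ι → β → ℝ} (hp : IsP p) {A : (ι → β) → Prop} (h : ∀ w, A w) :
    Pr p A = 1 := by
  unfold Pr; rw [Ex_congr p (G := fun _ => 1) fun w => ind_pos (h w), Ex_const hp]

theorem exists_of_Pr_lt_one {p : ι → β → ℝ} (hp : IsP p) {A : (ι → β) → Prop} (h : Pr p A < 1) :
    ∃ w, ¬ A w := by
  by_contra hc; push Not at hc; rw [Pr_true hp hc] at h; exact lt_irrefl _ h

theorem markov {p : ι → β → ℝ} (hp : IsP p) {F : (ι → β) → ℝ} (h : ∀ w, 0 ≤ F w) {t : ℝ}
    (ht : 0 < t) : Pr p (fun w => t ≤ F w) ≤ Ex p F / t := by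
  rw [div_eq_mul_inv, ← Ex_mul_const]
  refine Ex_mono hp fun w => ?_
  by_cases hw : t ≤ F w
  · rw [ind_pos hw, ← div_eq_mul_inv, le_div_iff₀ ht]; linarith
  · rw [ind_neg hw]; exact mul_nonneg (h w) (inv_nonneg.2 ht.le)

theorem Ex_unif (F : (ι → β) → ℝ) :
    Ex (unif ι β) F = (∑ w, F w) / (Fintype.card (ι → β) : ℝ) := by
  unfold Ex unif
  rw [Fintype.card_fun, sum_div]
  refine sum_congr rfl fun w _ => ?_
  simp only [prod_const, card_univ]; push_cast
  rw [inv_pow, div_eq_mul_inv, mul_comm]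

/-- the uniform measure is invariant under any bijection of function spaces -/
theorem Ex_unif_equiv {ι' β' : Type} [Fintype ι'] [DecidableEq ι'] [Fintype β']
    (e : (ι → β) ≃ (ι' → β')) (F : (ι' → β') → ℝ) :
    Ex (unif ι β) (fun w => F (e w)) = Ex (unif ι' β') F := by
  rw [Ex_unif, Ex_unif, Fintype.card_congr e, Equiv.sum_comp e F]

theorem Pr_unif_equiv {ι' β' : Type} [Fintype ι'] [DecidableEq ι'] [Fintype β']
    (e : (ι → β) ≃ (ι' → β')) (A : (ι' → β') → Prop) :
    Pr (unif ι β) (fun w => A (e w)) = Pr (unif ι' β') A :=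
  Ex_unif_equiv e (fun w => ind (A w))

omit [Fintype ι] [DecidableEq ι] in
/-- the sum over the values of one coordinate, when the values are themselves functions -/
theorem sum_unif_fun {ι' β' : Type} [Fintype ι'] [DecidableEq ι'] [Fintype β'] (i : ι)
    (F : (ι' → β') → ℝ) : ∑ c, unif ι (ι' → β') i c * F c = Ex (unif ι' β') F := by
  rw [Ex_unif, sum_div]; refine sum_congr rfl fun c _ => ?_
  unfold unif; rw [div_eq_mul_inv, mul_comm]

omit [Fintype ι] [DecidableEq ι] [Fintype β] in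
theorem Dep.mono {γ : Type} {F : (ι → β) → γ} {A B : Finset ι} (h : Dep F A) (hAB : A ⊆ B) :
    Dep F B := fun w w' hw => h w w' fun i hi => hw i (hAB hi)

omit [Fintype ι] [DecidableEq ι] [Fintype β] in
theorem Dep.comp {γ δ : Type} {F : (ι → β) → γ} {A : Finset ι} (h : Dep F A) (g : γ → δ) :
    Dep (fun w => g (F w)) A := fun w w' hw => congrArg g (h w w' hw)

end prob

end Pool.Agent.P.MP_b5e666_co.Lar
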