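import Pool.Agent.P.MP_b5e666_co.LA0

set_option autoImplicit false

open Finset

noncomputable section

namespace Pool.Agent.P.MP_b5e666_co.Lar

variable {ι β : Type} [Fintype ι] [DecidableEq ι] [Fintype β]

/-- exchange of the coordinates outside A between two points -/
theorem swap_LA1 (A : Finset ι) (H : (ι → β) → (ι → β) → ℝ) :
    ∑ w : ι → β, ∑ w' : ι → β, H w w' =
      ∑ w : ι → β, ∑ w' : ι → β, H (A.piecewise w w') (A.piecewise w' w) := by
  rw [← Fintype.sum_prod_type', ← Fintype.sum_prod_type']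
  have hinv : Function.Involutive
      (fun x : (ι → β) × (ι → β) => (A.piecewise x.1 x.2, A.piecewise x.2 x.1)) := by
    intro x
    refine Prod.ext ?_ ?_ <;> funext i <;> by_cases hi : i ∈ A <;>
      simp [Finset.piecewise, hi]
  exact (Equiv.sum_comp hinv.toPerm (fun x => H x.1 x.2)).symm

theorem total_LA1 {p : ι → β → ℝ} (hp : IsP p) : ∑ w : ι → β, ∏ i, p i (w i) = 1 := by
  have := Ex_const hp 1
  simpa [Ex] using this

/-- functions of disjoint sets of coordinates are independent -/
theorem Ex_mul_of_disjoint {p : ι → β → ℝ} (hp : IsP p) {F G : (ι → β) → ℝ} {A B : Finset ι}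
    (hF : Dep F A) (hG : Dep G B) (hAB : Disjoint A B) :
    Ex p (fun w => F w * G w) = Ex p F * Ex p G := by
  have e1 : Ex p F * Ex p G = ∑ w : ι → β, ∑ w' : ι → β,
      ((∏ i, p i (w i)) * F w) * ((∏ i, p i (w' i)) * G w') := by
    unfold Ex; rw [sum_mul_sum]
  rw [e1, swap_LA1 A]
  unfold Ex
  refine sum_congr rfl fun w _ => ?_
  have e2 : ∀ w' : ι → β,
      ((∏ i, p i (A.piecewise w w' i)) * F (A.piecewise w w')) *
        ((∏ i, p i (A.piecewise w' w i)) * G (A.piecewise w' w)) =
      ((∏ i, p i (w i)) * (F w * G w)) * ∏ i, p i (w' i) := by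
    intro w'
    have f1 : F (A.piecewise w w') = F w :=
      hF _ _ fun i hi => by simp [Finset.piecewise, hi]
    have f2 : G (A.piecewise w' w) = G w :=
      hG _ _ fun i hi => by
        have : i ∉ A := fun h => (Finset.disjoint_left.1 hAB h) hi
        simp [Finset.piecewise, this]
    have f3 : (∏ i, p i (A.piecewise w w' i)) * (∏ i, p i (A.piecewise w' w i)) =
        (∏ i, p i (w i)) * ∏ i, p i (w' i) := by
      rw [← prod_mul_distrib, ← prod_mul_distrib]
      refine prod_congr rfl fun i _ => ?_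
      by_cases hi : i ∈ A
      · simp [Finset.piecewise, hi]
      · simp [Finset.piecewise, hi, mul_comm]
    rw [f1, f2]
    calc _ = ((∏ i, p i (A.piecewise w w' i)) * (∏ i, p i (A.piecewise w' w i))) *
          (F w * G w) := by ring
      _ = _ := by rw [f3]; ring
  simp only [e2]
  rw [← mul_sum, total_LA1 hp, mul_one]

theorem Ex_prod_of_disjoint {J : Type} {p : ι → β → ℝ} (hp : IsP p) (s : Finset J)
    (A : J → Finset ι) (F : J → (ι → β) → ℝ) (hF : ∀ j ∈ s, Dep (F j) (A j))
    (hA : ∀ j ∈ s, ∀ j' ∈ s, j ≠ j' → Disjoint (A j) (A j')) :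
    Ex p (fun w => ∏ j ∈ s, F j w) = ∏ j ∈ s, Ex p (F j) := by
  classical
  induction s using Finset.induction_on with
  | empty => simp [Ex_const hp]
  | insert a s ha ih =>
    have ih' := ih (fun j hj => hF j (mem_insert_of_mem hj))
      (fun j hj j' hj' => hA j (mem_insert_of_mem hj) j' (mem_insert_of_mem hj'))
    simp only [prod_insert ha]
    rw [← ih']
    refine Ex_mul_of_disjoint hp (A := A a) (B := s.biUnion A) (hF a (mem_insert_self _ _)) ?_ ?_
    · intro w w' hw
      exact prod_congr rfl fun j hj => hF j (mem_insert_of_mem hj) w w'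
        fun i hi => hw i (mem_biUnion.2 ⟨j, hj, hi⟩)
    · rw [Finset.disjoint_biUnion_right]
      intro j hj
      exact hA a (mem_insert_self _ _) j (mem_insert_of_mem hj) (fun h => ha (h ▸ hj))

/-- the expectation of a function of the coordinates in A reads only the weights on A -/
theorem Ex_congr_weights {p p' : ι → β → ℝ} (hp : IsP p) (hp' : IsP p') {F : (ι → β) → ℝ}
    {A : Finset ι} (hF : Dep F A) (h : ∀ i ∈ A, p i = p' i) : Ex p F = Ex p' F := by
  have e1 : Ex p F = ∑ w : ι → β, ∑ w' : ι → β,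
      ((∏ i, p i (w i)) * F w) * (∏ i, p' i (w' i)) := by
    unfold Ex
    refine sum_congr rfl fun w _ => ?_
    rw [← mul_sum, total_LA1 hp', mul_one]
  rw [e1, swap_LA1 A]
  unfold Ex
  refine sum_congr rfl fun w _ => ?_
  have e2 : ∀ w' : ι → β,
      ((∏ i, p i (A.piecewise w w' i)) * F (A.piecewise w w')) *
        (∏ i, p' i (A.piecewise w' w i)) =
      ((∏ i, p' i (w i)) * F w) * ∏ i, p i (w' i) := by
    intro w'
    have f1 : F (A.piecewise w w') = F w :=
      hF _ _ fun i hi => by simp [Finset.piecewise, hi]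
    have f3 : (∏ i, p i (A.piecewise w w' i)) * (∏ i, p' i (A.piecewise w' w i)) =
        (∏ i, p' i (w i)) * ∏ i, p i (w' i) := by
      rw [← prod_mul_distrib, ← prod_mul_distrib]
      refine prod_congr rfl fun i _ => ?_
      by_cases hi : i ∈ A
      · simp [Finset.piecewise, hi, h i hi]
      · simp [Finset.piecewise, hi, mul_comm]
    rw [f1]
    calc _ = ((∏ i, p i (A.piecewise w w' i)) * (∏ i, p' i (A.piecewise w' w i))) * F w := by
          ring
      _ = _ := by rw [f3]; ring
  simp only [e2]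
  rw [← mul_sum, total_LA1 hp, mul_one]

theorem expand_LA1 (G : (ι → β) → ℝ) (ξ : ι → β) :
    G ξ = ∑ x : ι → β, (∏ i, ind (ξ i = x i)) * G x := by
  rw [Finset.sum_eq_single ξ]
  · rw [prod_eq_one fun i _ => ind_pos rfl, one_mul]
  · intro x _ hx
    have : ∃ i, ξ i ≠ x i := by
      by_contra hc
      push Not at hc
      exact hx (funext fun i => (hc i).symm)
    obtain ⟨i, hi⟩ := this
    rw [prod_eq_zero (mem_univ i) (ind_neg hi), zero_mul]
  · simp

theorem Ex_or_LA1 {σ a c : ι → ℝ} (h : ∀ i, 1 - σ i = (1 - a i) * (1 - c i))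
    (G : (ι → Bool) → ℝ) :
    Ex (bern σ) G = Ex (bern a) (fun d => Ex (bern c) (fun e => G (fun i => d i || e i))) := by
  have e1 : Ex (bern σ) G =
      ∑ x : ι → Bool, (∏ i, ∑ b, bern σ i b * ind (b = x i)) * G x := by
    rw [Ex_congr _ (expand_LA1 G), Ex_sum]
    refine sum_congr rfl fun x _ => ?_
    rw [Ex_mul_const, Ex_prod (bern σ) (fun i b => ind (b = x i))]
  have e2 : ∀ d : ι → Bool, Ex (bern c) (fun e => G (fun i => d i || e i)) =
      ∑ x : ι → Bool, (∏ i, ∑ b', bern c i b' * ind ((d i || b') = x i)) * G x := by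
    intro d
    rw [Ex_congr _ (fun e : ι → Bool => expand_LA1 G (fun i => d i || e i)), Ex_sum]
    refine sum_congr rfl fun x _ => ?_
    rw [Ex_mul_const, Ex_prod (bern c) (fun i b' => ind ((d i || b') = x i))]
  rw [e1, Ex_congr _ e2, Ex_sum]
  refine sum_congr rfl fun x _ => ?_
  rw [Ex_mul_const,
    Ex_prod (bern a) (fun i b => ∑ b', bern c i b' * ind ((b || b') = x i))]
  congr 1
  refine prod_congr rfl fun i _ => ?_
  have hi := h i
  cases x i
  · simp [bern, ind_eq]; linarith
  · simp [bern, ind_eq]; linarith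

/-- a random set is the union of two independent random sets -/
theorem Ex_union {σ a c : ι → ℝ} (h : ∀ i, 1 - σ i = (1 - a i) * (1 - c i))
    (F : Finset ι → ℝ) :
    Ex (bern σ) (fun ξ => F (supp ξ)) =
      Ex (bern a) (fun d => Ex (bern c) (fun e => F (supp d ∪ supp e))) := by
  have key := Ex_or_LA1 h (fun ξ => F (supp ξ))
  rw [key]
  refine Ex_congr _ fun d => Ex_congr _ fun e => ?_
  congr 1
  ext i
  simp

/-- biased signs have a product density with respect to fair signs -/
theorem Ex_density (b : ι → ℝ) (F : (ι → Bool) → ℝ) :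
    Ex (bern (fun i => (1 + b i) / 2)) F =
      Ex (unif ι Bool) (fun w => F w * ∏ i, (1 + b i * sg (w i))) := by
  unfold Ex
  refine sum_congr rfl fun w _ => ?_
  beta_reduce
  rw [mul_comm (F w), ← mul_assoc, ← prod_mul_distrib]
  congr 1
  refine prod_congr rfl fun i _ => ?_
  rw [unif_bool]
  cases w i
  · simp [bern]; ring
  · simp [bern]; ring

/-- density bound for an event that reads only T, keeping the factors on T2 -/
theorem Pr_density_le {b : ι → ℝ} {δ : ℝ} (hb : ∀ i, |b i| ≤ δ) (hδ : δ ≤ 1) {T T2 : Finset ι}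
    (hT : T2 ⊆ T) {A : (ι → Bool) → Prop} (hA : Dep A T) :
    Pr (bern (fun i => (1 + b i) / 2)) A ≤
      (1 + δ) ^ (T \ T2).card *
        Ex (unif ι Bool) (fun w => ind (A w) * ∏ i ∈ T2, (1 + b i * sg (w i))) := by
  have hb1 : ∀ i, -1 ≤ b i ∧ b i ≤ 1 := fun i => abs_le.1 ((hb i).trans hδ)
  let b' : ι → ℝ := fun i => if i ∈ T then b i else 0
  have hb' : ∀ i, -1 ≤ b' i ∧ b' i ≤ 1 := fun i => by
    by_cases hi : i ∈ T
    · simpa [b', hi] using hb1 i
    · simp [b', hi]
  have p1 : IsP (bern (fun i => (1 + b i) / 2)) :=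
    isP_bern (fun i => by linarith [(hb1 i).1]) (fun i => by linarith [(hb1 i).2])
  have p2 : IsP (bern (fun i => (1 + b' i) / 2)) :=
    isP_bern (fun i => by linarith [(hb' i).1]) (fun i => by linarith [(hb' i).2])
  unfold Pr
  rw [Ex_congr_weights p1 p2 (hA.comp ind) (fun i hi => by funext c; simp [bern, b', hi]),
    Ex_density, ← Ex_const_mul]
  refine Ex_mono isP_unif fun w => ?_
  have e1 : (∏ i, (1 + b' i * sg (w i))) = ∏ i ∈ T, (1 + b i * sg (w i)) := by
    rw [← prod_subset (subset_univ T)]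
    · exact prod_congr rfl fun i hi => by simp [b', hi]
    · intro i _ hi; simp [b', hi]
  have habs : ∀ i, |b i * sg (w i)| ≤ δ := fun i => by rw [abs_mul, abs_sg, mul_one]; exact hb i
  have h0 : ∀ i, 0 ≤ 1 + b i * sg (w i) := fun i => by
    have := (abs_le.1 (habs i)).1; linarith
  have h1 : ∀ i, 1 + b i * sg (w i) ≤ 1 + δ := fun i => by
    have := (abs_le.1 (habs i)).2; linarith
  have e2 : (∏ i ∈ T \ T2, (1 + b i * sg (w i))) ≤ (1 + δ) ^ (T \ T2).card := by
    rw [← prod_const]
    exact prod_le_prod (fun i _ => h0 i) (fun i _ => h1 i)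
  rw [e1, ← prod_sdiff hT]
  have h2 : 0 ≤ ind (A w) * ∏ i ∈ T2, (1 + b i * sg (w i)) :=
    mul_nonneg (ind_nonneg _) (prod_nonneg fun i _ => h0 i)
  calc _ = (∏ i ∈ T \ T2, (1 + b i * sg (w i))) *
        (ind (A w) * ∏ i ∈ T2, (1 + b i * sg (w i))) := by ring
    _ ≤ _ := mul_le_mul_of_nonneg_right e2 h2

end Pool.Agent.P.MP_b5e666_co.Lar
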