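import Pool.Agent.P.MP_b5e666_co.LA1

set_option autoImplicit false

open Finset

noncomputable section

namespace Pool.Agent.P.MP_b5e666_co.Lar

variable {ι β : Type} [Fintype ι] [DecidableEq ι] [Fintype β]

theorem expo_LA2 {p : ι → β → ℝ} (hp : IsP p) {A : (ι → β) → Prop} (c : ℝ) (Y : (ι → β) → ℝ)
    (h : ∀ w, A w → 0 ≤ c + Y w) {b : ℝ} (hb : Ex p (fun w => Real.exp (Y w)) ≤ Real.exp b) :
    Pr p A ≤ Real.exp (c + b) := by
  have h1 : Pr p A ≤ Ex p (fun w => Real.exp c * Real.exp (Y w)) := by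
    refine Ex_mono hp fun w => ?_
    rw [← Real.exp_add]
    by_cases hw : A w
    · rw [ind_pos hw]; exact Real.one_le_exp (h w hw)
    · rw [ind_neg hw]; exact (Real.exp_pos _).le
  rw [Ex_const_mul] at h1
  rw [Real.exp_add]
  exact h1.trans (mul_le_mul_of_nonneg_left hb (Real.exp_pos _).le)

theorem exp_ind_LA2 (t : ℝ) (P : Prop) : Real.exp (t * ind P) = 1 + (Real.exp t - 1) * ind P := by
  by_cases h : P
  · rw [ind_pos h]; simp
  · rw [ind_neg h]; simp

theorem mgf_cnt_LA2 {p : ι → β → ℝ} (hp : IsP p) (W : Finset ι) (A : ι → β → Prop) (t : ℝ) :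
    Ex p (fun w => Real.exp (t * ((flt W (fun i => A i (w i))).card : ℝ))) ≤
      Real.exp ((Real.exp t - 1) * ∑ i ∈ W, ∑ c, p i c * ind (A i c)) := by
  have e : ∀ w : ι → β, Real.exp (t * ((flt W (fun i => A i (w i))).card : ℝ)) =
      ∏ i, (if i ∈ W then Real.exp (t * ind (A i (w i))) else 1) := by
    intro w
    rw [card_flt, mul_sum, Real.exp_sum, prod_ite_mem, univ_inter]
  rw [Ex_congr p e, Ex_prod p (fun i c => if i ∈ W then Real.exp (t * ind (A i c)) else 1),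
    mul_sum, Real.exp_sum, ← univ_inter W, ← prod_ite_mem, univ_inter]
  refine prod_le_prod (fun i _ => sum_nonneg fun c _ => mul_nonneg (hp.1 i c) ?_) fun i _ => ?_
  · split_ifs
    · exact (Real.exp_pos _).le
    · exact zero_le_one
  · split_ifs
    · simp only [exp_ind_LA2, mul_add, mul_one, sum_add_distrib, hp.2 i, mul_left_comm _
        (Real.exp t - 1), ← mul_sum]
      linarith [Real.add_one_le_exp ((Real.exp t - 1) * ∑ c, p i c * ind (A i c))]
    · simp [hp.2 i]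

theorem mgf_bern {σ t : ι → ℝ} (h0 : ∀ i, 0 ≤ σ i) (h1 : ∀ i, σ i ≤ 1) (ht : ∀ i, |t i| ≤ 1) :
    Ex (bern σ) (fun w => Real.exp (∑ i, t i * (bit (w i) - σ i))) ≤
      Real.exp (∑ i, σ i * t i ^ 2) := by
  simp only [Real.exp_sum]
  rw [Ex_prod (bern σ) (fun i c => Real.exp (t i * (bit c - σ i)))]
  refine prod_le_prod (fun i _ => sum_nonneg fun c _ =>
    mul_nonneg ((isP_bern h0 h1).1 i c) (Real.exp_pos _).le) fun i _ => ?_
  have h2 := (abs_le.1 (Real.abs_exp_sub_one_sub_id_le (ht i))).2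
  have h3 := Real.add_one_le_exp (σ i * (Real.exp (t i) - 1))
  have h4 : ∑ c, bern σ i c * Real.exp (t i * (bit c - σ i)) =
      Real.exp (-(t i * σ i)) * (σ i * (Real.exp (t i) - 1) + 1) := by
    rw [Fintype.sum_bool]
    simp only [bern, bit_true, bit_false, if_true, Bool.false_eq_true, if_false]
    rw [show t i * (1 - σ i) = -(t i * σ i) + t i by ring,
      show t i * (0 - σ i) = -(t i * σ i) by ring, Real.exp_add]
    ring
  rw [h4]
  refine (mul_le_mul_of_nonneg_left h3 (Real.exp_pos _).le).trans ?_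
  rw [← Real.exp_add]
  refine Real.exp_le_exp.2 ?_
  have h5 := mul_le_mul_of_nonneg_left h2 (h0 i)
  linarith

theorem tail_bern {σ c : ι → ℝ} (h0 : ∀ i, 0 ≤ σ i) (h1 : ∀ i, σ i ≤ 1) {t u v : ℝ} (ht : 0 ≤ t)
    (hc : ∀ i, t * |c i| ≤ 1) (hv : ∑ i, σ i * c i ^ 2 ≤ v) :
    Pr (bern σ) (fun w => u ≤ ∑ i, c i * (bit (w i) - σ i)) ≤
      Real.exp (-(t * u) + t ^ 2 * v) := by
  refine expo_LA2 (isP_bern h0 h1) _ (fun w => ∑ i, t * c i * (bit (w i) - σ i))
    (fun w hw => ?_) ((mgf_bern h0 h1 fun i => ?_).trans (Real.exp_le_exp.2 ?_))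
  · have h2 := mul_le_mul_of_nonneg_left hw ht
    rw [mul_sum] at h2
    simp only [mul_assoc]
    linarith
  · rw [abs_mul, abs_of_nonneg ht]; exact hc i
  · have h2 := mul_le_mul_of_nonneg_left hv (sq_nonneg t)
    rw [mul_sum] at h2
    exact le_trans (le_of_eq (sum_congr rfl fun i _ => by ring)) h2

theorem mgf_bern_pos {σ t : ι → ℝ} (h0 : ∀ i, 0 ≤ σ i) (h1 : ∀ i, σ i ≤ 1) (ht0 : ∀ i, 0 ≤ t i)
    (ht : ∀ i, t i ≤ 1) :
    Ex (bern σ) (fun w => Real.exp (∑ i, t i * bit (w i))) ≤ Real.exp (2 * ∑ i, σ i * t i) := by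
  simp only [mul_sum, Real.exp_sum]
  rw [Ex_prod (bern σ) (fun i c => Real.exp (t i * bit c))]
  refine prod_le_prod (fun i _ => sum_nonneg fun c _ =>
    mul_nonneg ((isP_bern h0 h1).1 i c) (Real.exp_pos _).le) fun i _ => ?_
  have h2 := (abs_le.1 (Real.abs_exp_sub_one_sub_id_le
    (show |t i| ≤ 1 by rw [abs_of_nonneg (ht0 i)]; exact ht i))).2
  have h3 := Real.add_one_le_exp (2 * (σ i * t i))
  rw [Fintype.sum_bool]
  simp only [bern, bit_true, bit_false, if_true, Bool.false_eq_true, if_false, mul_one, mul_zero,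
    Real.exp_zero]
  have h4 : Real.exp (t i) - 1 ≤ 2 * t i := by nlinarith [ht0 i, ht i]
  have h5 := mul_le_mul_of_nonneg_left h4 (h0 i)
  linarith

/-- the truncated factor of one group -/
theorem Ex_max_le {σ : ι → ℝ} (h0 : ∀ i, 0 ≤ σ i) (h1 : ∀ i, σ i ≤ 1) (A : Finset ι)
    {e t v : ℝ} (ht : 1 ≤ t) (hte : t * |e| ≤ 1) (hv : ∑ i ∈ A, σ i ≤ v) :
    Ex (bern σ) (fun w => max (1 - e * ∑ i ∈ A, (bit (w i) - σ i)) (1 / 2)) ≤
      1 + Real.exp (-(t / 2) + t ^ 2 * e ^ 2 * v) := by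
  have hp := isP_bern h0 h1
  have h2 : Ex (bern σ) (fun w => max (1 - e * ∑ i ∈ A, (bit (w i) - σ i)) (1 / 2)) ≤
      Ex (bern σ) (fun w => (1 - e * ∑ i ∈ A, (bit (w i) - σ i)) + Real.exp (-(t / 2)) *
        Real.exp (∑ i, (if i ∈ A then t * e else 0) * (bit (w i) - σ i))) := by
    refine Ex_mono hp fun w => ?_
    have e1 : ∑ i, (if i ∈ A then t * e else 0) * (bit (w i) - σ i) =
        t * (e * ∑ i ∈ A, (bit (w i) - σ i)) := by
      simp only [ite_mul, zero_mul, sum_ite_mem, univ_inter, ← mul_sum, mul_assoc]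
    rw [e1, ← Real.exp_add]
    generalize e * ∑ i ∈ A, (bit (w i) - σ i) = z
    have h3 := Real.exp_pos (-(t / 2) + t * z)
    have h4 := Real.add_one_le_exp (-(t / 2) + t * z)
    refine max_le (by linarith) ?_
    rcases le_total z (1 / 2) with h | h
    · linarith
    · nlinarith
  have h3 : Ex (bern σ) (fun w => ∑ i ∈ A, (bit (w i) - σ i)) = 0 := by
    rw [Ex_sum]
    refine sum_eq_zero fun i _ => ?_
    rw [Ex_sub, Ex_bit h0 h1, Ex_const hp, sub_self]
  rw [Ex_add, Ex_sub, Ex_const hp, Ex_const_mul, Ex_const_mul, h3, mul_zero, sub_zero] at h2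
  have h4 := mgf_bern (t := fun i => if i ∈ A then t * e else 0) h0 h1 fun i => by
    split_ifs
    · rw [abs_mul, abs_of_nonneg (by linarith : 0 ≤ t)]; exact hte
    · simp
  have h5 : ∑ i, σ i * (if i ∈ A then t * e else 0) ^ 2 ≤ t ^ 2 * e ^ 2 * v := by
    refine le_trans (le_of_eq ?_) (mul_le_mul_of_nonneg_left hv (by positivity))
    rw [mul_sum, ← univ_inter A, ← sum_ite_mem, univ_inter]
    refine sum_congr rfl fun i _ => ?_
    split_ifs <;> ring
  rw [Real.exp_add]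
  have h6 := mul_le_mul_of_nonneg_left (h4.trans (Real.exp_le_exp.2 h5))
    (Real.exp_pos (-(t / 2))).le
  linarith

theorem chern_up {p : ι → β → ℝ} (hp : IsP p) (W : Finset ι) (A : ι → β → Prop) {π t u : ℝ}
    (hπ : ∀ i ∈ W, ∑ c, p i c * ind (A i c) ≤ π) (ht : 0 ≤ t) :
    Pr p (fun w => u ≤ ((flt W (fun i => A i (w i))).card : ℝ)) ≤
      Real.exp (-(t * u) + (Real.exp t - 1) * π * W.card) := by
  refine expo_LA2 hp _ _ (fun w hw => ?_)
    ((mgf_cnt_LA2 hp W A t).trans (Real.exp_le_exp.2 ?_))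
  · have := mul_le_mul_of_nonneg_left hw ht
    linarith
  · have h1 := sum_le_card_nsmul W _ π hπ
    rw [nsmul_eq_mul] at h1
    have h2 := mul_le_mul_of_nonneg_left h1 (sub_nonneg.2 (Real.one_le_exp ht))
    linarith

theorem chern_lo {p : ι → β → ℝ} (hp : IsP p) (W : Finset ι) (A : ι → β → Prop) {π u : ℝ}
    (hπ : ∀ i ∈ W, π ≤ ∑ c, p i c * ind (A i c)) :
    Pr p (fun w => ((flt W (fun i => A i (w i))).card : ℝ) ≤ u) ≤
      Real.exp (u - 3 / 5 * π * W.card) := by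
  rw [sub_eq_add_neg]
  refine expo_LA2 hp _ _ (fun w hw => ?_)
    ((mgf_cnt_LA2 hp W A (-1)).trans (Real.exp_le_exp.2 ?_))
  · linarith
  · have h1 := card_nsmul_le_sum W _ π hπ
    rw [nsmul_eq_mul] at h1
    have h2 : 0 ≤ ∑ i ∈ W, ∑ c, p i c * ind (A i c) :=
      sum_nonneg fun i _ => sum_nonneg fun c _ => mul_nonneg (hp.1 i c) (ind_nonneg _)
    have h3 : Real.exp (-1) - 1 ≤ -(3 / 5) := by linarith [Real.exp_neg_one_lt_d9]
    have h4 := mul_le_mul_of_nonneg_right h3 h2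
    linarith

theorem chern_groups {J : Type} {p : ι → β → ℝ} (hp : IsP p) (s : Finset J) (A : J → Finset ι)
    (B : J → (ι → β) → Prop) (hB : ∀ j ∈ s, Dep (B j) (A j))
    (hA : ∀ j ∈ s, ∀ j' ∈ s, j ≠ j' → Disjoint (A j) (A j')) {ρ u : ℝ}
    (hρ : ∀ j ∈ s, Pr p (B j) ≤ ρ) :
    Pr p (fun w => u ≤ ((flt s (fun j => B j w)).card : ℝ)) ≤
      Real.exp (-u + 2 * ρ * s.card) := by
  refine expo_LA2 hp _ (fun w => ((flt s (fun j => B j w)).card : ℝ)) (fun w hw => by linarith) ?_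
  have e : ∀ w : ι → β, Real.exp ((flt s (fun j => B j w)).card : ℝ) =
      ∏ j ∈ s, (1 + (Real.exp 1 - 1) * ind (B j w)) := by
    intro w
    rw [card_flt, Real.exp_sum]
    exact prod_congr rfl fun j _ => by rw [← exp_ind_LA2, one_mul]
  have h1 : 0 ≤ Real.exp 1 - 1 := sub_nonneg.2 (Real.one_le_exp zero_le_one)
  have h2 : Real.exp 1 - 1 ≤ 2 := by linarith [Real.exp_one_lt_d9]
  rw [Ex_congr p e, Ex_prod_of_disjoint hp s A (fun j w => 1 + (Real.exp 1 - 1) * ind (B j w))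
    (fun j hj => (hB j hj).comp fun P => 1 + (Real.exp 1 - 1) * ind P) hA,
    mul_comm, Real.exp_nat_mul, ← prod_const]
  refine prod_le_prod (fun j _ => Ex_nonneg hp fun w => ?_) fun j hj => ?_
  · have := mul_nonneg h1 (ind_nonneg (B j w))
    linarith
  · rw [Ex_add, Ex_const hp, Ex_const_mul]
    have h3 := hρ j hj
    have h4 := Pr_nonneg hp (B j)
    have h5 := Real.add_one_le_exp (2 * ρ)
    have h6 := mul_le_mul_of_nonneg_right h2 h4
    unfold Pr at h3 h4 h6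
    linarith

end Pool.Agent.P.MP_b5e666_co.Lar
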