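import Pool.Agent.P.MP_b5e666_co.LA2

set_option autoImplicit false

open Finset

noncomputable section

namespace Pool.Agent.P.MP_b5e666_co.Lar

/-- weighted count of the nonempty subsets -/
theorem sum_pow_card_le {α : Type} [Fintype α] {η : ℝ} (h0 : 0 ≤ η)
    (h1 : (Fintype.card α : ℝ) * η ≤ 1) :
    ∑ V ∈ flt (univ : Finset (Finset α)) (fun V => V.Nonempty), η ^ V.card ≤
      2 * Fintype.card α * η := by
  classical
  have e1 : ∑ V : Finset α, η ^ V.card = (1 + η) ^ Fintype.card α := by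
    have := Finset.prod_one_add (f := fun _ : α => η) (univ : Finset α)
    simp only [prod_const, card_univ, powerset_univ] at this
    exact this.symm
  have e2 : flt (univ : Finset (Finset α)) (fun V => V.Nonempty) = univ.erase ∅ := by
    ext V; simp [nonempty_iff_ne_empty]
  have e3 := Finset.add_sum_erase (univ : Finset (Finset α)) (fun V => η ^ V.card) (mem_univ ∅)
  rw [e2]
  simp only [card_empty, pow_zero] at e3
  have hx0 : 0 ≤ (Fintype.card α : ℝ) * η := by positivity
  have h2 : (1 + η) ^ Fintype.card α ≤ Real.exp ((Fintype.card α : ℝ) * η) := by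
    rw [Real.exp_nat_mul]
    exact pow_le_pow_left₀ (by linarith) (by linarith [Real.add_one_le_exp η]) _
  have h3 := Real.abs_exp_sub_one_sub_id_le (x := (Fintype.card α : ℝ) * η)
    (by rw [abs_of_nonneg hx0]; exact h1)
  have h4 := (abs_le.1 h3).2
  nlinarith

/-- number of small subsets -/
theorem card_small_le (α : Type) [Fintype α] (e : ℕ) :
    (flt (univ : Finset (Finset α)) (fun V => V.card ≤ e)).card ≤ (Fintype.card α + 1) ^ e := by
  classical
  have hc : (Fintype.card α + 1) ^ e = (univ : Finset (Fin e → Option α)).card := by simp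
  rw [hc]
  refine card_le_card_of_surjOn
    (fun f : Fin e → Option α => flt univ (fun a => ∃ i, f i = some a)) ?_
  intro V hV
  have hVe : V.card ≤ e := (mem_flt.1 (mem_coe.1 hV)).2
  refine ⟨fun i => if h : (i : ℕ) < V.card then some (V.equivFin.symm ⟨i, h⟩ : α) else none,
    by simp, ?_⟩
  ext a
  simp only [mem_flt, mem_univ, true_and]
  constructor
  · rintro ⟨i, hi⟩
    split_ifs at hi with h
    rw [← Option.some.inj hi]
    exact (V.equivFin.symm ⟨i, h⟩).2
  · intro ha
    refine ⟨⟨V.equivFin ⟨a, ha⟩, lt_of_lt_of_le (V.equivFin ⟨a, ha⟩).2 hVe⟩, ?_⟩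
    simp

variable {ι : Type} [Fintype ι] [DecidableEq ι]

/-- a hereditary-type process finds a clean subfamily of size L in a random subset of the pool -/
theorem Pr_no_clean (Pl : Finset ι) (Cl : Finset ι → Prop) (L : ℕ) {lam : ℝ} (hlam : 1 ≤ lam)
    (hle : lam ≤ Pl.card) (h0 : Cl ∅)
    (hext : ∀ Ds ⊆ Pl, Cl Ds → Ds.card < L → ∃ Ac ⊆ Pl, Disjoint Ac Ds ∧ Pl.card ≤ 2 * Ac.card ∧
      ∀ y ∈ Ac, Cl (insert y Ds)) :
    Pr (bern (fun y => if y ∈ Pl then lam / Pl.card else 0))
        (fun d => ¬ ∃ Ds ⊆ supp d, Ds ⊆ Pl ∧ Cl Ds ∧ Ds.card = L) ≤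
      L * lam ^ L * Real.exp (-(lam / 2)) := by
  classical
  have hn : (0 : ℝ) < Pl.card := by linarith
  set a : ℝ := lam / Pl.card with ha
  have ha0 : 0 ≤ a := by positivity
  have ha1 : a ≤ 1 := (div_le_one hn).2 hle
  have hal : a * Pl.card = lam := div_mul_cancel₀ _ hn.ne'
  have hP : IsP (bern (fun y => if y ∈ Pl then a else 0)) :=
    isP_bern (fun i => by split_ifs <;> simp [ha0]) (fun i => by split_ifs <;> simp [ha1])
  choose! Ac hAc using hext
  set Fam : Finset (Finset ι) := flt Pl.powerset (fun Ds => Cl Ds ∧ Ds.card < L) with hFam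
  have hF : ∀ Ds ∈ Fam, Ds ⊆ Pl ∧ Cl Ds ∧ Ds.card < L := fun Ds h =>
    ⟨mem_powerset.1 (mem_flt.1 h).1, (mem_flt.1 h).2⟩
  have step1 : ∀ d : ι → Bool, (¬ ∃ Ds ⊆ supp d, Ds ⊆ Pl ∧ Cl Ds ∧ Ds.card = L) →
      ∃ Ds ∈ Fam, (∀ y ∈ Ds, d y = true) ∧ ∀ y ∈ Ac Ds, d y = false := by
    intro d hd
    obtain ⟨Ds, hDs, hmax⟩ := exists_max_image
      (flt Pl.powerset (fun Ds => Ds ⊆ supp d ∧ Cl Ds ∧ Ds.card ≤ L)) card
      ⟨∅, mem_flt.2 ⟨by simp, by simp, h0, by simp⟩⟩
    obtain ⟨h1, h2, h3, h4⟩ := mem_flt.1 hDs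
    have h1' := mem_powerset.1 h1
    have hlt : Ds.card < L := lt_of_le_of_ne h4 fun he => hd ⟨Ds, h2, h1', h3, he⟩
    obtain ⟨g1, g2, -, g4⟩ := hAc Ds h1' h3 hlt
    refine ⟨Ds, mem_flt.2 ⟨h1, h3, hlt⟩, fun y hy => mem_supp.1 (h2 hy), fun y hy => ?_⟩
    by_contra hc
    have hy1 : d y = true := by simpa using hc
    have hy2 : y ∉ Ds := disjoint_left.1 g2 hy
    have hcard := card_insert_of_notMem hy2
    have := hmax (insert y Ds) (mem_flt.2 ⟨mem_powerset.2 (insert_subset (g1 hy) h1'),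
      insert_subset (mem_supp.2 hy1) h2, g4 y hy, by omega⟩)
    omega
  have step2 : ∀ Ds ∈ Fam, Pr (bern (fun y => if y ∈ Pl then a else 0))
      (fun d => (∀ y ∈ Ds, d y = true) ∧ ∀ y ∈ Ac Ds, d y = false) ≤
      a ^ Ds.card * Real.exp (-(lam / 2)) := by
    intro Ds hDs
    obtain ⟨h1, h2, h3⟩ := hF Ds hDs
    obtain ⟨g1, g2, g3, -⟩ := hAc Ds h1 h2 h3
    have e1 := Ex_prod (bern (fun y => if y ∈ Pl then a else 0))
      (fun i c => (if i ∈ Ds then bit c else 1) * (if i ∈ Ac Ds then 1 - bit c else 1))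
    have e2 : ∀ i, ∑ c, bern (fun y => if y ∈ Pl then a else 0) i c *
        ((if i ∈ Ds then bit c else 1) * (if i ∈ Ac Ds then 1 - bit c else 1)) =
        (if i ∈ Ds then a else 1) * (if i ∈ Ac Ds then 1 - a else 1) := by
      intro i
      by_cases hi : i ∈ Ds
      · have hi2 : i ∉ Ac Ds := fun h => disjoint_left.1 g2 h hi
        simp [bern, hi, hi2, h1 hi]
      · by_cases hi2 : i ∈ Ac Ds
        · simp [bern, hi, hi2, g1 hi2]
        · simp [bern, hi, hi2]
    simp only [e2] at e1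
    rw [prod_mul_distrib, Fintype.prod_ite_mem, Fintype.prod_ite_mem, prod_const, prod_const] at e1
    have hb : ∀ c : Bool, 0 ≤ bit c ∧ bit c ≤ 1 := fun c => by cases c <;> simp
    calc _ ≤ a ^ Ds.card * (1 - a) ^ (Ac Ds).card := by
          rw [← e1]
          refine Ex_mono hP fun d => ?_
          by_cases hd : (∀ y ∈ Ds, d y = true) ∧ ∀ y ∈ Ac Ds, d y = false
          · rw [ind_pos hd]
            refine le_of_eq (prod_eq_one fun i _ => ?_).symm
            by_cases hi : i ∈ Ds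
            · have hi2 : i ∉ Ac Ds := fun h => disjoint_left.1 g2 h hi
              simp [hi, hi2, hd.1 i hi]
            · by_cases hi2 : i ∈ Ac Ds
              · simp [hi, hi2, hd.2 i hi2]
              · simp [hi, hi2]
          · rw [ind_neg hd]
            refine prod_nonneg fun i _ => mul_nonneg ?_ ?_
            · split_ifs
              · exact (hb _).1
              · exact zero_le_one
            · split_ifs
              · linarith [(hb (d i)).2]
              · exact zero_le_one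
      _ ≤ a ^ Ds.card * Real.exp (-(lam / 2)) := by
          refine mul_le_mul_of_nonneg_left ?_ (pow_nonneg ha0 _)
          have g3' : (Pl.card : ℝ) ≤ 2 * (Ac Ds).card := by exact_mod_cast g3
          calc (1 - a) ^ (Ac Ds).card ≤ Real.exp (-a) ^ (Ac Ds).card :=
                pow_le_pow_left₀ (by linarith) (by linarith [Real.add_one_le_exp (-a)]) _
            _ = Real.exp (((Ac Ds).card : ℝ) * (-a)) := (Real.exp_nat_mul _ _).symm
            _ ≤ Real.exp (-(lam / 2)) := Real.exp_le_exp.2 (by nlinarith)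
  have step3 : ∑ Ds ∈ Fam, a ^ Ds.card ≤ L * lam ^ L := by
    rw [← sum_fiberwise_of_maps_to (s := Fam) (t := range L) (g := card)
      (fun Ds h => mem_range.2 (hF Ds h).2.2)]
    have : ∀ l ∈ range L, ∑ Ds ∈ Fam with Ds.card = l, a ^ Ds.card ≤ lam ^ L := by
      intro l hl
      have hsub : Fam.filter (fun Ds => Ds.card = l) ⊆ powersetCard l Pl := fun Ds h =>
        mem_powersetCard.2 ⟨(hF Ds (mem_filter.1 h).1).1, (mem_filter.1 h).2⟩
      have hcard : ((Fam.filter (fun Ds => Ds.card = l)).card : ℝ) ≤ (Pl.card : ℝ) ^ l := by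
        have := (card_le_card hsub).trans_eq (card_powersetCard l Pl)
        exact_mod_cast this.trans (Nat.choose_le_pow _ _)
      calc ∑ Ds ∈ Fam with Ds.card = l, a ^ Ds.card = ∑ Ds ∈ Fam with Ds.card = l, a ^ l :=
            sum_congr rfl fun Ds h => by rw [(mem_filter.1 h).2]
        _ = ((Fam.filter (fun Ds => Ds.card = l)).card : ℝ) * a ^ l := by
            rw [sum_const, nsmul_eq_mul]
        _ ≤ (Pl.card : ℝ) ^ l * a ^ l := mul_le_mul_of_nonneg_right hcard (pow_nonneg ha0 _)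
        _ = lam ^ l := by rw [← mul_pow, mul_comm, hal]
        _ ≤ lam ^ L := pow_le_pow_right₀ hlam (mem_range.1 hl).le
    calc _ ≤ ∑ _l ∈ range L, lam ^ L := sum_le_sum this
      _ = L * lam ^ L := by rw [sum_const, card_range, nsmul_eq_mul]
  calc _ ≤ Pr (bern (fun y => if y ∈ Pl then a else 0))
          (fun d => ∃ Ds ∈ Fam, (∀ y ∈ Ds, d y = true) ∧ ∀ y ∈ Ac Ds, d y = false) :=
        Pr_mono hP step1
    _ ≤ _ := Pr_exists_le hP Fam
        (fun Ds d => (∀ y ∈ Ds, d y = true) ∧ ∀ y ∈ Ac Ds, d y = false)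
    _ ≤ ∑ Ds ∈ Fam, a ^ Ds.card * Real.exp (-(lam / 2)) := sum_le_sum step2
    _ = (∑ Ds ∈ Fam, a ^ Ds.card) * Real.exp (-(lam / 2)) := (sum_mul _ _ _).symm
    _ ≤ _ := mul_le_mul_of_nonneg_right step3 (Real.exp_pos _).le

theorem Pr_supp_big (Pl : Finset ι) {lam : ℝ} (hlam : 0 ≤ lam) (hle : lam ≤ Pl.card) (m : ℕ) :
    Pr (bern (fun y => if y ∈ Pl then lam / Pl.card else 0)) (fun d => m < (supp d).card) ≤
      Real.exp (2 * lam - m) := by
  have ha0 : 0 ≤ lam / Pl.card := by positivity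
  have ha1 : lam / Pl.card ≤ 1 := div_le_one_of_le₀ hle (by positivity)
  have h0 : ∀ i, 0 ≤ (if i ∈ Pl then lam / (Pl.card : ℝ) else 0) :=
    fun i => by split_ifs <;> simp [ha0]
  have h1 : ∀ i, (if i ∈ Pl then lam / (Pl.card : ℝ) else 0) ≤ 1 :=
    fun i => by split_ifs <;> simp [ha1]
  have hs : ∑ i, (if i ∈ Pl then lam / (Pl.card : ℝ) else 0) = lam := by
    rw [Fintype.sum_ite_mem, sum_const, nsmul_eq_mul]
    rcases eq_or_ne (Pl.card : ℝ) 0 with h | h
    · rw [h] at hle ⊢
      linarith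
    · exact mul_div_cancel₀ _ h
  have ht := tail_bern (c := fun _ => 1) (t := 1) (u := m - lam) (v := lam) h0 h1 zero_le_one
    (fun _ => by simp) (by simp only [one_pow, mul_one]; exact hs.le)
  refine le_trans (Pr_mono (isP_bern h0 h1) fun d hd => ?_) (ht.trans (le_of_eq ?_))
  · simp only [one_mul]
    rw [sum_sub_distrib, hs, ← card_supp]
    have : (m : ℝ) < (supp d).card := by exact_mod_cast hd
    linarith
  · congr 1
    ring

/-- symmetric difference of a family of sets -/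
def xr {Y : Type} (Z : Y → Finset ι) (U : Finset Y) : Finset ι :=
  flt univ (fun a => Odd (flt U (fun y => a ∈ Z y)).card)

/-- parity constraints on a set of views -/
def par {Y : Type} (Z : Y → Finset ι) (cp : Y → ℕ) (S : Finset Y) (w : ι → Bool) : Prop :=
  ∀ y ∈ S, Even ((flt (Z y) (fun a => w a = false)).card + cp y)

end Pool.Agent.P.MP_b5e666_co.Lar
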