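import Pool.Agent.P.MP_b5e666_co.LA3

set_option autoImplicit false

open Finset

noncomputable section

namespace Pool.Agent.P.MP_b5e666_co.Lar

variable {ι : Type} [Fintype ι] [DecidableEq ι]

omit [Fintype ι] [DecidableEq ι] in
theorem prod_sg_LA4 (A : Finset ι) (w : ι → Bool) :
    ∏ a ∈ A, sg (w a) = (-1 : ℝ) ^ (flt A (fun a => w a = false)).card := by
  rw [flt_eq, ← prod_const, prod_filter]
  refine prod_congr rfl fun a _ => ?_
  cases w a <;> simp

omit [Fintype ι] [DecidableEq ι] in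
theorem two_pow_par_LA4 {Y : Type} (Z : Y → Finset ι) (cp : Y → ℕ) (S : Finset Y) (w : ι → Bool) :
    2 ^ S.card * ind (par Z cp S w) =
      ∏ y ∈ S, (1 + (-1 : ℝ) ^ cp y * ∏ a ∈ Z y, sg (w a)) := by
  unfold par
  rw [ind_forall, ← prod_const, ← prod_mul_distrib]
  refine prod_congr rfl fun y _ => ?_
  rw [prod_sg_LA4, ← pow_add, add_comm (cp y)]
  rcases Nat.even_or_odd ((flt (Z y) (fun a => w a = false)).card + cp y) with h | h
  · rw [ind_pos h, h.neg_one_pow]; norm_num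
  · rw [ind_neg (Nat.not_even_iff_odd.2 h), h.neg_one_pow]; norm_num

theorem prod_xr_LA4 {Y : Type} (Z : Y → Finset ι) (U : Finset Y) (w : ι → Bool) :
    ∏ y ∈ U, ∏ a ∈ Z y, sg (w a) = ∏ a ∈ xr Z U, sg (w a) := by
  classical
  have e1 : ∀ y, ∏ a ∈ Z y, sg (w a) = ∏ a, if a ∈ Z y then sg (w a) else 1 := fun y => by
    rw [← prod_filter]; simp
  simp only [e1]
  rw [prod_comm]
  unfold xr
  rw [flt_eq univ, prod_filter]
  refine prod_congr rfl fun a _ => ?_
  rw [← prod_filter, prod_const, flt_eq U]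
  split_ifs with h
  · cases w a
    · simp [h.neg_one_pow]
    · simp
  · have h' := Nat.not_odd_iff_even.1 h
    cases w a
    · simp [h'.neg_one_pow]
    · simp

theorem Ex_sg_LA4 (b : ι → ℝ) (A : Finset ι) :
    Ex (bern (fun i => (1 + b i) / 2)) (fun w => ∏ a ∈ A, sg (w a)) = ∏ a ∈ A, b a := by
  have h := Ex_prod (bern (fun i => (1 + b i) / 2)) (fun i c => if i ∈ A then sg c else 1)
  have e1 : ∀ w : ι → Bool, (∏ i, if i ∈ A then sg (w i) else 1) = ∏ a ∈ A, sg (w a) := fun w => by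
    rw [← prod_filter]; simp
  simp only [e1] at h
  rw [h]
  have e2 : (∏ a ∈ A, b a) = ∏ i, if i ∈ A then b i else 1 := by
    rw [← prod_filter]; simp
  rw [e2]
  refine prod_congr rfl fun i _ => ?_
  split_ifs
  · simp [bern]; ring
  · simp [bern]

theorem term_LA4 (X T : Finset ι) {b : ι → ℝ} {δ : ℝ} (hb : ∀ i, |b i| ≤ δ) (hδ : δ ≤ 1)
    {F : (ι → Bool) → ℝ} (hF0 : ∀ w, 0 ≤ F w) (hF : Dep F T) :
    |Ex (bern (fun i => (1 + b i) / 2)) (fun w => F w * ∏ a ∈ X, sg (w a))| ≤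
      Ex (bern (fun i => (1 + b i) / 2)) F * δ ^ (X \ T).card := by
  have hp : IsP (bern (fun i => (1 + b i) / 2)) :=
    isP_bern (fun i => by have := (abs_le.1 (hb i)).1; linarith)
      (fun i => by have := (abs_le.1 (hb i)).2; linarith)
  have e1 : ∀ w : ι → Bool, F w * ∏ a ∈ X, sg (w a) =
      (F w * ∏ a ∈ X ∩ T, sg (w a)) * ∏ a ∈ X \ T, sg (w a) := fun w => by
    rw [mul_assoc, prod_inter_mul_prod_sdiff]
  rw [Ex_congr _ e1, Ex_mul_of_disjoint hp (A := T) (B := X \ T) ?_ ?_ disjoint_sdiff, abs_mul,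
    Ex_sg_LA4]
  · refine mul_le_mul ?_ ?_ (abs_nonneg _) (Ex_nonneg hp hF0)
    · refine (abs_Ex_le hp _).trans (le_of_eq (Ex_congr _ fun w => ?_))
      rw [abs_mul, abs_prod, abs_of_nonneg (hF0 w)]
      simp [abs_sg]
    · rw [abs_prod, ← prod_const]
      exact prod_le_prod (fun i _ => abs_nonneg _) fun i _ => hb i
  · intro w w' hw
    show F w * _ = F w' * _
    rw [hF w w' hw]
    congr 1
    exact prod_congr rfl fun a ha => by rw [hw a (mem_inter.1 ha).2]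
  · intro w w' hw
    exact prod_congr rfl fun a ha => by rw [hw a ha]

theorem fourier_LA4 {Y : Type} (Z : Y → Finset ι) (cp : Y → ℕ) (S : Finset Y) (T : Finset ι)
    {b : ι → ℝ} {δ : ℝ} (hb : ∀ i, |b i| ≤ δ) (hδ0 : 0 ≤ δ) (hδ : δ ≤ 1) (l : ℕ)
    (hx : ∀ U ⊆ S, l * U.card ≤ (xr Z U \ T).card) (hS : S.card * δ ^ l ≤ 1 / 4)
    {F : (ι → Bool) → ℝ} (hF0 : ∀ w, 0 ≤ F w) (hF : Dep F T) :
    |2 ^ S.card * Ex (bern (fun i => (1 + b i) / 2)) (fun w => F w * ind (par Z cp S w)) -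
        Ex (bern (fun i => (1 + b i) / 2)) F| ≤ Ex (bern (fun i => (1 + b i) / 2)) F / 2 := by
  classical
  have hp : IsP (bern (fun i => (1 + b i) / 2)) :=
    isP_bern (fun i => by have := (abs_le.1 (hb i)).1; linarith)
      (fun i => by have := (abs_le.1 (hb i)).2; linarith)
  set p := bern (fun i => (1 + b i) / 2) with hpdef
  have hE := Ex_nonneg hp hF0
  set t : Finset Y → ℝ := fun U =>
    (∏ y ∈ U, (-1 : ℝ) ^ cp y) * Ex p (fun w => F w * ∏ a ∈ xr Z U, sg (w a)) with ht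
  have e1 : 2 ^ S.card * Ex p (fun w => F w * ind (par Z cp S w)) = ∑ U ∈ S.powerset, t U := by
    rw [← Ex_const_mul]
    simp only [ht, ← Ex_const_mul]
    rw [← Ex_sum]
    refine Ex_congr _ fun w => ?_
    rw [mul_left_comm, two_pow_par_LA4, prod_one_add, mul_sum]
    refine sum_congr rfl fun U _ => ?_
    rw [prod_mul_distrib, prod_xr_LA4]
    ring
  have e0 : t ∅ = Ex p F := by
    have : xr Z (∅ : Finset Y) = ∅ := by
      ext a; simp [xr, flt_eq]
    simp [ht, this]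
  have hbound : ∀ U ∈ S.powerset, |t U| ≤ Ex p F * (δ ^ l) ^ U.card := by
    intro U hU
    have h1 : |∏ y ∈ U, (-1 : ℝ) ^ cp y| = 1 := by
      rw [abs_prod]; simp
    rw [ht]
    simp only
    rw [abs_mul, h1, one_mul]
    refine (term_LA4 _ T hb hδ hF0 hF).trans (mul_le_mul_of_nonneg_left ?_ hE)
    rw [← pow_mul]
    exact pow_le_pow_of_le_one hδ0 hδ (hx U (mem_powerset.1 hU))
  have hmem : (∅ : Finset Y) ∈ S.powerset := empty_mem_powerset S
  have e2 : ∑ U ∈ S.powerset, (δ ^ l) ^ U.card = (1 + δ ^ l) ^ S.card := by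
    rw [← prod_const, prod_one_add]
    exact sum_congr rfl fun U _ => (prod_const _).symm
  have e3 : (1 + δ ^ l) ^ S.card ≤ 3 / 2 := by
    have h1 : (1 + δ ^ l) ^ S.card ≤ Real.exp (δ ^ l) ^ S.card :=
      pow_le_pow_left₀ (by positivity) (by linarith [Real.add_one_le_exp (δ ^ l)]) _
    rw [← Real.exp_nat_mul] at h1
    have h2 := Real.exp_le_exp.2 hS
    have h3 := (abs_le.1 (Real.abs_exp_sub_one_sub_id_le (x := 1 / 4) (by norm_num [abs_le]))).2
    linarith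
  rw [e1, ← add_sum_erase _ _ hmem, e0, add_sub_cancel_left]
  rw [← add_sum_erase _ _ hmem, card_empty, pow_zero] at e2
  calc |∑ U ∈ S.powerset.erase ∅, t U| ≤ ∑ U ∈ S.powerset.erase ∅, |t U| := abs_sum_le_sum_abs _ _
    _ ≤ ∑ U ∈ S.powerset.erase ∅, Ex p F * (δ ^ l) ^ U.card :=
        sum_le_sum fun U hU => hbound U (mem_of_mem_erase hU)
    _ = Ex p F * ((1 + δ ^ l) ^ S.card - 1) := by rw [← mul_sum, ← e2]; ring
    _ ≤ Ex p F * (1 / 2) := mul_le_mul_of_nonneg_left (by linarith) hE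
    _ = Ex p F / 2 := by ring

/-- conditioning on many parity constraints barely changes what is seen on T -/
theorem fourier {Y : Type} (Z : Y → Finset ι) (cp : Y → ℕ) (S : Finset Y) (T : Finset ι)
    {b : ι → ℝ} {δ : ℝ} (hb : ∀ i, |b i| ≤ δ) (hδ : δ ≤ 1) (l : ℕ)
    (hx : ∀ U ⊆ S, l * U.card ≤ (xr Z U \ T).card) (hS : S.card * δ ^ l ≤ 1 / 4)
    {F : (ι → Bool) → ℝ} (hF0 : ∀ w, 0 ≤ F w) (hF : Dep F T) :
    |2 ^ S.card * Ex (bern (fun i => (1 + b i) / 2)) (fun w => F w * ind (par Z cp S w)) -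
        Ex (bern (fun i => (1 + b i) / 2)) F| ≤ Ex (bern (fun i => (1 + b i) / 2)) F / 2 := by
  refine fourier_LA4 Z cp S T (δ := max δ 0) (fun i => (hb i).trans (le_max_left _ _))
    (le_max_right _ _) (max_le hδ zero_le_one) l hx ?_ hF0 hF
  rcases le_total 0 δ with h | h
  · rwa [max_eq_left h]
  · rw [max_eq_right h]
    rcases Nat.eq_zero_or_pos l with hl | hl
    · rw [hl, pow_zero] at hS ⊢; exact hS
    · rw [zero_pow hl.ne']; norm_num

end Pool.Agent.P.MP_b5e666_co.Lar
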