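import Pool.Agent.P.MP_b5e666_co.LA0

set_option autoImplicit false

open Finset

noncomputable section

namespace Pool.Agent.P.MP_b5e666_co.Lar

theorem low_in_LB1 {α : Type} (X : Finset α) (hX : X.Nonempty) (R : α → α → Prop) (d : ℕ)
    (h : ∀ x ∈ X, (flt X (fun y => R x y)).card ≤ d) :
    ∃ v ∈ X, (flt X (fun x => R x v)).card ≤ d := by
  have h1 : ∑ v ∈ X, ((flt X (fun x => R x v)).card : ℝ) ≤ ∑ _v ∈ X, (d : ℝ) := by
    simp only [card_flt]
    rw [sum_comm]
    refine sum_le_sum fun x hx => ?_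
    rw [← card_flt]
    exact_mod_cast h x hx
  obtain ⟨v, hv, hd⟩ := exists_le_of_sum_le hX h1
  exact ⟨v, hv, by exact_mod_cast hd⟩

/-- a digraph of out-degree at most d has a proper colouring with 2d+1 colours -/
theorem colour_digraph {α : Type} (X : Finset α) (R : α → α → Prop) (d : ℕ)
    (h : ∀ x ∈ X, (flt X (fun y => R x y)).card ≤ d) :
    ∃ c : α → Fin (2 * d + 1), ∀ x ∈ X, ∀ y ∈ X, x ≠ y → R x y → c x ≠ c y := by
  classical
  induction X using Finset.strongInduction with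
  | H X ih =>
    rcases X.eq_empty_or_nonempty with rfl | hX
    · exact ⟨fun _ => 0, by simp⟩
    obtain ⟨v, hv, hd⟩ := low_in_LB1 X hX R d h
    obtain ⟨c, hc⟩ := ih (X.erase v) (erase_ssubset hv) fun x hx =>
      (card_le_card (flt_mono fun a ha hr => ⟨mem_of_mem_erase ha, hr⟩)).trans
        (h x (mem_of_mem_erase hx))
    have hlt : ((flt X (fun y => R v y) ∪ flt X (fun x => R x v)).image c).card <
        (univ : Finset (Fin (2 * d + 1))).card := by
      have h1 := card_image_le (s := flt X (fun y => R v y) ∪ flt X (fun x => R x v)) (f := c)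
      have h2 := card_union_le (flt X (fun y => R v y)) (flt X (fun x => R x v))
      have h3 := h v hv
      rw [card_univ, Fintype.card_fin]
      omega
    obtain ⟨k, -, hk⟩ := exists_mem_notMem_of_card_lt_card hlt
    refine ⟨Function.update c v k, fun x hx y hy hxy hr => ?_⟩
    by_cases h1 : x = v
    · subst h1
      rw [Function.update_self, Function.update_of_ne (Ne.symm hxy)]
      rintro rfl
      exact hk (mem_image_of_mem c (mem_union_left _ (mem_flt.2 ⟨hy, hr⟩)))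
    by_cases h2 : y = v
    · subst h2
      rw [Function.update_self, Function.update_of_ne hxy]
      rintro rfl
      exact hk (mem_image_of_mem c (mem_union_right _ (mem_flt.2 ⟨hx, hr⟩)))
    rw [Function.update_of_ne h1, Function.update_of_ne h2]
    exact hc x (mem_erase.2 ⟨h1, hx⟩) y (mem_erase.2 ⟨h2, hy⟩) hxy hr

theorem indep_of_outdeg {α : Type} (X : Finset α) (R : α → α → Prop) (d : ℕ)
    (h : ∀ x ∈ X, (flt X (fun y => R x y)).card ≤ d) :
    ∃ X1 ⊆ X, X.card ≤ (2 * d + 1) * X1.card ∧ ∀ x ∈ X1, ∀ y ∈ X1, x ≠ y → ¬ R x y := by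
  classical
  obtain ⟨c, hc⟩ := colour_digraph X R d h
  obtain ⟨k, -, hk⟩ := exists_max_image (univ : Finset (Fin (2 * d + 1)))
    (fun k => (X.filter fun x => c x = k).card) univ_nonempty
  refine ⟨X.filter fun x => c x = k, filter_subset _ _, ?_, fun x hx y hy hxy hr => ?_⟩
  · rw [card_eq_sum_card_fiberwise (s := X) (t := univ) (f := c) (fun _ _ => mem_univ _)]
    refine (sum_le_card_nsmul _ _ _ fun j hj => hk j hj).trans ?_
    rw [card_univ, Fintype.card_fin, smul_eq_mul]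
  · rw [mem_filter] at hx hy
    exact hc x hx.1 y hy.1 hxy hr (hx.2.trans hy.2.symm)

/-- greedy removal of popular points -/
theorem greedy {Y Pt : Type} (X : Finset Y) (A : Y → Finset Pt) (Pa : Finset Pt) {κ : ℝ}
    (hκ : 0 < κ) (s : ℕ) (hs : (X.card : ℝ) < Real.exp (κ * s)) :
    ∃ Cov ⊆ Pa, Cov.card ≤ s ∧ ∀ p ∈ Pa,
      ((flt X (fun y => (∀ c ∈ Cov, c ∉ A y) ∧ p ∈ A y)).card : ℝ) ≤
        κ * (flt X (fun y => ∀ c ∈ Cov, c ∉ A y)).card := by
  classical
  have key : ∀ m : ℕ, ∃ Cov ⊆ Pa, Cov.card ≤ m ∧ ((∀ p ∈ Pa,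
      ((flt X (fun y => (∀ c ∈ Cov, c ∉ A y) ∧ p ∈ A y)).card : ℝ) ≤
        κ * (flt X (fun y => ∀ c ∈ Cov, c ∉ A y)).card) ∨
      ((flt X (fun y => ∀ c ∈ Cov, c ∉ A y)).card : ℝ) * Real.exp (κ * m) ≤ X.card) := by
    intro m
    induction m with
    | zero =>
      refine ⟨∅, empty_subset _, le_rfl, Or.inr ?_⟩
      rw [Nat.cast_zero, mul_zero, Real.exp_zero, mul_one]
      exact_mod_cast card_flt_le _ _
    | succ m ih =>
      obtain ⟨Cov, h1, h2, h3⟩ := ih
      by_cases hc : ∀ p ∈ Pa,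
        ((flt X (fun y => (∀ c ∈ Cov, c ∉ A y) ∧ p ∈ A y)).card : ℝ) ≤
          κ * (flt X (fun y => ∀ c ∈ Cov, c ∉ A y)).card
      · exact ⟨Cov, h1, by omega, Or.inl hc⟩
      have h4 := h3.resolve_left hc
      push Not at hc
      obtain ⟨p, hp, hlt⟩ := hc
      refine ⟨insert p Cov, insert_subset hp h1, (card_insert_le _ _).trans (by omega), Or.inr ?_⟩
      have e : ((flt X (fun y => ∀ c ∈ insert p Cov, c ∉ A y)).card : ℝ) +
          (flt X (fun y => (∀ c ∈ Cov, c ∉ A y) ∧ p ∈ A y)).card =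
          (flt X (fun y => ∀ c ∈ Cov, c ∉ A y)).card := by
        simp only [card_flt]
        rw [← sum_add_distrib]
        refine sum_congr rfl fun y _ => ?_
        rw [ind_congr (forall_mem_insert p Cov (fun c => c ∉ A y)), ind_and, ind_and, ind_not]
        ring
      have hr : (0 : ℝ) ≤ (flt X (fun y => ∀ c ∈ Cov, c ∉ A y)).card := Nat.cast_nonneg _
      have h5 : ((flt X (fun y => ∀ c ∈ insert p Cov, c ∉ A y)).card : ℝ) ≤
          Real.exp (-κ) * (flt X (fun y => ∀ c ∈ Cov, c ∉ A y)).card := by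
        have := mul_le_mul_of_nonneg_right (Real.add_one_le_exp (-κ)) hr
        linarith
      refine (mul_le_mul_of_nonneg_right h5 (Real.exp_pos _).le).trans (le_of_eq_of_le ?_ h4)
      have : Real.exp (κ * m) = Real.exp (-κ) * Real.exp (κ * ((m + 1 : ℕ) : ℝ)) := by
        rw [← Real.exp_add]; push_cast; ring_nf
      rw [this]; ring
  obtain ⟨Cov, h1, h2, h3 | h3⟩ := key s
  · exact ⟨Cov, h1, h2, h3⟩
  refine ⟨Cov, h1, h2, fun p _ => ?_⟩
  have h4 : ((flt X (fun y => ∀ c ∈ Cov, c ∉ A y)).card : ℝ) < 1 := by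
    have := h3.trans_lt hs
    rwa [mul_lt_iff_lt_one_left (Real.exp_pos _)] at this
  have h5 : (flt X (fun y => ∀ c ∈ Cov, c ∉ A y)).card = 0 := by
    have : (flt X (fun y => ∀ c ∈ Cov, c ∉ A y)).card < 1 := by exact_mod_cast h4
    omega
  have h6 : (flt X (fun y => (∀ c ∈ Cov, c ∉ A y) ∧ p ∈ A y)).card ≤
      (flt X (fun y => ∀ c ∈ Cov, c ∉ A y)).card :=
    card_le_card (flt_mono fun a ha hr => ⟨ha, hr.1⟩)
  rw [h5] at h6 ⊢
  rw [Nat.le_zero.1 h6]
  simp

end Pool.Agent.P.MP_b5e666_co.Lar
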