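import Pool.Agent.P.MP_b5e666_co.LA0

set_option autoImplicit false

open Finset

noncomputable section

namespace Pool.Agent.P.MP_b5e666_co.Lar

variable {Y Pt : Type} [Fintype Y] [DecidableEq Pt]

/-- union bound for counting -/
theorem union_bound_LB2 {κ : Type} (S : Finset κ) (P : κ → Y → Prop) (R : Y → Prop) {β : ℝ}
    (hP : ∀ k ∈ S, ((flt univ (P k)).card : ℝ) ≤ β) (hR : ∀ y, R y → ∃ k ∈ S, P k y) :
    ((flt univ R).card : ℝ) ≤ S.card * β := by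
  rw [card_flt]
  calc ∑ y, ind (R y) ≤ ∑ y, ∑ k ∈ S, ind (P k y) :=
        sum_le_sum fun y _ => (ind_mono (hR y)).trans (ind_exists_le S fun k => P k y)
    _ = ∑ k ∈ S, ∑ y, ind (P k y) := sum_comm
    _ ≤ ∑ _k ∈ S, β := sum_le_sum fun k hk => by rw [← card_flt]; exact hP k hk
    _ = S.card * β := by rw [sum_const, nsmul_eq_mul]

theorem card_powersetCard_le_LB2 {κ : Type} (Q : Finset κ) (j : ℕ) {m : ℕ} (hQ : Q.card ≤ m) :
    ((Q.powersetCard j).card : ℝ) ≤ (m : ℝ) ^ j := by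
  rw [card_powersetCard]
  exact_mod_cast (Nat.choose_le_pow _ _).trans (Nat.pow_le_pow_left hQ j)

/-- few sets contain j points of a small set -/
theorem count_j (A : Y → Finset Pt) (j : ℕ) {β : ℝ}
    (h : ∀ Q : Finset Pt, Q.card = j → ((flt univ (fun y => Q ⊆ A y)).card : ℝ) ≤ β)
    (hβ : 0 ≤ β) (Q : Finset Pt) {m : ℕ} (hQ : Q.card ≤ m) :
    ((flt univ (fun y => j ≤ (A y ∩ Q).card)).card : ℝ) ≤ (m : ℝ) ^ j * β := by
  refine (union_bound_LB2 (Q.powersetCard j) (fun K y => K ⊆ A y) _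
    (fun K hK => h K (mem_powersetCard.1 hK).2) fun y hy => ?_).trans
    (mul_le_mul_of_nonneg_right (card_powersetCard_le_LB2 Q j hQ) hβ)
  obtain ⟨K, hK, hc⟩ := exists_subset_card_eq hy
  exact ⟨K, mem_powersetCard.2 ⟨hK.trans inter_subset_right, hc⟩, hK.trans inter_subset_left⟩

/-- the ends of a set of edges -/
def ends_LB2 (M : Finset (Pt × Pt)) : Finset Pt := M.biUnion fun e => {e.1, e.2}

theorem exists_match_LB2 (B : Finset Pt) (j : ℕ) (Hs : Finset (Pt × Pt))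
    (hH : ∀ e ∈ Hs, e.1 ≠ e.2)
    (hn : ¬ ∃ T0 : Finset Pt, T0.card ≤ 2 * j ∧
      ∀ e ∈ Hs, e.1 ∈ B → e.2 ∈ B → e.1 ∈ T0 ∨ e.2 ∈ T0) (r : ℕ) (hr : r ≤ j) :
    ∃ M : Finset (Pt × Pt), M ⊆ Hs ∧ M.card = r ∧ (ends_LB2 M).card = 2 * r ∧ ends_LB2 M ⊆ B := by
  induction r with
  | zero => exact ⟨∅, by simp, by simp, by simp [ends_LB2], by simp [ends_LB2]⟩
  | succ r ih =>
    obtain ⟨M, hM, hc, he, hB⟩ := ih (by omega)
    have hex : ∃ e ∈ Hs, e.1 ∈ B ∧ e.2 ∈ B ∧ e.1 ∉ ends_LB2 M ∧ e.2 ∉ ends_LB2 M := by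
      by_contra hcon
      refine hn ⟨ends_LB2 M, by omega, fun e he1 h1 h2 => ?_⟩
      by_contra h3
      rw [not_or] at h3
      exact hcon ⟨e, he1, h1, h2, h3.1, h3.2⟩
    obtain ⟨e, heH, h1, h2, h3, h4⟩ := hex
    have heM : e ∉ M := fun hm => h3 (mem_biUnion.2 ⟨e, hm, by simp⟩)
    have hends : ends_LB2 (insert e M) = insert e.1 (insert e.2 (ends_LB2 M)) := by
      unfold ends_LB2
      rw [biUnion_insert, insert_union, singleton_union]
    refine ⟨insert e M, insert_subset heH hM, by rw [card_insert_of_notMem heM, hc], ?_, ?_⟩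
    · rw [hends, card_insert_of_notMem, card_insert_of_notMem h4, he]
      · ring
      · rw [mem_insert, not_or]
        exact ⟨hH e heH, h3⟩
    · rw [hends]
      exact insert_subset h1 (insert_subset h2 hB)

/-- few sets contain a matching of size j of a sparse graph -/
theorem count_match (A : Y → Finset Pt) (j : ℕ) {β : ℝ}
    (h : ∀ Q : Finset Pt, Q.card = 2 * j → ((flt univ (fun y => Q ⊆ A y)).card : ℝ) ≤ β)
    (hβ : 0 ≤ β) (Hs : Finset (Pt × Pt)) (hH : ∀ e ∈ Hs, e.1 ≠ e.2) {m : ℕ} (hm : Hs.card ≤ m) :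
    ((flt univ (fun y => ¬ ∃ T0 : Finset Pt, T0.card ≤ 2 * j ∧
        ∀ e ∈ Hs, e.1 ∈ A y → e.2 ∈ A y → e.1 ∈ T0 ∨ e.2 ∈ T0)).card : ℝ) ≤ (m : ℝ) ^ j * β := by
  refine (union_bound_LB2 (flt (Hs.powersetCard j) fun M => (ends_LB2 M).card = 2 * j)
    (fun M y => ends_LB2 M ⊆ A y) _ (fun M hM => h _ (mem_flt.1 hM).2) fun y hy => ?_).trans
    (mul_le_mul_of_nonneg_right ?_ hβ)
  · obtain ⟨M, hM, hc, he, hB⟩ := exists_match_LB2 (A y) j Hs hH hy j le_rfl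
    exact ⟨M, mem_flt.2 ⟨mem_powersetCard.2 ⟨hM, hc⟩, he⟩, hB⟩
  · exact le_trans (by exact_mod_cast card_flt_le _ _) (card_powersetCard_le_LB2 Hs j hm)

/-- weighted incidences with a small set -/
theorem sum_inter_le (A : Y → Finset Pt) (σ : Y → ℝ) (j : ℕ) {smax D b : ℝ}
    (h0 : ∀ y, 0 ≤ σ y) (h1 : ∀ y, σ y ≤ smax) (hD : ∑ y, σ y ≤ D) (Q : Finset Pt)
    (hb : ((flt univ (fun y => j ≤ (A y ∩ Q).card)).card : ℝ) ≤ b) (hs : 0 ≤ smax) :
    ∑ p ∈ Q, ∑ y, σ y * ind (p ∈ A y) ≤ j * D + Q.card * smax * b := by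
  have e1 : ∀ y, ∑ p ∈ Q, σ y * ind (p ∈ A y) = σ y * ((A y ∩ Q).card : ℝ) := by
    intro y
    rw [← mul_sum, ← card_flt]
    congr 3
    ext p
    simp [and_comm]
  have e2 : ∀ y, σ y * ((A y ∩ Q).card : ℝ) ≤
      j * σ y + Q.card * smax * ind (j ≤ (A y ∩ Q).card) := by
    intro y
    have a0 := h0 y
    by_cases hj : j ≤ (A y ∩ Q).card
    · rw [ind_pos hj, mul_one]
      have a1 : ((A y ∩ Q).card : ℝ) ≤ Q.card := by exact_mod_cast card_le_card inter_subset_right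
      have a2 : σ y * ((A y ∩ Q).card : ℝ) ≤ smax * Q.card :=
        mul_le_mul (h1 y) a1 (Nat.cast_nonneg _) hs
      have a3 : (0 : ℝ) ≤ j * σ y := mul_nonneg (Nat.cast_nonneg _) a0
      linarith
    · rw [ind_neg hj, mul_zero, add_zero, mul_comm]
      have a1 : ((A y ∩ Q).card : ℝ) ≤ j := by exact_mod_cast (not_le.1 hj).le
      exact mul_le_mul_of_nonneg_right a1 a0
  rw [sum_comm, sum_congr rfl fun y _ => e1 y]
  refine (sum_le_sum fun y _ => e2 y).trans ?_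
  rw [sum_add_distrib, ← mul_sum, ← mul_sum, ← card_flt]
  exact add_le_add (mul_le_mul_of_nonneg_left hD (Nat.cast_nonneg _))
    (mul_le_mul_of_nonneg_left hb (mul_nonneg (Nat.cast_nonneg _) hs))

omit [Fintype Y] in
theorem card_markov_LB2 (X : Finset Y) (F : Y → ℕ) (t : ℕ) {c : ℝ} (ht : 0 < t)
    (h : (∑ y ∈ X, (F y : ℝ)) ≤ t * c) : ((flt X (fun y => t < F y)).card : ℝ) ≤ c := by
  have ht' : (0 : ℝ) < t := by exact_mod_cast ht
  refine le_of_mul_le_mul_left (le_trans ?_ h) ht'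
  rw [card_flt, mul_sum]
  refine sum_le_sum fun y _ => ?_
  by_cases hy : t < F y
  · rw [ind_pos hy, mul_one]; exact_mod_cast hy.le
  · rw [ind_neg hy, mul_zero]; exact Nat.cast_nonneg _

/-- Markov for counting -/
theorem card_markov (X : Finset Y) (F : Y → ℕ) (t : ℕ) {c : ℝ} (ht : 0 < t)
    (h : (∑ y ∈ X, (F y : ℝ)) ≤ t * c) : ((flt X (fun y => t < F y)).card : ℝ) ≤ c :=
  card_markov_LB2 X F t ht h

end Pool.Agent.P.MP_b5e666_co.Lar
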