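import Pool.Agent.P.MP_b5e666_co.LA0

set_option autoImplicit false

open Finset

noncomputable section

namespace Pool.Agent.P.MP_b5e666_co.Lar

/-- all numerical parameters -/
structure Par where
  (N k q i G j L Mr c1 c2 lam2 s iu nu ml mu du lx l l2 z0 z1 z2 z3 z4 J g e0 mu0 mu1 R : ℕ)
  (eps del lam V Del th smax be1 be2 be3 : ℝ)

namespace Par
variable (P : Par)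
/-- number of points and colours -/
def n : ℕ := 2 * P.k * P.q
/-- number of nodes of a tree -/
def s2 : ℕ := 13 * P.s ^ 2
/-- bound on the number of universes through m cells -/
def bq (m : ℕ) : ℝ := 6 * P.N / (P.q : ℝ) ^ m
def b2 : ℝ := (P.z2 : ℝ) ^ P.j * P.bq P.j
def b3 : ℝ := (P.z3 : ℝ) ^ P.j * P.bq P.j
def b4 : ℝ := ((P.k * P.g : ℕ) : ℝ) ^ P.j * P.bq (2 * P.j)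
/-- mass of the survivors of one target -/
def kb : ℝ := 3 / 2 * (Real.exp (2 * P.lam - P.lam2) + P.L * P.lam ^ P.L * Real.exp (-(P.lam / 2)) +
  Real.exp 2 * ((1 + P.del) ^ (3 * P.j) / 2) ^ P.L)

/-- all numerical side conditions -/
structure Ok : Prop where
  hN : 1 ≤ P.N
  hq : 2 ≤ P.q
  hi : 1 ≤ P.i
  hk : P.k = P.i * P.q
  hG : 1 ≤ P.G
  hj : 2 ≤ P.j
  hL : 1 ≤ P.L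
  hMr : 1 ≤ P.Mr
  hc1 : 1 ≤ P.c1
  hc2 : 1 ≤ P.c2
  hs : 1 ≤ P.s
  hiu : 1 ≤ P.iu
  hnu : 1 ≤ P.nu
  hmu : 1 ≤ P.mu
  hdu : 1 ≤ P.du
  hlx : 3 ≤ P.lx
  hz0 : 1 ≤ P.z0
  hz1 : 1 ≤ P.z1
  hz3 : 1 ≤ P.z3
  hz4 : 1 ≤ P.z4
  hmu0 : 1 ≤ P.mu0
  hmu1 : P.mu0 ≤ P.mu1
  hR : 1 ≤ P.R
  heps : 0 < P.eps
  heps4 : P.eps ≤ 1 / 4
  hdel : 2 * P.eps ≤ P.del
  hdel1 : P.del ≤ 1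
  hlam : 1 ≤ P.lam
  hV : 0 < P.V
  hDel : 0 < P.Del
  hth : 0 < P.th
  hsmax0 : 0 ≤ P.smax
  hsmax : P.smax ≤ 1 / 2
  hbe1 : 0 ≤ P.be1
  hbe1' : P.be1 ≤ 1
  hbe2 : 0 ≤ P.be2
  hbe2' : P.be2 * P.c1 ≤ 1
  hbe3 : 1 ≤ P.be3
  hbe3' : P.be3 * P.eps ≤ 1
  f1 : (P.N : ℝ) ^ 2 * Real.exp (-(P.iu : ℝ) + 2 * P.i) ≤ 1 / 10
  f1' : (P.N : ℝ) ^ 2 * Real.exp (-((P.i : ℝ) / 10)) ≤ 1 / 10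
  f2a : P.k ≤ P.q ^ 2
  f2 : (P.N : ℝ) ^ 3 * Real.exp 1 * ((P.k : ℝ) / (P.q : ℝ) ^ 2) ^ P.c1 ≤ 1 / 10
  f3 : ((P.k : ℝ) * P.q + 1) ^ (2 * P.j) * Real.exp (-(3 * P.N / (P.q : ℝ) ^ (2 * P.j))) ≤ 1 / 10
  f4a : P.z4 ^ 2 ≤ P.q
  f4 : 20 * (P.N : ℝ) * P.k * ((P.z4 : ℝ) ^ 2 / P.q) ^ P.c2 ≤ 1
  f9 : 20 * (P.N : ℝ) ^ 2 * Real.exp (P.l2 - 3 / 5 * ((P.k : ℝ) / (P.q + P.du))) ≤ 1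
  g6 : 20 * (P.N : ℝ) ^ 2 * Real.exp (P.lx - 3 / 10 * (P.l2 : ℝ)) ≤ 1
  g7 : (P.N : ℝ) ^ P.Mr * ((P.k : ℝ) + 1) ^ 4 *
    Real.exp (-(3 / 20 * ((P.Mr.choose 2 : ℕ) : ℝ))) ≤ 1 / 10
  h5 : (P.N : ℝ) ^ 2 * (Real.exp (P.ml - 3 / 10 * ((P.i : ℝ) / P.G)) +
    Real.exp (-(P.mu : ℝ) + 2 * ((P.iu : ℝ) / P.G))) ≤ 1 / 10
  h8a : 2 * P.c2 ≤ P.nu
  h8b : 4 * P.c2 * P.z1 ≤ P.nu * P.J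
  h8c : 2 * P.z1 ≤ P.z4
  h8d : P.J + 1 ≤ P.z4
  h8e : 2 * (P.c2 : ℝ) * P.J / P.G + 4 * (P.c2 : ℝ) ^ 2 * P.z1 / (P.G : ℝ) ^ 2 ≤ P.nu / 40
  h8f : (2 * (P.J : ℝ) + 1) * (((P.k : ℝ) * P.q) ^ 2 + 1) ^ P.e0 *
    Real.exp (-(P.N / (20 * (2 * (P.J : ℝ) + 1)))) ≤ 1 / 10
  t1 : (P.N : ℝ) < Real.exp (P.s / (64 * (P.Mr : ℝ) * P.j))
  t2 : 128 * P.Mr * P.z0 * P.j ≤ P.z2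
  t3 : P.z2 * P.b2 ≤ P.mu0
  x1 : 10 * P.n * P.s2 * (8 * P.Mr * P.mu0) ≤ P.N
  x2 : 120 * P.n * (13 * P.s ^ 3) ≤ P.q ^ 3
  x3 : 2 * P.n * P.s2 ≤ P.e0
  x4 : 60 * P.e0 ≤ P.z1 * P.q ^ 2
  x5 : 10 * P.n * P.s2 * (8 * P.Mr * P.mu1) ≤ P.R * P.N
  m1 : 2 * P.z1 ≤ P.z0
  m2 : (P.R : ℝ) * P.s2 * P.lam ≤ P.Del / 2
  m3 : 8 * (P.N : ℝ) * P.lam ≤ 3 * P.Del * P.mu1
  m4 : 2 * P.Del ≤ P.smax * P.mu0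
  m5 : P.mu0 ≤ P.N
  m6 : 7 * (P.nu : ℝ) + 1 ≤ P.eps * P.ml
  m7 : 2 * (P.du + 1) < P.N
  c1a : P.j * P.Del + P.z3 * P.smax * P.b3 ≤ P.V * P.z3
  c2a : P.V * P.iu ≤ P.th * P.g
  c3a : 20 * P.Del ≤ P.du
  c3b : 40 * (P.k : ℝ) * Real.exp (-(P.be1 * (P.del / (2 * P.eps))) + P.be1 ^ 2 * P.V) ≤ 1
  c3c : 20 * (P.N : ℝ) * Real.exp (-(P.be2 * (P.nu / P.eps)) +
    P.be2 ^ 2 * (P.c1 * P.mu * P.V)) ≤ 1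
  c4a : P.du * P.del ^ P.l ≤ 1 / 4
  c4b : P.l + P.c1 * P.L ≤ P.lx
  c5a : P.nu ≤ 4 * P.mu
  c5b : 60 * (P.N : ℝ) * Real.exp (-((P.nu : ℝ) ^ 2 / (16 * P.mu))) ≤ 1
  c6a : P.L * P.iu * (1 + P.g) ≤ P.z0
  c6b : 8 * (P.b3 + P.b4 + P.L) ≤ P.mu0
  c7a : ((P.L : ℝ) * P.iu) ^ 2 * P.th ≤ 1
  c7b : 4 * P.eps * (P.lam2 * P.c1 * P.L + P.lam2 * P.smax * P.iu + P.lam + 1) ≤ 1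
  c7c : 2 * P.eps * (P.c1 * P.L) ≤ 1
  c7e : 2 * (P.L : ℝ) * P.iu * Real.exp (-(P.be3 / 2) + P.be3 ^ 2 * P.eps ^ 2 * P.V) ≤ 1
  c8 : 20 * ((P.n * P.s2 : ℕ) : ℝ) * P.kb ≤ 1

end Par

end Pool.Agent.P.MP_b5e666_co.Lar
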