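import Pool.Agent.P.MP_b5e666_co.LA3
import Pool.Agent.P.MP_b5e666_co.LP0

set_option autoImplicit false

open Finset

noncomputable section

namespace Pool.Agent.P.MP_b5e666_co.Lar

section fam
variable {N k q : ℕ}

/-- the view of two universes (empty on the diagonal) -/
def vw (f : Fin N → Fin k → Fin q) (x y : Fin N) : Finset (Fin k) :=
  flt univ (fun a => x ≠ y ∧ f x a = f y a)

/-- the cells of a universe -/
def cel (f : Fin N → Fin k → Fin q) (x : Fin N) : Finset (Fin k × Fin q) :=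
  flt univ (fun p => f x p.1 = p.2)

/-- the edges of a graph on cells that lie inside a universe -/
def edg (f : Fin N → Fin k → Fin q) (Γ : Finset ((Fin k × Fin q) × (Fin k × Fin q))) (x : Fin N) :
    Finset ((Fin k × Fin q) × (Fin k × Fin q)) :=
  flt Γ (fun e => e.1 ∈ cel f x ∧ e.2 ∈ cel f x)

theorem mem_vw {f : Fin N → Fin k → Fin q} {x y : Fin N} {a : Fin k} :
    a ∈ vw f x y ↔ x ≠ y ∧ f x a = f y a := by simp [vw]

theorem mem_cel {f : Fin N → Fin k → Fin q} {x : Fin N} {p : Fin k × Fin q} :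
    p ∈ cel f x ↔ f x p.1 = p.2 := by simp [cel]

theorem vw_symm (f : Fin N → Fin k → Fin q) (x y : Fin N) : vw f x y = vw f y x := by
  ext a; simp only [mem_vw]; constructor <;> exact fun h => ⟨h.1.symm, h.2.symm⟩

theorem vw_self (f : Fin N → Fin k → Fin q) (x : Fin N) : vw f x x = ∅ := by
  ext a; simp [mem_vw]

def V1 (f : Fin N → Fin k → Fin q) (iu : ℕ) : Prop := ∀ x y, (vw f x y).card ≤ iu
def V1' (f : Fin N → Fin k → Fin q) (i : ℕ) : Prop := ∀ x y, x ≠ y → i ≤ 2 * (vw f x y).card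
def V2 (f : Fin N → Fin k → Fin q) (c1 : ℕ) : Prop :=
  ∀ x y y', y ≠ y' → (vw f x y ∩ vw f x y').card ≤ c1
def V3 (f : Fin N → Fin k → Fin q) (jm : ℕ) : Prop :=
  ∀ Q : Finset (Fin k × Fin q), Q.card ≤ jm →
    ((flt univ (fun y => Q ⊆ cel f y)).card : ℝ) ≤ 6 * N / (q : ℝ) ^ Q.card
def V4 (f : Fin N → Fin k → Fin q) (z4 c2 : ℕ) : Prop :=
  ∀ (x : Fin N) (W : Finset (Fin k)) (Y : Finset (Fin N)), W.card ≤ z4 → Y.card ≤ z4 →
    ∑ y ∈ Y, (W ∩ vw f x y).card ≤ c2 * (W.card + Y.card)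
def V9 (f : Fin N → Fin k → Fin q) (du l2 : ℕ) : Prop :=
  ∀ (x : Fin N) (U : Finset (Fin N)), x ∉ U → U.card ≤ du →
    l2 * U.card ≤ (U.biUnion (vw f x)).card
def V5 (M : Fin N → Fin N → Finset (Fin k)) (ml mu : ℕ) : Prop :=
  ∀ x y, x ≠ y → ml ≤ (M x y).card ∧ (M x y).card ≤ mu
def V6 (Z : Fin N → Fin N → Finset (Fin k)) (du lx : ℕ) : Prop :=
  ∀ (x : Fin N) (U : Finset (Fin N)), x ∉ U → U.card ≤ du → lx * U.card ≤ (xr (Z x) U).card
def V7 (f : Fin N → Fin k → Fin q) (Z : Fin N → Fin N → Finset (Fin k)) (Mr : ℕ) : Prop :=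
  ∀ X : Finset (Fin N), Mr ≤ X.card → ∀ A1 A0 : Finset (Fin k), Disjoint A1 A0 →
    A1.card + A0.card ≤ 2 → ∃ x ∈ X, ∃ y ∈ X, x ≠ y ∧
      (∀ a ∈ A1, a ∈ vw f x y → a ∈ Z x y) ∧ ∀ a ∈ A0, a ∉ Z x y
/-- a good set of zero columns -/
def Zer (f : Fin N → Fin k → Fin q) (M : Fin N → Fin N → Finset (Fin k))
    (Γ : Finset ((Fin k × Fin q) × (Fin k × Fin q))) (z1 nu : ℕ) (x : Fin N) (C : Finset (Fin k)) :
    Prop :=
  C.card ≤ 2 * z1 ∧ (∀ e ∈ edg f Γ x, e.1.1 ∈ C ∨ e.2.1 ∈ C) ∧ ∀ y, (C ∩ M x y).card ≤ nu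
def V8 (f : Fin N → Fin k → Fin q) (M : Fin N → Fin N → Finset (Fin k)) (e0 z1 nu : ℕ) : Prop :=
  ∀ Γ : Finset ((Fin k × Fin q) × (Fin k × Fin q)), Γ.card ≤ e0 → (∀ e ∈ Γ, e.1.1 ≠ e.2.1) →
    10 * (flt univ (fun x => (edg f Γ x).card ≤ z1 ∧ ¬ ∃ C, Zer f M Γ z1 nu x C)).card ≤ N

/-- the part of the views selected by symmetric labels -/
def lab {β : Type} (f : Fin N → Fin k → Fin q) (h : Sym2 (Fin N) → Fin k → β) (b : β)
    (x y : Fin N) : Finset (Fin k) := flt (vw f x y) (fun a => h s(x, y) a = b)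

end fam

/-- universes with their parity and majority parts -/
structure Fam (P : Par) where
  f : Fin P.N → Fin P.k → Fin P.q
  Z : Fin P.N → Fin P.N → Finset (Fin P.k)
  M : Fin P.N → Fin P.N → Finset (Fin P.k)

structure Fam.Ok {P : Par} (Φ : Fam P) : Prop where
  Zs : ∀ x y, Φ.Z x y ⊆ vw Φ.f x y
  Ms : ∀ x y, Φ.M x y ⊆ vw Φ.f x y
  Zc : ∀ x y, Φ.Z x y = Φ.Z y x
  Mc : ∀ x y, Φ.M x y = Φ.M y x
  v1 : V1 Φ.f P.iu
  v2 : V2 Φ.f P.c1
  v3 : V3 Φ.f (2 * P.j)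
  v5 : V5 Φ.M P.ml P.mu
  v6 : V6 Φ.Z P.du P.lx
  v7 : V7 Φ.f Φ.Z P.Mr
  v8 : V8 Φ.f Φ.M P.e0 P.z1 P.nu

/-- plus signs minus the rest -/
def score {k : ℕ} (A : Finset (Fin k)) (s : Fin k → SignType) : ℤ :=
  ∑ a ∈ A, if s a = 1 then 1 else -1

namespace Fam
variable {P : Par} (Φ : Fam P)

def cp (x y : Fin P.N) : ℕ := if x < y then 0 else (Φ.Z x y).card + 1

def Pary (x y : Fin P.N) (s : Fin P.k → SignType) : Prop :=
  Even ((flt (Φ.Z x y) (fun a => s a = -1)).card + Φ.cp x y)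

def Big (x y : Fin P.N) (s : Fin P.k → SignType) : Prop :=
  3 * (P.nu : ℤ) + 1 ≤ score (Φ.M x y) s

def Win (x y : Fin P.N) (s : Fin P.k → SignType) : Prop :=
  Φ.Big x y s ∨ (-(3 * (P.nu : ℤ)) ≤ score (Φ.M x y) s ∧ (∀ a ∈ Φ.Z x y, s a ≠ 0) ∧ Φ.Pary x y s)

def Valid (x : Fin P.N) (s : Fin P.k → SignType) : Prop :=
  (∀ y, x ≠ y → Φ.Win x y s) ∧ P.N < 2 * (flt univ (fun y => Φ.Big x y s)).card

/-- the columns of agreement -/
def agr (x y : Fin P.N) (s s' : Fin P.k → SignType) : Finset (Fin P.k) :=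
  flt (vw Φ.f x y) (fun a => s a = s' a ∧ s a ≠ 0)

def Proper (col : Fin P.N → (Fin P.k → SignType) → Fin P.n) : Prop :=
  ∀ x y s s', x ≠ y → Φ.Valid x s → Φ.Valid y s' → col x s = col y s' → (Φ.agr x y s s').card ≠ 1

end Fam

/-- patterns: some columns carry a cell and a value -/
abbrev Pat (k q : ℕ) : Type := Fin k → Option (Fin q × SignType)

section pat
variable {N k q : ℕ}
def cols (φ : Pat k q) : Finset (Fin k) := flt univ (fun a => φ a ≠ none)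
def zc (φ : Pat k q) : Finset (Fin k) := flt univ (fun a => ∃ b, φ a = some (b, 0))
def nz (φ : Pat k q) : Finset (Fin k) := flt univ (fun a => ∃ b v, φ a = some (b, v) ∧ v ≠ 0)
def Has (f : Fin N → Fin k → Fin q) (x : Fin N) (φ : Pat k q) : Prop :=
  ∀ a b v, φ a = some (b, v) → f x a = b
def Fit (s : Fin k → SignType) (φ : Pat k q) : Prop := ∀ a b v, φ a = some (b, v) → s a = v
def Alw (φ : Pat k q) : Prop := (cols φ).card ≤ 2 ∧ (nz φ).card ≤ 1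
def sgn (b : Bool) : SignType := if b then 1 else -1
/-- signs w, overwritten by the values of the pattern -/
def ext (φ : Pat k q) (w : Fin k → Bool) (a : Fin k) : SignType :=
  match φ a with
  | some bv => bv.2
  | none => sgn (w a)
/-- signs w with zeros on C -/
def zer (C : Finset (Fin k)) (w : Fin k → Bool) (a : Fin k) : SignType :=
  if a ∈ C then 0 else sgn (w a)
end pat

/-- every small set of columns off F meets at most a 1/c part of the views of the pool -/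
def Spread {Y ι : Type} [DecidableEq ι] (I : Y → Finset ι) (F : Finset ι) (z0 c : ℕ)
    (Pl : Finset Y) : Prop :=
  ∀ U : Finset ι, Disjoint U F → U.card ≤ z0 →
    c * (flt Pl (fun y => (I y ∩ U).Nonempty)).card ≤ Pl.card

namespace Fam
variable {P : Par} (Φ : Fam P) (col : Fin P.N → (Fin P.k → SignType) → Fin P.n)

def Hit (γ : Fin P.n) (x y : Fin P.N) (φ : Pat P.k P.q) (w : Fin P.k → Bool) : Prop :=
  Φ.Pary x y (ext φ w) ∧ ∃ s, Φ.Valid x s ∧ col x s = γ ∧ ∀ a ∈ vw Φ.f x y, s a = ext φ w a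

def Small (γ : Fin P.n) (x y : Fin P.N) (φ : Pat P.k P.q) : Prop :=
  Pr (unif (Fin P.k) Bool) (Φ.Hit col γ x y φ) ≤ 1 / 4

def Arc (γ : Fin P.n) (φ : Pat P.k P.q) (x y : Fin P.N) : Prop :=
  x ≠ y ∧ Has Φ.f y φ ∧ (∀ a ∈ zc φ, a ∉ Φ.Z x y) ∧ Φ.Small col γ x y φ

def Killed (γ : Fin P.n) (μ : ℕ) (φ : Pat P.k P.q) (x : Fin P.N) : Prop :=
  ∃ Pl : Finset (Fin P.N), μ ≤ Pl.card ∧ (∀ y ∈ Pl, Φ.Arc col γ φ x y) ∧
    Spread (vw Φ.f x) (cols φ) P.z0 4 Pl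

end Fam

end Pool.Agent.P.MP_b5e666_co.Lar
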