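import Pool.Agent.P.MP_b5e666_co.LA4
import Pool.Agent.P.MP_b5e666_co.LB2
import Pool.Agent.P.MP_b5e666_co.LD0

set_option autoImplicit false

open Finset

noncomputable section

namespace Pool.Agent.P.MP_b5e666_co.Lar

/-- the local picture at one universe -/
structure Loc (P : Par) where
  I : Fin P.N → Finset (Fin P.k)
  Z : Fin P.N → Finset (Fin P.k)
  M : Fin P.N → Finset (Fin P.k)
  Ys : Finset (Fin P.N)
  cp : Fin P.N → ℕ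
  σ : Fin P.N → ℝ

/-- a target: fixed columns, a pool, and one event per member of the pool -/
structure Tgt (P : Par) where
  F : Finset (Fin P.k)
  Pl : Finset (Fin P.N)
  H : Fin P.N → (Fin P.k → Bool) → Prop

namespace Loc
variable {P : Par} (D : Loc P)

structure Ok : Prop where
  hI : ∀ y, (D.I y).card ≤ P.iu
  hc1 : ∀ y y', y ≠ y' → (D.I y ∩ D.I y').card ≤ P.c1
  hZ : ∀ y, D.Z y ⊆ D.I y
  hM : ∀ y, D.M y ⊆ D.I y
  hmu : ∀ y, (D.M y).card ≤ P.mu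
  hj : ∀ Q : Finset (Fin P.k), Q.card ≤ 2 * P.j →
    ((flt univ (fun y => Q ⊆ D.I y)).card : ℝ) ≤ P.bq Q.card
  hX : ∀ U ⊆ D.Ys, U.card ≤ P.du → P.lx * U.card ≤ (xr D.Z U).card
  h0 : ∀ y, 0 ≤ D.σ y
  h1 : ∀ y, D.σ y ≤ P.smax
  hs : ∀ y, y ∉ D.Ys → D.σ y = 0
  ht : ∑ y, D.σ y ≤ P.Del

structure TOk (t : Tgt P) : Prop where
  big : 3 * P.mu0 ≤ 4 * t.Pl.card
  wt : ∀ y ∈ t.Pl, P.lam / t.Pl.card ≤ D.σ y
  spr : Spread D.I t.F P.z0 3 t.Pl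
  dep : ∀ y ∈ t.Pl, Dep (t.H y) (D.I y \ t.F)
  sm : ∀ y ∈ t.Pl, Pr (unif (Fin P.k) Bool) (t.H y) ≤ 1 / 4

/-- expected number of chosen views through a column -/
def r (p : Fin P.k) : ℝ := ∑ y, D.σ y * ind (p ∈ D.I y)
/-- overloaded columns -/
def E : Finset (Fin P.k) := flt univ (fun p => P.V < D.r p)
/-- number of chosen views through a column -/
def mult (S : Finset (Fin P.N)) (p : Fin P.k) : ℝ := ((flt S (fun y => p ∈ D.I y)).card : ℝ)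
def bias (S : Finset (Fin P.N)) (p : Fin P.k) : ℝ :=
  if p ∈ D.E then P.eps else P.eps * (1 + D.r p - D.mult S p)
/-- the law of the signs given the chosen views -/
def law (S : Finset (Fin P.N)) : Fin P.k → Bool → ℝ := bern (fun p => (1 + D.bias S p) / 2)
def Good (S : Finset (Fin P.N)) : Prop :=
  S ⊆ D.Ys ∧ S.card ≤ P.du ∧ (∀ p, |D.bias S p| ≤ P.del) ∧
    ∀ y, (if y ∈ S then 0 else P.eps * (D.M y).card) - P.nu ≤ ∑ p ∈ D.M y, D.bias S p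
/-- weight of an event given the chosen views -/
def Qs (A : Finset (Fin P.N) → (Fin P.k → Bool) → Prop) (S : Finset (Fin P.N)) : ℝ :=
  ind (D.Good S) * (2 ^ S.card * Pr (D.law S) (fun w => par D.Z D.cp S w ∧ A S w))
/-- the planted measure -/
def Qm (A : Finset (Fin P.N) → (Fin P.k → Bool) → Prop) : ℝ :=
  Ex (bern D.σ) (fun ξ => D.Qs A (supp ξ))
/-- heavy pairs of columns -/
def hv (p p' : Fin P.k) : Prop :=
  p ≠ p' ∧ p ∉ D.E ∧ p' ∉ D.E ∧ P.th < ∑ y, D.σ y * ind (p ∈ D.I y ∧ p' ∈ D.I y)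
def Bad (y : Fin P.N) : Prop :=
  P.j ≤ (D.I y ∩ D.E).card ∨ ¬ ∃ T0 : Finset (Fin P.k), T0.card ≤ 2 * P.j ∧
    ∀ p ∈ D.I y, ∀ p' ∈ D.I y, D.hv p p' → p ∈ T0 ∨ p' ∈ T0
def Clean (F : Finset (Fin P.k)) (Ds : Finset (Fin P.N)) : Prop :=
  (∀ y ∈ Ds, ¬ D.Bad y) ∧ ∀ y ∈ Ds, ∀ y' ∈ Ds, y ≠ y' →
    Disjoint (D.I y \ F) (D.I y' \ F) ∧ ∀ p ∈ D.I y \ F, ∀ p' ∈ D.I y' \ F, ¬ D.hv p p'
/-- unmarked views that meet T2 exactly in p -/
def Sing (D0 : Finset (Fin P.N)) (T2 : Finset (Fin P.k)) (p : Fin P.k) : Finset (Fin P.N) :=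
  flt univ (fun y => y ∉ D0 ∧ D.I y ∩ T2 = {p})
/-- unmarked views that meet T2 at least twice -/
def Mul (D0 : Finset (Fin P.N)) (T2 : Finset (Fin P.k)) : Finset (Fin P.N) :=
  flt univ (fun y => y ∉ D0 ∧ 2 ≤ (D.I y ∩ T2).card)
def a0 (D0 : Finset (Fin P.N)) (T2 : Finset (Fin P.k)) (c : Fin P.N → ℝ) (p : Fin P.k) : ℝ :=
  1 - D.mult D0 p + (D.r p - ∑ y ∈ D.Sing D0 T2 p, c y)

/-- hypotheses of the density bound -/
structure RhoH (D0 Ds : Finset (Fin P.N)) (T2 : Finset (Fin P.k)) (a c : Fin P.N → ℝ) : Prop where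
  sub : Ds ⊆ D0
  c0 : D0.card ≤ P.lam2
  cs : Ds.card ≤ P.L
  one : ∀ p ∈ T2, (flt Ds (fun y => p ∈ D.I y)).card = 1
  nE : ∀ p ∈ T2, p ∉ D.E
  nh : ∀ p ∈ T2, ∀ p' ∈ T2, ¬ D.hv p p'
  ha : ∀ y, 0 ≤ a y
  hat : ∑ y, a y ≤ P.lam
  hc0 : ∀ y, 0 ≤ c y
  hc1 : ∀ y, c y ≤ D.σ y
  hc2 : ∀ y, D.σ y - a y ≤ c y

theorem le_one (hP : P.Ok) (hD : D.Ok) (y : Fin P.N) : D.σ y ≤ 1 := by
  have := hD.h1 y; have := hP.hsmax; linarith

theorem isP_sig (hP : P.Ok) (hD : D.Ok) : IsP (bern D.σ) := isP_bern hD.h0 (D.le_one hP hD)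

theorem isP_law (hP : P.Ok) {S : Finset (Fin P.N)} (h : ∀ p, |D.bias S p| ≤ P.del) :
    IsP (D.law S) := by
  refine isP_bern (fun p => ?_) (fun p => ?_)
  · have := (abs_le.1 (h p)).1; have := hP.hdel1; linarith
  · have := (abs_le.1 (h p)).2; have := hP.hdel1; linarith

theorem mult_eq (S : Finset (Fin P.N)) (p : Fin P.k) :
    D.mult S p = ∑ y ∈ S, ind (p ∈ D.I y) := card_flt _ _

theorem r_le {p : Fin P.k} (h : p ∉ D.E) : D.r p ≤ P.V := by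
  by_contra hc; exact h (mem_flt.2 ⟨mem_univ _, not_le.1 hc⟩)

end Loc

end Pool.Agent.P.MP_b5e666_co.Lar
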