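import Pool.Agent.P.MP_b5e666_co.LC0

set_option autoImplicit false

open Finset

noncomputable section

namespace Pool.Agent.P.MP_b5e666_co.Lar

theorem bq_nonneg_LC1 (P : Par) (m : ℕ) : 0 ≤ P.bq m := by
  unfold Par.bq; positivity

namespace Loc
variable {P : Par} {D : Loc P}

theorem hj_eq_LC1 (hD : D.Ok) {m : ℕ} (hm : m ≤ 2 * P.j) (Q : Finset (Fin P.k)) (hQ : Q.card = m) :
    ((flt univ (fun y => Q ⊆ D.I y)).card : ℝ) ≤ P.bq m := by
  have := hD.hj Q (by omega)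
  rwa [hQ] at this

theorem count_LC1 (hD : D.Ok) (Q : Finset (Fin P.k)) (hQ : Q.card ≤ P.z3) :
    ((flt univ (fun y => P.j ≤ (D.I y ∩ Q).card)).card : ℝ) ≤ P.b3 :=
  count_j D.I P.j (hj_eq_LC1 hD (by omega)) (bq_nonneg_LC1 P _) Q hQ

theorem card_E (hP : P.Ok) (hD : D.Ok) : D.E.card ≤ P.z3 := by
  by_contra hc
  obtain ⟨Q, hQ, hq⟩ := exists_subset_card_eq (not_le.1 hc).le
  have hne : Q.Nonempty := card_pos.1 (by have := hP.hz3; omega)
  have h1 : ∑ _p ∈ Q, P.V < ∑ p ∈ Q, D.r p :=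
    sum_lt_sum_of_nonempty hne fun p hp => (mem_flt.1 (hQ hp)).2
  have h2 := sum_inter_le D.I D.σ P.j hD.h0 hD.h1 hD.ht Q (count_LC1 hD Q hq.le) hP.hsmax0
  rw [sum_const, nsmul_eq_mul, hq] at h1
  rw [hq] at h2
  have h3 := hP.c1a
  unfold r at h1
  linarith

theorem deg_hv (hP : P.Ok) (hD : D.Ok) (p : Fin P.k) :
    (flt univ (fun p' => D.hv p p')).card ≤ P.g := by
  by_cases hE : p ∈ D.E
  · have : flt univ (fun p' => D.hv p p') = ∅ :=
      eq_empty_of_forall_notMem fun p' hp' => (mem_flt.1 hp').2.2.1 hE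
    rw [this]; exact Nat.zero_le _
  · have h1 : ∑ _p' ∈ flt univ (fun p' => D.hv p p'), P.th ≤
        ∑ p' ∈ flt univ (fun p' => D.hv p p'), ∑ y, D.σ y * ind (p ∈ D.I y ∧ p' ∈ D.I y) :=
      sum_le_sum fun p' hp' => (mem_flt.1 hp').2.2.2.2.le
    have h2 : ∑ p' ∈ flt univ (fun p' => D.hv p p'), ∑ y, D.σ y * ind (p ∈ D.I y ∧ p' ∈ D.I y) ≤
        ∑ p', ∑ y, D.σ y * ind (p ∈ D.I y ∧ p' ∈ D.I y) :=
      sum_le_sum_of_subset_of_nonneg (subset_univ _) fun p' _ _ =>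
        sum_nonneg fun y _ => mul_nonneg (hD.h0 y) (ind_nonneg _)
    have h3 : ∀ y, ∑ p', D.σ y * ind (p ∈ D.I y ∧ p' ∈ D.I y) ≤
        D.σ y * ind (p ∈ D.I y) * P.iu := by
      intro y
      have e : ∑ p', ind (p' ∈ D.I y) = ((D.I y).card : ℝ) := by
        rw [← card_flt]; congr 2; ext a; simp
      simp only [ind_and, ← mul_assoc]
      rw [← mul_sum, e]
      exact mul_le_mul_of_nonneg_left (by exact_mod_cast hD.hI y)
        (mul_nonneg (hD.h0 y) (ind_nonneg _))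
    have h4 : ∑ p', ∑ y, D.σ y * ind (p ∈ D.I y ∧ p' ∈ D.I y) ≤ D.r p * P.iu := by
      rw [sum_comm]; unfold r; rw [sum_mul]
      exact sum_le_sum fun y _ => h3 y
    have h5 : D.r p * P.iu ≤ P.V * P.iu :=
      mul_le_mul_of_nonneg_right (D.r_le hE) (Nat.cast_nonneg _)
    have h6 := hP.c2a
    rw [sum_const, nsmul_eq_mul] at h1
    have h7 : P.th * ((flt univ (fun p' => D.hv p p')).card : ℝ) ≤ P.th * P.g := by linarith
    exact_mod_cast le_of_mul_le_mul_left h7 hP.hth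

theorem card_Bad (hP : P.Ok) (hD : D.Ok) : ((flt univ D.Bad).card : ℝ) ≤ P.b3 + P.b4 := by
  have hH : (flt univ (fun e : Fin P.k × Fin P.k => D.hv e.1 e.2)).card ≤ P.k * P.g := by
    have : ((flt univ (fun e : Fin P.k × Fin P.k => D.hv e.1 e.2)).card : ℝ) ≤
        ((P.k * P.g : ℕ) : ℝ) := by
      rw [card_flt, Fintype.sum_prod_type]
      calc ∑ p, ∑ p', ind (D.hv p p') ≤ ∑ _p : Fin P.k, (P.g : ℝ) :=
            sum_le_sum fun p _ => by
              rw [← card_flt]; exact_mod_cast deg_hv hP hD p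
        _ = _ := by simp
    exact_mod_cast this
  have h1 := count_LC1 hD D.E (card_E hP hD)
  have h2 := count_match D.I P.j (hj_eq_LC1 hD le_rfl) (bq_nonneg_LC1 P _)
    (flt univ (fun e : Fin P.k × Fin P.k => D.hv e.1 e.2))
    (fun e he => (mem_flt.1 he).2.1) hH
  refine le_trans ?_ (add_le_add h1 h2)
  rw [card_flt, card_flt, card_flt, ← sum_add_distrib]
  refine sum_le_sum fun y _ => le_trans (ind_mono fun hy => ?_) (ind_or_le _ _)
  rcases hy with hy | hy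
  · exact Or.inl hy
  · refine Or.inr fun ⟨T0, hT, hc⟩ => hy ⟨T0, hT, fun p hp p' hp' hv => ?_⟩
    exact hc (p, p') (mem_flt.2 ⟨mem_univ _, hv⟩) hp hp'

theorem hv_symm {p p' : Fin P.k} (h : D.hv p p') : D.hv p' p := by
  obtain ⟨h1, h2, h3, h4⟩ := h
  refine ⟨h1.symm, h3, h2, h4.trans_le (le_of_eq ?_)⟩
  exact sum_congr rfl fun y _ => by rw [ind_congr and_comm]

theorem clean_ext (hP : P.Ok) (hD : D.Ok) {t : Tgt P} (ht : D.TOk t) (Ds : Finset (Fin P.N))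
    (hc : D.Clean t.F Ds) (hL : Ds.card < P.L) :
    ∃ Ac ⊆ t.Pl, Disjoint Ac Ds ∧ t.Pl.card ≤ 2 * Ac.card ∧
      ∀ y ∈ Ac, D.Clean t.F (insert y Ds) := by
  obtain ⟨T, hT⟩ : ∃ T, T = Ds.biUnion (fun y => D.I y \ t.F) := ⟨_, rfl⟩
  obtain ⟨U, hU⟩ : ∃ U, U = (T ∪ T.biUnion (fun p => flt univ (fun p' => D.hv p p'))) \ t.F :=
    ⟨_, rfl⟩
  have hTc : T.card ≤ P.L * P.iu := by
    rw [hT]
    refine (card_biUnion_le_card_mul _ _ P.iu fun y _ => ?_).trans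
      (Nat.mul_le_mul_right _ hL.le)
    exact (card_le_card sdiff_subset).trans (hD.hI y)
  have hUc : U.card ≤ P.z0 := by
    rw [hU]
    refine (card_le_card sdiff_subset).trans ((card_union_le _ _).trans ?_)
    have h1 := card_biUnion_le_card_mul T (fun p => flt univ (fun p' => D.hv p p')) P.g
      fun p _ => deg_hv hP hD p
    have h2 := hP.c6a
    calc T.card + (T.biUnion (fun p => flt univ (fun p' => D.hv p p'))).card
        ≤ T.card * (1 + P.g) := by rw [mul_add, mul_one]; omega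
      _ ≤ P.L * P.iu * (1 + P.g) := Nat.mul_le_mul_right _ hTc
      _ ≤ P.z0 := h2
  have hs := ht.spr U (by rw [hU]; exact sdiff_disjoint) hUc
  refine ⟨flt t.Pl (fun y => ¬ D.Bad y ∧ y ∉ Ds ∧ ¬ (D.I y ∩ U).Nonempty), flt_subset _ _,
    disjoint_left.2 fun y hy => (mem_flt.1 hy).2.2.1, ?_, fun y hy => ?_⟩
  · have hsub : t.Pl ⊆ flt t.Pl (fun y => ¬ D.Bad y ∧ y ∉ Ds ∧ ¬ (D.I y ∩ U).Nonempty) ∪
        (flt univ D.Bad ∪ (Ds ∪ flt t.Pl (fun y => (D.I y ∩ U).Nonempty))) := by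
      intro y hy
      simp only [mem_union, mem_flt, mem_univ, true_and]
      tauto
    have h1 := (card_le_card hsub).trans ((card_union_le _ _).trans (Nat.add_le_add_left
      ((card_union_le _ _).trans (Nat.add_le_add_left (card_union_le _ _) _)) _))
    have h2 := card_Bad hP hD
    have h3 := hP.c6b
    have h4 : 8 * ((flt univ D.Bad).card + P.L) ≤ P.mu0 := by
      have : (8 : ℝ) * ((flt univ D.Bad).card + P.L) ≤ P.mu0 := by linarith
      exact_mod_cast this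
    have h5 := ht.big
    omega
  · obtain ⟨_, hb, hn, hm⟩ := mem_flt.1 hy
    have key : ∀ y' ∈ Ds, Disjoint (D.I y \ t.F) (D.I y' \ t.F) ∧
        ∀ p ∈ D.I y \ t.F, ∀ p' ∈ D.I y' \ t.F, ¬ D.hv p' p := by
      intro y' hy'
      refine ⟨disjoint_left.2 fun p hp hp' => hm ⟨p, ?_⟩, fun p hp p' hp' hv => hm ⟨p, ?_⟩⟩
      · rw [hU, hT]
        exact mem_inter.2 ⟨(mem_sdiff.1 hp).1, mem_sdiff.2
          ⟨mem_union_left _ (mem_biUnion.2 ⟨y', hy', hp'⟩), (mem_sdiff.1 hp).2⟩⟩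
      · rw [hU, hT]
        exact mem_inter.2 ⟨(mem_sdiff.1 hp).1, mem_sdiff.2
          ⟨mem_union_right _ (mem_biUnion.2 ⟨p', mem_biUnion.2 ⟨y', hy', hp'⟩,
            mem_flt.2 ⟨mem_univ _, hv⟩⟩), (mem_sdiff.1 hp).2⟩⟩
    refine ⟨fun z hz => ?_, fun z hz z' hz' hne => ?_⟩
    · rcases mem_insert.1 hz with rfl | hz
      · exact hb
      · exact hc.1 z hz
    · rcases mem_insert.1 hz with h1 | h1 <;> rcases mem_insert.1 hz' with h2 | h2
      · exact absurd (h1.trans h2.symm) hne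
      · rw [h1]
        exact ⟨(key z' h2).1, fun p hp p' hp' hv => (key z' h2).2 p hp p' hp' (hv_symm hv)⟩
      · rw [h2]
        exact ⟨(key z h1).1.symm, fun p hp p' hp' hv => (key z h1).2 p' hp' p hp hv⟩
      · exact hc.2 z h1 z' h2 hne

theorem exists_T2 {F : Finset (Fin P.k)} {Ds : Finset (Fin P.N)} (hc : D.Clean F Ds) :
    ∃ T2 ⊆ Ds.biUnion (fun y => D.I y \ F),
      (Ds.biUnion (fun y => D.I y \ F) \ T2).card ≤ 3 * P.j * Ds.card ∧
      (∀ p ∈ T2, (flt Ds (fun y => p ∈ D.I y)).card = 1) ∧ (∀ p ∈ T2, p ∉ D.E) ∧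
      ∀ p ∈ T2, ∀ p' ∈ T2, ¬ D.hv p p' := by
  have h0 : ∀ y, ∃ T0 : Finset (Fin P.k), y ∈ Ds → ((D.I y ∩ D.E).card ≤ P.j ∧
      T0.card ≤ 2 * P.j ∧ ∀ p ∈ D.I y, ∀ p' ∈ D.I y, D.hv p p' → p ∈ T0 ∨ p' ∈ T0) := by
    intro y
    by_cases hy : y ∈ Ds
    · have hb := hc.1 y hy
      unfold Bad at hb
      rw [not_or, not_not] at hb
      obtain ⟨h1, T0, h2, h3⟩ := hb
      exact ⟨T0, fun _ => ⟨(not_le.1 h1).le, h2, h3⟩⟩
    · exact ⟨∅, fun h => absurd h hy⟩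
  choose T0 hT0 using h0
  refine ⟨Ds.biUnion (fun y => D.I y \ F) \ (D.E ∪ Ds.biUnion T0), sdiff_subset, ?_, ?_, ?_, ?_⟩
  · have hsub : Ds.biUnion (fun y => D.I y \ F) \
        (Ds.biUnion (fun y => D.I y \ F) \ (D.E ∪ Ds.biUnion T0)) ⊆
        Ds.biUnion (fun y => (D.I y ∩ D.E) ∪ T0 y) := by
      intro p hp
      obtain ⟨h1, h2⟩ := mem_sdiff.1 hp
      have h3 : p ∈ D.E ∪ Ds.biUnion T0 := by
        by_contra h; exact h2 (mem_sdiff.2 ⟨h1, h⟩)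
      rcases mem_union.1 h3 with h4 | h4
      · obtain ⟨y, hy, hpy⟩ := mem_biUnion.1 h1
        exact mem_biUnion.2 ⟨y, hy, mem_union_left _ (mem_inter.2 ⟨(mem_sdiff.1 hpy).1, h4⟩)⟩
      · obtain ⟨y, hy, hpy⟩ := mem_biUnion.1 h4
        exact mem_biUnion.2 ⟨y, hy, mem_union_right _ hpy⟩
    refine (card_le_card hsub).trans ((card_biUnion_le_card_mul _ _ (3 * P.j) fun y hy => ?_).trans
      (le_of_eq (mul_comm _ _)))
    have := hT0 y hy
    have h5 := card_union_le (D.I y ∩ D.E) (T0 y)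
    omega
  · intro p hp
    obtain ⟨y, hy, hpy⟩ := mem_biUnion.1 (mem_sdiff.1 hp).1
    refine card_eq_one.2 ⟨y, eq_singleton_iff_unique_mem.2
      ⟨mem_flt.2 ⟨hy, (mem_sdiff.1 hpy).1⟩, fun y' hy' => ?_⟩⟩
    by_contra hne
    obtain ⟨h1, h2⟩ := mem_flt.1 hy'
    exact disjoint_left.1 (hc.2 y' h1 y hy hne).1 (mem_sdiff.2 ⟨h2, (mem_sdiff.1 hpy).2⟩) hpy
  · intro p hp hE
    exact (mem_sdiff.1 hp).2 (mem_union_left _ hE)
  · intro p hp p' hp' hv
    obtain ⟨y, hy, hpy⟩ := mem_biUnion.1 (mem_sdiff.1 hp).1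
    obtain ⟨y', hy', hpy'⟩ := mem_biUnion.1 (mem_sdiff.1 hp').1
    by_cases hne : y = y'
    · subst hne
      rcases (hT0 y hy).2.2 p (mem_sdiff.1 hpy).1 p' (mem_sdiff.1 hpy').1 hv with h | h
      · exact (mem_sdiff.1 hp).2 (mem_union_right _ (mem_biUnion.2 ⟨y, hy, h⟩))
      · exact (mem_sdiff.1 hp').2 (mem_union_right _ (mem_biUnion.2 ⟨y, hy, h⟩))
    · exact (hc.2 y hy y' hy' hne).2 p hpy p' hpy' hv

end Loc

end Pool.Agent.P.MP_b5e666_co.Lar
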