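import Pool.Agent.P.MP_b5e666_co.LC0

set_option autoImplicit false

open Finset

noncomputable section

namespace Pool.Agent.P.MP_b5e666_co.Lar

namespace Loc
variable {P : Par} {D : Loc P}

theorem mult_supp_LC2 (ξ : Fin P.N → Bool) (p : Fin P.k) :
    D.mult (supp ξ) p = ∑ y, ind (p ∈ D.I y) * bit (ξ y) := by
  rw [mult_eq]
  have e : ∀ y, ind (p ∈ D.I y) * bit (ξ y) = if y ∈ supp ξ then ind (p ∈ D.I y) else 0 := by
    intro y
    cases h : ξ y <;> simp [h]
  simp only [e]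
  rw [sum_ite_mem, univ_inter]

theorem bias_supp_LC2 (ξ : Fin P.N → Bool) (p : Fin P.k) :
    D.bias (supp ξ) p =
      P.eps - P.eps * ∑ y, (ind (p ∉ D.E) * ind (p ∈ D.I y)) * (bit (ξ y) - D.σ y) := by
  unfold bias
  by_cases h : p ∈ D.E
  · rw [if_pos h, ind_neg (not_not.2 h)]; simp
  · rw [if_neg h, ind_pos h, mult_supp_LC2]
    unfold r
    have e : ∑ y, (1 * ind (p ∈ D.I y)) * (bit (ξ y) - D.σ y) =
        ∑ y, ind (p ∈ D.I y) * bit (ξ y) - ∑ y, D.σ y * ind (p ∈ D.I y) := by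
      rw [← sum_sub_distrib]; exact sum_congr rfl fun y _ => by ring
    rw [e]; ring

theorem wt_le_LC2 (hP : P.Ok) (p : Fin P.k) :
    ∑ y, D.σ y * (ind (p ∉ D.E) * ind (p ∈ D.I y)) ≤ P.V := by
  by_cases h : p ∈ D.E
  · rw [ind_neg (not_not.2 h)]; simpa using hP.hV.le
  · rw [ind_pos h]; simp only [one_mul]; exact D.r_le h

theorem ind_sq_LC2 (A B : Prop) : (ind A * ind B) ^ 2 = ind A * ind B := by
  by_cases h : A <;> by_cases h' : B <;> simp [ind_pos, ind_neg, h, h']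

theorem abs_ind_LC2 (A B : Prop) : |ind A * ind B| ≤ 1 := by
  by_cases h : A <;> by_cases h' : B <;> simp [ind_pos, ind_neg, h, h']

theorem Pr_bias (hP : P.Ok) (hD : D.Ok) :
    Pr (bern D.σ) (fun ξ => ¬ ∀ p, |D.bias (supp ξ) p| ≤ P.del) ≤ 1 / 20 := by
  have hp := D.isP_sig hP hD
  have he := hP.heps
  have key : ∀ (p : Fin P.k) (s : ℝ), |s| = 1 → Pr (bern D.σ) (fun ξ => P.del / (2 * P.eps) ≤
      ∑ y, (s * (ind (p ∉ D.E) * ind (p ∈ D.I y))) * (bit (ξ y) - D.σ y)) ≤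
      Real.exp (-(P.be1 * (P.del / (2 * P.eps))) + P.be1 ^ 2 * P.V) := by
    intro p s hs
    refine tail_bern hD.h0 (D.le_one hP hD) hP.hbe1 (fun y => ?_) ?_
    · rw [abs_mul, hs, one_mul]
      exact mul_le_one₀ hP.hbe1' (abs_nonneg _) (abs_ind_LC2 _ _)
    · have hs2 : s ^ 2 = 1 := by rw [← sq_abs, hs]; norm_num
      simp only [mul_pow s, hs2, one_mul, ind_sq_LC2]
      exact wt_le_LC2 hP p
  have h1 : Pr (bern D.σ) (fun ξ => ¬ ∀ p, |D.bias (supp ξ) p| ≤ P.del) ≤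
      Pr (bern D.σ) (fun ξ => ∃ p ∈ (univ : Finset (Fin P.k)), (P.del / (2 * P.eps) ≤
        ∑ y, (1 * (ind (p ∉ D.E) * ind (p ∈ D.I y))) * (bit (ξ y) - D.σ y)) ∨
        (P.del / (2 * P.eps) ≤
        ∑ y, ((-1) * (ind (p ∉ D.E) * ind (p ∈ D.I y))) * (bit (ξ y) - D.σ y))) := by
    refine Pr_mono hp fun ξ h => ?_
    push Not at h
    obtain ⟨p, h⟩ := h
    refine ⟨p, mem_univ _, ?_⟩
    rw [bias_supp_LC2] at h
    simp only [one_mul, neg_mul, sum_neg_distrib]
    set X := ∑ y, (ind (p ∉ D.E) * ind (p ∈ D.I y)) * (bit (ξ y) - D.σ y)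
    have hd := hP.hdel
    rw [div_le_iff₀ (by positivity), div_le_iff₀ (by positivity)]
    rcases lt_abs.1 h with h | h
    · right; nlinarith
    · left; nlinarith
  refine h1.trans ((Pr_exists_le hp _ _).trans ?_)
  have h2 := sum_le_card_nsmul (univ : Finset (Fin P.k)) _ _ (fun p _ =>
    (Pr_or_le hp _ _).trans (add_le_add (key p 1 (by simp)) (key p (-1) (by simp))))
  refine h2.trans ?_
  have := hP.c3b
  simp only [card_univ, Fintype.card_fin, nsmul_eq_mul]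
  linarith

theorem Pr_one_LC2 (hP : P.Ok) (hD : D.Ok) (y : Fin P.N) :
    Pr (bern D.σ) (fun ξ => ¬ (if y ∈ supp ξ then 0 else P.eps * (D.M y).card) - P.nu ≤
      ∑ p ∈ D.M y, D.bias (supp ξ) p) ≤
      Real.exp (-(P.be2 * (P.nu / P.eps)) + P.be2 ^ 2 * (P.c1 * P.mu * P.V)) := by
  have hp := D.isP_sig hP hD
  have he := hP.heps
  set m : Fin P.N → ℝ := fun y' => ∑ p ∈ D.M y, ind (p ∉ D.E) * ind (p ∈ D.I y') with hm
  have m0 : ∀ y', 0 ≤ m y' := fun y' =>
    sum_nonneg fun p _ => mul_nonneg (ind_nonneg _) (ind_nonneg _)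
  have m1 : m y ≤ (D.M y).card := by
    have := sum_le_card_nsmul (D.M y) (fun p => ind (p ∉ D.E) * ind (p ∈ D.I y)) 1
      (fun p _ => (le_abs_self _).trans (abs_ind_LC2 _ _))
    simpa using this
  have m2 : ∀ y', y' ≠ y → m y' ≤ P.c1 := by
    intro y' hy
    have a1 : m y' ≤ ∑ p ∈ D.M y, ind (p ∈ D.I y') :=
      sum_le_sum fun p _ => mul_le_of_le_one_left (ind_nonneg _) (ind_le_one _)
    rw [← card_flt] at a1
    have a2 : (flt (D.M y) (fun p => p ∈ D.I y')).card ≤ P.c1 :=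
      (card_le_card fun p hp' => mem_inter.2 ⟨(mem_flt.1 hp').2, hD.hM y (mem_flt.1 hp').1⟩).trans
        (hD.hc1 y' y hy)
    exact a1.trans (by exact_mod_cast a2)
  have m3 : ∑ y', D.σ y' * m y' ≤ P.mu * P.V := by
    simp only [hm, mul_sum]
    rw [sum_comm]
    refine (sum_le_card_nsmul _ _ P.V fun p _ => wt_le_LC2 hP p).trans ?_
    rw [nsmul_eq_mul]
    exact mul_le_mul_of_nonneg_right (by exact_mod_cast hD.hmu y) hP.hV.le
  set c : Fin P.N → ℝ := fun y' => if y' = y then 0 else m y' with hc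
  have c0 : ∀ y', 0 ≤ c y' := fun y' => by
    simp only [hc]; split_ifs
    · exact le_rfl
    · exact m0 y'
  have c1 : ∀ y', c y' ≤ P.c1 := fun y' => by
    simp only [hc]; split_ifs with h
    · positivity
    · exact m2 y' h
  have c2 : ∀ y', c y' ≤ m y' := fun y' => by
    simp only [hc]; split_ifs
    · exact m0 y'
    · exact le_rfl
  refine le_trans (Pr_mono hp fun ξ h => ?_) (tail_bern (c := c) hD.h0 (D.le_one hP hD) hP.hbe2
    (fun y' => ?_) ?_)
  · have e1 : ∑ p ∈ D.M y, D.bias (supp ξ) p =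
        P.eps * (D.M y).card - P.eps * ∑ y', m y' * (bit (ξ y') - D.σ y') := by
      simp only [bias_supp_LC2, sum_sub_distrib, sum_const, nsmul_eq_mul, hm, sum_mul]
      rw [← mul_sum, sum_comm, mul_comm]
    have e2 : ∑ y', m y' * (bit (ξ y') - D.σ y') =
        m y * (bit (ξ y) - D.σ y) + ∑ y', c y' * (bit (ξ y') - D.σ y') := by
      rw [← Finset.add_sum_erase univ _ (mem_univ y), ← Finset.add_sum_erase univ _ (mem_univ y)]
      have : c y = 0 := by simp [hc]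
      rw [this, zero_mul, zero_add]
      congr 1
      refine sum_congr rfl fun y' hy' => ?_
      simp only [hc, if_neg (ne_of_mem_erase hy')]
    rw [e1, e2] at h
    push Not at h
    set W := ∑ y', c y' * (bit (ξ y') - D.σ y')
    rw [div_le_iff₀ he]
    have a1 := mul_nonneg he.le (mul_nonneg (m0 y) (hD.h0 y))
    have a2 := mul_le_mul_of_nonneg_left m1 he.le
    cases hx : ξ y
    · rw [if_neg (by simp [hx]), hx, bit_false] at h; nlinarith
    · rw [if_pos (by simp [hx]), hx, bit_true] at h; nlinarith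
  · rw [abs_of_nonneg (c0 y')]
    exact (mul_le_mul_of_nonneg_left (c1 y') hP.hbe2).trans hP.hbe2'
  · have a1 : ∑ y', D.σ y' * c y' ^ 2 ≤ ∑ y', P.c1 * (D.σ y' * m y') := by
      refine sum_le_sum fun y' _ => ?_
      have := mul_le_mul (c1 y') (c2 y') (c0 y') (by positivity)
      have := mul_le_mul_of_nonneg_left this (hD.h0 y')
      nlinarith
    rw [← mul_sum] at a1
    have a2 := mul_le_mul_of_nonneg_left m3 (show (0 : ℝ) ≤ P.c1 by positivity)
    rw [mul_assoc]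
    exact a1.trans a2

theorem Pr_sum (hP : P.Ok) (hD : D.Ok) :
    Pr (bern D.σ) (fun ξ => ¬ ∀ y, (if y ∈ supp ξ then 0 else P.eps * (D.M y).card) - P.nu ≤
      ∑ p ∈ D.M y, D.bias (supp ξ) p) ≤ 1 / 20 := by
  have hp := D.isP_sig hP hD
  refine le_trans (Pr_mono hp (B := fun ξ => ∃ y ∈ (univ : Finset (Fin P.N)),
    ¬ (if y ∈ supp ξ then 0 else P.eps * (D.M y).card) - P.nu ≤
      ∑ p ∈ D.M y, D.bias (supp ξ) p) fun ξ h => ?_) ((Pr_exists_le hp _ _).trans ?_)
  · obtain ⟨y, hy⟩ := not_forall.1 h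
    exact ⟨y, mem_univ _, hy⟩
  · refine (sum_le_card_nsmul _ _ _ fun y _ => Pr_one_LC2 hP hD y).trans ?_
    have := hP.c3c
    simp only [card_univ, Fintype.card_fin, nsmul_eq_mul]
    linarith

theorem Pr_not_good (hP : P.Ok) (hD : D.Ok) :
    Pr (bern D.σ) (fun ξ => ¬ D.Good (supp ξ)) ≤ 3 / 20 := by
  have hp := D.isP_sig hP hD
  have h1 : Pr (bern D.σ) (fun ξ => ∃ y ∈ flt univ (fun y => y ∉ D.Ys), ξ y = true) ≤ 0 := by
    refine (Pr_exists_le hp _ _).trans (le_of_eq (sum_eq_zero fun y hy => ?_))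
    unfold Pr
    simp only [← bit_eq_ind]
    rw [Ex_bit hD.h0 (D.le_one hP hD), hD.hs y (mem_flt.1 hy).2]
  have hdu : (0 : ℝ) < P.du := by have := hP.hdu; exact_mod_cast this
  have h2 : Pr (bern D.σ) (fun ξ => (P.du : ℝ) ≤ ((supp ξ).card : ℝ)) ≤ 1 / 20 := by
    refine (markov hp (F := fun ξ => ((supp ξ).card : ℝ)) (fun _ => by positivity) hdu).trans ?_
    simp only [card_supp]
    rw [Ex_sum (bern D.σ) univ (fun y ξ => bit (ξ y))]
    simp only [Ex_bit hD.h0 (D.le_one hP hD)]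
    rw [div_le_iff₀ hdu]
    have := hD.ht; have := hP.c3a; linarith
  have h3 := Pr_bias hP hD
  have h4 := Pr_sum hP hD
  have h5 := (Pr_or_le hp _ _).trans (add_le_add h1 ((Pr_or_le hp _ _).trans
    (add_le_add h2 ((Pr_or_le hp _ _).trans (add_le_add h3 h4)))))
  refine le_trans (Pr_mono hp fun ξ h => ?_) (h5.trans (by norm_num))
  by_contra hc
  rw [not_or, not_or, not_or, not_not, not_not] at hc
  refine h ⟨fun y hy => ?_, ?_, hc.2.2.1, hc.2.2.2⟩
  · by_contra hn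
    exact hc.1 ⟨y, mem_flt.2 ⟨mem_univ _, hn⟩, mem_supp.1 hy⟩
  · have := (not_le.1 hc.2.1).le
    exact_mod_cast this

end Loc

end Pool.Agent.P.MP_b5e666_co.Lar
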