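import Pool.Agent.P.MP_b5e666_co.LC2

set_option autoImplicit false

open Finset

noncomputable section

namespace Pool.Agent.P.MP_b5e666_co.Lar

namespace Loc
variable {P : Par} {D : Loc P}

theorem hx_LC3 (hP : P.Ok) (hD : D.Ok) {S : Finset (Fin P.N)} (hS : D.Good S)
    (Ds : Finset (Fin P.N)) (hDs : Ds.card ≤ P.L) (U : Finset (Fin P.N)) (hU : U ⊆ S \ Ds) :
    P.l * U.card ≤ (xr D.Z U \ Ds.biUnion D.I).card := by
  have hUS : U ⊆ S := hU.trans sdiff_subset
  have h1 := hD.hX U (hUS.trans hS.1) ((card_le_card hUS).trans hS.2.1)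
  have h2 : xr D.Z U ∩ Ds.biUnion D.I ⊆
      U.biUnion (fun y => Ds.biUnion (fun y' => D.I y ∩ D.I y')) := by
    intro a ha
    obtain ⟨ha1, ha2⟩ := mem_inter.1 ha
    obtain ⟨y', hy', hay'⟩ := mem_biUnion.1 ha2
    have hodd := (mem_flt.1 ha1).2
    obtain ⟨y, hy⟩ := card_pos.1 hodd.pos
    obtain ⟨hyU, hay⟩ := mem_flt.1 hy
    exact mem_biUnion.2 ⟨y, hyU, mem_biUnion.2 ⟨y', hy', mem_inter.2 ⟨hD.hZ y hay, hay'⟩⟩⟩
  have h3 : (xr D.Z U ∩ Ds.biUnion D.I).card ≤ U.card * (P.L * P.c1) := by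
    refine (card_le_card h2).trans (card_biUnion_le_card_mul _ _ _ fun y hy => ?_)
    refine (card_biUnion_le_card_mul _ _ P.c1 fun y' hy' => ?_).trans
      (Nat.mul_le_mul_right _ hDs)
    refine hD.hc1 y y' fun h => ?_
    exact (mem_sdiff.1 (hU hy)).2 (h ▸ hy')
  have h4 := card_sdiff_add_card_inter (xr D.Z U) (Ds.biUnion D.I)
  have h5 : (P.l + P.c1 * P.L) * U.card ≤ P.lx * U.card := Nat.mul_le_mul_right _ hP.c4b
  nlinarith

theorem hS_LC3 (hP : P.Ok) {S : Finset (Fin P.N)} (hS : D.Good S) {U : Finset (Fin P.N)}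
    (hU : U ⊆ S) : (U.card : ℝ) * P.del ^ P.l ≤ 1 / 4 := by
  have h0 : 0 ≤ P.del := by have := hP.heps; have := hP.hdel; linarith
  have h1 : (U.card : ℝ) ≤ P.du := by exact_mod_cast (card_le_card hU).trans hS.2.1
  exact (mul_le_mul_of_nonneg_right h1 (pow_nonneg h0 _)).trans hP.c4a

theorem four_up (hP : P.Ok) (hD : D.Ok) {S : Finset (Fin P.N)} (hS : D.Good S)
    (Ds : Finset (Fin P.N)) (hDs : Ds.card ≤ P.L) {A : (Fin P.k → Bool) → Prop}
    (hA : Dep A (Ds.biUnion D.I)) :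
    2 ^ S.card * Pr (D.law S) (fun w => par D.Z D.cp S w ∧ A w) ≤
      3 / 2 * 2 ^ Ds.card * Pr (D.law S) A := by
  have hp := D.isP_law hP hS.2.2.1
  have hf := fourier D.Z D.cp (S \ Ds) (Ds.biUnion D.I) hS.2.2.1 hP.hdel1 P.l
    (hx_LC3 hP hD hS Ds hDs) (hS_LC3 hP hS sdiff_subset) (F := fun w => ind (A w))
    (fun w => ind_nonneg _) (hA.comp ind)
  have hf2 : 2 ^ (S \ Ds).card *
      Ex (D.law S) (fun w => ind (A w) * ind (par D.Z D.cp (S \ Ds) w)) ≤
      3 / 2 * Pr (D.law S) A := by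
    have := (abs_le.1 hf).2
    unfold Pr law
    linarith
  have h1 : Pr (D.law S) (fun w => par D.Z D.cp S w ∧ A w) ≤
      Ex (D.law S) (fun w => ind (A w) * ind (par D.Z D.cp (S \ Ds) w)) := by
    refine Ex_mono hp fun w => ?_
    rw [← ind_and]
    exact ind_mono fun h => ⟨h.2, fun y hy => h.1 y (mem_sdiff.1 hy).1⟩
  have h2 : (2 : ℝ) ^ S.card ≤ 2 ^ Ds.card * 2 ^ (S \ Ds).card := by
    rw [← pow_add]
    refine pow_le_pow_right₀ (by norm_num) ?_
    have := card_le_card_sdiff_add_card (s := S) (t := Ds)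
    omega
  have h3 := Pr_nonneg hp (fun w => par D.Z D.cp S w ∧ A w)
  calc 2 ^ S.card * Pr (D.law S) (fun w => par D.Z D.cp S w ∧ A w)
      ≤ (2 ^ Ds.card * 2 ^ (S \ Ds).card) *
          Ex (D.law S) (fun w => ind (A w) * ind (par D.Z D.cp (S \ Ds) w)) :=
        mul_le_mul h2 h1 h3 (by positivity)
    _ = 2 ^ Ds.card * (2 ^ (S \ Ds).card *
          Ex (D.law S) (fun w => ind (A w) * ind (par D.Z D.cp (S \ Ds) w))) := by ring
    _ ≤ 2 ^ Ds.card * (3 / 2 * Pr (D.law S) A) :=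
        mul_le_mul_of_nonneg_left hf2 (by positivity)
    _ = _ := by ring

theorem four_lo (hP : P.Ok) (hD : D.Ok) {S : Finset (Fin P.N)} (hS : D.Good S) :
    1 / 2 ≤ 2 ^ S.card * Pr (D.law S) (fun w => par D.Z D.cp S w) := by
  have hp := D.isP_law hP hS.2.2.1
  have hx : ∀ U ⊆ S, P.l * U.card ≤ (xr D.Z U \ (∅ : Finset (Fin P.k))).card := by
    intro U hU
    have := hx_LC3 hP hD hS ∅ (by simp) U (by simpa using hU)
    simpa using this
  have hf := fourier D.Z D.cp S ∅ hS.2.2.1 hP.hdel1 P.l hx (hS_LC3 hP hS subset_rfl)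
    (F := fun _ => 1) (fun _ => zero_le_one) (fun _ _ _ => rfl)
  have h1 : Ex (bern (fun p => (1 + D.bias S p) / 2)) (fun _ => (1 : ℝ)) = 1 := Ex_const hp 1
  rw [h1] at hf
  simp only [one_mul] at hf
  have := (abs_le.1 hf).1
  unfold Pr law
  linarith

theorem Qs_nonneg (hP : P.Ok) (A : Finset (Fin P.N) → (Fin P.k → Bool) → Prop)
    (S : Finset (Fin P.N)) : 0 ≤ D.Qs A S := by
  unfold Qs
  by_cases hS : D.Good S
  · exact mul_nonneg (ind_nonneg _)
      (mul_nonneg (by positivity) (Pr_nonneg (D.isP_law hP hS.2.2.1) _))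
  · rw [ind_neg hS, zero_mul]

theorem Qs_le (hP : P.Ok) (hD : D.Ok) (A : Finset (Fin P.N) → (Fin P.k → Bool) → Prop)
    (S : Finset (Fin P.N)) : D.Qs A S ≤ 3 / 2 := by
  unfold Qs
  by_cases hS : D.Good S
  · have hp := D.isP_law hP hS.2.2.1
    have h1 := four_up hP hD hS ∅ (by simp) (A := fun _ => True) (fun _ _ _ => rfl)
    rw [Pr_true hp (A := fun _ => True) (fun _ => trivial)] at h1
    have h2 : Pr (D.law S) (fun w => par D.Z D.cp S w ∧ A S w) ≤
        Pr (D.law S) (fun w => par D.Z D.cp S w ∧ True) :=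
      Pr_mono hp fun w h => ⟨h.1, trivial⟩
    have h3 := mul_le_mul_of_nonneg_left h2 (show (0 : ℝ) ≤ 2 ^ S.card by positivity)
    rw [ind_pos hS, one_mul]
    simp only [card_empty, pow_zero, mul_one] at h1
    exact h3.trans h1
  · rw [ind_neg hS, zero_mul]; norm_num

theorem mass (hP : P.Ok) (hD : D.Ok) : 2 / 5 ≤ D.Qm (fun _ _ => True) := by
  have hp := D.isP_sig hP hD
  have h1 := Pr_not_good hP hD
  rw [Pr_not hp (fun ξ => D.Good (supp ξ))] at h1
  have h2 : Ex (bern D.σ) (fun ξ => 1 / 2 * ind (D.Good (supp ξ))) ≤ D.Qm (fun _ _ => True) := by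
    refine Ex_mono hp fun ξ => ?_
    unfold Qs
    by_cases hS : D.Good (supp ξ)
    · have := four_lo hP hD hS
      simp only [ind_pos hS, and_true]
      linarith
    · rw [ind_neg hS]; simp
  rw [Ex_const_mul] at h2
  unfold Pr at h1
  linarith

theorem tail_LC3 (hP : P.Ok) (hD : D.Ok) {S : Finset (Fin P.N)} (hS : D.Good S) (y : Fin P.N) :
    Pr (D.law S) (fun w => ¬ ((if y ∈ S then 0 else P.eps * (D.M y).card) - 2 * P.nu ≤
      ∑ p ∈ D.M y, sg (w p))) ≤ Real.exp (-((P.nu : ℝ) ^ 2 / (16 * P.mu))) := by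
  have hp := D.isP_law hP hS.2.2.1
  have hmu : (0 : ℝ) < P.mu := by exact_mod_cast hP.hmu
  have hnu : (0 : ℝ) ≤ P.nu := Nat.cast_nonneg _
  have h5 : (P.nu : ℝ) ≤ 4 * P.mu := by exact_mod_cast hP.c5a
  have hs0 : ∀ p, 0 ≤ (1 + D.bias S p) / 2 := fun p => by
    have := (abs_le.1 (hS.2.2.1 p)).1; have := hP.hdel1; linarith
  have hs1 : ∀ p, (1 + D.bias S p) / 2 ≤ 1 := fun p => by
    have := (abs_le.1 (hS.2.2.1 p)).2; have := hP.hdel1; linarith
  have ht := tail_bern (σ := fun p => (1 + D.bias S p) / 2)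
    (c := fun p => if p ∈ D.M y then -2 else 0) hs0 hs1 (t := P.nu / (8 * P.mu)) (u := P.nu)
    (v := 4 * P.mu) (by positivity) (fun p => by
      split_ifs
      · rw [abs_neg, abs_two, div_mul_eq_mul_div, div_le_one (by positivity)]; linarith
      · simp) (by
      have e : ∀ p, (1 + D.bias S p) / 2 * (if p ∈ D.M y then (-2 : ℝ) else 0) ^ 2 ≤
          if p ∈ D.M y then 4 else 0 := fun p => by
        have := hs1 p
        split_ifs
        · linarith
        · simp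
      refine (sum_le_sum fun p _ => e p).trans ?_
      rw [sum_ite_mem, univ_inter, sum_const, nsmul_eq_mul]
      have : ((D.M y).card : ℝ) ≤ P.mu := by exact_mod_cast hD.hmu y
      linarith)
  have e2 : -((P.nu : ℝ) / (8 * P.mu) * P.nu) + ((P.nu : ℝ) / (8 * P.mu)) ^ 2 * (4 * P.mu) =
      -((P.nu : ℝ) ^ 2 / (16 * P.mu)) := by
    field_simp
    ring
  rw [e2] at ht
  refine (Pr_mono hp fun w hw => ?_).trans ht
  have h1 := hS.2.2.2 y
  have e3 : ∑ p, (if p ∈ D.M y then (-2 : ℝ) else 0) * (bit (w p) - (1 + D.bias S p) / 2) =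
      ∑ p ∈ D.M y, D.bias S p - ∑ p ∈ D.M y, sg (w p) := by
    simp only [ite_mul, zero_mul]
    rw [sum_ite_mem, univ_inter, ← sum_sub_distrib]
    refine sum_congr rfl fun p _ => ?_
    rw [sg_eq]; ring
  show (P.nu : ℝ) ≤ _
  rw [e3]
  have h2 := not_le.1 hw
  linarith

theorem invalid (hP : P.Ok) (hD : D.Ok) :
    D.Qm (fun S w => ¬ ∀ y, (if y ∈ S then 0 else P.eps * (D.M y).card) - 2 * P.nu ≤
      ∑ p ∈ D.M y, sg (w p)) ≤ 1 / 20 := by
  refine Ex_le_const (D.isP_sig hP hD) fun ξ => ?_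
  generalize supp ξ = S
  unfold Qs
  by_cases hS : D.Good S
  · have hp := D.isP_law hP hS.2.2.1
    rw [ind_pos hS, one_mul]
    obtain ⟨B, hB⟩ : ∃ B : Fin P.N → (Fin P.k → Bool) → Prop, B = fun y w =>
        ¬ ((if y ∈ S then 0 else P.eps * (D.M y).card) - 2 * P.nu ≤ ∑ p ∈ D.M y, sg (w p)) :=
      ⟨_, rfl⟩
    have h1 : Pr (D.law S) (fun w => par D.Z D.cp S w ∧ ¬ ∀ y,
        (if y ∈ S then 0 else P.eps * (D.M y).card) - 2 * P.nu ≤ ∑ p ∈ D.M y, sg (w p)) ≤
        ∑ y : Fin P.N, Pr (D.law S) (fun w => par D.Z D.cp S w ∧ B y w) := by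
      refine le_trans (Pr_mono hp fun w hw => ?_)
        (Pr_exists_le hp univ (fun y w => par D.Z D.cp S w ∧ B y w))
      obtain ⟨y, hy⟩ := not_forall.1 hw.2
      exact ⟨y, mem_univ _, hw.1, by rw [hB]; exact hy⟩
    have h2 : ∀ y : Fin P.N, 2 ^ S.card * Pr (D.law S) (fun w => par D.Z D.cp S w ∧ B y w) ≤
        3 * Real.exp (-((P.nu : ℝ) ^ 2 / (16 * P.mu))) := by
      intro y
      have hdep : Dep (B y) (({y} : Finset (Fin P.N)).biUnion D.I) := by
        intro w w' h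
        rw [hB]
        have : ∑ p ∈ D.M y, sg (w p) = ∑ p ∈ D.M y, sg (w' p) :=
          sum_congr rfl fun p hp => by rw [h p (by simpa using hD.hM y hp)]
        simp only [this]
      have h3 := four_up hP hD hS {y} (by simpa using hP.hL) hdep
      have h4 : Pr (D.law S) (B y) ≤ Real.exp (-((P.nu : ℝ) ^ 2 / (16 * P.mu))) := by
        rw [hB]; exact tail_LC3 hP hD hS y
      rw [card_singleton] at h3
      linarith
    have h5 := mul_le_mul_of_nonneg_left h1 (show (0 : ℝ) ≤ 2 ^ S.card by positivity)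
    rw [mul_sum] at h5
    have h6 := sum_le_sum (s := univ) fun y _ => h2 y
    rw [sum_const, card_univ, Fintype.card_fin, nsmul_eq_mul] at h6
    have h7 := hP.c5b
    linarith
  · rw [ind_neg hS, zero_mul]; norm_num

end Loc

end Pool.Agent.P.MP_b5e666_co.Lar
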