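import Pool.Agent.P.MP_b5e666_co.LC0

set_option autoImplicit false

open Finset

noncomputable section

namespace Pool.Agent.P.MP_b5e666_co.Lar

theorem sum_ind_LC4 {α : Type} [Fintype α] [DecidableEq α] (S : Finset α) (f : α → ℝ) :
    ∑ y, ind (y ∈ S) * f y = ∑ y ∈ S, f y := by
  simp only [ind_eq, ite_mul, one_mul, zero_mul, sum_ite_mem, univ_inter]

theorem card_inter_LC4 {α : Type} [DecidableEq α] (A T : Finset α) :
    ((A ∩ T).card : ℝ) = ∑ p ∈ T, ind (p ∈ A) := by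
  rw [← card_flt]
  congr 2
  ext p
  simp only [mem_inter, mem_flt]
  exact and_comm

theorem card_off_LC4 {α : Type} [DecidableEq α] (A T : Finset α) (h : 2 ≤ (A ∩ T).card) :
    ((A ∩ T).card : ℝ) ≤ ∑ e ∈ T.offDiag, ind (e.1 ∈ A ∧ e.2 ∈ A) := by
  rw [← card_flt]
  have e1 : flt T.offDiag (fun e => e.1 ∈ A ∧ e.2 ∈ A) = (A ∩ T).offDiag := by
    ext e
    simp only [mem_flt, mem_offDiag, mem_inter]
    tauto
  rw [e1, offDiag_card]
  have h2 : 2 * (A ∩ T).card ≤ (A ∩ T).card * (A ∩ T).card := Nat.mul_le_mul_right _ h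
  exact_mod_cast (by omega : (A ∩ T).card ≤ (A ∩ T).card * (A ∩ T).card - (A ∩ T).card)

namespace Loc
variable {P : Par} {D : Loc P}

variable {D0 Ds : Finset (Fin P.N)} {T2 : Finset (Fin P.k)} {a c : Fin P.N → ℝ}

theorem ex_LC4 (h : D.RhoH D0 Ds T2 a c) {p : Fin P.k} (hp : p ∈ T2) : ∃ y ∈ Ds, p ∈ D.I y := by
  obtain ⟨y, hy⟩ := card_pos.1 (by rw [h.one p hp]; exact Nat.one_pos :
    0 < (flt Ds (fun y => p ∈ D.I y)).card)
  exact ⟨y, mem_flt.1 hy⟩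

theorem card_T2 (hD : D.Ok) (h : D.RhoH D0 Ds T2 a c) : T2.card ≤ P.L * P.iu := by
  have h1 : T2 ⊆ Ds.biUnion D.I := fun p hp => mem_biUnion.2 (ex_LC4 h hp)
  refine (card_le_card h1).trans (card_biUnion_le.trans ?_)
  refine (sum_le_card_nsmul _ _ P.iu fun y _ => hD.hI y).trans ?_
  rw [smul_eq_mul]
  exact Nat.mul_le_mul_right _ h.cs

theorem inter_T2 (hD : D.Ok) (h : D.RhoH D0 Ds T2 a c) {y : Fin P.N} (hy : y ∉ Ds) :
    (D.I y ∩ T2).card ≤ P.c1 * P.L := by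
  have h1 : D.I y ∩ T2 ⊆ Ds.biUnion (fun y' => D.I y ∩ D.I y') := fun p hp => by
    obtain ⟨y', h2, h3⟩ := ex_LC4 h (mem_inter.1 hp).2
    exact mem_biUnion.2 ⟨y', h2, mem_inter.2 ⟨(mem_inter.1 hp).1, h3⟩⟩
  refine (card_le_card h1).trans (card_biUnion_le.trans ?_)
  refine (sum_le_card_nsmul _ _ P.c1 fun y' hy' => hD.hc1 y y' fun e => hy (e ▸ hy')).trans ?_
  rw [smul_eq_mul, mul_comm]
  exact Nat.mul_le_mul_left _ h.cs

theorem sum_Mul (hP : P.Ok) (hD : D.Ok) (h : D.RhoH D0 Ds T2 a c) :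
    ∑ y ∈ D.Mul D0 T2, D.σ y * (D.I y ∩ T2).card ≤ 1 := by
  have h1 : ∑ y ∈ D.Mul D0 T2, D.σ y * (D.I y ∩ T2).card ≤
      ∑ y, ∑ e ∈ T2.offDiag, D.σ y * ind (e.1 ∈ D.I y ∧ e.2 ∈ D.I y) := by
    refine le_trans (sum_le_sum fun y hy => ?_) (sum_le_sum_of_subset_of_nonneg (subset_univ _)
      fun y _ _ => sum_nonneg fun e _ => mul_nonneg (hD.h0 y) (ind_nonneg _))
    rw [← mul_sum]
    exact mul_le_mul_of_nonneg_left (card_off_LC4 _ _ (mem_flt.1 hy).2.2) (hD.h0 y)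
  rw [sum_comm] at h1
  refine h1.trans ((sum_le_card_nsmul _ _ P.th fun e he => ?_).trans ?_)
  · obtain ⟨e1, e2, e3⟩ := mem_offDiag.1 he
    exact not_lt.1 fun k => h.nh _ e1 _ e2 ⟨e3, h.nE _ e1, h.nE _ e2, k⟩
  · rw [nsmul_eq_mul]
    refine le_trans (mul_le_mul_of_nonneg_right ?_ hP.hth.le) hP.c7a
    have h2 : T2.offDiag.card ≤ (P.L * P.iu) ^ 2 := by
      rw [offDiag_card, sq]
      exact (Nat.sub_le _ _).trans (Nat.mul_le_mul (card_T2 hD h) (card_T2 hD h))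
    exact_mod_cast h2

theorem mult_LC4 (h : D.RhoH D0 Ds T2 a c) {p : Fin P.k} (hp : p ∈ T2) :
    D.mult D0 p - 1 = ∑ y ∈ D0 \ Ds, ind (p ∈ D.I y) := by
  have h1 : ∑ y ∈ Ds, ind (p ∈ D.I y) = 1 := by
    rw [← card_flt, h.one p hp, Nat.cast_one]
  rw [mult_eq, ← sum_sdiff h.sub, h1, add_sub_cancel_right]

theorem rest_LC4 (p : Fin P.k) : D.r p - ∑ y ∈ D.Sing D0 T2 p, c y =
    ∑ y, (D.σ y * ind (p ∈ D.I y) - ind (y ∈ D.Sing D0 T2 p) * c y) := by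
  rw [sum_sub_distrib, sum_ind_LC4, r]

theorem rest0_LC4 (hD : D.Ok) (h : D.RhoH D0 Ds T2 a c) (p : Fin P.k) :
    0 ≤ D.r p - ∑ y ∈ D.Sing D0 T2 p, c y := by
  rw [rest_LC4]
  refine sum_nonneg fun y _ => ?_
  by_cases hy : y ∈ D.Sing D0 T2 p
  · have h1 : p ∈ D.I y ∩ T2 := by
      rw [(mem_flt.1 hy).2.2]
      exact mem_singleton_self p
    rw [ind_pos hy, ind_pos (mem_inter.1 h1).1]
    linarith [h.hc1 y]
  · rw [ind_neg hy, zero_mul, sub_zero]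
    exact mul_nonneg (hD.h0 y) (ind_nonneg _)

theorem col_LC4 (hP : P.Ok) (hD : D.Ok) (h : D.RhoH D0 Ds T2 a c) (y : Fin P.N) :
    ∑ p ∈ T2, (D.σ y * ind (p ∈ D.I y) - ind (y ∈ D.Sing D0 T2 p) * c y) ≤
      ind (y ∈ D0) * (P.smax * P.iu) + ind (y ∈ D.Mul D0 T2) * (D.σ y * (D.I y ∩ T2).card) +
        a y := by
  rw [sum_sub_distrib, ← mul_sum, ← sum_mul, ← card_inter_LC4]
  have k1 : 0 ≤ (∑ p ∈ T2, ind (y ∈ D.Sing D0 T2 p)) * c y :=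
    mul_nonneg (sum_nonneg fun p _ => ind_nonneg _) (h.hc0 y)
  have k2 : 0 ≤ ind (y ∈ D0) * (P.smax * P.iu) :=
    mul_nonneg (ind_nonneg _) (mul_nonneg hP.hsmax0 (Nat.cast_nonneg _))
  have k3 : 0 ≤ ind (y ∈ D.Mul D0 T2) * (D.σ y * (D.I y ∩ T2).card) :=
    mul_nonneg (ind_nonneg _) (mul_nonneg (hD.h0 y) (Nat.cast_nonneg _))
  have k4 := h.ha y
  by_cases h0 : y ∈ D0
  · have k5 : ((D.I y ∩ T2).card : ℝ) ≤ P.iu := by
      exact_mod_cast (card_le_card inter_subset_left).trans (hD.hI y)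
    have k6 := mul_le_mul (hD.h1 y) k5 (Nat.cast_nonneg _) hP.hsmax0
    rw [ind_pos h0]
    linarith
  by_cases h2 : 2 ≤ (D.I y ∩ T2).card
  · rw [ind_pos (show y ∈ D.Mul D0 T2 from mem_flt.2 ⟨mem_univ _, h0, h2⟩)]
    linarith
  rcases (by omega : (D.I y ∩ T2).card = 0 ∨ (D.I y ∩ T2).card = 1) with h3 | h3
  · rw [h3] at k3 ⊢
    rw [Nat.cast_zero, mul_zero] at k3 ⊢
    linarith
  · obtain ⟨p, hp⟩ := card_eq_one.1 h3
    have k5 : p ∈ T2 := (mem_inter.1 (hp ▸ mem_singleton_self p : p ∈ D.I y ∩ T2)).2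
    have k6 : (1 : ℝ) ≤ ∑ p ∈ T2, ind (y ∈ D.Sing D0 T2 p) := by
      refine le_trans (ind_pos (show y ∈ D.Sing D0 T2 p from mem_flt.2 ⟨mem_univ _, h0, hp⟩)).ge ?_
      exact single_le_sum (f := fun p => ind (y ∈ D.Sing D0 T2 p)) (fun _ _ => ind_nonneg _) k5
    have k7 := mul_le_mul_of_nonneg_right k6 (h.hc0 y)
    have k8 := h.hc2 y
    rw [h3] at k3 ⊢
    rw [Nat.cast_one, mul_one] at k3 ⊢
    linarith

theorem sum_a0 (hP : P.Ok) (hD : D.Ok) (h : D.RhoH D0 Ds T2 a c) :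
    ∑ p ∈ T2, |D.a0 D0 T2 c p| ≤
      P.lam2 * P.c1 * P.L + P.lam2 * P.smax * P.iu + P.lam + 1 := by
  have h0 : (D0.card : ℝ) ≤ P.lam2 := by exact_mod_cast h.c0
  have h1 : ∑ p ∈ T2, |D.a0 D0 T2 c p| ≤
      ∑ p ∈ T2, ((D.mult D0 p - 1) + (D.r p - ∑ y ∈ D.Sing D0 T2 p, c y)) := by
    refine sum_le_sum fun p hp => ?_
    have k1 : 0 ≤ D.mult D0 p - 1 := by
      rw [mult_LC4 h hp]
      exact sum_nonneg fun y _ => ind_nonneg _
    have k2 := rest0_LC4 hD h p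
    rw [a0, abs_le]
    constructor <;> linarith
  have h2 : ∑ p ∈ T2, (D.mult D0 p - 1) ≤ P.lam2 * P.c1 * P.L := by
    rw [sum_congr rfl fun p hp => mult_LC4 h hp, sum_comm]
    refine (sum_le_card_nsmul _ _ ((P.c1 : ℝ) * P.L) fun y hy => ?_).trans ?_
    · rw [← card_inter_LC4]
      exact_mod_cast inter_T2 hD h (mem_sdiff.1 hy).2
    · rw [nsmul_eq_mul, mul_assoc]
      refine mul_le_mul_of_nonneg_right (le_trans ?_ h0) (by positivity)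
      exact_mod_cast card_le_card sdiff_subset
  have h3 : ∑ p ∈ T2, (D.r p - ∑ y ∈ D.Sing D0 T2 p, c y) ≤
      P.lam2 * P.smax * P.iu + 1 + P.lam := by
    rw [sum_congr rfl fun p _ => rest_LC4 p, sum_comm]
    refine (sum_le_sum fun y _ => col_LC4 hP hD h y).trans ?_
    rw [sum_add_distrib, sum_add_distrib, sum_ind_LC4, sum_ind_LC4, sum_const, nsmul_eq_mul,
      mul_assoc]
    exact add_le_add (add_le_add (mul_le_mul_of_nonneg_right h0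
      (mul_nonneg hP.hsmax0 (Nat.cast_nonneg _))) (sum_Mul hP hD h)) h.hat
  rw [sum_add_distrib] at h1
  linarith

end Loc

end Pool.Agent.P.MP_b5e666_co.Lar
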