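import Pool.Agent.P.MP_b5e666_co.LC4

set_option autoImplicit false

open Finset

noncomputable section

namespace Pool.Agent.P.MP_b5e666_co.Lar

namespace Loc
variable {P : Par} {D : Loc P}

variable {D0 Ds : Finset (Fin P.N)} {T2 : Finset (Fin P.k)} {a c : Fin P.N → ℝ}

theorem step_LC5 (z1 z2 t : ℝ) (h : |z2| ≤ t) :
    1 - z1 + z2 ≤ max (1 - z1) (1 / 2) * Real.exp (2 * t) := by
  have h1 : 1 - z1 ≤ max (1 - z1) (1 / 2) := le_max_left _ _
  have h2 : (1 / 2 : ℝ) ≤ max (1 - z1) (1 / 2) := le_max_right _ _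
  have h3 := Real.add_one_le_exp (2 * t)
  have h4 := le_abs_self z2
  have h5 := abs_nonneg z2
  have h6 : max (1 - z1) (1 / 2) * (2 * t + 1) ≤ max (1 - z1) (1 / 2) * Real.exp (2 * t) :=
    mul_le_mul_of_nonneg_left h3 (by linarith)
  nlinarith

theorem bit_nonneg_LC5 (b : Bool) : 0 ≤ bit b := by cases b <;> simp

theorem mult_LC5 (D : Loc P) (D0 : Finset (Fin P.N)) (T2 : Finset (Fin P.k))
    (e : Fin P.N → Bool) {p : Fin P.k} (hp : p ∈ T2) :
    D.mult (D0 ∪ supp e) p = D.mult D0 p + ∑ y ∈ D.Sing D0 T2 p, bit (e y) +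
      ∑ y ∈ D.Mul D0 T2, ind (p ∈ D.I y) * bit (e y) := by
  have key : ∀ (S : Finset (Fin P.N)) (f : Fin P.N → ℝ),
      ∑ y ∈ S, f y = ∑ y, ind (y ∈ S) * f y := fun S f => by
    simp only [ind_eq, ite_mul, one_mul, zero_mul]
    rw [sum_ite_mem, univ_inter]
  rw [mult_eq, mult_eq, key (D0 ∪ supp e), key D0, key (D.Sing D0 T2 p), key (D.Mul D0 T2),
    ← sum_add_distrib, ← sum_add_distrib]
  refine sum_congr rfl fun y _ => ?_
  by_cases h0 : y ∈ D0
  · have a1 : y ∉ D.Sing D0 T2 p := fun h => (mem_flt.1 h).2.1 h0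
    have a2 : y ∉ D.Mul D0 T2 := fun h => (mem_flt.1 h).2.1 h0
    rw [ind_pos (mem_union_left _ h0), ind_pos h0, ind_neg a1, ind_neg a2]
    ring
  · rw [ind_neg h0]
    have a0 : ind (y ∈ D0 ∪ supp e) = bit (e y) := by
      rw [bit_eq_ind]
      exact ind_congr (by simp [h0])
    rw [a0]
    by_cases hI : p ∈ D.I y
    · rw [ind_pos hI]
      by_cases h1 : D.I y ∩ T2 = {p}
      · have a1 : y ∈ D.Sing D0 T2 p := mem_flt.2 ⟨mem_univ _, h0, h1⟩
        have a2 : y ∉ D.Mul D0 T2 := fun h => by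
          have := (mem_flt.1 h).2.2
          rw [h1, card_singleton] at this
          omega
        rw [ind_pos a1, ind_neg a2]
        ring
      · have a1 : y ∉ D.Sing D0 T2 p := fun h => h1 (mem_flt.1 h).2.2
        have a2 : y ∈ D.Mul D0 T2 := by
          refine mem_flt.2 ⟨mem_univ _, h0, ?_⟩
          by_contra hc
          have hm : p ∈ D.I y ∩ T2 := mem_inter.2 ⟨hI, hp⟩
          exact h1 (eq_singleton_iff_unique_mem.2
            ⟨hm, fun x hx => card_le_one.1 (by omega) x hx p hm⟩)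
        rw [ind_neg a1, ind_pos a2]
        ring
    · have a1 : y ∉ D.Sing D0 T2 p := fun h => by
        have h2 : p ∈ D.I y ∩ T2 := by rw [(mem_flt.1 h).2.2]; exact mem_singleton_self p
        exact hI (mem_inter.1 h2).1
      rw [ind_neg hI, ind_neg a1]
      ring

theorem swap_LC5 (D : Loc P) (D0 : Finset (Fin P.N)) (T2 : Finset (Fin P.k))
    (e : Fin P.N → Bool) :
    ∑ p ∈ T2, 2 * (P.eps * ∑ y ∈ D.Mul D0 T2, ind (p ∈ D.I y) * bit (e y)) =
      ∑ y, (if y ∈ D.Mul D0 T2 then 2 * P.eps * (D.I y ∩ T2).card else 0) * bit (e y) := by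
  simp only [ite_mul, zero_mul]
  rw [sum_ite_mem, univ_inter]
  simp only [mul_sum]
  rw [sum_comm]
  refine sum_congr rfl fun y _ => ?_
  have : ((D.I y ∩ T2).card : ℝ) = ∑ p ∈ T2, ind (p ∈ D.I y) := by
    rw [← card_flt]
    congr 2
    ext p
    simp [and_comm]
  rw [this, mul_sum, sum_mul]
  exact sum_congr rfl fun p _ => by ring

theorem rho_point (hP : P.Ok) (h : D.RhoH D0 Ds T2 a c) (w : Fin P.k → Bool)
    (e : Fin P.N → Bool) (hb : ∀ p, |D.bias (D0 ∪ supp e) p| ≤ P.del) :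
    ∏ p ∈ T2, (1 + D.bias (D0 ∪ supp e) p * sg (w p)) ≤
      Real.exp (2 * P.eps * ∑ p ∈ T2, |D.a0 D0 T2 c p|) *
        ((∏ p ∈ T2, max (1 - P.eps * sg (w p) * ∑ y ∈ D.Sing D0 T2 p, (bit (e y) - c y)) (1 / 2)) *
          Real.exp (∑ y, (if y ∈ D.Mul D0 T2 then 2 * P.eps * (D.I y ∩ T2).card else 0) *
            bit (e y))) := by
  have he := hP.heps
  have pt : ∀ p ∈ T2, 1 + D.bias (D0 ∪ supp e) p * sg (w p) ≤
      Real.exp (2 * P.eps * |D.a0 D0 T2 c p|) *
        (max (1 - P.eps * sg (w p) * ∑ y ∈ D.Sing D0 T2 p, (bit (e y) - c y)) (1 / 2) *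
          Real.exp (2 * (P.eps * ∑ y ∈ D.Mul D0 T2, ind (p ∈ D.I y) * bit (e y)))) := by
    intro p hp
    have hm : 0 ≤ ∑ y ∈ D.Mul D0 T2, ind (p ∈ D.I y) * bit (e y) :=
      sum_nonneg fun y _ => mul_nonneg (ind_nonneg _) (bit_nonneg_LC5 _)
    have e1 : 1 + D.bias (D0 ∪ supp e) p * sg (w p) =
        1 - P.eps * sg (w p) * ∑ y ∈ D.Sing D0 T2 p, (bit (e y) - c y) +
          P.eps * sg (w p) * (D.a0 D0 T2 c p -
            ∑ y ∈ D.Mul D0 T2, ind (p ∈ D.I y) * bit (e y)) := by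
      unfold bias a0
      rw [if_neg (h.nE p hp), mult_LC5 D D0 T2 e hp, sum_sub_distrib]
      ring
    have e2 : |P.eps * sg (w p) * (D.a0 D0 T2 c p -
        ∑ y ∈ D.Mul D0 T2, ind (p ∈ D.I y) * bit (e y))| ≤
        P.eps * |D.a0 D0 T2 c p| + P.eps * ∑ y ∈ D.Mul D0 T2, ind (p ∈ D.I y) * bit (e y) := by
      rw [abs_mul, abs_mul, abs_sg, mul_one, abs_of_pos he, ← mul_add]
      refine mul_le_mul_of_nonneg_left ((abs_sub _ _).trans ?_) he.le
      rw [abs_of_nonneg hm]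
    rw [e1]
    refine (step_LC5 _ _ _ e2).trans (le_of_eq ?_)
    rw [mul_add, Real.exp_add, mul_assoc 2]
    ring
  refine (prod_le_prod (fun p _ => ?_) pt).trans (le_of_eq ?_)
  · have h1 := hb p
    have h2 := hP.hdel1
    have h3 : |D.bias (D0 ∪ supp e) p * sg (w p)| ≤ 1 := by
      rw [abs_mul, abs_sg, mul_one]
      linarith
    linarith [(abs_le.1 h3).1]
  · rw [prod_mul_distrib, prod_mul_distrib, ← Real.exp_sum, ← Real.exp_sum, swap_LC5, mul_sum]

theorem rho (hP : P.Ok) (hD : D.Ok) (h : D.RhoH D0 Ds T2 a c) (w : Fin P.k → Bool) :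
    Ex (bern c) (fun e => ind (∀ p, |D.bias (D0 ∪ supp e) p| ≤ P.del) *
      ∏ p ∈ T2, (1 + D.bias (D0 ∪ supp e) p * sg (w p))) ≤ Real.exp 2 := by
  have he := hP.heps
  have c1 : ∀ y, c y ≤ 1 := fun y => (h.hc1 y).trans (D.le_one hP hD y)
  have hc : IsP (bern c) := isP_bern h.hc0 c1
  have mx : ∀ (z : ℝ), 0 ≤ max z (1 / 2 : ℝ) := fun z =>
    le_trans (by norm_num) (le_max_right _ _)
  have dep1 : ∀ p ∈ T2, Dep (fun e : Fin P.N → Bool =>
      max (1 - P.eps * sg (w p) * ∑ y ∈ D.Sing D0 T2 p, (bit (e y) - c y)) (1 / 2))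
      (D.Sing D0 T2 p) := fun p _ e e' hee => by
    have : ∑ y ∈ D.Sing D0 T2 p, (bit (e y) - c y) = ∑ y ∈ D.Sing D0 T2 p, (bit (e' y) - c y) :=
      sum_congr rfl fun y hy => by rw [hee y hy]
    simp only [this]
  have dep2 : Dep (fun e : Fin P.N → Bool => ∏ p ∈ T2,
      max (1 - P.eps * sg (w p) * ∑ y ∈ D.Sing D0 T2 p, (bit (e y) - c y)) (1 / 2))
      (T2.biUnion (D.Sing D0 T2)) := fun e e' hee =>
    prod_congr rfl fun p hp => dep1 p hp e e' fun y hy => hee y (mem_biUnion.2 ⟨p, hp, hy⟩)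
  have dep3 : Dep (fun e : Fin P.N → Bool => Real.exp (∑ y,
      (if y ∈ D.Mul D0 T2 then 2 * P.eps * (D.I y ∩ T2).card else 0) * bit (e y)))
      (D.Mul D0 T2) := fun e e' hee => by
    refine congrArg Real.exp (sum_congr rfl fun y _ => ?_)
    by_cases hy : y ∈ D.Mul D0 T2
    · rw [hee y hy]
    · rw [if_neg hy, zero_mul, zero_mul]
  have dj1 : Disjoint (T2.biUnion (D.Sing D0 T2)) (D.Mul D0 T2) := by
    refine disjoint_left.2 fun y hy hy' => ?_
    obtain ⟨p, _, hp⟩ := mem_biUnion.1 hy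
    have := (mem_flt.1 hy').2.2
    rw [(mem_flt.1 hp).2.2, card_singleton] at this
    omega
  have dj2 : ∀ p ∈ T2, ∀ p' ∈ T2, p ≠ p' → Disjoint (D.Sing D0 T2 p) (D.Sing D0 T2 p') :=
    fun p _ p' _ hne => disjoint_left.2 fun y hy hy' =>
      hne (singleton_injective ((mem_flt.1 hy).2.2.symm.trans (mem_flt.1 hy').2.2))
  have b1 : Real.exp (2 * P.eps * ∑ p ∈ T2, |D.a0 D0 T2 c p|) ≤ Real.exp (1 / 2) := by
    refine Real.exp_le_exp.2 ?_
    have := mul_le_mul_of_nonneg_left (sum_a0 hP hD h) he.le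
    have := hP.c7b
    linarith
  have b2 : Ex (bern c) (fun e : Fin P.N → Bool => ∏ p ∈ T2,
      max (1 - P.eps * sg (w p) * ∑ y ∈ D.Sing D0 T2 p, (bit (e y) - c y)) (1 / 2)) ≤
      Real.exp (1 / 2) := by
    rw [Ex_prod_of_disjoint hc T2 (D.Sing D0 T2) _ dep1 dj2]
    have hη := Real.exp_pos (-(P.be3 / 2) + P.be3 ^ 2 * P.eps ^ 2 * P.V)
    have one : ∀ p ∈ T2, Ex (bern c) (fun e : Fin P.N → Bool =>
        max (1 - P.eps * sg (w p) * ∑ y ∈ D.Sing D0 T2 p, (bit (e y) - c y)) (1 / 2)) ≤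
        Real.exp (Real.exp (-(P.be3 / 2) + P.be3 ^ 2 * P.eps ^ 2 * P.V)) := by
      intro p hp
      have hv : ∑ y ∈ D.Sing D0 T2 p, c y ≤ P.V := by
        refine le_trans ?_ (D.r_le (h.nE p hp))
        unfold r
        refine le_trans (sum_le_sum fun y hy => ?_) (sum_le_sum_of_subset_of_nonneg
          (subset_univ (D.Sing D0 T2 p)) fun y _ _ => mul_nonneg (hD.h0 y) (ind_nonneg _))
        have h2 : p ∈ D.I y ∩ T2 := by rw [(mem_flt.1 hy).2.2]; exact mem_singleton_self p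
        rw [ind_pos (mem_inter.1 h2).1, mul_one]
        exact h.hc1 y
      have a1 := Ex_max_le h.hc0 c1 (D.Sing D0 T2 p) (e := P.eps * sg (w p)) hP.hbe3
        (by rw [abs_mul, abs_sg, mul_one, abs_of_pos he]; exact hP.hbe3') hv
      have a2 : (P.eps * sg (w p)) ^ 2 = P.eps ^ 2 := by
        rw [mul_pow, ← sq_abs (sg (w p)), abs_sg]
        ring
      rw [a2] at a1
      refine a1.trans ?_
      rw [add_comm]
      exact Real.add_one_le_exp _
    refine (prod_le_prod (fun p _ => Ex_nonneg hc fun e => mx _) one).trans ?_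
    rw [prod_const, ← Real.exp_nat_mul]
    refine Real.exp_le_exp.2 ?_
    have a3 : (T2.card : ℝ) ≤ (P.L : ℝ) * P.iu := by exact_mod_cast card_T2 hD h
    have a4 := mul_le_mul_of_nonneg_right a3 hη.le
    have := hP.c7e
    linarith
  have b3 : Ex (bern c) (fun e : Fin P.N → Bool => Real.exp (∑ y,
      (if y ∈ D.Mul D0 T2 then 2 * P.eps * (D.I y ∩ T2).card else 0) * bit (e y))) ≤
      Real.exp 1 := by
    refine (mgf_bern_pos h.hc0 c1 (fun y => ?_) (fun y => ?_)).trans (Real.exp_le_exp.2 ?_)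
    · split_ifs
      · positivity
      · exact le_rfl
    · split_ifs with hy
      · have a1 : ((D.I y ∩ T2).card : ℝ) ≤ (P.c1 : ℝ) * P.L := by
          exact_mod_cast inter_T2 hD h fun hs => (mem_flt.1 hy).2.1 (h.sub hs)
        have a2 := mul_le_mul_of_nonneg_left a1 he.le
        have := hP.c7c
        linarith
      · exact zero_le_one
    · have a1 : ∑ y, c y * (if y ∈ D.Mul D0 T2 then 2 * P.eps * (D.I y ∩ T2).card else 0) ≤
          2 * P.eps * ∑ y ∈ D.Mul D0 T2, D.σ y * (D.I y ∩ T2).card := by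
        simp only [mul_ite, mul_zero]
        rw [sum_ite_mem, univ_inter, mul_sum]
        refine sum_le_sum fun y _ => ?_
        have a2 := mul_le_mul_of_nonneg_right (h.hc1 y)
          (by positivity : 0 ≤ 2 * P.eps * ((D.I y ∩ T2).card : ℝ))
        linarith
      have a2 := mul_le_mul_of_nonneg_left (sum_Mul hP hD h) he.le
      have := hP.heps4
      linarith
  refine le_trans (Ex_mono hc (G := fun e => Real.exp (2 * P.eps * ∑ p ∈ T2, |D.a0 D0 T2 c p|) *
    ((∏ p ∈ T2, max (1 - P.eps * sg (w p) * ∑ y ∈ D.Sing D0 T2 p, (bit (e y) - c y)) (1 / 2)) *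
      Real.exp (∑ y, (if y ∈ D.Mul D0 T2 then 2 * P.eps * (D.I y ∩ T2).card else 0) *
        bit (e y)))) fun e => ?_) ?_
  · by_cases hb : ∀ p, |D.bias (D0 ∪ supp e) p| ≤ P.del
    · rw [ind_pos hb, one_mul]
      exact rho_point hP h w e hb
    · rw [ind_neg hb, zero_mul]
      exact mul_nonneg (Real.exp_pos _).le
        (mul_nonneg (prod_nonneg fun p _ => mx _) (Real.exp_pos _).le)
  · rw [Ex_const_mul, Ex_mul_of_disjoint hc dep2 dep3 dj1]
    have n2 := Ex_nonneg hc (F := fun e : Fin P.N → Bool => Real.exp (∑ y,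
      (if y ∈ D.Mul D0 T2 then 2 * P.eps * (D.I y ∩ T2).card else 0) * bit (e y)))
      fun e => (Real.exp_pos _).le
    have n1 := Ex_nonneg hc (F := fun e : Fin P.N → Bool => ∏ p ∈ T2,
      max (1 - P.eps * sg (w p) * ∑ y ∈ D.Sing D0 T2 p, (bit (e y) - c y)) (1 / 2))
      fun e => prod_nonneg fun p _ => mx _
    refine (mul_le_mul b1 (mul_le_mul b2 b3 n2 (Real.exp_pos _).le) (mul_nonneg n1 n2)
      (Real.exp_pos _).le).trans (le_of_eq ?_)
    rw [← Real.exp_add, ← Real.exp_add]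
    norm_num

end Loc

end Pool.Agent.P.MP_b5e666_co.Lar
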