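import Pool.Agent.P.MP_b5e666_co.LC1
import Pool.Agent.P.MP_b5e666_co.LC3
import Pool.Agent.P.MP_b5e666_co.LC5

set_option autoImplicit false

open Finset

noncomputable section

namespace Pool.Agent.P.MP_b5e666_co.Lar

namespace Loc
variable {P : Par} {D : Loc P}

theorem Pr_all_hit {t : Tgt P} (ht : D.TOk t) {Ds : Finset (Fin P.N)} (hs : Ds ⊆ t.Pl)
    (hc : D.Clean t.F Ds) :
    Pr (unif (Fin P.k) Bool) (fun w => ∀ y ∈ Ds, t.H y w) ≤ (1 / 4) ^ Ds.card := by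
  unfold Pr
  simp only [ind_forall]
  rw [Ex_prod_of_disjoint isP_unif Ds (fun y => D.I y \ t.F) (fun y w => ind (t.H y w))
    (fun y hy => (ht.dep y (hs hy)).comp ind) (fun y hy y' hy' hne => (hc.2 y hy y' hy' hne).1),
    ← prod_const]
  exact prod_le_prod (fun y _ => Pr_nonneg isP_unif _) (fun y hy => ht.sm y (hs hy))

theorem kill_good (hP : P.Ok) (hD : D.Ok) {t : Tgt P} (ht : D.TOk t) {D0 Ds : Finset (Fin P.N)}
    (hsub : Ds ⊆ D0) (hs : Ds ⊆ t.Pl) (hc : D.Clean t.F Ds) (hL : Ds.card = P.L)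
    (h0 : D0.card ≤ P.lam2) {a c : Fin P.N → ℝ} (ha : ∀ y, 0 ≤ a y) (hat : ∑ y, a y ≤ P.lam)
    (hc0 : ∀ y, 0 ≤ c y) (hc1 : ∀ y, c y ≤ D.σ y) (hc2 : ∀ y, D.σ y - a y ≤ c y) :
    Ex (bern c) (fun e => D.Qs (fun S w => ∀ y ∈ S, y ∈ t.Pl → t.H y w) (D0 ∪ supp e)) ≤
      3 / 2 * (Real.exp 2 * ((1 + P.del) ^ (3 * P.j) / 2) ^ P.L) := by
  obtain ⟨T2, hT2, hcard, h1, h2, h3⟩ := exists_T2 hc
  have hR : D.RhoH D0 Ds T2 a c := ⟨hsub, h0, hL.le, h1, h2, h3, ha, hat, hc0, hc1, hc2⟩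
  have hpc : IsP (bern c) := isP_bern hc0 fun y => (hc1 y).trans (D.le_one hP hD y)
  have hdel0 : 0 ≤ P.del := by have := hP.hdel; have := hP.heps; linarith
  have hA : Dep (fun w => ∀ y ∈ Ds, t.H y w) (Ds.biUnion (fun y => D.I y \ t.F)) := by
    intro w w' hw
    refine propext (forall₂_congr fun y hy => ?_)
    rw [ht.dep y (hs hy) w w' fun i hi => hw i (mem_biUnion.2 ⟨y, hy, hi⟩)]
  have hA' : Dep (fun w => ∀ y ∈ Ds, t.H y w) (Ds.biUnion D.I) :=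
    hA.mono (biUnion_mono fun y _ => sdiff_subset)
  have hK : (0 : ℝ) ≤ 3 / 2 * 2 ^ P.L * (1 + P.del) ^ (3 * P.j * P.L) := by positivity
  have key : ∀ e : Fin P.N → Bool,
      D.Qs (fun S w => ∀ y ∈ S, y ∈ t.Pl → t.H y w) (D0 ∪ supp e) ≤
        (3 / 2 * 2 ^ P.L * (1 + P.del) ^ (3 * P.j * P.L)) *
          Ex (unif (Fin P.k) Bool) (fun w => ind (∀ y ∈ Ds, t.H y w) *
            (ind (∀ p, |D.bias (D0 ∪ supp e) p| ≤ P.del) *
              ∏ p ∈ T2, (1 + D.bias (D0 ∪ supp e) p * sg (w p)))) := by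
    intro e
    have hnn : ∀ w : Fin P.k → Bool, 0 ≤ ind (∀ p, |D.bias (D0 ∪ supp e) p| ≤ P.del) *
        ∏ p ∈ T2, (1 + D.bias (D0 ∪ supp e) p * sg (w p)) := by
      intro w
      by_cases hb : ∀ p, |D.bias (D0 ∪ supp e) p| ≤ P.del
      · rw [ind_pos hb, one_mul]
        refine prod_nonneg fun p _ => ?_
        have e1 : |D.bias (D0 ∪ supp e) p * sg (w p)| ≤ 1 := by
          rw [abs_mul, abs_sg, mul_one]; exact (hb p).trans hP.hdel1
        linarith [(abs_le.1 e1).1]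
      · rw [ind_neg hb, zero_mul]
    have hE := Ex_nonneg (isP_unif (ι := Fin P.k) (β := Bool))
      (fun w => mul_nonneg (ind_nonneg (∀ y ∈ Ds, t.H y w)) (hnn w))
    unfold Qs
    by_cases hG : D.Good (D0 ∪ supp e)
    · have hb := hG.2.2.1
      rw [ind_pos hG, one_mul]
      simp only [ind_pos hb, one_mul] at hE ⊢
      have f1 := four_up hP hD hG Ds hL.le hA'
      have f2 := Pr_density_le hb hP.hdel1 hT2 hA
      have f3 : Pr (D.law (D0 ∪ supp e)) (fun w => par D.Z D.cp (D0 ∪ supp e) w ∧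
          ∀ y ∈ D0 ∪ supp e, y ∈ t.Pl → t.H y w) ≤
          Pr (D.law (D0 ∪ supp e)) (fun w => par D.Z D.cp (D0 ∪ supp e) w ∧
            ∀ y ∈ Ds, t.H y w) :=
        Pr_mono (D.isP_law hP hb) fun w hw =>
          ⟨hw.1, fun y hy => hw.2 y (mem_union_left _ (hsub hy)) (hs hy)⟩
      have f4 : (1 + P.del) ^ (Ds.biUnion (fun y => D.I y \ t.F) \ T2).card ≤
          (1 + P.del) ^ (3 * P.j * P.L) :=
        pow_le_pow_right₀ (by linarith) (hL ▸ hcard)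
      rw [hL] at f1
      calc _ ≤ _ := mul_le_mul_of_nonneg_left f3 (by positivity)
        _ ≤ _ := f1
        _ ≤ 3 / 2 * 2 ^ P.L * ((1 + P.del) ^ (3 * P.j * P.L) * _) :=
            mul_le_mul_of_nonneg_left (f2.trans (mul_le_mul_of_nonneg_right f4 hE))
              (by positivity)
        _ = _ := by ring
    · rw [ind_neg hG, zero_mul]
      exact mul_nonneg hK hE
  refine (Ex_mono hpc key).trans ?_
  rw [Ex_const_mul, Ex_comm]
  have k2 : Ex (unif (Fin P.k) Bool) (fun w => Ex (bern c) (fun e => ind (∀ y ∈ Ds, t.H y w) *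
      (ind (∀ p, |D.bias (D0 ∪ supp e) p| ≤ P.del) *
        ∏ p ∈ T2, (1 + D.bias (D0 ∪ supp e) p * sg (w p))))) ≤
      (1 / 4) ^ P.L * Real.exp 2 := by
    calc _ ≤ Ex (unif (Fin P.k) Bool) (fun w => ind (∀ y ∈ Ds, t.H y w) * Real.exp 2) := by
          refine Ex_mono isP_unif fun w => ?_
          rw [Ex_const_mul]
          exact mul_le_mul_of_nonneg_left (rho hP hD hR w) (ind_nonneg _)
      _ ≤ _ := by
          rw [Ex_mul_const, ← hL]
          exact mul_le_mul_of_nonneg_right (Pr_all_hit ht hs hc) (Real.exp_pos _).le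
  refine (mul_le_mul_of_nonneg_left k2 hK).trans (le_of_eq ?_)
  have e4 : (2 : ℝ) ^ P.L * (1 / 4) ^ P.L = (1 / 2) ^ P.L := by rw [← mul_pow]; norm_num
  rw [div_eq_mul_one_div ((1 + P.del) ^ (3 * P.j)), mul_pow, ← pow_mul, ← e4]
  ring

end Loc

end Pool.Agent.P.MP_b5e666_co.Lar
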