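import Pool.Agent.P.MP_b5e666_co.LC6

set_option autoImplicit false

open Finset

noncomputable section

namespace Pool.Agent.P.MP_b5e666_co.Lar

namespace Loc
variable {P : Par} {D : Loc P}

theorem kb_nonneg_LC7 (hP : P.Ok) : 0 ≤ P.kb := by
  unfold Par.kb
  have h1 : 0 ≤ P.lam := by have := hP.hlam; linarith
  have h2 : 0 ≤ 1 + P.del := by have := hP.hdel; have := hP.heps; linarith
  positivity

theorem kill (hP : P.Ok) (hD : D.Ok) {t : Tgt P} (ht : D.TOk t) :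
    D.Qm (fun S w => ∀ y ∈ S, y ∈ t.Pl → t.H y w) ≤ P.kb := by
  have hcard : 0 < t.Pl.card := by
    have := ht.big; have := hP.hmu0; omega
  have hcR : (0 : ℝ) < t.Pl.card := by exact_mod_cast hcard
  have hlam0 : 0 ≤ P.lam := by have := hP.hlam; linarith
  have hle : P.lam ≤ t.Pl.card := by
    obtain ⟨y, hy⟩ := card_pos.1 hcard
    have h1 := ht.wt y hy
    have h2 := D.le_one hP hD y
    have h3 : P.lam / t.Pl.card ≤ 1 := h1.trans h2
    rwa [div_le_one hcR] at h3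
  set a : Fin P.N → ℝ := fun y => if y ∈ t.Pl then P.lam / t.Pl.card else 0 with ha_def
  have ha0 : ∀ y, 0 ≤ a y := fun y => by
    simp only [ha_def]; split_ifs
    · positivity
    · exact le_rfl
  have haσ : ∀ y, a y ≤ D.σ y := fun y => by
    simp only [ha_def]; split_ifs with hy
    · exact ht.wt y hy
    · exact hD.h0 y
  have hσ2 : ∀ y, D.σ y ≤ 1 / 2 := fun y => (hD.h1 y).trans hP.hsmax
  have hpos : ∀ y, 0 < 1 - a y := fun y => by have := haσ y; have := hσ2 y; linarith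
  have hat : ∑ y, a y ≤ P.lam := by
    simp only [ha_def]
    rw [Finset.sum_ite_mem, univ_inter, sum_const, nsmul_eq_mul, mul_div_cancel₀ _ hcR.ne']
  set c : Fin P.N → ℝ := fun y => (D.σ y - a y) / (1 - a y) with hc_def
  have hc0 : ∀ y, 0 ≤ c y := fun y => div_nonneg (by have := haσ y; linarith) (hpos y).le
  have hc1 : ∀ y, c y ≤ D.σ y := fun y => by
    simp only [hc_def]
    rw [div_le_iff₀ (hpos y)]
    have h1 := ha0 y
    have h2 := hσ2 y
    nlinarith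
  have hc2 : ∀ y, D.σ y - a y ≤ c y := fun y => by
    simp only [hc_def]
    rw [le_div_iff₀ (hpos y)]
    have h1 := ha0 y
    have h2 := haσ y
    nlinarith
  have hun : ∀ y, 1 - D.σ y = (1 - a y) * (1 - c y) := fun y => by
    simp only [hc_def]
    have := (hpos y).ne'
    field_simp
    ring
  have hPa : IsP (bern a) := isP_bern ha0 fun y => by have := hpos y; linarith
  have hPc : IsP (bern c) := isP_bern hc0 fun y => by have := hc1 y; have := hσ2 y; linarith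
  set K : ℝ := 3 / 2 * (Real.exp 2 * ((1 + P.del) ^ (3 * P.j) / 2) ^ P.L) with hK
  have hK0 : 0 ≤ K := by
    have h2 : 0 ≤ 1 + P.del := by have := hP.hdel; have := hP.heps; linarith
    positivity
  unfold Qm
  rw [Ex_union hun (fun S => D.Qs (fun S w => ∀ y ∈ S, y ∈ t.Pl → t.H y w) S)]
  have hin : ∀ d : Fin P.N → Bool,
      Ex (bern c) (fun e => D.Qs (fun S w => ∀ y ∈ S, y ∈ t.Pl → t.H y w) (supp d ∪ supp e)) ≤
        3 / 2 * ind (P.lam2 < (supp d).card) +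
          (3 / 2 * ind (¬ ∃ Ds ⊆ supp d, Ds ⊆ t.Pl ∧ D.Clean t.F Ds ∧ Ds.card = P.L) + K) := by
    intro d
    have htriv : Ex (bern c)
        (fun e => D.Qs (fun S w => ∀ y ∈ S, y ∈ t.Pl → t.H y w) (supp d ∪ supp e)) ≤ 3 / 2 :=
      Ex_le_const hPc fun e => Qs_le hP hD _ _
    have i1 := ind_nonneg (P.lam2 < (supp d).card)
    have i2 := ind_nonneg (¬ ∃ Ds ⊆ supp d, Ds ⊆ t.Pl ∧ D.Clean t.F Ds ∧ Ds.card = P.L)
    by_cases h1 : P.lam2 < (supp d).card
    · rw [ind_pos h1]; linarith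
    · by_cases h2 : ∃ Ds ⊆ supp d, Ds ⊆ t.Pl ∧ D.Clean t.F Ds ∧ Ds.card = P.L
      · obtain ⟨Ds, hsub, hs, hcl, hL⟩ := h2
        have := kill_good hP hD ht hsub hs hcl hL (not_lt.1 h1) ha0 hat hc0 hc1 hc2
        linarith
      · rw [ind_pos h2]; linarith
  refine (Ex_mono hPa hin).trans ?_
  rw [Ex_add, Ex_add, Ex_const_mul, Ex_const_mul, Ex_const hPa]
  have b1 := Pr_supp_big t.Pl hlam0 hle P.lam2
  have b2 := Pr_no_clean t.Pl (D.Clean t.F) P.L hP.hlam hle
    ⟨fun y hy => absurd hy (notMem_empty y), fun y hy => absurd hy (notMem_empty y)⟩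
    (fun Ds _ hcl hL => clean_ext hP hD ht Ds hcl hL)
  unfold Pr at b1 b2
  unfold Par.kb
  rw [hK]
  linarith

/-- the local theorem -/
theorem core (hP : P.Ok) (hD : D.Ok) {τ : Type} (Ts : Finset τ) (T : τ → Tgt P)
    (hT : ∀ t ∈ Ts, D.TOk (T t)) (hc : Ts.card ≤ P.n * P.s2) :
    ∃ (S : Finset (Fin P.N)) (w : Fin P.k → Bool), S ⊆ D.Ys ∧ S.card ≤ P.du ∧ par D.Z D.cp S w ∧
      (∀ y, (if y ∈ S then 0 else P.eps * (D.M y).card) - 2 * P.nu ≤ ∑ p ∈ D.M y, sg (w p)) ∧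
      ∀ t ∈ Ts, ∃ y ∈ S, y ∈ (T t).Pl ∧ ¬ (T t).H y w := by
  by_contra hcon
  have hpt : ∀ S : Finset (Fin P.N), D.Qs (fun _ _ => True) S ≤
      D.Qs (fun S w => ¬ ∀ y, (if y ∈ S then 0 else P.eps * (D.M y).card) - 2 * P.nu ≤
        ∑ p ∈ D.M y, sg (w p)) S +
      ∑ t ∈ Ts, D.Qs (fun S w => ∀ y ∈ S, y ∈ (T t).Pl → (T t).H y w) S := by
    intro S
    by_cases hG : D.Good S
    · unfold Qs
      simp only [ind_pos hG, one_mul]
      rw [← mul_sum, ← mul_add]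
      refine mul_le_mul_of_nonneg_left ?_ (by positivity)
      have hl : IsP (D.law S) := D.isP_law hP hG.2.2.1
      refine le_trans ?_ (add_le_add le_rfl (Pr_exists_le hl Ts
        (fun t w => par D.Z D.cp S w ∧ ∀ y ∈ S, y ∈ (T t).Pl → (T t).H y w)))
      refine le_trans (Pr_mono hl ?_) (Pr_or_le hl _ _)
      rintro w ⟨hw, -⟩
      by_cases hv : ∀ y, (if y ∈ S then 0 else P.eps * (D.M y).card) - 2 * P.nu ≤
          ∑ p ∈ D.M y, sg (w p)
      · right
        by_contra hno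
        refine hcon ⟨S, w, hG.1, hG.2.1, hw, hv, fun t ht => ?_⟩
        by_contra hno2
        refine hno ⟨t, ht, hw, fun y hy hy2 => ?_⟩
        by_contra hH
        exact hno2 ⟨y, hy, hy2, hH⟩
      · exact Or.inl ⟨hw, hv⟩
    · unfold Qs
      simp only [ind_neg hG, zero_mul, sum_const_zero, add_zero, le_refl]
  have h1 := mass hP hD
  have h2 := invalid hP hD
  have h3 : ∑ t ∈ Ts, D.Qm (fun S w => ∀ y ∈ S, y ∈ (T t).Pl → (T t).H y w) ≤ Ts.card * P.kb := by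
    rw [← nsmul_eq_mul]
    exact sum_le_card_nsmul _ _ _ fun t ht => kill hP hD (hT t ht)
  have h4 : (Ts.card : ℝ) * P.kb ≤ ((P.n * P.s2 : ℕ) : ℝ) * P.kb :=
    mul_le_mul_of_nonneg_right (by exact_mod_cast hc) (kb_nonneg_LC7 hP)
  have h5 := hP.c8
  have h6 := Ex_mono (D.isP_sig hP hD) (fun ξ => hpt (supp ξ))
  rw [Ex_add, Ex_sum] at h6
  unfold Qm at h1 h2 h3
  linarith

end Loc

end Pool.Agent.P.MP_b5e666_co.Lar
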