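import Pool.Agent.P.MP_b5e666_co.LD0

set_option autoImplicit false

open Finset

noncomputable section

namespace Pool.Agent.P.MP_b5e666_co.Lar

variable {N k q : ℕ}

/-- subtract row x from all other rows -/
def shf [NeZero q] (x : Fin N) (f : Fin N → Fin k → Fin q) : Fin N → Fin k → Fin q :=
  fun y a => if y = x then f x a else f y a - f x a

/-- the zero set of row y -/
def zv [NeZero q] (x : Fin N) (f : Fin N → Fin k → Fin q) (y : Fin N) : Finset (Fin k) :=
  flt univ (fun a => x ≠ y ∧ f y a = 0)

theorem vw_eq_zv [NeZero q] (x : Fin N) (f : Fin N → Fin k → Fin q) :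
    vw f x = zv x (shf x f) := by
  funext y
  ext a
  simp only [mem_vw, zv, mem_flt, mem_univ, true_and, shf]
  constructor
  · rintro ⟨h1, h2⟩
    refine ⟨h1, ?_⟩
    rw [if_neg (fun h => h1 h.symm), h2, sub_self]
  · rintro ⟨h1, h2⟩
    refine ⟨h1, ?_⟩
    rw [if_neg (fun h => h1 h.symm)] at h2
    exact (sub_eq_zero.1 h2).symm

/-- the shift as a bijection -/
def shfE_LF0 [NeZero q] (x : Fin N) : (Fin N → Fin k → Fin q) ≃ (Fin N → Fin k → Fin q) where
  toFun := shf x
  invFun := fun g y a => if y = x then g x a else g y a + g x a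
  left_inv := by
    intro f
    funext y a
    by_cases h : y = x
    · subst h; simp [shf]
    · simp [shf, h]
  right_inv := by
    intro g
    funext y a
    by_cases h : y = x
    · subst h; simp [shf]
    · simp [shf, h]

/-- seen from x, the views are zero sets of independent uniform rows -/
theorem Pr_vw [NeZero q] (x : Fin N) (A : (Fin N → Finset (Fin k)) → Prop) :
    Pr (unif (Fin N) (Fin k → Fin q)) (fun f => A (vw f x)) =
      Pr (unif (Fin N) (Fin k → Fin q)) (fun f => A (zv x f)) := by
  rw [← Pr_unif_equiv (shfE_LF0 (k := k) (q := q) x) (fun f => A (zv x f))]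
  refine Pr_congr _ fun f => ?_
  rw [vw_eq_zv]
  rfl

/-- rows and columns may be exchanged -/
theorem Pr_swap {α β γ : Type} [Fintype α] [DecidableEq α] [Fintype β] [DecidableEq β]
    [Fintype γ] (A : (α → β → γ) → Prop) :
    Pr (unif α (β → γ)) A = Pr (unif β (α → γ)) (fun f => A (fun x a => f a x)) :=
  (Pr_unif_equiv (Equiv.piComm (fun (_ : β) (_ : α) => γ)) A).symm

/-- uncurried form -/
theorem Pr_uncurry {α β γ : Type} [Fintype α] [DecidableEq α] [Fintype β] [DecidableEq β]
    [Fintype γ] (A : (α → β → γ) → Prop) :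
    Pr (unif α (β → γ)) A = Pr (unif (α × β) γ) (fun f => A (fun x a => f (x, a))) :=
  (Pr_unif_equiv (Equiv.curry α β γ) A).symm

/-- cylinder events -/
theorem Pr_cyl {α γ : Type} [Fintype α] [DecidableEq α] [Fintype γ] [Nonempty γ] (W : Finset α)
    (B : α → γ → Prop) :
    Pr (unif α γ) (fun f => ∀ a ∈ W, B a (f a)) =
      ∏ a ∈ W, ((flt univ (B a)).card : ℝ) / Fintype.card γ := by
  have hp : IsP (unif α γ) := isP_unif
  have h := Ex_prod (unif α γ) (fun a c => if a ∈ W then ind (B a c) else 1)
  have e1 : ∀ f : α → γ, ind (∀ a ∈ W, B a (f a)) =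
      ∏ a, (if a ∈ W then ind (B a (f a)) else 1) := by
    intro f
    rw [ind_forall, Finset.prod_ite_mem, univ_inter]
  have e2 : ∀ a : α, (∑ c, unif α γ a c * (if a ∈ W then ind (B a c) else 1)) =
      if a ∈ W then ((flt univ (B a)).card : ℝ) / Fintype.card γ else 1 := by
    intro a
    by_cases ha : a ∈ W
    · simp only [if_pos ha]
      rw [card_flt, sum_div]
      refine sum_congr rfl fun c _ => ?_
      unfold unif
      rw [div_eq_mul_inv, mul_comm]
    · simp only [if_neg ha, mul_one]
      exact hp.2 a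
  unfold Pr
  rw [Ex_congr _ e1, h]
  simp only [e2]
  rw [Finset.prod_ite_mem, univ_inter]

theorem sum_unif_eq {α γ : Type} [Fintype γ] (a : α) (b : γ) :
    ∑ c, unif α γ a c * ind (c = b) = (Fintype.card γ : ℝ)⁻¹ := by
  rw [Finset.sum_eq_single b]
  · rw [ind_pos rfl, mul_one]; rfl
  · intro c _ hc
    rw [ind_neg hc, mul_zero]
  · intro h
    exact absurd (mem_univ b) h

end Pool.Agent.P.MP_b5e666_co.Lar
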