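import Pool.Agent.P.MP_b5e666_co.LF0

set_option autoImplicit false

open Finset

noncomputable section

namespace Pool.Agent.P.MP_b5e666_co.Lar

theorem col_LF1 {N k q : ℕ} [NeZero q] (a : Fin k) (W : Finset (Fin N)) :
    ∑ c, unif (Fin k) (Fin N → Fin q) a c * ind (∀ y ∈ W, c y = 0) = (q : ℝ)⁻¹ ^ W.card := by
  rw [sum_unif_fun a (fun c : Fin N → Fin q => ind (∀ y ∈ W, c y = 0))]
  have h := Pr_cyl (α := Fin N) (γ := Fin q) W (fun _ b => b = 0)
  have e : flt (univ : Finset (Fin q)) (fun b => b = 0) = {0} := by ext b; simp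
  rw [e, card_singleton, prod_const, Fintype.card_fin, Nat.cast_one, one_div] at h
  exact h

theorem col_le_LF1 {N k q : ℕ} [NeZero q] (a : Fin k) (W : Finset (Fin N))
    (A : (Fin N → Fin q) → Prop) (h : ∀ c, A c → ∀ y ∈ W, c y = 0) :
    ∑ c, unif (Fin k) (Fin N → Fin q) a c * ind (A c) ≤ (q : ℝ)⁻¹ ^ W.card := by
  rw [← col_LF1 a W]
  exact sum_le_sum fun c _ => mul_le_mul_of_nonneg_left (ind_mono (h c)) (isP_unif.1 a c)

theorem union_LF1 {ι β α : Type} [Fintype ι] [DecidableEq ι] [Fintype β] [Fintype α]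
    {p : ι → β → ℝ} (hp : IsP p) (B : (ι → β) → Prop) (A : α → (ι → β) → Prop) (η : ℝ)
    (h : ∀ w, B w → ∃ a, A a w) (hA : ∀ a, Pr p (A a) ≤ η) :
    Pr p B ≤ Fintype.card α * η := by
  refine (Pr_mono hp (B := fun w => ∃ a ∈ univ, A a w) fun w hw => ?_).trans
    ((Pr_exists_le hp univ A).trans ?_)
  · obtain ⟨a, ha⟩ := h w hw
    exact ⟨a, mem_univ a, ha⟩
  · refine (sum_le_card_nsmul _ _ η fun a _ => hA a).trans ?_
    rw [card_univ, nsmul_eq_mul]

variable {P : Par}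

theorem kq_LF1 (hP : P.Ok) : (P.q : ℝ)⁻¹ * P.k = P.i := by
  have h : (P.q : ℝ) ≠ 0 := by
    have := hP.hq
    positivity
  rw [hP.hk]
  push_cast
  field_simp

theorem Pr_not_V1 (hP : P.Ok) :
    Pr (unif (Fin P.N) (Fin P.k → Fin P.q)) (fun f => ¬ V1 f P.iu) ≤ 1 / 10 := by
  have : NeZero P.q := ⟨by have := hP.hq; omega⟩
  refine (union_LF1 isP_unif _ (fun (e : Fin P.N × Fin P.N) f =>
    (P.iu : ℝ) ≤ (vw f e.1 e.2).card) (Real.exp (-(P.iu : ℝ) + 2 * P.i)) ?_ ?_).trans ?_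
  · intro f hf
    unfold V1 at hf
    push Not at hf
    obtain ⟨x, y, h⟩ := hf
    exact ⟨(x, y), by exact_mod_cast h.le⟩
  · rintro ⟨x, y⟩
    rw [Pr_vw x (fun v => (P.iu : ℝ) ≤ (v y).card), Pr_swap]
    have h := chern_up (isP_unif (ι := Fin P.k) (β := Fin P.N → Fin P.q)) univ
      (fun _ c => x ≠ y ∧ c y = 0) (π := (P.q : ℝ)⁻¹) (t := 1) (u := P.iu)
      (fun a _ => by simpa using col_le_LF1 a {y} (fun c => x ≠ y ∧ c y = 0) (by simp))
      zero_le_one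
    refine le_trans h (Real.exp_le_exp.2 ?_)
    rw [card_univ, Fintype.card_fin, mul_assoc, kq_LF1 hP]
    have h1 := Real.exp_one_lt_d9
    have h2 : (0 : ℝ) ≤ P.i := Nat.cast_nonneg _
    nlinarith
  · have := hP.f1
    simpa [sq] using this

theorem Pr_not_V1' (hP : P.Ok) :
    Pr (unif (Fin P.N) (Fin P.k → Fin P.q)) (fun f => ¬ V1' f P.i) ≤ 1 / 10 := by
  have : NeZero P.q := ⟨by have := hP.hq; omega⟩
  refine (union_LF1 isP_unif _ (fun (e : Fin P.N × Fin P.N) f =>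
    e.1 ≠ e.2 ∧ ((vw f e.1 e.2).card : ℝ) ≤ P.i / 2) (Real.exp (-((P.i : ℝ) / 10))) ?_ ?_).trans ?_
  · intro f hf
    unfold V1' at hf
    push Not at hf
    obtain ⟨x, y, hxy, h⟩ := hf
    refine ⟨(x, y), hxy, ?_⟩
    have : (2 : ℝ) * (vw f x y).card < P.i := by exact_mod_cast h
    change ((vw f x y).card : ℝ) ≤ P.i / 2
    linarith
  · rintro ⟨x, y⟩
    by_cases hxy : x = y
    · rw [Pr_false isP_unif (fun _ h => h.1 hxy)]
      exact (Real.exp_pos _).le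
    refine (Pr_mono isP_unif (B := fun f => ((vw f x y).card : ℝ) ≤ P.i / 2)
      fun _ h => h.2).trans ?_
    rw [Pr_vw x (fun v => ((v y).card : ℝ) ≤ P.i / 2), Pr_swap]
    have h := chern_lo (isP_unif (ι := Fin P.k) (β := Fin P.N → Fin P.q)) univ
      (fun _ c => x ≠ y ∧ c y = 0) (π := (P.q : ℝ)⁻¹) (u := P.i / 2)
      (fun a _ => by simpa [hxy] using (col_LF1 a {y}).ge)
    refine le_trans h (Real.exp_le_exp.2 ?_)
    rw [card_univ, Fintype.card_fin, mul_assoc, kq_LF1 hP]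
    linarith
  · have := hP.f1'
    simpa [sq] using this

theorem Pr_not_V2 (hP : P.Ok) :
    Pr (unif (Fin P.N) (Fin P.k → Fin P.q)) (fun f => ¬ V2 f P.c1) ≤ 1 / 10 := by
  have : NeZero P.q := ⟨by have := hP.hq; omega⟩
  have hq : (0 : ℝ) < P.q := by
    have := hP.hq
    positivity
  have hk : (0 : ℝ) < P.k := by
    have := hP.hi
    rw [hP.hk]
    push_cast
    positivity
  have hr : (1 : ℝ) ≤ (P.q : ℝ) ^ 2 / P.k := by
    rw [le_div_iff₀ hk, one_mul]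
    exact_mod_cast hP.f2a
  refine (union_LF1 isP_unif _ (fun (e : Fin P.N × Fin P.N × Fin P.N) f =>
    e.2.1 ≠ e.2.2 ∧ (P.c1 : ℝ) ≤ (vw f e.1 e.2.1 ∩ vw f e.1 e.2.2).card)
    (Real.exp 1 * ((P.k : ℝ) / (P.q : ℝ) ^ 2) ^ P.c1) ?_ ?_).trans ?_
  · intro f hf
    unfold V2 at hf
    push Not at hf
    obtain ⟨x, y, y', hy, h⟩ := hf
    exact ⟨(x, y, y'), hy, by exact_mod_cast h.le⟩
  · rintro ⟨x, y, y'⟩
    by_cases hy : y = y'
    · rw [Pr_false isP_unif (fun _ h => h.1 hy)]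
      positivity
    refine (Pr_mono isP_unif (B := fun f => (P.c1 : ℝ) ≤ (vw f x y ∩ vw f x y').card)
      fun _ h => h.2).trans ?_
    rw [Pr_vw x (fun v => (P.c1 : ℝ) ≤ (v y ∩ v y').card), Pr_swap]
    have h := chern_up (isP_unif (ι := Fin P.k) (β := Fin P.N → Fin P.q)) univ
      (fun _ c => c y = 0 ∧ c y' = 0) (π := (P.q : ℝ)⁻¹ ^ 2) (t := Real.log ((P.q : ℝ) ^ 2 / P.k))
      (u := P.c1)
      (fun a _ => by
        have := col_le_LF1 a {y, y'} (fun c : Fin P.N → Fin P.q => c y = 0 ∧ c y' = 0) (by simp)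
        rwa [card_pair hy] at this)
      (Real.log_nonneg hr)
    refine (Pr_mono isP_unif fun f hf => ?_).trans (h.trans ?_)
    · refine hf.trans (Nat.cast_le.2 (card_le_card fun a ha => ?_))
      simp only [zv, mem_inter, mem_flt] at ha
      exact mem_flt.2 ⟨mem_univ a, ha.1.2.2, ha.2.2.2⟩
    · rw [card_univ, Fintype.card_fin, Real.exp_log (by positivity), Real.exp_add, mul_comm _ (P.c1 : ℝ),
        ← mul_neg, Real.exp_nat_mul, Real.exp_neg, Real.exp_log (by positivity), inv_div, mul_comm]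
      refine mul_le_mul_of_nonneg_right (Real.exp_le_exp.2 ?_) (by positivity)
      have e : ((P.q : ℝ) ^ 2 / P.k - 1) * (P.q : ℝ)⁻¹ ^ 2 * P.k = 1 - P.k / (P.q : ℝ) ^ 2 := by
        field_simp
      rw [e]
      have : 0 ≤ (P.k : ℝ) / (P.q : ℝ) ^ 2 := by positivity
      linarith
  · refine le_of_eq_of_le ?_ hP.f2
    simp only [Fintype.card_prod, Fintype.card_fin]
    push_cast
    ring

end Pool.Agent.P.MP_b5e666_co.Lar
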