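import Pool.Agent.P.MP_b5e666_co.LF0

set_option autoImplicit false

open Finset

noncomputable section

namespace Pool.Agent.P.MP_b5e666_co.Lar

variable {P : Par}

theorem row_LF2 {k q : ℕ} (hq : 0 < q) (Q : Finset (Fin k × Fin q)) :
    Pr (unif (Fin k) (Fin q)) (fun c => ∀ p ∈ Q, c p.1 = p.2) ≤ ((q : ℝ) ^ Q.card)⁻¹ := by
  classical
  haveI : Nonempty (Fin q) := ⟨⟨0, hq⟩⟩
  have hq' : (0 : ℝ) < q := by exact_mod_cast hq
  by_cases hinj : Set.InjOn Prod.fst (Q : Set (Fin k × Fin q))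
  · have h1 : Pr (unif (Fin k) (Fin q)) (fun c => ∀ p ∈ Q, c p.1 = p.2) ≤
        Pr (unif (Fin k) (Fin q)) (fun c => ∀ a ∈ Q.image Prod.fst, (a, c a) ∈ Q) := by
      refine Pr_mono isP_unif fun c hc a ha => ?_
      obtain ⟨p, hp, rfl⟩ := mem_image.1 ha
      rw [hc p hp]
      exact hp
    refine h1.trans ?_
    rw [Pr_cyl (Q.image Prod.fst) (fun a b => (a, b) ∈ Q), ← card_image_of_injOn hinj, ← inv_pow,
      ← prod_const]
    refine prod_le_prod (fun a _ => by positivity) fun a _ => ?_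
    have h2 : (flt univ (fun b => (a, b) ∈ Q)).card ≤ 1 := by
      refine card_le_one.2 fun b hb b' hb' => ?_
      have := hinj (mem_coe.2 (mem_flt.1 hb).2) (mem_coe.2 (mem_flt.1 hb').2) rfl
      exact congrArg Prod.snd this
    have h3 : ((flt univ (fun b => (a, b) ∈ Q)).card : ℝ) ≤ 1 := by exact_mod_cast h2
    rw [Fintype.card_fin, ← one_div]
    exact div_le_div_of_nonneg_right h3 hq'.le
  · rw [Pr_false isP_unif]
    · positivity
    · intro c hc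
      refine hinj fun p hp p' hp' e => Prod.ext e ?_
      rw [← hc p hp, ← hc p' hp', e]

theorem one_LF2 {N k q jm : ℕ} (hq : 0 < q) (Q : Finset (Fin k × Fin q)) (hQ : Q.card ≤ jm) :
    Pr (unif (Fin N) (Fin k → Fin q))
      (fun f => 6 * N / (q : ℝ) ^ Q.card ≤ ((flt univ (fun y => Q ⊆ cel f y)).card : ℝ)) ≤
      Real.exp (-(3 * N / (q : ℝ) ^ jm)) := by
  haveI : Nonempty (Fin q) := ⟨⟨0, hq⟩⟩
  have hq' : (1 : ℝ) ≤ q := by exact_mod_cast hq
  have h1 := chern_up (p := unif (Fin N) (Fin k → Fin q)) isP_unif univ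
    (fun _ c => ∀ p ∈ Q, c p.1 = p.2) (π := ((q : ℝ) ^ Q.card)⁻¹) (t := 1)
    (u := 6 * N / (q : ℝ) ^ Q.card)
    (fun y _ => by
      rw [sum_unif_fun y (fun c : Fin k → Fin q => ind (∀ p ∈ Q, c p.1 = p.2))]
      exact row_LF2 hq Q) zero_le_one
  have e1 : ∀ f : Fin N → Fin k → Fin q, flt univ (fun y => Q ⊆ cel f y) =
      flt univ (fun y => ∀ p ∈ Q, f y p.1 = p.2) := by
    intro f
    ext y
    simp only [mem_flt, mem_univ, true_and]
    exact ⟨fun h p hp => mem_cel.1 (h hp), fun h p hp => mem_cel.2 (h p hp)⟩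
  simp only [e1]
  refine h1.trans (Real.exp_le_exp.2 ?_)
  rw [card_univ, Fintype.card_fin]
  have h2 : Real.exp 1 - 1 ≤ 2 := by linarith [Real.exp_one_lt_d9]
  have h3 : ((q : ℝ) ^ jm)⁻¹ ≤ ((q : ℝ) ^ Q.card)⁻¹ :=
    inv_anti₀ (by positivity) (pow_le_pow_right₀ hq' hQ)
  have hN : (0 : ℝ) ≤ N := Nat.cast_nonneg _
  have h4 := mul_le_mul_of_nonneg_left h3 hN
  have h5 : (0 : ℝ) ≤ ((q : ℝ) ^ Q.card)⁻¹ * N := by positivity
  have h6 := mul_le_mul_of_nonneg_right h2 h5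
  rw [div_eq_mul_inv, div_eq_mul_inv]
  linarith

theorem Pr_not_V3 (hP : P.Ok) :
    Pr (unif (Fin P.N) (Fin P.k → Fin P.q)) (fun f => ¬ V3 f (2 * P.j)) ≤ 1 / 10 := by
  have hq : 0 < P.q := lt_of_lt_of_le (by norm_num) hP.hq
  haveI : Nonempty (Fin P.q) := ⟨⟨0, hq⟩⟩
  have h1 : Pr (unif (Fin P.N) (Fin P.k → Fin P.q)) (fun f => ¬ V3 f (2 * P.j)) ≤
      Pr (unif (Fin P.N) (Fin P.k → Fin P.q)) (fun f =>
        ∃ Q ∈ flt (univ : Finset (Finset (Fin P.k × Fin P.q))) (fun V => V.card ≤ 2 * P.j),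
          6 * P.N / (P.q : ℝ) ^ Q.card ≤ ((flt univ (fun y => Q ⊆ cel f y)).card : ℝ)) := by
    refine Pr_mono isP_unif fun f hf => ?_
    unfold V3 at hf
    push Not at hf
    obtain ⟨Q, hQ, h⟩ := hf
    exact ⟨Q, mem_flt.2 ⟨mem_univ _, hQ⟩, h.le⟩
  refine h1.trans ((Pr_exists_le isP_unif _ (fun (Q : Finset (Fin P.k × Fin P.q)) f =>
    6 * P.N / (P.q : ℝ) ^ Q.card ≤ ((flt univ (fun y => Q ⊆ cel f y)).card : ℝ))).trans ?_)
  refine (sum_le_card_nsmul _ _ _ fun Q hQ => one_LF2 hq Q (mem_flt.1 hQ).2).trans ?_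
  rw [nsmul_eq_mul]
  refine le_trans (mul_le_mul_of_nonneg_right ?_ (Real.exp_pos _).le) hP.f3
  have h2 := card_small_le (Fin P.k × Fin P.q) (2 * P.j)
  rw [Fintype.card_prod, Fintype.card_fin, Fintype.card_fin] at h2
  exact_mod_cast h2

end Pool.Agent.P.MP_b5e666_co.Lar
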