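import Pool.Agent.P.MP_b5e666_co.LF0

set_option autoImplicit false

open Finset

noncomputable section

namespace Pool.Agent.P.MP_b5e666_co.Lar

theorem one_LF3 {N k q z c : ℕ} (hq : 1 ≤ q) (hz : 1 ≤ z) (hzq : z ^ 2 ≤ q) (x : Fin N)
    (W : Finset (Fin k)) (Y : Finset (Fin N)) :
    Pr (unif (Fin N) (Fin k → Fin q)) (fun f => W.card ≤ z ∧ Y.card ≤ z ∧
      c * (W.card + Y.card) < ∑ y ∈ Y, (W ∩ vw f x y).card) ≤
      3 * ((((z : ℝ) ^ 2 / q) ^ c) ^ W.card * (((z : ℝ) ^ 2 / q) ^ c) ^ Y.card) := by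
  have : NeZero q := ⟨by omega⟩
  have hq0 : (0 : ℝ) < q := by exact_mod_cast hq
  have hz0 : (0 : ℝ) < (z : ℝ) ^ 2 := by
    have : (0 : ℝ) < z := by exact_mod_cast hz
    positivity
  have hzq' : (z : ℝ) ^ 2 ≤ q := by exact_mod_cast hzq
  by_cases hc : W.card ≤ z ∧ Y.card ≤ z
  swap
  · rw [Pr_false isP_unif fun f h => hc ⟨h.1, h.2.1⟩]
    positivity
  rw [Pr_vw x (fun v => W.card ≤ z ∧ Y.card ≤ z ∧
    c * (W.card + Y.card) < ∑ y ∈ Y, (W ∩ v y).card), Pr_uncurry]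
  have ht : 0 ≤ Real.log (q / (z : ℝ) ^ 2) := Real.log_nonneg ((one_le_div hz0).2 hzq')
  have hch := chern_up (p := unif (Fin N × Fin k) (Fin q)) isP_unif (Y ×ˢ W)
    (fun _ b => b = 0) (π := (q : ℝ)⁻¹) (u := ((c * (W.card + Y.card) : ℕ) : ℝ))
    (fun i _ => by rw [sum_unif_eq, Fintype.card_fin]) ht
  refine (Pr_mono isP_unif fun g hg => ?_).trans (hch.trans ?_)
  · have h1 : ((∑ y ∈ Y, (W ∩ zv x (fun x a => g (x, a)) y).card : ℕ) : ℝ) ≤
        ((flt (Y ×ˢ W) (fun i => g i = 0)).card : ℝ) := by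
      rw [card_flt, sum_product, Nat.cast_sum]
      refine sum_le_sum fun y _ => ?_
      rw [← card_flt]
      refine Nat.cast_le.2 (card_le_card fun a ha => ?_)
      have h2 := mem_inter.1 ha
      exact mem_flt.2 ⟨h2.1, (mem_flt.1 h2.2).2.2⟩
    exact (Nat.cast_le.2 hg.2.2.le).trans h1
  · rw [Real.exp_add, mul_comm (3 : ℝ)]
    refine mul_le_mul (le_of_eq ?_) ?_ (Real.exp_pos _).le (by positivity)
    · rw [← pow_add, ← pow_mul, mul_comm (Real.log _), ← mul_neg, Real.exp_nat_mul, Real.exp_neg,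
        Real.exp_log (by positivity), inv_div]
    · refine le_trans (Real.exp_le_exp.2 ?_) (by linarith [Real.exp_one_lt_d9] : Real.exp 1 ≤ 3)
      rw [Real.exp_log (by positivity), card_product]
      have h1 : ((Y.card * W.card : ℕ) : ℝ) ≤ (z : ℝ) ^ 2 := by
        rw [sq]
        exact_mod_cast Nat.mul_le_mul hc.2 hc.1
      have h2 : (q / (z : ℝ) ^ 2 - 1) * (q : ℝ)⁻¹ ≤ ((z : ℝ) ^ 2)⁻¹ := by
        have e : (q / (z : ℝ) ^ 2 - 1) * (q : ℝ)⁻¹ = ((z : ℝ) ^ 2)⁻¹ - (q : ℝ)⁻¹ := by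
          field_simp
        rw [e]
        have : 0 ≤ (q : ℝ)⁻¹ := by positivity
        linarith
      calc _ ≤ ((z : ℝ) ^ 2)⁻¹ * (z : ℝ) ^ 2 :=
            mul_le_mul h2 h1 (Nat.cast_nonneg _) (by positivity)
        _ = 1 := inv_mul_cancel₀ hz0.ne'

variable {P : Par}

theorem Pr_not_V4 (hP : P.Ok) :
    Pr (unif (Fin P.N) (Fin P.k → Fin P.q)) (fun f => ¬ V4 f P.z4 P.c2) ≤ 1 / 10 := by
  have hq := hP.hq
  have : NeZero P.q := ⟨by omega⟩
  have hp : IsP (unif (Fin P.N) (Fin P.k → Fin P.q)) := isP_unif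
  have hf := hP.f4
  set η : ℝ := ((P.z4 : ℝ) ^ 2 / P.q) ^ P.c2 with hη
  have h0 : 0 ≤ η := by positivity
  have hN : (1 : ℝ) ≤ P.N := by exact_mod_cast hP.hN
  have hk : (1 : ℝ) ≤ P.k := by
    have : 1 ≤ P.k := by
      rw [hP.hk]
      exact Nat.mul_pos hP.hi (by omega)
    exact_mod_cast this
  have h1 : (P.N : ℝ) * η ≤ 1 / 20 := by
    have := mul_le_mul_of_nonneg_left hk (show 0 ≤ (P.N : ℝ) * η by positivity)
    linarith
  have h2 : (P.k : ℝ) * η ≤ 1 / 20 := by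
    have := mul_le_mul_of_nonneg_left hN (show 0 ≤ (P.k : ℝ) * η by positivity)
    linarith
  have s1 := sum_pow_card_le (α := Fin P.k) h0 (by rw [Fintype.card_fin]; linarith)
  have s2 := sum_pow_card_le (α := Fin P.N) h0 (by rw [Fintype.card_fin]; linarith)
  rw [Fintype.card_fin] at s1 s2
  calc _ ≤ Pr (unif (Fin P.N) (Fin P.k → Fin P.q)) (fun f => ∃ x ∈ (univ : Finset (Fin P.N)),
          ∃ W ∈ flt (univ : Finset (Finset (Fin P.k))) (fun V => V.Nonempty),
          ∃ Y ∈ flt (univ : Finset (Finset (Fin P.N))) (fun V => V.Nonempty),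
          W.card ≤ P.z4 ∧ Y.card ≤ P.z4 ∧
            P.c2 * (W.card + Y.card) < ∑ y ∈ Y, (W ∩ vw f x y).card) := by
        refine Pr_mono hp fun f hf => ?_
        unfold V4 at hf
        push Not at hf
        obtain ⟨x, W, Y, g1, g2, g3⟩ := hf
        refine ⟨x, mem_univ _, W, mem_flt.2 ⟨mem_univ _, ?_⟩, Y, mem_flt.2 ⟨mem_univ _, ?_⟩,
          g1, g2, g3⟩
        · rw [nonempty_iff_ne_empty]
          rintro rfl
          simp at g3
        · rw [nonempty_iff_ne_empty]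
          rintro rfl
          simp at g3
    _ ≤ ∑ _x ∈ (univ : Finset (Fin P.N)),
          ∑ W ∈ flt (univ : Finset (Finset (Fin P.k))) (fun V => V.Nonempty),
          ∑ Y ∈ flt (univ : Finset (Finset (Fin P.N))) (fun V => V.Nonempty),
          3 * (η ^ W.card * η ^ Y.card) := by
        refine (Pr_exists_le hp _ _).trans (sum_le_sum fun x _ => ?_)
        refine (Pr_exists_le hp _ _).trans (sum_le_sum fun W _ => ?_)
        refine (Pr_exists_le hp _ _).trans (sum_le_sum fun Y _ => ?_)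
        exact one_LF3 (by omega) hP.hz4 hP.f4a x W Y
    _ = P.N * (3 * ((∑ W ∈ flt (univ : Finset (Finset (Fin P.k))) (fun V => V.Nonempty),
          η ^ W.card) * ∑ Y ∈ flt (univ : Finset (Finset (Fin P.N))) (fun V => V.Nonempty),
          η ^ Y.card)) := by
        rw [sum_const, card_univ, Fintype.card_fin, nsmul_eq_mul, sum_mul_sum]
        simp only [mul_sum]
    _ ≤ P.N * (3 * ((2 * P.k * η) * (2 * P.N * η))) := by
        refine mul_le_mul_of_nonneg_left (mul_le_mul_of_nonneg_left ?_ (by norm_num))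
          (by positivity)
        exact mul_le_mul s1 s2 (sum_nonneg fun V _ => pow_nonneg h0 _) (by positivity)
    _ ≤ 1 / 10 := by
        have h3 : 0 ≤ (P.N : ℝ) * η := by positivity
        have h4 : (P.N : ℝ) * P.k * η ≤ 1 / 20 := by linarith
        have h5 := mul_le_mul h4 h1 h3 (by norm_num)
        nlinarith

end Pool.Agent.P.MP_b5e666_co.Lar
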