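import Pool.Agent.P.MP_b5e666_co.LF0

set_option autoImplicit false

open Finset

noncomputable section

namespace Pool.Agent.P.MP_b5e666_co.Lar

variable {P : Par}

theorem col_LF4 {N q : ℕ} [NeZero q] (U : Finset (Fin N)) (du : ℕ) (hU : U.card ≤ du) :
    (U.card : ℝ) / (q + du) ≤ Pr (unif (Fin N) (Fin q)) (fun c => ∃ y ∈ U, c y = 0) := by
  have hq : (0 : ℝ) < q := by exact_mod_cast Nat.pos_of_ne_zero (NeZero.ne q)
  have hq1 : (1 : ℝ) ≤ q := by exact_mod_cast Nat.pos_of_ne_zero (NeZero.ne q)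
  have e1 : Pr (unif (Fin N) (Fin q)) (fun c => ∃ y ∈ U, c y = 0) =
      1 - Pr (unif (Fin N) (Fin q)) (fun c => ∀ y ∈ U, c y ≠ 0) := by
    rw [← Pr_not isP_unif]
    exact Pr_congr _ fun c => by push Not; rfl
  have e2 : ((flt (univ : Finset (Fin q)) (fun b => b ≠ 0)).card : ℝ) = q - 1 := by
    have : flt (univ : Finset (Fin q)) (fun b => b ≠ 0) = univ.erase 0 := by
      ext b; simp
    rw [this, card_erase_of_mem (mem_univ _), card_univ, Fintype.card_fin,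
      Nat.cast_sub (Nat.pos_of_ne_zero (NeZero.ne q))]
    simp
  have e3 : Pr (unif (Fin N) (Fin q)) (fun c => ∀ y ∈ U, c y ≠ 0) =
      (1 - 1 / (q : ℝ)) ^ U.card := by
    rw [Pr_cyl U (fun _ b => b ≠ 0), prod_const, e2, Fintype.card_fin]
    congr 1
    field_simp
  rw [e1, e3]
  set u := U.card with hu
  have h0 : (0 : ℝ) ≤ 1 / q := by positivity
  have h1 : 1 / (q : ℝ) ≤ 1 := by rw [div_le_one hq]; exact hq1
  have hb : 1 + (u : ℝ) * (1 / q) ≤ (1 + 1 / (q : ℝ)) ^ u :=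
    one_add_mul_le_pow (by linarith) u
  have hr : (0 : ℝ) ≤ (1 - 1 / (q : ℝ)) ^ u := pow_nonneg (by linarith) u
  have hm : (1 - 1 / (q : ℝ)) ^ u * (1 + 1 / (q : ℝ)) ^ u ≤ 1 := by
    rw [← mul_pow]
    exact pow_le_one₀ (mul_nonneg (by linarith) (by linarith)) (by nlinarith)
  have h2 : (1 - 1 / (q : ℝ)) ^ u * (1 + (u : ℝ) * (1 / q)) ≤ 1 :=
    (mul_le_mul_of_nonneg_left hb hr).trans hm
  have hu0 : (0 : ℝ) ≤ u := Nat.cast_nonneg u
  have hud : (u : ℝ) ≤ du := by exact_mod_cast hU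
  have h3 : (1 - 1 / (q : ℝ)) ^ u * (q + u) ≤ q := by
    have : (1 - 1 / (q : ℝ)) ^ u * (q + u) =
        q * ((1 - 1 / (q : ℝ)) ^ u * (1 + (u : ℝ) * (1 / q))) := by
      field_simp
    rw [this]
    nlinarith
  have h4 : (u : ℝ) / (q + du) ≤ u / (q + u) :=
    div_le_div_of_nonneg_left hu0 (by linarith) (by linarith)
  refine h4.trans ?_
  rw [div_le_iff₀ (by linarith)]
  nlinarith

theorem fix_LF4 {N k q : ℕ} [NeZero q] (x : Fin N) (U : Finset (Fin N)) (du l2 : ℕ)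
    (hx : x ∉ U) (hU : U.card ≤ du) :
    Pr (unif (Fin N) (Fin k → Fin q)) (fun f => (U.biUnion (vw f x)).card < l2 * U.card) ≤
      Real.exp (l2 - 3 / 5 * ((k : ℝ) / (q + du))) ^ U.card := by
  rw [Pr_vw x (fun v => (U.biUnion v).card < l2 * U.card), Pr_swap]
  have h := chern_lo (isP_unif (ι := Fin k) (β := Fin N → Fin q)) univ
    (fun _ c => ∃ y ∈ U, c y = 0) (π := (U.card : ℝ) / (q + du)) (u := (l2 : ℝ) * U.card)
    (fun i _ => by
      rw [sum_unif_fun i (fun c : Fin N → Fin q => ind (∃ y ∈ U, c y = 0))]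
      exact col_LF4 U du hU)
  refine (Pr_mono isP_unif fun f hf => ?_).trans (h.trans (le_of_eq ?_))
  · have e : U.biUnion (zv x (fun y a => f a y)) = flt univ (fun a => ∃ y ∈ U, f a y = 0) := by
      ext a
      simp only [mem_biUnion, zv, mem_flt, mem_univ, true_and]
      constructor
      · rintro ⟨y, hy, _, h0⟩
        exact ⟨y, hy, h0⟩
      · rintro ⟨y, hy, h0⟩
        exact ⟨y, hy, fun hxy => hx (hxy ▸ hy), h0⟩
    rw [e] at hf
    exact_mod_cast hf.le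
  · rw [← Real.exp_nat_mul, card_univ, Fintype.card_fin]
    congr 1
    ring

theorem Pr_not_V9 (hP : P.Ok) :
    Pr (unif (Fin P.N) (Fin P.k → Fin P.q)) (fun f => ¬ V9 f P.du P.l2) ≤ 1 / 10 := by
  have : NeZero P.q := ⟨by have := hP.hq; omega⟩
  set η : ℝ := Real.exp (P.l2 - 3 / 5 * ((P.k : ℝ) / (P.q + P.du))) with hη
  have hη0 : 0 ≤ η := (Real.exp_pos _).le
  have hf : 20 * (P.N : ℝ) ^ 2 * η ≤ 1 := hP.f9
  have hN : (1 : ℝ) ≤ P.N := by exact_mod_cast hP.hN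
  have hNη : (P.N : ℝ) * η ≤ 1 := by nlinarith [mul_nonneg (by linarith : (0 : ℝ) ≤ P.N) hη0]
  have hs := sum_pow_card_le (α := Fin P.N) hη0 (by rw [Fintype.card_fin]; exact hNη)
  rw [Fintype.card_fin] at hs
  have h1 : Pr (unif (Fin P.N) (Fin P.k → Fin P.q)) (fun f => ¬ V9 f P.du P.l2) ≤
      Pr (unif (Fin P.N) (Fin P.k → Fin P.q)) (fun f => ∃ x ∈ (univ : Finset (Fin P.N)),
        ∃ U ∈ flt (univ : Finset (Finset (Fin P.N))) (fun V => V.Nonempty),
          x ∉ U ∧ U.card ≤ P.du ∧ (U.biUnion (vw f x)).card < P.l2 * U.card) := by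
    refine Pr_mono isP_unif fun f hf => ?_
    unfold V9 at hf
    push Not at hf
    obtain ⟨x, U, hx, hU, hlt⟩ := hf
    refine ⟨x, mem_univ _, U, mem_flt.2 ⟨mem_univ _, ?_⟩, hx, hU, hlt⟩
    rw [nonempty_iff_ne_empty]
    rintro rfl
    simp at hlt
  refine h1.trans ((Pr_exists_le isP_unif _ _).trans ?_)
  have h2 : ∀ x ∈ (univ : Finset (Fin P.N)),
      Pr (unif (Fin P.N) (Fin P.k → Fin P.q)) (fun f =>
        ∃ U ∈ flt (univ : Finset (Finset (Fin P.N))) (fun V => V.Nonempty),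
          x ∉ U ∧ U.card ≤ P.du ∧ (U.biUnion (vw f x)).card < P.l2 * U.card) ≤
        2 * (P.N : ℝ) * η := by
    intro x _
    refine (Pr_exists_le isP_unif _ _).trans (le_trans (sum_le_sum fun U _ => ?_) hs)
    by_cases hc : x ∉ U ∧ U.card ≤ P.du
    · exact (Pr_mono isP_unif fun f hf => hf.2.2).trans (fix_LF4 x U P.du P.l2 hc.1 hc.2)
    · rw [Pr_false isP_unif fun f hf => hc ⟨hf.1, hf.2.1⟩]
      exact pow_nonneg hη0 _
  refine (sum_le_card_nsmul _ _ _ h2).trans ?_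
  rw [card_univ, Fintype.card_fin, nsmul_eq_mul]
  nlinarith

end Pool.Agent.P.MP_b5e666_co.Lar
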