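import Pool.Agent.P.MP_b5e666_co.LF0

set_option autoImplicit false

open Finset

noncomputable section

namespace Pool.Agent.P.MP_b5e666_co.Lar

variable {P : Par}

theorem split_LF5 {Y : Type} [DecidableEq Y] (S : Finset Y) {y0 : Y} (h0 : y0 ∈ S)
    (Q : Y → Prop) [DecidablePred Q] :
    (flt S Q).card = (flt (S.erase y0) Q).card + (if Q y0 then 1 else 0) := by
  rw [flt_eq, flt_eq, card_filter, card_filter, add_comm]
  exact (add_sum_erase S (fun y => if Q y then 1 else 0) h0).symm

theorem half_LF5 {α Y : Type} [Fintype α] [DecidableEq α] (S : Finset Y) (φ : Y → α) {y0 : Y}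
    (h0 : y0 ∈ S) (hinj : ∀ y ∈ S, φ y = φ y0 → y = y0) :
    Pr (unif α Bool) (fun c => Odd (flt S (fun y => c (φ y) = true)).card) = 1 / 2 := by
  classical
  have hinv : Function.Involutive
      (fun c : α → Bool => Function.update c (φ y0) (!c (φ y0))) := by
    intro c
    funext a
    by_cases ha : a = φ y0
    · subst ha; simp
    · simp [Function.update_of_ne ha]
  have h1 := Pr_unif_equiv (hinv.toPerm _)
    (fun c : α → Bool => Odd (flt S (fun y => c (φ y) = true)).card)
  have h2 : ∀ c : α → Bool,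
      Odd (flt S (fun y => (hinv.toPerm _ c) (φ y) = true)).card ↔
        ¬ Odd (flt S (fun y => c (φ y) = true)).card := by
    intro c
    have e : flt (S.erase y0) (fun y => (hinv.toPerm _ c) (φ y) = true) =
        flt (S.erase y0) (fun y => c (φ y) = true) := by
      ext y
      simp only [mem_flt]
      refine and_congr_right fun hy => ?_
      have hne : φ y ≠ φ y0 := fun h => (mem_erase.1 hy).1 (hinj y (mem_erase.1 hy).2 h)
      show Function.update c (φ y0) (!c (φ y0)) (φ y) = true ↔ _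
      rw [Function.update_of_ne hne]
    have e0 : (hinv.toPerm _ c) (φ y0) = !c (φ y0) := by
      show Function.update c (φ y0) (!c (φ y0)) (φ y0) = _
      rw [Function.update_self]
    rw [split_LF5 S h0, split_LF5 S h0 (fun y => c (φ y) = true), e, e0]
    cases c (φ y0) <;> simp [Nat.odd_add_one]
  rw [Pr_congr _ h2, Pr_not isP_unif] at h1
  linarith

theorem one_LF5 {N k q : ℕ} (f : Fin N → Fin k → Fin q) (x : Fin N) (U : Finset (Fin N))
    {lx l2 : ℕ} (hW : l2 * U.card ≤ (U.biUnion (vw f x)).card) :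
    Pr (unif (Sym2 (Fin N)) (Fin k → Bool))
        (fun g => (xr (lab f g true x) U).card < lx * U.card) ≤
      Real.exp (lx - 3 / 10 * (l2 : ℝ)) ^ U.card := by
  rw [Pr_swap]
  have hc := chern_lo (p := unif (Fin k) (Sym2 (Fin N) → Bool)) isP_unif (U.biUnion (vw f x))
    (fun a c => Odd (flt (flt U (fun y => a ∈ vw f x y)) (fun y => c s(x, y) = true)).card)
    (π := 1 / 2) (u := (lx : ℝ) * U.card) (fun a ha => by
      obtain ⟨y0, hy0, hay⟩ := mem_biUnion.1 ha
      rw [sum_unif_fun a (fun c : Sym2 (Fin N) → Bool =>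
        ind (Odd (flt (flt U (fun y => a ∈ vw f x y)) (fun y => c s(x, y) = true)).card))]
      exact (half_LF5 (flt U (fun y => a ∈ vw f x y)) (fun y => s(x, y))
        (mem_flt.2 ⟨hy0, hay⟩) (fun y _ h => Sym2.congr_right.1 h)).ge)
  refine le_trans (Pr_mono isP_unif fun g hg => ?_) (hc.trans ?_)
  · have hsub : flt (U.biUnion (vw f x)) (fun a => Odd (flt (flt U (fun y => a ∈ vw f x y))
        (fun y => g a s(x, y) = true)).card) ⊆ xr (lab f (fun e a => g a e) true x) U := by
      intro a ha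
      have e : flt U (fun y => a ∈ lab f (fun e a => g a e) true x y) =
          flt (flt U (fun y => a ∈ vw f x y)) (fun y => g a s(x, y) = true) := by
        ext y
        simp only [mem_flt, lab, and_assoc]
      unfold xr
      rw [mem_flt, e]
      exact ⟨mem_univ _, (mem_flt.1 ha).2⟩
    have h1 := (card_le_card hsub).trans hg.le
    exact_mod_cast h1
  · rw [← Real.exp_nat_mul]
    refine Real.exp_le_exp.2 ?_
    have h1 : (l2 : ℝ) * U.card ≤ (U.biUnion (vw f x)).card := by exact_mod_cast hW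
    linarith

theorem Pr_not_V6 (hP : P.Ok) (f : Fin P.N → Fin P.k → Fin P.q) (h9 : V9 f P.du P.l2) :
    Pr (unif (Sym2 (Fin P.N)) (Fin P.k → Bool)) (fun g => ¬ V6 (lab f g true) P.du P.lx) ≤
      1 / 10 := by
  have hg := hP.g6
  set η : ℝ := Real.exp (P.lx - 3 / 10 * (P.l2 : ℝ)) with hη
  have hη0 : 0 ≤ η := (Real.exp_pos _).le
  have hN : (1 : ℝ) ≤ P.N := by exact_mod_cast hP.hN
  have hNη : (P.N : ℝ) * η ≤ 1 := by
    have h1 : 0 ≤ (P.N : ℝ) * η := by positivity
    nlinarith
  have hs := sum_pow_card_le (α := Fin P.N) hη0 (by rw [Fintype.card_fin]; exact hNη)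
  rw [Fintype.card_fin] at hs
  have hp : IsP (unif (Sym2 (Fin P.N)) (Fin P.k → Bool)) := isP_unif
  have step1 : ∀ g : Sym2 (Fin P.N) → Fin P.k → Bool, ¬ V6 (lab f g true) P.du P.lx →
      ∃ x ∈ (univ : Finset (Fin P.N)),
        ∃ U ∈ flt (univ : Finset (Finset (Fin P.N))) (fun V => V.Nonempty),
          (x ∉ U ∧ U.card ≤ P.du) ∧ (xr (lab f g true x) U).card < P.lx * U.card := by
    intro g hg6
    unfold V6 at hg6
    push Not at hg6
    obtain ⟨x, U, h1, h2, h3⟩ := hg6
    refine ⟨x, mem_univ _, U, mem_flt.2 ⟨mem_univ _, ?_⟩, ⟨h1, h2⟩, h3⟩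
    rw [nonempty_iff_ne_empty]
    rintro rfl
    simp at h3
  have step2 : ∀ (x : Fin P.N) (U : Finset (Fin P.N)),
      Pr (unif (Sym2 (Fin P.N)) (Fin P.k → Bool)) (fun g =>
        (x ∉ U ∧ U.card ≤ P.du) ∧ (xr (lab f g true x) U).card < P.lx * U.card) ≤
        η ^ U.card := by
    intro x U
    by_cases h : x ∉ U ∧ U.card ≤ P.du
    · exact (Pr_mono hp fun g hg' => hg'.2).trans (one_LF5 f x U (h9 x U h.1 h.2))
    · rw [Pr_false hp fun g hg' => h hg'.1]
      exact pow_nonneg hη0 _
  refine (Pr_mono hp step1).trans ((Pr_exists_le hp _ _).trans ?_)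
  have step3 : ∀ x ∈ (univ : Finset (Fin P.N)),
      Pr (unif (Sym2 (Fin P.N)) (Fin P.k → Bool)) (fun g =>
        ∃ U ∈ flt (univ : Finset (Finset (Fin P.N))) (fun V => V.Nonempty),
          (x ∉ U ∧ U.card ≤ P.du) ∧ (xr (lab f g true x) U).card < P.lx * U.card) ≤
        2 * P.N * η := fun x _ =>
    (Pr_exists_le hp _ _).trans ((sum_le_sum fun U _ => step2 x U).trans hs)
  refine (sum_le_sum step3).trans ?_
  rw [sum_const, card_univ, Fintype.card_fin, nsmul_eq_mul]
  nlinarith

end Pool.Agent.P.MP_b5e666_co.Lar
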