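import Pool.Agent.P.MP_b5e666_co.LF0

set_option autoImplicit false

open Finset

noncomputable section

namespace Pool.Agent.P.MP_b5e666_co.Lar

variable {P : Par}

theorem quarter_LF6 {k : ℕ} {A1 A0 : Finset (Fin k)} (hd : Disjoint A1 A0)
    (hc : A1.card + A0.card ≤ 2) :
    (1 / 4 : ℝ) ≤ Pr (unif (Fin k) Bool)
      (fun c => (∀ a ∈ A1, c a = true) ∧ ∀ a ∈ A0, c a = false) := by
  have e : Pr (unif (Fin k) Bool) (fun c => (∀ a ∈ A1, c a = true) ∧ ∀ a ∈ A0, c a = false) =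
      Pr (unif (Fin k) Bool) (fun c => ∀ a ∈ A1 ∪ A0, c a = decide (a ∈ A1)) := by
    refine Pr_congr _ fun c => ⟨fun h a ha => ?_, fun h => ⟨fun a ha => ?_, fun a ha => ?_⟩⟩
    · by_cases h1 : a ∈ A1
      · rw [h.1 a h1, decide_eq_true h1]
      · rw [h.2 a ((mem_union.1 ha).resolve_left h1), decide_eq_false h1]
    · rw [h a (mem_union_left _ ha), decide_eq_true ha]
    · rw [h a (mem_union_right _ ha), decide_eq_false (disjoint_right.1 hd ha)]
  rw [e, Pr_cyl (A1 ∪ A0) (fun a v => v = decide (a ∈ A1))]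
  have e2 : ∀ a ∈ A1 ∪ A0, ((flt (univ : Finset Bool) (fun v => v = decide (a ∈ A1))).card : ℝ) /
      Fintype.card Bool = 1 / 2 := fun a _ => by
    have : flt (univ : Finset Bool) (fun v => v = decide (a ∈ A1)) = {decide (a ∈ A1)} := by
      ext v
      simp only [mem_flt, mem_univ, true_and, mem_singleton]
    rw [this, card_singleton, Fintype.card_bool]
    norm_num
  rw [prod_congr rfl e2, prod_const, card_union_of_disjoint hd]
  calc (1 / 4 : ℝ) = (1 / 2) ^ 2 := by norm_num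
    _ ≤ _ := pow_le_pow_of_le_one (by norm_num) (by norm_num) hc

theorem one_LF6 {N k : ℕ} (X : Finset (Fin N)) (A1 A0 : Finset (Fin k)) :
    Pr (unif (Sym2 (Fin N)) (Fin k → Bool)) (fun g => (Disjoint A1 A0 ∧ A1.card + A0.card ≤ 2) ∧
      ((flt (X.offDiag.image Sym2.mk.uncurry)
        (fun e => (∀ a ∈ A1, g e a = true) ∧ ∀ a ∈ A0, g e a = false)).card : ℝ) ≤ 0) ≤
      Real.exp (-(3 / 20 * ((X.card.choose 2 : ℕ) : ℝ))) := by
  by_cases h : Disjoint A1 A0 ∧ A1.card + A0.card ≤ 2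
  · refine (Pr_mono isP_unif fun g hg => hg.2).trans ?_
    refine (chern_lo isP_unif (X.offDiag.image Sym2.mk.uncurry)
      (fun _ (c : Fin k → Bool) => (∀ a ∈ A1, c a = true) ∧ ∀ a ∈ A0, c a = false)
      (π := 1 / 4) (u := 0) fun e _ => ?_).trans (le_of_eq ?_)
    · rw [sum_unif_fun]
      exact quarter_LF6 h.1 h.2
    · rw [Sym2.card_image_offDiag]
      congr 1
      ring
  · rw [Pr_false isP_unif fun g hg => h hg.1]
    exact (Real.exp_pos _).le

theorem Pr_not_V7 (hP : P.Ok) (f : Fin P.N → Fin P.k → Fin P.q) :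
    Pr (unif (Sym2 (Fin P.N)) (Fin P.k → Bool)) (fun g => ¬ V7 f (lab f g true) P.Mr) ≤
      1 / 10 := by
  obtain ⟨S, hS⟩ : ∃ S, S = flt (univ : Finset (Finset (Fin P.k))) (fun V => V.card ≤ 2) :=
    ⟨_, rfl⟩
  have h1 : Pr (unif (Sym2 (Fin P.N)) (Fin P.k → Bool)) (fun g => ¬ V7 f (lab f g true) P.Mr) ≤
      Pr (unif (Sym2 (Fin P.N)) (Fin P.k → Bool)) (fun g =>
        ∃ z ∈ powersetCard P.Mr (univ : Finset (Fin P.N)) ×ˢ S ×ˢ S,
          (Disjoint z.2.1 z.2.2 ∧ z.2.1.card + z.2.2.card ≤ 2) ∧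
          ((flt (z.1.offDiag.image Sym2.mk.uncurry)
            (fun e => (∀ a ∈ z.2.1, g e a = true) ∧ ∀ a ∈ z.2.2, g e a = false)).card : ℝ) ≤ 0) := by
    refine Pr_mono isP_unif fun g hg => ?_
    by_contra hc
    refine hg fun X0 hX0 A1 A0 hd h2 => ?_
    obtain ⟨X, hX, hcard⟩ := exists_subset_card_eq hX0
    by_contra hn
    refine hc ⟨(X, A1, A0), ?_, ⟨hd, h2⟩, ?_⟩
    · simp only [mem_product, mem_powersetCard, hS, mem_flt, mem_univ, true_and, subset_univ]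
      exact ⟨hcard, by omega, by omega⟩
    · rw [Nat.cast_nonpos, card_eq_zero, eq_empty_iff_forall_notMem]
      intro e he
      obtain ⟨he1, he2, he3⟩ := mem_flt.1 he
      obtain ⟨⟨x, y⟩, hxy, rfl⟩ := mem_image.1 he1
      obtain ⟨hx, hy, hne⟩ := mem_offDiag.1 hxy
      refine hn ⟨x, hX hx, y, hX hy, hne, fun a ha hv => mem_flt.2 ⟨hv, he2 a ha⟩, fun a ha hl => ?_⟩
      have h3 : g s(x, y) a = false := he3 a ha
      rw [(mem_flt.1 hl).2] at h3
      exact absurd h3 (by decide)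
  refine h1.trans ((Pr_exists_le isP_unif _ _).trans ?_)
  refine (sum_le_card_nsmul _ _ (Real.exp (-(3 / 20 * ((P.Mr.choose 2 : ℕ) : ℝ))))
    fun z hz => ?_).trans ?_
  · have := one_LF6 z.1 z.2.1 z.2.2
    rwa [(mem_powersetCard.1 (mem_product.1 hz).1).2] at this
  · refine le_trans ?_ hP.g7
    rw [nsmul_eq_mul]
    refine mul_le_mul_of_nonneg_right ?_ (Real.exp_pos _).le
    have c1 : S.card ≤ (P.k + 1) ^ 2 := by
      have := card_small_le (Fin P.k) 2
      rwa [Fintype.card_fin, ← hS] at this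
    have c2 : (powersetCard P.Mr (univ : Finset (Fin P.N))).card ≤ P.N ^ P.Mr := by
      rw [card_powersetCard, card_univ, Fintype.card_fin]
      exact Nat.choose_le_pow _ _
    have c3 : (powersetCard P.Mr (univ : Finset (Fin P.N)) ×ˢ S ×ˢ S).card ≤
        P.N ^ P.Mr * (P.k + 1) ^ 4 := by
      rw [card_product, card_product]
      refine Nat.mul_le_mul c2 ?_
      calc S.card * S.card ≤ (P.k + 1) ^ 2 * (P.k + 1) ^ 2 := Nat.mul_le_mul c1 c1
        _ = _ := by ring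
    exact_mod_cast c3

theorem card_lab_LF6 {N k q G : ℕ} (f : Fin N → Fin k → Fin q) (b : Fin G) (x y : Fin N)
    (h : Sym2 (Fin N) × Fin k → Fin G) :
    (lab f (fun e a => h (e, a)) b x y).card =
      (flt ((vw f x y).image fun a => (s(x, y), a)) (fun i => h i = b)).card := by
  have inj : Function.Injective fun a : Fin k => (s(x, y), a) := fun a a' e => (Prod.ext_iff.1 e).2
  rw [← card_image_of_injective _ inj]
  congr 1
  ext i
  simp only [lab, mem_image, mem_flt]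
  constructor
  · rintro ⟨a, ⟨h1, h2⟩, rfl⟩
    exact ⟨⟨a, h1, rfl⟩, h2⟩
  · rintro ⟨⟨a, h1, rfl⟩, h2⟩
    exact ⟨a, ⟨h1, h2⟩, rfl⟩

theorem Pr_not_V5 (hP : P.Ok) (f : Fin P.N → Fin P.k → Fin P.q) (h1 : V1 f P.iu) (h1' : V1' f P.i)
    (b : Fin P.G) :
    Pr (unif (Sym2 (Fin P.N)) (Fin P.k → Fin P.G)) (fun h => ¬ V5 (lab f h b) P.ml P.mu) ≤
      1 / 10 := by
  have : Nonempty (Fin P.G) := ⟨b⟩
  have hG : (0 : ℝ) < P.G := by exact_mod_cast hP.hG
  rw [Pr_uncurry]
  have s1 : Pr (unif (Sym2 (Fin P.N) × Fin P.k) (Fin P.G))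
      (fun h => ¬ V5 (lab f (fun e a => h (e, a)) b) P.ml P.mu) ≤
      Pr (unif (Sym2 (Fin P.N) × Fin P.k) (Fin P.G)) (fun h =>
        ∃ z ∈ (univ : Finset (Fin P.N)).offDiag,
          ((flt ((vw f z.1 z.2).image fun a => (s(z.1, z.2), a)) (fun i => h i = b)).card : ℝ) ≤
            P.ml ∨ (P.mu : ℝ) ≤
          ((flt ((vw f z.1 z.2).image fun a => (s(z.1, z.2), a)) (fun i => h i = b)).card : ℝ)) := by
    refine Pr_mono isP_unif fun h hh => ?_
    by_contra hc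
    refine hh fun x y hxy => ?_
    by_contra hn
    refine hc ⟨(x, y), mem_offDiag.2 ⟨mem_univ _, mem_univ _, hxy⟩, ?_⟩
    rw [card_lab_LF6] at hn
    simp only [Nat.cast_le]
    omega
  refine s1.trans ((Pr_exists_le isP_unif _ _).trans ?_)
  refine (sum_le_card_nsmul _ _ (Real.exp (P.ml - 3 / 10 * ((P.i : ℝ) / P.G)) +
    Real.exp (-(P.mu : ℝ) + 2 * ((P.iu : ℝ) / P.G))) fun z hz => ?_).trans ?_
  · have hne := (mem_offDiag.1 hz).2.2
    have inj : Function.Injective fun a : Fin P.k => (s(z.1, z.2), a) :=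
      fun a a' e => (Prod.ext_iff.1 e).2
    have c1 : ((vw f z.1 z.2).card : ℝ) ≤ P.iu := by exact_mod_cast h1 z.1 z.2
    have c2 : (P.i : ℝ) ≤ 2 * (vw f z.1 z.2).card := by exact_mod_cast h1' z.1 z.2 hne
    have hg : (0 : ℝ) < (P.G : ℝ)⁻¹ := inv_pos.2 hG
    refine (Pr_or_le isP_unif _ _).trans (add_le_add ?_ ?_)
    · refine (chern_lo isP_unif _ (fun _ c => c = b) (π := (P.G : ℝ)⁻¹) fun i _ => ?_).trans
        (Real.exp_le_exp.2 ?_)
      · rw [sum_unif_eq, Fintype.card_fin]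
      · rw [card_image_of_injective _ inj, div_eq_mul_inv (P.i : ℝ)]
        nlinarith [mul_le_mul_of_nonneg_right c2 hg.le]
    · refine (chern_up isP_unif _ (fun _ c => c = b) (π := (P.G : ℝ)⁻¹) (t := 1) (fun i _ => ?_)
        zero_le_one).trans (Real.exp_le_exp.2 ?_)
      · rw [sum_unif_eq, Fintype.card_fin]
      · rw [card_image_of_injective _ inj, div_eq_mul_inv (P.iu : ℝ)]
        have e1 : Real.exp 1 - 1 ≤ 2 := by linarith [Real.exp_one_lt_d9]
        have e2 : (0 : ℝ) ≤ (P.G : ℝ)⁻¹ * (vw f z.1 z.2).card := by positivity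
        nlinarith [mul_le_mul_of_nonneg_right c1 hg.le, mul_le_mul_of_nonneg_right e1 e2]
  · refine le_trans ?_ hP.h5
    rw [nsmul_eq_mul]
    refine mul_le_mul_of_nonneg_right ?_ (by positivity)
    have : ((univ : Finset (Fin P.N)).offDiag).card ≤ P.N ^ 2 := by
      rw [offDiag_card, card_univ, Fintype.card_fin, sq]
      exact Nat.sub_le _ _
    exact_mod_cast this

end Pool.Agent.P.MP_b5e666_co.Lar
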