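import Pool.Agent.P.MP_b5e666_co.LF0

set_option autoImplicit false

open Finset

noncomputable section

namespace Pool.Agent.P.MP_b5e666_co.Lar

variable {P : Par} (f : Fin P.N → Fin P.k → Fin P.q)
  (Γ : Finset ((Fin P.k × Fin P.q) × (Fin P.k × Fin P.q)))

/-- columns touched by an edge inside x -/
def tch (x : Fin P.N) : Finset (Fin P.k) :=
  flt univ (fun a => ∃ e ∈ edg f Γ x, e.1.1 = a ∨ e.2.1 = a)

/-- the hubs of x -/
def hub (x : Fin P.N) : Finset (Fin P.N) :=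
  flt univ (fun y => (edg f Γ x).card ≤ P.z1 ∧ P.nu < (tch f Γ x ∩ vw f x y).card)

/-- touched columns that lie in many hub views -/
def vd (x : Fin P.N) : Finset (Fin P.k) :=
  flt (tch f Γ x) (fun a => 2 * P.c2 ≤ (flt (hub f Γ x) (fun y => a ∈ vw f x y)).card)

/-- number of hubs that have the column in their majority part -/
def psi (M : Fin P.N → Fin P.N → Finset (Fin P.k)) (x : Fin P.N) (a : Fin P.k) : ℕ :=
  (flt (hub f Γ x) (fun y => a ∈ M x y)).card

def Psi (M : Fin P.N → Fin P.N → Finset (Fin P.k)) (x : Fin P.N) : ℕ :=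
  ∑ a ∈ vd f Γ x, psi f Γ M x a +
    ∑ e ∈ flt (edg f Γ x) (fun e => e.1.1 ∉ vd f Γ x ∧ e.2.1 ∉ vd f Γ x),
      psi f Γ M x e.1.1 * psi f Γ M x e.2.1

theorem card_tch (x : Fin P.N) : (tch f Γ x).card ≤ 2 * (edg f Γ x).card := by
  classical
  have hsub : tch f Γ x ⊆ (edg f Γ x).image (fun e => e.1.1) ∪ (edg f Γ x).image (fun e => e.2.1) := by
    intro a ha
    obtain ⟨e, he, h⟩ := (mem_flt.1 ha).2
    rcases h with h | h
    · exact mem_union_left _ (mem_image.2 ⟨e, he, h⟩)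
    · exact mem_union_right _ (mem_image.2 ⟨e, he, h⟩)
  have h1 := card_le_card hsub
  have h2 := card_union_le ((edg f Γ x).image (fun e => e.1.1)) ((edg f Γ x).image (fun e => e.2.1))
  have h3 : ((edg f Γ x).image (fun e => e.1.1)).card ≤ (edg f Γ x).card := card_image_le
  have h4 : ((edg f Γ x).image (fun e => e.2.1)).card ≤ (edg f Γ x).card := card_image_le
  omega

theorem card_hub (hP : P.Ok) (h4 : V4 f P.z4 P.c2) (x : Fin P.N) : (hub f Γ x).card ≤ P.J := by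
  by_contra hc
  have hc' : P.J + 1 ≤ (hub f Γ x).card := by omega
  obtain ⟨Y, hY, hYc⟩ := exists_subset_card_eq hc'
  have hne : Y.Nonempty := by rw [← card_pos]; omega
  obtain ⟨y0, hy0⟩ := hne
  have he : (edg f Γ x).card ≤ P.z1 := (mem_flt.1 (hY hy0)).2.1
  have ht : (tch f Γ x).card ≤ 2 * P.z1 := (card_tch f Γ x).trans (by omega)
  have hup := h4 x (tch f Γ x) Y (ht.trans hP.h8c) (by rw [hYc]; exact hP.h8d)
  have hlo : Y.card * (P.nu + 1) ≤ ∑ y ∈ Y, (tch f Γ x ∩ vw f x y).card := by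
    have := card_nsmul_le_sum Y (fun y => (tch f Γ x ∩ vw f x y).card) (P.nu + 1)
      (fun y hy => (mem_flt.1 (hY hy)).2.2)
    simpa using this
  rw [hYc] at hup hlo
  have h1 : P.c2 * ((tch f Γ x).card + (P.J + 1)) ≤ P.c2 * (2 * P.z1 + (P.J + 1)) :=
    Nat.mul_le_mul_left _ (by omega)
  have h2 := hP.h8a
  have h3 := hP.h8b
  have h5 : 2 * P.c2 * (P.J + 1) ≤ P.nu * (P.J + 1) := Nat.mul_le_mul_right _ h2
  nlinarith

theorem inc_vd (hP : P.Ok) (h4 : V4 f P.z4 P.c2) (x : Fin P.N) :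
    ∑ a ∈ vd f Γ x, (flt (hub f Γ x) (fun y => a ∈ vw f x y)).card ≤ 2 * P.c2 * P.J := by
  classical
  rcases (hub f Γ x).eq_empty_or_nonempty with h0 | ⟨y0, hy0⟩
  · rw [sum_eq_zero]
    · exact Nat.zero_le _
    · intro a _
      have := card_flt_le (hub f Γ x) (fun y => a ∈ vw f x y)
      rw [h0] at this ⊢
      simpa using this
  have he : (edg f Γ x).card ≤ P.z1 := (mem_flt.1 hy0).2.1
  have ht : (tch f Γ x).card ≤ 2 * P.z1 := (card_tch f Γ x).trans (by omega)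
  have hv : (vd f Γ x).card ≤ P.z4 := (card_flt_le _ _).trans (ht.trans hP.h8c)
  have hJ := card_hub f Γ hP h4 x
  have hup := h4 x (vd f Γ x) (hub f Γ x) hv (hJ.trans (by have := hP.h8d; omega))
  have hdc : ∑ a ∈ vd f Γ x, (flt (hub f Γ x) (fun y => a ∈ vw f x y)).card =
      ∑ y ∈ hub f Γ x, (vd f Γ x ∩ vw f x y).card := by
    simp only [flt_eq, card_filter, ← filter_mem_eq_inter]
    exact sum_comm
  have hlo : (vd f Γ x).card * (2 * P.c2) ≤
      ∑ a ∈ vd f Γ x, (flt (hub f Γ x) (fun y => a ∈ vw f x y)).card := by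
    have := card_nsmul_le_sum (vd f Γ x) (fun a => (flt (hub f Γ x) (fun y => a ∈ vw f x y)).card)
      (2 * P.c2) (fun a ha => (mem_flt.1 ha).2)
    simpa using this
  rw [← hdc] at hup
  have h1 : P.c2 * (hub f Γ x).card ≤ P.c2 * P.J := Nat.mul_le_mul_left _ hJ
  nlinarith

theorem zer_of_Psi (M : Fin P.N → Fin P.N → Finset (Fin P.k)) (hM : ∀ x y, M x y ⊆ vw f x y)
    (x : Fin P.N) (he : (edg f Γ x).card ≤ P.z1) (h : Psi f Γ M x ≤ P.nu) :
    ∃ C, Zer f M Γ P.z1 P.nu x C := by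
  classical
  set E := flt (edg f Γ x) (fun e => e.1.1 ∉ vd f Γ x ∧ e.2.1 ∉ vd f Γ x) with hE
  set g : (Fin P.k × Fin P.q) × (Fin P.k × Fin P.q) → Fin P.k :=
    fun e => if psi f Γ M x e.1.1 ≤ psi f Γ M x e.2.1 then e.1.1 else e.2.1 with hg
  have hg1 : ∀ e, g e = e.1.1 ∨ g e = e.2.1 := fun e => by
    simp only [hg]; split_ifs
    · exact Or.inl rfl
    · exact Or.inr rfl
  have hg2 : ∀ e, psi f Γ M x (g e) ≤ psi f Γ M x e.1.1 * psi f Γ M x e.2.1 := fun e => by
    simp only [hg]; split_ifs with h1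
    · rcases Nat.eq_zero_or_pos (psi f Γ M x e.1.1) with h0 | h0
      · rw [h0]; exact Nat.zero_le _
      · exact Nat.le_mul_of_pos_right _ (by omega)
    · rcases Nat.eq_zero_or_pos (psi f Γ M x e.2.1) with h0 | h0
      · rw [h0]; exact Nat.zero_le _
      · exact Nat.le_mul_of_pos_left _ (by omega)
  have hC : vd f Γ x ∪ E.image g ⊆ tch f Γ x := by
    intro a ha
    rcases mem_union.1 ha with ha | ha
    · exact flt_subset _ _ ha
    · obtain ⟨e, heE, rfl⟩ := mem_image.1 ha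
      refine mem_flt.2 ⟨mem_univ _, e, (mem_flt.1 heE).1, ?_⟩
      rcases hg1 e with h1 | h1
      · exact Or.inl h1.symm
      · exact Or.inr h1.symm
  refine ⟨vd f Γ x ∪ E.image g, ?_, ?_, ?_⟩
  · exact (card_le_card hC).trans ((card_tch f Γ x).trans (by omega))
  · intro e hee
    by_cases h1 : e.1.1 ∈ vd f Γ x
    · exact Or.inl (mem_union_left _ h1)
    by_cases h2 : e.2.1 ∈ vd f Γ x
    · exact Or.inr (mem_union_left _ h2)
    have hm : g e ∈ vd f Γ x ∪ E.image g :=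
      mem_union_right _ (mem_image_of_mem g (mem_flt.2 ⟨hee, h1, h2⟩))
    rcases hg1 e with h3 | h3
    · exact Or.inl (h3 ▸ hm)
    · exact Or.inr (h3 ▸ hm)
  · intro y
    by_cases hy : y ∈ hub f Γ x
    · have a1 : ((vd f Γ x ∪ E.image g) ∩ M x y).card * 1 ≤
          ∑ a ∈ (vd f Γ x ∪ E.image g) ∩ M x y, psi f Γ M x a := by
        have := card_nsmul_le_sum ((vd f Γ x ∪ E.image g) ∩ M x y) (fun a => psi f Γ M x a) 1
          (fun a ha => card_pos.2 ⟨y, mem_flt.2 ⟨hy, (mem_inter.1 ha).2⟩⟩)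
        simpa using this
      have a2 : ∑ a ∈ (vd f Γ x ∪ E.image g) ∩ M x y, psi f Γ M x a ≤
          ∑ a ∈ vd f Γ x ∪ E.image g, psi f Γ M x a :=
        sum_le_sum_of_subset inter_subset_left
      have a3 : ∑ a ∈ vd f Γ x ∪ E.image g, psi f Γ M x a ≤
          ∑ a ∈ vd f Γ x, psi f Γ M x a + ∑ a ∈ E.image g, psi f Γ M x a := by
        rw [← sum_union_inter]; exact Nat.le_add_right _ _
      have a4 : ∑ a ∈ E.image g, psi f Γ M x a ≤ ∑ e ∈ E, psi f Γ M x (g e) :=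
        sum_image_le_of_nonneg (fun _ _ => Nat.zero_le _)
      have a5 : ∑ e ∈ E, psi f Γ M x (g e) ≤ ∑ e ∈ E, psi f Γ M x e.1.1 * psi f Γ M x e.2.1 :=
        sum_le_sum fun e _ => hg2 e
      unfold Psi at h
      rw [← hE] at h
      omega
    · have a1 : (tch f Γ x ∩ vw f x y).card ≤ P.nu := by
        by_contra hc
        exact hy (mem_flt.2 ⟨mem_univ _, he, by omega⟩)
      exact (card_le_card (inter_subset_inter hC (hM x y))).trans a1

end Pool.Agent.P.MP_b5e666_co.Lar
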