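import Pool.Agent.P.MP_b5e666_co.LF7

set_option autoImplicit false

open Finset

noncomputable section

namespace Pool.Agent.P.MP_b5e666_co.Lar

theorem card_eq_LF8 {γ : Type} [Fintype γ] (b : γ) :
    ((flt univ (fun c : γ => c = b)).card : ℝ) = 1 := by
  have : flt univ (fun c : γ => c = b) = {b} := by
    ext c; simp
  rw [this, card_singleton, Nat.cast_one]

theorem one_LF8 {α β γ : Type} [Fintype α] [DecidableEq α] [Fintype β] [DecidableEq β]
    [Fintype γ] (i : α) (a : β) (b : γ) :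
    Ex (unif α (β → γ)) (fun h => ind (h i a = b)) = 1 / (Fintype.card γ : ℝ) := by
  have : Nonempty γ := ⟨b⟩
  have h1 := Pr_uncurry (fun h : α → β → γ => h i a = b)
  have h2 := Pr_cyl (α := α × β) {(i, a)} (fun _ (c : γ) => c = b)
  rw [prod_singleton, card_eq_LF8] at h2
  rw [← h2]
  refine Eq.trans h1 (Pr_congr _ fun w => ?_)
  simp

theorem two_LF8 {α β γ : Type} [Fintype α] [DecidableEq α] [Fintype β] [DecidableEq β]
    [Fintype γ] (i i' : α) {a a' : β} (ha : a ≠ a') (b : γ) :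
    Ex (unif α (β → γ)) (fun h => ind (h i a = b) * ind (h i' a' = b)) =
      1 / (Fintype.card γ : ℝ) ^ 2 := by
  have : Nonempty γ := ⟨b⟩
  have h1 := Pr_uncurry (fun h : α → β → γ => h i a = b ∧ h i' a' = b)
  have h2 := Pr_cyl (α := α × β) {(i, a), (i', a')} (fun _ (c : γ) => c = b)
  have h3 : (i, a) ≠ (i', a') := fun e => ha (congrArg Prod.snd e)
  rw [prod_pair h3, card_eq_LF8] at h2
  have h4 : Ex (unif α (β → γ)) (fun h => ind (h i a = b) * ind (h i' a' = b)) =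
      Pr (unif α (β → γ)) (fun h => h i a = b ∧ h i' a' = b) :=
    Ex_congr _ fun w => (ind_and _ _).symm
  rw [h4, h1, sq, ← one_div_mul_one_div, ← h2]
  refine Pr_congr _ fun w => ?_
  simp

variable {P : Par} (f : Fin P.N → Fin P.k → Fin P.q)
  (Γ : Finset ((Fin P.k × Fin P.q) × (Fin P.k × Fin P.q)))

theorem psi_eq_LF8 (h : Sym2 (Fin P.N) → Fin P.k → Fin P.G) (b : Fin P.G) (x : Fin P.N)
    (a : Fin P.k) : (psi f Γ (lab f h b) x a : ℝ) =
      ∑ y ∈ flt (hub f Γ x) (fun y => a ∈ vw f x y), ind (h s(x, y) a = b) := by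
  rw [← card_flt]
  unfold psi
  congr 2
  ext y
  simp only [lab, mem_flt, and_assoc]

theorem Ex_psi_LF8 (b : Fin P.G) (x : Fin P.N) (a : Fin P.k) :
    Ex (unif (Sym2 (Fin P.N)) (Fin P.k → Fin P.G)) (fun h => (psi f Γ (lab f h b) x a : ℝ)) =
      (flt (hub f Γ x) (fun y => a ∈ vw f x y)).card * (1 / (P.G : ℝ)) := by
  simp only [psi_eq_LF8]
  rw [Ex_sum _ _ (fun y (h : Sym2 (Fin P.N) → Fin P.k → Fin P.G) => ind (h s(x, y) a = b))]
  simp only [one_LF8, Fintype.card_fin, sum_const, nsmul_eq_mul]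

theorem Ex_psi2_LF8 (b : Fin P.G) (x : Fin P.N) {a a' : Fin P.k} (ha : a ≠ a') :
    Ex (unif (Sym2 (Fin P.N)) (Fin P.k → Fin P.G))
      (fun h => (psi f Γ (lab f h b) x a : ℝ) * psi f Γ (lab f h b) x a') =
      (flt (hub f Γ x) (fun y => a ∈ vw f x y)).card *
        ((flt (hub f Γ x) (fun y => a' ∈ vw f x y)).card * (1 / (P.G : ℝ) ^ 2)) := by
  simp only [psi_eq_LF8, sum_mul_sum]
  rw [Ex_sum _ _ (fun y (h : Sym2 (Fin P.N) → Fin P.k → Fin P.G) =>
    ∑ y' ∈ flt (hub f Γ x) (fun y => a' ∈ vw f x y),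
      ind (h s(x, y) a = b) * ind (h s(x, y') a' = b))]
  have e : ∀ y, Ex (unif (Sym2 (Fin P.N)) (Fin P.k → Fin P.G))
      (fun h => ∑ y' ∈ flt (hub f Γ x) (fun y => a' ∈ vw f x y),
        ind (h s(x, y) a = b) * ind (h s(x, y') a' = b)) =
      (flt (hub f Γ x) (fun y => a' ∈ vw f x y)).card * (1 / (P.G : ℝ) ^ 2) := fun y => by
    rw [Ex_sum _ _ (fun y' (h : Sym2 (Fin P.N) → Fin P.k → Fin P.G) =>
      ind (h s(x, y) a = b) * ind (h s(x, y') a' = b))]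
    simp only [two_LF8 _ _ ha, Fintype.card_fin, sum_const, nsmul_eq_mul]
  simp only [e, sum_const, nsmul_eq_mul]

theorem Pr_Psi (hP : P.Ok) (h4 : V4 f P.z4 P.c2) (hΓ : ∀ e ∈ Γ, e.1.1 ≠ e.2.1) (b : Fin P.G)
    (x : Fin P.N) :
    Pr (unif (Sym2 (Fin P.N)) (Fin P.k → Fin P.G))
      (fun h => (edg f Γ x).card ≤ P.z1 ∧ P.nu < Psi f Γ (lab f h b) x) ≤ 1 / 40 := by
  have : Nonempty (Fin P.G) := ⟨b⟩
  have hp : IsP (unif (Sym2 (Fin P.N)) (Fin P.k → Fin P.G)) := isP_unif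
  by_cases he : (edg f Γ x).card ≤ P.z1
  swap
  · rw [Pr_false hp fun h k => he k.1]; norm_num
  have hnu : (0 : ℝ) < P.nu := by exact_mod_cast hP.hnu
  have hG : (0 : ℝ) < P.G := by exact_mod_cast hP.hG
  refine le_trans (Pr_mono hp (B := fun h => (P.nu : ℝ) ≤ (Psi f Γ (lab f h b) x : ℝ))
    fun h k => by exact_mod_cast k.2.le) ?_
  refine (markov hp (F := fun h => (Psi f Γ (lab f h b) x : ℝ))
    (fun h => Nat.cast_nonneg _) hnu).trans ?_
  rw [div_le_iff₀ hnu]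
  refine le_trans ?_ (hP.h8e.trans (le_of_eq (by ring)))
  simp only [Psi, Nat.cast_add, Nat.cast_sum, Nat.cast_mul]
  rw [Ex_add, Ex_sum _ _ (fun a (h : Sym2 (Fin P.N) → Fin P.k → Fin P.G) =>
      (psi f Γ (lab f h b) x a : ℝ)),
    Ex_sum _ _ (fun (e : (Fin P.k × Fin P.q) × (Fin P.k × Fin P.q))
      (h : Sym2 (Fin P.N) → Fin P.k → Fin P.G) =>
      (psi f Γ (lab f h b) x e.1.1 : ℝ) * psi f Γ (lab f h b) x e.2.1)]
  refine add_le_add ?_ ?_
  · simp only [Ex_psi_LF8]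
    rw [← sum_mul, mul_one_div]
    refine div_le_div_of_nonneg_right ?_ hG.le
    exact_mod_cast inc_vd f Γ hP h4 x
  · have k : ∀ e ∈ flt (edg f Γ x) (fun e => e.1.1 ∉ vd f Γ x ∧ e.2.1 ∉ vd f Γ x),
        Ex (unif (Sym2 (Fin P.N)) (Fin P.k → Fin P.G))
          (fun h => (psi f Γ (lab f h b) x e.1.1 : ℝ) * psi f Γ (lab f h b) x e.2.1) ≤
          2 * (P.c2 : ℝ) * (2 * (P.c2 : ℝ) * (1 / (P.G : ℝ) ^ 2)) := fun e hm => by
      obtain ⟨h1, h2, h3⟩ := mem_flt.1 hm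
      have d : ∀ a, (e.1.1 = a ∨ e.2.1 = a) → a ∉ vd f Γ x →
          ((flt (hub f Γ x) (fun y => a ∈ vw f x y)).card : ℝ) ≤ 2 * (P.c2 : ℝ) :=
        fun a ha hv => by
        have h5 : a ∈ tch f Γ x := mem_flt.2 ⟨mem_univ _, e, h1, ha⟩
        have h6 : ¬ 2 * P.c2 ≤ (flt (hub f Γ x) (fun y => a ∈ vw f x y)).card :=
          fun k => hv (mem_flt.2 ⟨h5, k⟩)
        exact_mod_cast (not_le.1 h6).le
      rw [Ex_psi2_LF8 f Γ b x (hΓ e (mem_flt.1 h1).1)]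
      have d1 := d _ (Or.inl rfl) h2
      have d2 := d _ (Or.inr rfl) h3
      gcongr
    refine (sum_le_card_nsmul _ _ _ k).trans ?_
    rw [nsmul_eq_mul]
    have c : ((flt (edg f Γ x) (fun e => e.1.1 ∉ vd f Γ x ∧ e.2.1 ∉ vd f Γ x)).card : ℝ) ≤
        P.z1 := by exact_mod_cast (card_flt_le _ _).trans he
    refine (mul_le_mul_of_nonneg_right c (by positivity)).trans (le_of_eq ?_)
    ring

theorem dep_Psi (b : Fin P.G) (x : Fin P.N) :
    Dep (fun h : Sym2 (Fin P.N) → Fin P.k → Fin P.G =>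
      (edg f Γ x).card ≤ P.z1 ∧ P.nu < Psi f Γ (lab f h b) x)
      ((hub f Γ x).image (fun y => s(x, y))) := by
  intro w w' hw
  have e : ∀ a, psi f Γ (lab f w b) x a = psi f Γ (lab f w' b) x a := fun a => by
    unfold psi
    congr 1
    ext y
    simp only [lab, mem_flt]
    refine and_congr_right fun hy => ?_
    rw [hw _ (mem_image_of_mem (fun y => s(x, y)) hy)]
  simp only [Psi, e]

end Pool.Agent.P.MP_b5e666_co.Lar
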