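import Pool.Agent.P.MP_b5e666_co.LF8
import Pool.Agent.P.MP_b5e666_co.LB1

set_option autoImplicit false

open Finset

noncomputable section

namespace Pool.Agent.P.MP_b5e666_co.Lar

variable {P : Par}

theorem sum_class_LF9 {α : Type} [Fintype α] {n : ℕ} (c : α → Fin n) (B : α → Prop) :
    ∑ m : Fin n, ((flt (flt univ (fun x => c x = m)) B).card : ℝ) = ((flt univ B).card : ℝ) := by
  classical
  have h := Finset.card_eq_sum_card_fiberwise (f := c) (s := flt univ B) (t := univ)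
    (fun _ _ => by simp)
  rw [h]; push_cast
  refine sum_congr rfl fun m _ => ?_
  congr 2
  ext x; simp [and_comm]

theorem fixed_LF9 (hP : P.Ok) (f : Fin P.N → Fin P.k → Fin P.q) (h4 : V4 f P.z4 P.c2)
    (b : Fin P.G) (Γ : Finset ((Fin P.k × Fin P.q) × (Fin P.k × Fin P.q))) :
    Pr (unif (Sym2 (Fin P.N)) (Fin P.k → Fin P.G))
      (fun h => (∀ e ∈ Γ, e.1.1 ≠ e.2.1) ∧ ¬ 10 * (flt univ (fun x => (edg f Γ x).card ≤ P.z1 ∧
        ¬ ∃ C, Zer f (lab f h b) Γ P.z1 P.nu x C)).card ≤ P.N) ≤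
      (2 * (P.J : ℝ) + 1) * Real.exp (-(P.N / (20 * (2 * (P.J : ℝ) + 1)))) := by
  classical
  haveI : Nonempty (Fin P.G) := ⟨b⟩
  have hp : IsP (unif (Sym2 (Fin P.N)) (Fin P.k → Fin P.G)) := isP_unif
  have hJ : (0 : ℝ) < 2 * (P.J : ℝ) + 1 := by positivity
  by_cases hΓ : ∀ e ∈ Γ, e.1.1 ≠ e.2.1
  swap
  · rw [Pr_false hp fun h hh => hΓ hh.1]; positivity
  obtain ⟨c, hc⟩ := colour_digraph (univ : Finset (Fin P.N)) (fun x y => y ∈ hub f Γ x) P.J
    (fun x _ => (card_le_card (fun y hy => (mem_flt.1 hy).2)).trans (card_hub f Γ hP h4 x))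
  set B : Fin P.N → (Sym2 (Fin P.N) → Fin P.k → Fin P.G) → Prop :=
    fun x h => (edg f Γ x).card ≤ P.z1 ∧ P.nu < Psi f Γ (lab f h b) x with hB
  set Cl : Fin (2 * P.J + 1) → Finset (Fin P.N) := fun m => flt univ (fun x => c x = m) with hCl
  have h1 : ∀ m, Pr (unif (Sym2 (Fin P.N)) (Fin P.k → Fin P.G))
      (fun h => ((Cl m).card : ℝ) / 20 + P.N / (20 * (2 * (P.J : ℝ) + 1)) ≤
        ((flt (Cl m) (fun x => B x h)).card : ℝ)) ≤
      Real.exp (-(P.N / (20 * (2 * (P.J : ℝ) + 1)))) := by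
    intro m
    refine (chern_groups hp (Cl m) (fun x => (hub f Γ x).image (fun y => s(x, y))) B
      (fun x _ => dep_Psi f Γ b x) ?_ (ρ := 1 / 40)
      (fun x _ => Pr_Psi f Γ hP h4 hΓ b x)).trans (le_of_eq ?_)
    · intro x hx x' hx' hne
      rw [Finset.disjoint_left]
      intro e he he'
      obtain ⟨y, hy, rfl⟩ := mem_image.1 he
      obtain ⟨y', hy', hyy⟩ := mem_image.1 he'
      rcases Sym2.eq_iff.1 hyy with ⟨h1, _⟩ | ⟨h1, _⟩
      · exact hne h1.symm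
      · subst h1
        exact hc x (mem_univ _) x' (mem_univ _) hne hy
          ((mem_flt.1 hx).2.trans (mem_flt.1 hx').2.symm)
    · congr 1; ring
  refine le_trans (Pr_mono hp (B := fun h => ∃ m ∈ (univ : Finset (Fin (2 * P.J + 1))),
    ((Cl m).card : ℝ) / 20 + P.N / (20 * (2 * (P.J : ℝ) + 1)) ≤
        ((flt (Cl m) (fun x => B x h)).card : ℝ)) ?_) ?_
  · rintro h ⟨-, hh⟩
    by_contra hcon
    push Not at hcon
    apply hh
    have s1 := sum_class_LF9 c (fun x => B x h)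
    have s2 := sum_class_LF9 c (fun _ => True)
    have e2 : ∀ s : Finset (Fin P.N), flt s (fun _ => True) = s := fun s => by ext; simp
    simp only [e2, card_univ, Fintype.card_fin] at s2
    have s3 : ∑ m : Fin (2 * P.J + 1), ((flt (Cl m) (fun x => B x h)).card : ℝ) ≤
        ∑ m : Fin (2 * P.J + 1), (((Cl m).card : ℝ) / 20 + P.N / (20 * (2 * (P.J : ℝ) + 1))) :=
      sum_le_sum fun m hm => (hcon m hm).le
    rw [sum_add_distrib, ← sum_div, s1, s2] at s3
    simp only [sum_const, card_univ, Fintype.card_fin, nsmul_eq_mul] at s3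
    have e3 : ((2 * P.J + 1 : ℕ) : ℝ) * (P.N / (20 * (2 * (P.J : ℝ) + 1))) = P.N / 20 := by
      push_cast; field_simp
    rw [e3] at s3
    have s4 : (flt univ (fun x => (edg f Γ x).card ≤ P.z1 ∧
        ¬ ∃ C, Zer f (lab f h b) Γ P.z1 P.nu x C)).card ≤ (flt univ (fun x => B x h)).card := by
      refine card_le_card (flt_mono fun x hx hb => ⟨hx, hb.1, ?_⟩)
      by_contra hle
      exact hb.2 (zer_of_Psi f Γ (lab f h b) (fun x y => flt_subset _ _) x hb.1 (not_lt.1 hle))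
    have s5 : ((flt univ (fun x => (edg f Γ x).card ≤ P.z1 ∧
        ¬ ∃ C, Zer f (lab f h b) Γ P.z1 P.nu x C)).card : ℝ) ≤
        (flt univ (fun x => B x h)).card := by exact_mod_cast s4
    have s6 : (10 : ℝ) * ((flt univ (fun x => (edg f Γ x).card ≤ P.z1 ∧
        ¬ ∃ C, Zer f (lab f h b) Γ P.z1 P.nu x C)).card : ℝ) ≤ P.N := by linarith
    exact_mod_cast s6
  · refine (Pr_exists_le hp _ _).trans ((sum_le_sum fun m _ => h1 m).trans (le_of_eq ?_))
    simp only [sum_const, card_univ, Fintype.card_fin, nsmul_eq_mul]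
    push_cast; ring

theorem Pr_not_V8 (hP : P.Ok) (f : Fin P.N → Fin P.k → Fin P.q) (h4 : V4 f P.z4 P.c2)
    (b : Fin P.G) :
    Pr (unif (Sym2 (Fin P.N)) (Fin P.k → Fin P.G)) (fun h => ¬ V8 f (lab f h b) P.e0 P.z1 P.nu) ≤
      1 / 10 := by
  classical
  haveI : Nonempty (Fin P.G) := ⟨b⟩
  have hp : IsP (unif (Sym2 (Fin P.N)) (Fin P.k → Fin P.G)) := isP_unif
  refine le_trans (Pr_mono hp (B := fun h => ∃ Γ ∈ flt (univ : Finset (Finset ((Fin P.k × Fin P.q) ×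
    (Fin P.k × Fin P.q)))) (fun V => V.card ≤ P.e0), (∀ e ∈ Γ, e.1.1 ≠ e.2.1) ∧
      ¬ 10 * (flt univ (fun x => (edg f Γ x).card ≤ P.z1 ∧
        ¬ ∃ C, Zer f (lab f h b) Γ P.z1 P.nu x C)).card ≤ P.N) ?_) ?_
  · intro h hh
    by_contra hcon
    apply hh
    intro Γ h1 h2
    by_contra h3
    exact hcon ⟨Γ, mem_flt.2 ⟨mem_univ _, h1⟩, h2, h3⟩
  · refine (Pr_exists_le hp _ _).trans
      ((sum_le_sum fun Γ _ => fixed_LF9 hP f h4 b Γ).trans (le_trans ?_ hP.h8f))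
    rw [sum_const, nsmul_eq_mul]
    have hc := card_small_le ((Fin P.k × Fin P.q) × (Fin P.k × Fin P.q)) P.e0
    have hc' : ((flt (univ : Finset (Finset ((Fin P.k × Fin P.q) × (Fin P.k × Fin P.q))))
        (fun V => V.card ≤ P.e0)).card : ℝ) ≤ (((P.k : ℝ) * P.q) ^ 2 + 1) ^ P.e0 := by
      simp only [Fintype.card_prod, Fintype.card_fin] at hc
      have : ((flt (univ : Finset (Finset ((Fin P.k × Fin P.q) × (Fin P.k × Fin P.q))))
        (fun V => V.card ≤ P.e0)).card : ℝ) ≤ (((P.k * P.q * (P.k * P.q) + 1) ^ P.e0 : ℕ) : ℝ) := by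
        exact_mod_cast hc
      refine this.trans (le_of_eq ?_)
      push_cast; ring
    have h0 : (0 : ℝ) ≤ (2 * (P.J : ℝ) + 1) * Real.exp (-(P.N / (20 * (2 * (P.J : ℝ) + 1)))) := by
      positivity
    refine (mul_le_mul_of_nonneg_right hc' h0).trans (le_of_eq ?_)
    ring

end Pool.Agent.P.MP_b5e666_co.Lar
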