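import Pool.Agent.P.MP_b5e666_co.LF1
import Pool.Agent.P.MP_b5e666_co.LF2
import Pool.Agent.P.MP_b5e666_co.LF3
import Pool.Agent.P.MP_b5e666_co.LF4
import Pool.Agent.P.MP_b5e666_co.LF5
import Pool.Agent.P.MP_b5e666_co.LF6
import Pool.Agent.P.MP_b5e666_co.LF9

set_option autoImplicit false

open Finset

noncomputable section

namespace Pool.Agent.P.MP_b5e666_co.Lar

variable {P : Par}

theorem exists_fam (hP : P.Ok) : ∃ Φ : Fam P, Φ.Ok := by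
  haveI : Nonempty (Fin P.q) := ⟨⟨0, by have := hP.hq; omega⟩⟩
  haveI : Nonempty (Fin P.G) := ⟨⟨0, hP.hG⟩⟩
  have hp : IsP (unif (Fin P.N) (Fin P.k → Fin P.q)) := isP_unif
  have hg : IsP (unif (Sym2 (Fin P.N)) (Fin P.k → Bool)) := isP_unif
  have hh : IsP (unif (Sym2 (Fin P.N)) (Fin P.k → Fin P.G)) := isP_unif
  obtain ⟨f, hf⟩ := exists_of_Pr_lt_one hp (A := fun f => ¬ V1 f P.iu ∨ ¬ V1' f P.i ∨
      ¬ V2 f P.c1 ∨ ¬ V3 f (2 * P.j) ∨ ¬ V4 f P.z4 P.c2 ∨ ¬ V9 f P.du P.l2) (by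
    have a1 := Pr_or_le hp (fun f => ¬ V1 f P.iu) (fun f => ¬ V1' f P.i ∨
      ¬ V2 f P.c1 ∨ ¬ V3 f (2 * P.j) ∨ ¬ V4 f P.z4 P.c2 ∨ ¬ V9 f P.du P.l2)
    have a2 := Pr_or_le hp (fun f => ¬ V1' f P.i) (fun f =>
      ¬ V2 f P.c1 ∨ ¬ V3 f (2 * P.j) ∨ ¬ V4 f P.z4 P.c2 ∨ ¬ V9 f P.du P.l2)
    have a3 := Pr_or_le hp (fun f => ¬ V2 f P.c1) (fun f =>
      ¬ V3 f (2 * P.j) ∨ ¬ V4 f P.z4 P.c2 ∨ ¬ V9 f P.du P.l2)
    have a4 := Pr_or_le hp (fun f => ¬ V3 f (2 * P.j)) (fun f =>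
      ¬ V4 f P.z4 P.c2 ∨ ¬ V9 f P.du P.l2)
    have a5 := Pr_or_le hp (fun f => ¬ V4 f P.z4 P.c2) (fun f => ¬ V9 f P.du P.l2)
    linarith [Pr_not_V1 hP, Pr_not_V1' hP, Pr_not_V2 hP, Pr_not_V3 hP, Pr_not_V4 hP,
      Pr_not_V9 hP])
  simp only [not_or, not_not] at hf
  obtain ⟨h1, h1', h2, h3, h4, h9⟩ := hf
  obtain ⟨g, hg'⟩ := exists_of_Pr_lt_one hg (A := fun g => ¬ V6 (lab f g true) P.du P.lx ∨
      ¬ V7 f (lab f g true) P.Mr) (by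
    have a1 := Pr_or_le hg (fun g => ¬ V6 (lab f g true) P.du P.lx)
      (fun g => ¬ V7 f (lab f g true) P.Mr)
    linarith [Pr_not_V6 hP f h9, Pr_not_V7 hP f])
  let b : Fin P.G := ⟨0, hP.hG⟩
  obtain ⟨h, hh'⟩ := exists_of_Pr_lt_one hh (A := fun h => ¬ V5 (lab f h b) P.ml P.mu ∨
      ¬ V8 f (lab f h b) P.e0 P.z1 P.nu) (by
    have a1 := Pr_or_le hh (fun h => ¬ V5 (lab f h b) P.ml P.mu)
      (fun h => ¬ V8 f (lab f h b) P.e0 P.z1 P.nu)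
    linarith [Pr_not_V5 hP f h1 h1' b, Pr_not_V8 hP f h4 b])
  simp only [not_or, not_not] at hg' hh'
  refine ⟨⟨f, lab f g true, lab f h b⟩, fun x y => flt_subset _ _, fun x y => flt_subset _ _,
    fun x y => ?_, fun x y => ?_, h1, h2, h3, hh'.1, hg'.1, hg'.2, hh'.2⟩
  · simp only [lab]; rw [vw_symm f x y, Sym2.eq_swap]
  · simp only [lab]; rw [vw_symm f x y, Sym2.eq_swap]

end Pool.Agent.P.MP_b5e666_co.Lar
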