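import Pool.Agent.P.MP_b5e666_co.LP0

set_option autoImplicit false

open Finset

noncomputable section

namespace Pool.Agent.P.MP_b5e666_co.Lar

/-- the parameters as powers of one number -/
def par_LP1 (l : ℕ) : Par where
  N := l ^ 6652801
  k := l ^ 218 * l ^ 1008
  q := l ^ 1008
  i := l ^ 218
  G := l ^ 76
  j := 3300
  L := l
  Mr := l
  c1 := l
  c2 := l
  lam2 := l ^ 4
  s := l ^ 3
  iu := l ^ 219
  nu := l ^ 77
  ml := 8 * l ^ 141
  mu := l ^ 144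
  du := l ^ 1130
  lx := l ^ 3
  l := l
  l2 := l ^ 4
  z0 := l ^ 1004
  z1 := l ^ 226
  z2 := l ^ 1007
  z3 := l ^ 1007
  z4 := l ^ 227
  J := l ^ 151
  g := l ^ 783
  e0 := l ^ 2241
  mu0 := l ^ 6650558
  mu1 := l ^ 6651676
  R := l ^ 1118
  eps := 1 / (l : ℝ) ^ 64
  del := 1 / (l : ℝ)
  lam := (l : ℝ) ^ 3
  V := (l : ℝ) ^ 124
  Del := (l : ℝ) ^ 1129
  th := 1 / (l : ℝ) ^ 440
  smax := 1 / (l : ℝ) ^ 6649428
  be1 := 1 / (l : ℝ) ^ 62
  be2 := 1 / (l : ℝ) ^ 138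
  be3 := (l : ℝ) ^ 2

theorem exists_l_LP1 (E : ℕ) : ∃ l : ℕ, 10 ^ 9 ≤ l ∧ (l : ℝ) ^ E ≤ Real.exp (l / 100) := by
  have h1 := (Real.tendsto_exp_div_pow_atTop E).comp
    (tendsto_natCast_atTop_atTop.atTop_div_const (show (0 : ℝ) < 100 by norm_num))
  obtain ⟨l, h2, h3⟩ := ((h1.eventually_ge_atTop ((100 : ℝ) ^ E)).and
    (Filter.eventually_ge_atTop (10 ^ 9))).exists
  refine ⟨l, h3, ?_⟩
  have h4 : (0 : ℝ) < l := by exact_mod_cast lt_of_lt_of_le (by norm_num) h3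
  simp only [Function.comp] at h2
  rw [le_div_iff₀ (by positivity), ← mul_pow] at h2
  rwa [show (100 : ℝ) * (l / 100) = l by ring] at h2

theorem pw_LP1 {x : ℝ} (hx : 10 ^ 9 ≤ x) (c : ℝ) (a b : ℕ) (hc : c ≤ 10 ^ 9) (hab : a < b) :
    c * x ^ a ≤ x ^ b := by
  have h1 : (1 : ℝ) ≤ x := le_trans (by norm_num) hx
  calc c * x ^ a ≤ x * x ^ a := mul_le_mul_of_nonneg_right (hc.trans hx) (by positivity)
    _ = x ^ (a + 1) := (pow_succ' x a).symm
    _ ≤ x ^ b := pow_le_pow_right₀ h1 hab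

theorem pn_LP1 {l : ℕ} (hl : 10 ^ 9 ≤ l) (c a b : ℕ) (hc : c ≤ 10 ^ 9) (hab : a < b) :
    c * l ^ a ≤ l ^ b := by
  have h1 : 1 ≤ l := le_trans (by norm_num) hl
  calc c * l ^ a ≤ l * l ^ a := Nat.mul_le_mul_right _ (hc.trans hl)
    _ = l ^ (a + 1) := (pow_succ' l a).symm
    _ ≤ l ^ b := Nat.pow_le_pow_right h1 hab

theorem fin1_LP1 {A u v : ℝ} (hA : A ≤ Real.exp u) (h : u + v ≤ 0) : A * Real.exp v ≤ 1 := by
  refine (mul_le_mul_of_nonneg_right hA (Real.exp_pos v).le).trans ?_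
  rw [← Real.exp_add]
  exact Real.exp_le_one_iff.2 h

theorem fin_LP1 {A u v : ℝ} (hA : A ≤ Real.exp u) (h : u + v + 20 ≤ 0) :
    A * Real.exp v ≤ 1 / 20 := by
  refine (mul_le_mul_of_nonneg_right hA (Real.exp_pos v).le).trans ?_
  rw [← Real.exp_add]
  refine (Real.exp_le_exp.2 (show u + v ≤ -20 by linarith)).trans ?_
  rw [Real.exp_neg, one_div]
  exact inv_anti₀ (by norm_num) (by linarith [Real.add_one_le_exp (20 : ℝ)])

theorem pe_LP1 {A u : ℝ} (h0 : 0 ≤ A) (hA : A ≤ Real.exp u) (m : ℕ) :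
    A ^ m ≤ Real.exp (m * u) := by
  rw [Real.exp_nat_mul]
  exact pow_le_pow_left₀ h0 hA m

theorem me_LP1 {A B u v : ℝ} (h0 : 0 ≤ B) (hA : A ≤ Real.exp u) (hB : B ≤ Real.exp v) :
    A * B ≤ Real.exp (u + v) := by
  rw [Real.exp_add]
  exact mul_le_mul hA hB h0 (Real.exp_pos u).le

theorem sm_LP1 {r : ℝ} (h0 : 0 ≤ r) (h : 3 * r ≤ 1) (m : ℕ) : r ^ m ≤ Real.exp (-(m : ℝ)) := by
  have h1 : r ≤ Real.exp (-1) := by
    have h2 := Real.exp_one_lt_d9
    have h3 := Real.exp_pos 1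
    rw [Real.exp_neg, ← one_div, le_div_iff₀ h3]
    nlinarith
  simpa using pe_LP1 h0 h1 m

theorem half_LP1 {x : ℝ} (hx : 0 < x) (m l : ℕ) : Real.exp 2 * ((1 + 1 / x) ^ m / 2) ^ l ≤
    Real.exp (2 + l * (m * (1 / x) + -(1 / 2))) := by
  refine me_LP1 (by positivity) le_rfl (pe_LP1 (by positivity) ?_ l)
  rw [div_eq_mul_one_div]
  refine me_LP1 (by norm_num) (pe_LP1 (by positivity)
    (by linarith [Real.add_one_le_exp (1 / x)]) m) ?_
  linarith [Real.add_one_le_exp (-(1 / 2 : ℝ))]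

theorem dv_LP1 {x : ℝ} (hx : 0 < x) (a b c : ℕ) (h : a = b + c) : x ^ a / x ^ b = x ^ c := by
  rw [h, pow_add, mul_div_cancel_left₀ _ (by positivity)]

theorem dw_LP1 {x : ℝ} (hx : 0 < x) (a b c : ℕ) (h : a = b + c) : 1 / x ^ b * x ^ a = x ^ c := by
  rw [← dv_LP1 hx a b c h]; ring

theorem bb_LP1 {x : ℝ} (hx : 0 < x) (a b m m' E c : ℕ) (h : a * m + E = b * m' + c) :
    (x ^ a) ^ m * (6 * x ^ E / (x ^ b) ^ m') = 6 * x ^ c := by
  rw [← pow_mul, ← pow_mul, ← dv_LP1 hx _ _ c h, pow_add]; ring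

section
variable {l : ℕ} (hl : 10 ^ 9 ≤ l) (hE : (l : ℝ) ^ 6652801 ≤ Real.exp (l / 100))
include hl

theorem f2a_LP1 : (par_LP1 l).k ≤ (par_LP1 l).q ^ 2 := by
  have P := pn_LP1 hl
  simp only [par_LP1]
  calc _ = 1 * l ^ 1226 := by ring
    _ ≤ l ^ 2016 := P 1 1226 2016 (by norm_num) (by norm_num)
    _ = _ := by ring

theorem f4a_LP1 : (par_LP1 l).z4 ^ 2 ≤ (par_LP1 l).q := by
  have P := pn_LP1 hl
  simp only [par_LP1]
  calc _ = 1 * l ^ 454 := by ring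
    _ ≤ l ^ 1008 := P 1 454 1008 (by norm_num) (by norm_num)
    _ = _ := by ring

theorem h8a_LP1 : 2 * (par_LP1 l).c2 ≤ (par_LP1 l).nu := by
  have P := pn_LP1 hl
  simp only [par_LP1]
  calc _ = 2 * l ^ 1 := by ring
    _ ≤ l ^ 77 := P 2 1 77 (by norm_num) (by norm_num)
    _ = _ := by ring

theorem h8b_LP1 : 4 * (par_LP1 l).c2 * (par_LP1 l).z1 ≤ (par_LP1 l).nu * (par_LP1 l).J := by
  have P := pn_LP1 hl
  simp only [par_LP1]
  calc _ = 4 * l ^ 227 := by ring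
    _ ≤ l ^ 228 := P 4 227 228 (by norm_num) (by norm_num)
    _ = _ := by ring

theorem h8c_LP1 : 2 * (par_LP1 l).z1 ≤ (par_LP1 l).z4 := by
  have P := pn_LP1 hl
  simp only [par_LP1]
  calc _ = 2 * l ^ 226 := by ring
    _ ≤ l ^ 227 := P 2 226 227 (by norm_num) (by norm_num)
    _ = _ := by ring

theorem h8d_LP1 : (par_LP1 l).J + 1 ≤ (par_LP1 l).z4 := by
  have P := pn_LP1 hl
  simp only [par_LP1]
  have a0 := P 2 151 227 (by norm_num) (by norm_num)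
  have a1 := P 1 0 151 (by norm_num) (by norm_num)
  linarith

theorem t2_LP1 : 128 * (par_LP1 l).Mr * (par_LP1 l).z0 * (par_LP1 l).j ≤ (par_LP1 l).z2 := by
  have P := pn_LP1 hl
  simp only [par_LP1]
  calc _ = 422400 * l ^ 1005 := by ring
    _ ≤ l ^ 1007 := P 422400 1005 1007 (by norm_num) (by norm_num)
    _ = _ := by ring

theorem x1_LP1 : 10 * (par_LP1 l).n * (par_LP1 l).s2 * (8 * (par_LP1 l).Mr * (par_LP1 l).mu0) ≤ (par_LP1 l).N := by
  have P := pn_LP1 hl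
  simp only [Par.n, Par.s2, par_LP1]
  calc _ = 2080 * l ^ 6652799 := by ring
    _ ≤ l ^ 6652801 := P 2080 6652799 6652801 (by norm_num) (by norm_num)
    _ = _ := by ring

theorem x2_LP1 : 120 * (par_LP1 l).n * (13 * (par_LP1 l).s ^ 3) ≤ (par_LP1 l).q ^ 3 := by
  have P := pn_LP1 hl
  simp only [Par.n, par_LP1]
  calc _ = 3120 * l ^ 2243 := by ring
    _ ≤ l ^ 3024 := P 3120 2243 3024 (by norm_num) (by norm_num)
    _ = _ := by ring

theorem x3_LP1 : 2 * (par_LP1 l).n * (par_LP1 l).s2 ≤ (par_LP1 l).e0 := by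
  have P := pn_LP1 hl
  simp only [Par.n, Par.s2, par_LP1]
  calc _ = 52 * l ^ 2240 := by ring
    _ ≤ l ^ 2241 := P 52 2240 2241 (by norm_num) (by norm_num)
    _ = _ := by ring

theorem x4_LP1 : 60 * (par_LP1 l).e0 ≤ (par_LP1 l).z1 * (par_LP1 l).q ^ 2 := by
  have P := pn_LP1 hl
  simp only [par_LP1]
  calc _ = 60 * l ^ 2241 := by ring
    _ ≤ l ^ 2242 := P 60 2241 2242 (by norm_num) (by norm_num)
    _ = _ := by ring

theorem x5_LP1 : 10 * (par_LP1 l).n * (par_LP1 l).s2 * (8 * (par_LP1 l).Mr * (par_LP1 l).mu1) ≤ (par_LP1 l).R * (par_LP1 l).N := by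
  have P := pn_LP1 hl
  simp only [Par.n, Par.s2, par_LP1]
  calc _ = 2080 * l ^ 6653917 := by ring
    _ ≤ l ^ 6653919 := P 2080 6653917 6653919 (by norm_num) (by norm_num)
    _ = _ := by ring

theorem m1_LP1 : 2 * (par_LP1 l).z1 ≤ (par_LP1 l).z0 := by
  have P := pn_LP1 hl
  simp only [par_LP1]
  calc _ = 2 * l ^ 226 := by ring
    _ ≤ l ^ 1004 := P 2 226 1004 (by norm_num) (by norm_num)
    _ = _ := by ring

theorem m5_LP1 : (par_LP1 l).mu0 ≤ (par_LP1 l).N := by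
  have P := pn_LP1 hl
  simp only [par_LP1]
  calc _ = 1 * l ^ 6650558 := by ring
    _ ≤ l ^ 6652801 := P 1 6650558 6652801 (by norm_num) (by norm_num)
    _ = _ := by ring

theorem hmu1_LP1 : (par_LP1 l).mu0 ≤ (par_LP1 l).mu1 := by
  have P := pn_LP1 hl
  simp only [par_LP1]
  calc _ = 1 * l ^ 6650558 := by ring
    _ ≤ l ^ 6651676 := P 1 6650558 6651676 (by norm_num) (by norm_num)
    _ = _ := by ring

theorem m7_LP1 : 2 * ((par_LP1 l).du + 1) < (par_LP1 l).N := by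
  have P := pn_LP1 hl
  simp only [par_LP1]
  have a0 := P 5 1130 6652801 (by norm_num) (by norm_num)
  have a1 := P 1 0 1130 (by norm_num) (by norm_num)
  linarith

theorem c4b_LP1 : (par_LP1 l).l + (par_LP1 l).c1 * (par_LP1 l).L ≤ (par_LP1 l).lx := by
  have P := pn_LP1 hl
  simp only [par_LP1]
  have a0 := P 2 2 3 (by norm_num) (by norm_num)
  have a1 := P 1 1 2 (by norm_num) (by norm_num)
  linarith

theorem c5a_LP1 : (par_LP1 l).nu ≤ 4 * (par_LP1 l).mu := by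
  have P := pn_LP1 hl
  simp only [par_LP1]
  have a0 := P 1 77 144 (by norm_num) (by norm_num)
  have a1 := P 0 0 144 (by norm_num) (by norm_num)
  linarith

theorem c6a_LP1 : (par_LP1 l).L * (par_LP1 l).iu * (1 + (par_LP1 l).g) ≤ (par_LP1 l).z0 := by
  have P := pn_LP1 hl
  simp only [par_LP1]
  have a0 := P 2 1003 1004 (by norm_num) (by norm_num)
  have a1 := P 1 220 1003 (by norm_num) (by norm_num)
  linarith

theorem hq_LP1 : 2 ≤ (par_LP1 l).q := by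
  have P := pn_LP1 hl
  simp only [par_LP1]
  have a0 := P 2 0 1008 (by norm_num) (by norm_num)
  linarith

theorem hlx_LP1 : 3 ≤ (par_LP1 l).lx := by
  have P := pn_LP1 hl
  simp only [par_LP1]
  have a0 := P 3 0 3 (by norm_num) (by norm_num)
  linarith

theorem heps4_LP1 : (par_LP1 l).eps ≤ 1 / 4 := by
  have hx : (10 : ℝ) ^ 9 ≤ l := by exact_mod_cast hl
  have x0 : (0 : ℝ) < l := lt_of_lt_of_le (by norm_num) hx
  have P := pw_LP1 hx
  simp only [par_LP1]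
  have a0 := P 4 0 64 (by norm_num) (by norm_num)
  rw [div_le_div_iff₀ (by positivity) (by norm_num)]
  linarith

theorem hdel_LP1 : 2 * (par_LP1 l).eps ≤ (par_LP1 l).del := by
  have hx : (10 : ℝ) ^ 9 ≤ l := by exact_mod_cast hl
  have x0 : (0 : ℝ) < l := lt_of_lt_of_le (by norm_num) hx
  have P := pw_LP1 hx
  simp only [par_LP1]
  have a0 := P 2 1 64 (by norm_num) (by norm_num)
  rw [mul_one_div, div_le_div_iff₀ (by positivity) x0]
  linarith

theorem hdel1_LP1 : (par_LP1 l).del ≤ 1 := by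
  have hx : (10 : ℝ) ^ 9 ≤ l := by exact_mod_cast hl
  have x0 : (0 : ℝ) < l := lt_of_lt_of_le (by norm_num) hx
  have P := pw_LP1 hx
  simp only [par_LP1]
  rw [div_le_one x0]
  linarith

theorem hlam_LP1 : 1 ≤ (par_LP1 l).lam := by
  have hx : (10 : ℝ) ^ 9 ≤ l := by exact_mod_cast hl
  have x0 : (0 : ℝ) < l := lt_of_lt_of_le (by norm_num) hx
  have P := pw_LP1 hx
  simp only [par_LP1]
  have a0 := P 1 0 3 (by norm_num) (by norm_num)
  linarith

theorem hsmax_LP1 : (par_LP1 l).smax ≤ 1 / 2 := by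
  have hx : (10 : ℝ) ^ 9 ≤ l := by exact_mod_cast hl
  have x0 : (0 : ℝ) < l := lt_of_lt_of_le (by norm_num) hx
  have P := pw_LP1 hx
  simp only [par_LP1]
  have a0 := P 2 0 6649428 (by norm_num) (by norm_num)
  rw [div_le_div_iff₀ (by positivity) (by norm_num)]
  linarith

theorem hbe1'_LP1 : (par_LP1 l).be1 ≤ 1 := by
  have hx : (10 : ℝ) ^ 9 ≤ l := by exact_mod_cast hl
  have x0 : (0 : ℝ) < l := lt_of_lt_of_le (by norm_num) hx
  have P := pw_LP1 hx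
  simp only [par_LP1]
  have a0 := P 1 0 62 (by norm_num) (by norm_num)
  rw [div_le_one (by positivity)]
  linarith

theorem hbe2'_LP1 : (par_LP1 l).be2 * (par_LP1 l).c1 ≤ 1 := by
  have hx : (10 : ℝ) ^ 9 ≤ l := by exact_mod_cast hl
  have x0 : (0 : ℝ) < l := lt_of_lt_of_le (by norm_num) hx
  have P := pw_LP1 hx
  simp only [par_LP1]
  have a0 := P 1 1 138 (by norm_num) (by norm_num)
  rw [div_mul_eq_mul_div, div_le_one (by positivity)]
  linarith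

theorem hbe3_LP1 : 1 ≤ (par_LP1 l).be3 := by
  have hx : (10 : ℝ) ^ 9 ≤ l := by exact_mod_cast hl
  have x0 : (0 : ℝ) < l := lt_of_lt_of_le (by norm_num) hx
  have P := pw_LP1 hx
  simp only [par_LP1]
  have a0 := P 1 0 2 (by norm_num) (by norm_num)
  linarith

theorem hbe3'_LP1 : (par_LP1 l).be3 * (par_LP1 l).eps ≤ 1 := by
  have hx : (10 : ℝ) ^ 9 ≤ l := by exact_mod_cast hl
  have x0 : (0 : ℝ) < l := lt_of_lt_of_le (by norm_num) hx
  have P := pw_LP1 hx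
  simp only [par_LP1]
  have a0 := P 1 2 64 (by norm_num) (by norm_num)
  rw [mul_one_div, div_le_one (by positivity)]
  linarith

include hE in
theorem f1_LP1 : ((par_LP1 l).N : ℝ) ^ 2 * Real.exp (-((par_LP1 l).iu : ℝ) + 2 * (par_LP1 l).i) ≤ 1 / 10 := by
  have hx : (10 : ℝ) ^ 9 ≤ l := by exact_mod_cast hl
  have x0 : (0 : ℝ) < l := lt_of_lt_of_le (by norm_num) hx
  have P := pw_LP1 hx
  simp only [par_LP1]
  push_cast
  have a0 := P 3 218 219 (by norm_num) (by norm_num)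
  have a1 := P 1 1 218 (by norm_num) (by norm_num)
  refine (fin_LP1 (pe_LP1 (by positivity) hE 2) ?_).trans (by norm_num)
  push_cast
  linarith

include hE in
theorem f1'_LP1 : ((par_LP1 l).N : ℝ) ^ 2 * Real.exp (-(((par_LP1 l).i : ℝ) / 10)) ≤ 1 / 10 := by
  have hx : (10 : ℝ) ^ 9 ≤ l := by exact_mod_cast hl
  have x0 : (0 : ℝ) < l := lt_of_lt_of_le (by norm_num) hx
  have P := pw_LP1 hx
  simp only [par_LP1]
  push_cast
  have a0 := P 1 1 218 (by norm_num) (by norm_num)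
  refine (fin_LP1 (pe_LP1 (by positivity) hE 2) ?_).trans (by norm_num)
  push_cast
  linarith

include hE in
theorem f2_LP1 : ((par_LP1 l).N : ℝ) ^ 3 * Real.exp 1 * (((par_LP1 l).k : ℝ) / ((par_LP1 l).q : ℝ) ^ 2) ^ (par_LP1 l).c1 ≤ 1 / 10 := by
  have hx : (10 : ℝ) ^ 9 ≤ l := by exact_mod_cast hl
  have x0 : (0 : ℝ) < l := lt_of_lt_of_le (by norm_num) hx
  have P := pw_LP1 hx
  simp only [par_LP1]
  push_cast
  have a0 := P 3 1226 2016 (by norm_num) (by norm_num)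
  have b0 : ((l : ℝ) ^ 218 * (l : ℝ) ^ 1008 / ((l : ℝ) ^ 1008) ^ 2) ^ l ≤ Real.exp (-(l : ℝ)) := by
    refine sm_LP1 (by positivity) ?_ l
    rw [← mul_div_assoc, div_le_one (by positivity)]
    linarith
  refine (mul_le_mul_of_nonneg_left b0 (by positivity)).trans ?_
  refine (fin_LP1 (me_LP1 (Real.exp_pos 1).le (pe_LP1 (by positivity) hE 3) le_rfl) ?_).trans
    (by norm_num)
  push_cast
  linarith

include hE in
theorem f3_LP1 : (((par_LP1 l).k : ℝ) * (par_LP1 l).q + 1) ^ (2 * (par_LP1 l).j) * Real.exp (-(3 * (par_LP1 l).N / ((par_LP1 l).q : ℝ) ^ (2 * (par_LP1 l).j))) ≤ 1 / 10 := by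
  have hx : (10 : ℝ) ^ 9 ≤ l := by exact_mod_cast hl
  have x0 : (0 : ℝ) < l := lt_of_lt_of_le (by norm_num) hx
  have P := pw_LP1 hx
  simp only [par_LP1]
  push_cast
  have a0 := P 2 2234 2235 (by norm_num) (by norm_num)
  have a1 := P 1 0 2234 (by norm_num) (by norm_num)
  have b0 : (l : ℝ) ^ 218 * (l : ℝ) ^ 1008 * (l : ℝ) ^ 1008 + 1 ≤ (l : ℝ) ^ 2235 := by linarith
  have b1 : ((l : ℝ) ^ 2235) ^ 6600 ≤ ((l : ℝ) ^ 6652801) ^ 3 := by
    rw [← pow_mul, ← pow_mul]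
    exact pow_le_pow_right₀ (by linarith) (by norm_num)
  have b2 : 3 * (l : ℝ) ^ 6652801 / ((l : ℝ) ^ 1008) ^ 6600 = 3 * (l : ℝ) ^ 1 := by
    rw [← pow_mul, mul_div_assoc, dv_LP1 x0 _ _ 1 (by norm_num)]
  rw [b2]
  refine (fin_LP1 (((pow_le_pow_left₀ (by positivity) b0 6600).trans b1).trans
    (pe_LP1 (by positivity) hE 3)) ?_).trans (by norm_num)
  push_cast
  linarith

include hE in
theorem f4_LP1 : 20 * ((par_LP1 l).N : ℝ) * (par_LP1 l).k * (((par_LP1 l).z4 : ℝ) ^ 2 / (par_LP1 l).q) ^ (par_LP1 l).c2 ≤ 1 := by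
  have hx : (10 : ℝ) ^ 9 ≤ l := by exact_mod_cast hl
  have x0 : (0 : ℝ) < l := lt_of_lt_of_le (by norm_num) hx
  have P := pw_LP1 hx
  simp only [par_LP1]
  push_cast
  have a0 := P 3 454 1008 (by norm_num) (by norm_num)
  have a1 := P 20 1226 6652801 (by norm_num) (by norm_num)
  have b0 : (((l : ℝ) ^ 227) ^ 2 / (l : ℝ) ^ 1008) ^ l ≤ Real.exp (-(l : ℝ)) := by
    refine sm_LP1 (by positivity) ?_ l
    rw [← mul_div_assoc, div_le_one (by positivity)]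
    linarith
  refine (mul_le_mul_of_nonneg_left b0 (by positivity)).trans ?_
  have b1 := me_LP1 (by positivity) (a1.trans hE) hE
  refine fin1_LP1 (le_trans (le_of_eq (by ring)) b1) ?_
  linarith

include hE in
theorem f9_LP1 : 20 * ((par_LP1 l).N : ℝ) ^ 2 * Real.exp ((par_LP1 l).l2 - 3 / 5 * (((par_LP1 l).k : ℝ) / ((par_LP1 l).q + (par_LP1 l).du))) ≤ 1 := by
  have hx : (10 : ℝ) ^ 9 ≤ l := by exact_mod_cast hl
  have x0 : (0 : ℝ) < l := lt_of_lt_of_le (by norm_num) hx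
  have P := pw_LP1 hx
  simp only [par_LP1]
  push_cast
  have a0 := P 20 0 6652801 (by norm_num) (by norm_num)
  have a1 := P 1 1008 1130 (by norm_num) (by norm_num)
  have a2 := P 10 4 96 (by norm_num) (by norm_num)
  have a3 := P 1 1 4 (by norm_num) (by norm_num)
  have b0 : (l : ℝ) ^ 96 / 2 ≤ (l : ℝ) ^ 218 * (l : ℝ) ^ 1008 / ((l : ℝ) ^ 1008 + (l : ℝ) ^ 1130) := by
    rw [div_le_div_iff₀ (by norm_num) (by positivity)]
    have b1 := mul_le_mul_of_nonneg_left a1 (show (0 : ℝ) ≤ (l : ℝ) ^ 96 by positivity)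
    linarith
  refine fin1_LP1 (me_LP1 (by positivity) ((show (20 : ℝ) ≤ (l : ℝ) ^ 6652801 by linarith).trans hE)
    (pe_LP1 (by positivity) hE 2)) ?_
  push_cast
  linarith

include hE in
theorem g6_LP1 : 20 * ((par_LP1 l).N : ℝ) ^ 2 * Real.exp ((par_LP1 l).lx - 3 / 10 * ((par_LP1 l).l2 : ℝ)) ≤ 1 := by
  have hx : (10 : ℝ) ^ 9 ≤ l := by exact_mod_cast hl
  have x0 : (0 : ℝ) < l := lt_of_lt_of_le (by norm_num) hx
  have P := pw_LP1 hx
  simp only [par_LP1]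
  push_cast
  have a0 := P 20 0 6652801 (by norm_num) (by norm_num)
  have a1 := P 10 3 4 (by norm_num) (by norm_num)
  have a2 := P 1 1 3 (by norm_num) (by norm_num)
  refine fin1_LP1 (me_LP1 (by positivity) ((show (20 : ℝ) ≤ (l : ℝ) ^ 6652801 by linarith).trans hE)
    (pe_LP1 (by positivity) hE 2)) ?_
  push_cast
  linarith

include hE in
theorem g7_LP1 : ((par_LP1 l).N : ℝ) ^ (par_LP1 l).Mr * (((par_LP1 l).k : ℝ) + 1) ^ 4 *
    Real.exp (-(3 / 20 * (((par_LP1 l).Mr.choose 2 : ℕ) : ℝ))) ≤ 1 / 10 := by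
  have hx : (10 : ℝ) ^ 9 ≤ l := by exact_mod_cast hl
  have x0 : (0 : ℝ) < l := lt_of_lt_of_le (by norm_num) hx
  have P := pw_LP1 hx
  simp only [par_LP1]
  push_cast
  have a0 := P 2 1226 1227 (by norm_num) (by norm_num)
  have a1 := P 1 0 1226 (by norm_num) (by norm_num)
  have a2 := P 1000 1 2 (by norm_num) (by norm_num)
  have b0 : (l : ℝ) ^ 218 * (l : ℝ) ^ 1008 + 1 ≤ (l : ℝ) ^ 1227 := by linarith
  have b1 : ((l : ℝ) ^ 1227) ^ 4 ≤ (l : ℝ) ^ 6652801 := by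
    rw [← pow_mul]
    exact pow_le_pow_right₀ (by linarith) (by norm_num)
  refine (fin_LP1 (me_LP1 (by positivity) (pe_LP1 (by positivity) hE l)
    (((pow_le_pow_left₀ (by positivity) b0 4).trans b1).trans hE)) ?_).trans (by norm_num)
  rw [Nat.cast_choose_two]
  linarith

include hE in
theorem h5_LP1 : ((par_LP1 l).N : ℝ) ^ 2 * (Real.exp ((par_LP1 l).ml - 3 / 10 * (((par_LP1 l).i : ℝ) / (par_LP1 l).G)) +
    Real.exp (-((par_LP1 l).mu : ℝ) + 2 * (((par_LP1 l).iu : ℝ) / (par_LP1 l).G))) ≤ 1 / 10 := by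
  have hx : (10 : ℝ) ^ 9 ≤ l := by exact_mod_cast hl
  have x0 : (0 : ℝ) < l := lt_of_lt_of_le (by norm_num) hx
  have P := pw_LP1 hx
  simp only [par_LP1]
  push_cast
  have a0 := P 100 141 142 (by norm_num) (by norm_num)
  have a1 := P 1 1 141 (by norm_num) (by norm_num)
  have a2 := P 3 143 144 (by norm_num) (by norm_num)
  have a3 := P 1 1 143 (by norm_num) (by norm_num)
  rw [dv_LP1 x0 218 76 142 (by norm_num), dv_LP1 x0 219 76 143 (by norm_num), mul_add]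
  refine (add_le_add (fin_LP1 (pe_LP1 (by positivity) hE 2) ?_)
    (fin_LP1 (pe_LP1 (by positivity) hE 2) ?_)).trans (by norm_num)
  · push_cast
    linarith
  · push_cast
    linarith

theorem h8e_LP1 : 2 * ((par_LP1 l).c2 : ℝ) * (par_LP1 l).J / (par_LP1 l).G + 4 * ((par_LP1 l).c2 : ℝ) ^ 2 * (par_LP1 l).z1 / ((par_LP1 l).G : ℝ) ^ 2 ≤ (par_LP1 l).nu / 40 := by
  have hx : (10 : ℝ) ^ 9 ≤ l := by exact_mod_cast hl
  have x0 : (0 : ℝ) < l := lt_of_lt_of_le (by norm_num) hx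
  have P := pw_LP1 hx
  simp only [par_LP1]
  push_cast
  have a0 := P 240 76 77 (by norm_num) (by norm_num)
  have b0 : 2 * (l : ℝ) * (l : ℝ) ^ 151 / (l : ℝ) ^ 76 = 2 * (l : ℝ) ^ 76 := by
    field_simp
  have b1 : 4 * (l : ℝ) ^ 2 * (l : ℝ) ^ 226 / ((l : ℝ) ^ 76) ^ 2 = 4 * (l : ℝ) ^ 76 := by
    rw [← pow_mul, mul_assoc, ← pow_add, mul_div_assoc, dv_LP1 x0 _ _ 76 (by norm_num)]
  rw [b0, b1]
  linarith

include hE in
theorem h8f_LP1 : (2 * ((par_LP1 l).J : ℝ) + 1) * ((((par_LP1 l).k : ℝ) * (par_LP1 l).q) ^ 2 + 1) ^ (par_LP1 l).e0 *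
    Real.exp (-((par_LP1 l).N / (20 * (2 * ((par_LP1 l).J : ℝ) + 1)))) ≤ 1 / 10 := by
  have hx : (10 : ℝ) ^ 9 ≤ l := by exact_mod_cast hl
  have x0 : (0 : ℝ) < l := lt_of_lt_of_le (by norm_num) hx
  have P := pw_LP1 hx
  simp only [par_LP1]
  push_cast
  have a0 := P 60 151 152 (by norm_num) (by norm_num)
  have a1 := P 1 0 151 (by norm_num) (by norm_num)
  have a2 := P 1 152 6652801 (by norm_num) (by norm_num)
  have a3 := P 2 4468 6652801 (by norm_num) (by norm_num)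
  have a4 := P 1 0 4468 (by norm_num) (by norm_num)
  have a5 := P 1 1 2242 (by norm_num) (by norm_num)
  have a6 := P 1 2242 6652649 (by norm_num) (by norm_num)
  have b0 : 2 * (l : ℝ) ^ 151 + 1 ≤ (l : ℝ) ^ 6652801 := by linarith
  have b1 : ((l : ℝ) ^ 218 * (l : ℝ) ^ 1008 * (l : ℝ) ^ 1008) ^ 2 + 1 ≤ (l : ℝ) ^ 6652801 := by
    linarith
  have b2 : (l : ℝ) ^ 6652649 ≤ (l : ℝ) ^ 6652801 / (20 * (2 * (l : ℝ) ^ 151 + 1)) := by
    rw [← dv_LP1 x0 6652801 152 6652649 (by norm_num)]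
    exact div_le_div_of_nonneg_left (by positivity) (by positivity) (by linarith)
  refine (fin_LP1 (me_LP1 (by positivity) (b0.trans hE)
    (pe_LP1 (by positivity) (b1.trans hE) _)) ?_).trans (by norm_num)
  push_cast
  generalize (l : ℝ) ^ 6652801 / (20 * (2 * (l : ℝ) ^ 151 + 1)) = z at b2 ⊢
  linarith

include hE in
theorem t1_LP1 : ((par_LP1 l).N : ℝ) < Real.exp ((par_LP1 l).s / (64 * ((par_LP1 l).Mr : ℝ) * (par_LP1 l).j)) := by
  have hx : (10 : ℝ) ^ 9 ≤ l := by exact_mod_cast hl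
  have x0 : (0 : ℝ) < l := lt_of_lt_of_le (by norm_num) hx
  have P := pw_LP1 hx
  simp only [par_LP1]
  push_cast
  refine hE.trans_lt (Real.exp_lt_exp.2 ?_)
  rw [div_lt_div_iff₀ (by norm_num) (by positivity)]
  have b0 : (0 : ℝ) < (l : ℝ) ^ 2 := by positivity
  have a0 := P 2113 2 3 (by norm_num) (by norm_num)
  linarith

theorem t3_LP1 : (par_LP1 l).z2 * (par_LP1 l).b2 ≤ (par_LP1 l).mu0 := by
  have hx : (10 : ℝ) ^ 9 ≤ l := by exact_mod_cast hl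
  have x0 : (0 : ℝ) < l := lt_of_lt_of_le (by norm_num) hx
  have P := pw_LP1 hx
  simp only [Par.b2, Par.bq, par_LP1]
  push_cast
  rw [bb_LP1 x0 1007 1008 3300 3300 6652801 6649501 (by norm_num)]
  have a0 := P 6 6650508 6650558 (by norm_num) (by norm_num)
  linarith

theorem m2_LP1 : ((par_LP1 l).R : ℝ) * (par_LP1 l).s2 * (par_LP1 l).lam ≤ (par_LP1 l).Del / 2 := by
  have hx : (10 : ℝ) ^ 9 ≤ l := by exact_mod_cast hl
  have x0 : (0 : ℝ) < l := lt_of_lt_of_le (by norm_num) hx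
  have P := pw_LP1 hx
  simp only [Par.s2, par_LP1]
  push_cast
  have a0 := P 26 1127 1129 (by norm_num) (by norm_num)
  linarith

theorem m3_LP1 : 8 * ((par_LP1 l).N : ℝ) * (par_LP1 l).lam ≤ 3 * (par_LP1 l).Del * (par_LP1 l).mu1 := by
  have hx : (10 : ℝ) ^ 9 ≤ l := by exact_mod_cast hl
  have x0 : (0 : ℝ) < l := lt_of_lt_of_le (by norm_num) hx
  have P := pw_LP1 hx
  simp only [par_LP1]
  push_cast
  have a0 := P 8 6652804 6652805 (by norm_num) (by norm_num)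
  have a1 := P 0 0 6652805 (by norm_num) (by norm_num)
  linarith

theorem m4_LP1 : 2 * (par_LP1 l).Del ≤ (par_LP1 l).smax * (par_LP1 l).mu0 := by
  have hx : (10 : ℝ) ^ 9 ≤ l := by exact_mod_cast hl
  have x0 : (0 : ℝ) < l := lt_of_lt_of_le (by norm_num) hx
  have P := pw_LP1 hx
  simp only [par_LP1]
  push_cast
  rw [dw_LP1 x0 6650558 6649428 1130 (by norm_num)]
  exact P 2 1129 1130 (by norm_num) (by norm_num)

theorem m6_LP1 : 7 * ((par_LP1 l).nu : ℝ) + 1 ≤ (par_LP1 l).eps * (par_LP1 l).ml := by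
  have hx : (10 : ℝ) ^ 9 ≤ l := by exact_mod_cast hl
  have x0 : (0 : ℝ) < l := lt_of_lt_of_le (by norm_num) hx
  have P := pw_LP1 hx
  simp only [par_LP1]
  push_cast
  have a0 := P 1 0 77 (by norm_num) (by norm_num)
  rw [mul_left_comm, dw_LP1 x0 141 64 77 (by norm_num)]
  linarith

theorem c1a_LP1 : (par_LP1 l).j * (par_LP1 l).Del + (par_LP1 l).z3 * (par_LP1 l).smax * (par_LP1 l).b3 ≤ (par_LP1 l).V * (par_LP1 l).z3 := by
  have hx : (10 : ℝ) ^ 9 ≤ l := by exact_mod_cast hl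
  have x0 : (0 : ℝ) < l := lt_of_lt_of_le (by norm_num) hx
  have P := pw_LP1 hx
  simp only [Par.b3, Par.bq, par_LP1]
  push_cast
  rw [bb_LP1 x0 1007 1008 3300 3300 6652801 6649501 (by norm_num), mul_assoc, mul_left_comm _ 6,
    dw_LP1 x0 6649501 6649428 73 (by norm_num)]
  have a0 := P 3306 1129 1131 (by norm_num) (by norm_num)
  have a1 := P 1 1080 1129 (by norm_num) (by norm_num)
  linarith

theorem c2a_LP1 : (par_LP1 l).V * (par_LP1 l).iu ≤ (par_LP1 l).th * (par_LP1 l).g := by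
  have hx : (10 : ℝ) ^ 9 ≤ l := by exact_mod_cast hl
  have x0 : (0 : ℝ) < l := lt_of_lt_of_le (by norm_num) hx
  have P := pw_LP1 hx
  simp only [par_LP1]
  push_cast
  rw [dw_LP1 x0 783 440 343 (by norm_num)]
  exact le_of_eq (by ring)

theorem c3a_LP1 : 20 * (par_LP1 l).Del ≤ (par_LP1 l).du := by
  have hx : (10 : ℝ) ^ 9 ≤ l := by exact_mod_cast hl
  have x0 : (0 : ℝ) < l := lt_of_lt_of_le (by norm_num) hx
  have P := pw_LP1 hx
  simp only [par_LP1]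
  push_cast
  exact P 20 1129 1130 (by norm_num) (by norm_num)

include hE in
theorem c3b_LP1 : 40 * ((par_LP1 l).k : ℝ) * Real.exp (-((par_LP1 l).be1 * ((par_LP1 l).del / (2 * (par_LP1 l).eps))) + (par_LP1 l).be1 ^ 2 * (par_LP1 l).V) ≤ 1 := by
  have hx : (10 : ℝ) ^ 9 ≤ l := by exact_mod_cast hl
  have x0 : (0 : ℝ) < l := lt_of_lt_of_le (by norm_num) hx
  have P := pw_LP1 hx
  simp only [par_LP1]
  push_cast
  have a0 := P 40 1226 6652801 (by norm_num) (by norm_num)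
  have b0 : 1 / (l : ℝ) ^ 62 * (1 / (l : ℝ) / (2 * (1 / (l : ℝ) ^ 64))) = l / 2 := by
    field_simp
  have b1 : (1 / (l : ℝ) ^ 62) ^ 2 * (l : ℝ) ^ 124 = 1 := by
    field_simp
  rw [b0, b1]
  refine fin1_LP1 (le_trans (le_of_eq (by ring)) (a0.trans hE)) ?_
  linarith

include hE in
theorem c3c_LP1 : 20 * ((par_LP1 l).N : ℝ) * Real.exp (-((par_LP1 l).be2 * ((par_LP1 l).nu / (par_LP1 l).eps)) +
    (par_LP1 l).be2 ^ 2 * ((par_LP1 l).c1 * (par_LP1 l).mu * (par_LP1 l).V)) ≤ 1 := by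
  have hx : (10 : ℝ) ^ 9 ≤ l := by exact_mod_cast hl
  have x0 : (0 : ℝ) < l := lt_of_lt_of_le (by norm_num) hx
  have P := pw_LP1 hx
  simp only [par_LP1]
  push_cast
  have a0 := P 20 0 6652801 (by norm_num) (by norm_num)
  have a1 := P 1 0 7 (by norm_num) (by norm_num)
  have a2 := P 1 1 3 (by norm_num) (by norm_num)
  have b0 : 1 / (l : ℝ) ^ 138 * ((l : ℝ) ^ 77 / (1 / (l : ℝ) ^ 64)) = (l : ℝ) ^ 3 := by
    field_simp
  have b1 : (1 / (l : ℝ) ^ 138) ^ 2 * ((l : ℝ) * (l : ℝ) ^ 144 * (l : ℝ) ^ 124) = 1 / (l : ℝ) ^ 7 := by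
    field_simp
  have b2 : 1 / (l : ℝ) ^ 7 ≤ 1 := by
    rw [div_le_one (by positivity)]
    linarith
  rw [b0, b1]
  refine fin1_LP1 (me_LP1 (by positivity) ((show (20 : ℝ) ≤ (l : ℝ) ^ 6652801 by linarith).trans hE) hE) ?_
  linarith

theorem c4a_LP1 : (par_LP1 l).du * (par_LP1 l).del ^ (par_LP1 l).l ≤ 1 / 4 := by
  have hx : (10 : ℝ) ^ 9 ≤ l := by exact_mod_cast hl
  have x0 : (0 : ℝ) < l := lt_of_lt_of_le (by norm_num) hx
  have P := pw_LP1 hx
  simp only [par_LP1]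
  push_cast
  have a0 := P 4 1130 l (by norm_num) (lt_of_lt_of_le (by norm_num) hl)
  rw [one_div_pow, mul_one_div, div_le_div_iff₀ (by positivity) (by norm_num)]
  linarith

include hE in
theorem c5b_LP1 : 60 * ((par_LP1 l).N : ℝ) * Real.exp (-(((par_LP1 l).nu : ℝ) ^ 2 / (16 * (par_LP1 l).mu))) ≤ 1 := by
  have hx : (10 : ℝ) ^ 9 ≤ l := by exact_mod_cast hl
  have x0 : (0 : ℝ) < l := lt_of_lt_of_le (by norm_num) hx
  have P := pw_LP1 hx
  simp only [par_LP1]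
  push_cast
  have a0 := P 60 0 6652801 (by norm_num) (by norm_num)
  have a1 := P 1 1 10 (by norm_num) (by norm_num)
  have b0 : ((l : ℝ) ^ 77) ^ 2 / (16 * (l : ℝ) ^ 144) = (l : ℝ) ^ 10 / 16 := by
    field_simp
  rw [b0]
  refine fin1_LP1 (me_LP1 (by positivity) ((show (60 : ℝ) ≤ (l : ℝ) ^ 6652801 by linarith).trans hE) hE) ?_
  linarith

theorem c6b_LP1 : 8 * ((par_LP1 l).b3 + (par_LP1 l).b4 + (par_LP1 l).L) ≤ (par_LP1 l).mu0 := by
  have hx : (10 : ℝ) ^ 9 ≤ l := by exact_mod_cast hl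
  have x0 : (0 : ℝ) < l := lt_of_lt_of_le (by norm_num) hx
  have P := pw_LP1 hx
  simp only [Par.b3, Par.b4, Par.bq, par_LP1]
  push_cast
  rw [bb_LP1 x0 1007 1008 3300 3300 6652801 6649501 (by norm_num), ← pow_add, ← pow_add,
    bb_LP1 x0 _ 1008 3300 _ 6652801 6629701 (by norm_num)]
  have a0 := P 104 6649501 6650558 (by norm_num) (by norm_num)
  have a1 := P 1 6629701 6649501 (by norm_num) (by norm_num)
  have a2 := P 1 1 6649501 (by norm_num) (by norm_num)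
  linarith

theorem c7a_LP1 : (((par_LP1 l).L : ℝ) * (par_LP1 l).iu) ^ 2 * (par_LP1 l).th ≤ 1 := by
  have hx : (10 : ℝ) ^ 9 ≤ l := by exact_mod_cast hl
  have x0 : (0 : ℝ) < l := lt_of_lt_of_le (by norm_num) hx
  have P := pw_LP1 hx
  simp only [par_LP1]
  push_cast
  rw [mul_one_div, div_le_one (by positivity)]
  exact le_of_eq (by ring)

theorem c7b_LP1 : 4 * (par_LP1 l).eps * ((par_LP1 l).lam2 * (par_LP1 l).c1 * (par_LP1 l).L + (par_LP1 l).lam2 * (par_LP1 l).smax * (par_LP1 l).iu + (par_LP1 l).lam + 1) ≤ 1 := by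
  have hx : (10 : ℝ) ^ 9 ≤ l := by exact_mod_cast hl
  have x0 : (0 : ℝ) < l := lt_of_lt_of_le (by norm_num) hx
  have P := pw_LP1 hx
  simp only [par_LP1]
  push_cast
  have a0 := P 16 6 64 (by norm_num) (by norm_num)
  have a1 := P 1 3 6 (by norm_num) (by norm_num)
  have a2 := P 1 0 6 (by norm_num) (by norm_num)
  have a3 := P 1 223 6649428 (by norm_num) (by norm_num)
  have b0 : (l : ℝ) ^ 4 * (1 / (l : ℝ) ^ 6649428) * (l : ℝ) ^ 219 ≤ 1 := by
    rw [mul_one_div, div_mul_eq_mul_div, div_le_one (by positivity)]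
    linarith
  generalize (l : ℝ) ^ 4 * (1 / (l : ℝ) ^ 6649428) * (l : ℝ) ^ 219 = z at b0 ⊢
  rw [mul_one_div, div_mul_eq_mul_div, div_le_one (by positivity)]
  linarith

theorem c7c_LP1 : 2 * (par_LP1 l).eps * ((par_LP1 l).c1 * (par_LP1 l).L) ≤ 1 := by
  have hx : (10 : ℝ) ^ 9 ≤ l := by exact_mod_cast hl
  have x0 : (0 : ℝ) < l := lt_of_lt_of_le (by norm_num) hx
  have P := pw_LP1 hx
  simp only [par_LP1]
  have a0 := P 2 2 64 (by norm_num) (by norm_num)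
  rw [mul_one_div, div_mul_eq_mul_div, div_le_one (by positivity)]
  linarith

include hE in
theorem c7e_LP1 : 2 * ((par_LP1 l).L : ℝ) * (par_LP1 l).iu * Real.exp (-((par_LP1 l).be3 / 2) + (par_LP1 l).be3 ^ 2 * (par_LP1 l).eps ^ 2 * (par_LP1 l).V) ≤ 1 := by
  have hx : (10 : ℝ) ^ 9 ≤ l := by exact_mod_cast hl
  have x0 : (0 : ℝ) < l := lt_of_lt_of_le (by norm_num) hx
  have P := pw_LP1 hx
  simp only [par_LP1]
  push_cast
  have a0 := P 2 220 6652801 (by norm_num) (by norm_num)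
  have a1 := P 1 1 2 (by norm_num) (by norm_num)
  have b0 : ((l : ℝ) ^ 2) ^ 2 * (1 / (l : ℝ) ^ 64) ^ 2 * (l : ℝ) ^ 124 = 1 := by
    field_simp
  rw [b0]
  refine fin1_LP1 (le_trans (le_of_eq (by ring)) (a0.trans hE)) ?_
  linarith

include hE in
theorem c8_LP1 : 20 * (((par_LP1 l).n * (par_LP1 l).s2 : ℕ) : ℝ) * (par_LP1 l).kb ≤ 1 := by
  have hx : (10 : ℝ) ^ 9 ≤ l := by exact_mod_cast hl
  have x0 : (0 : ℝ) < l := lt_of_lt_of_le (by norm_num) hx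
  have P := pw_LP1 hx
  simp only [Par.n, Par.s2, Par.kb, par_LP1]
  push_cast
  have a0 := P 2340 2240 6652801 (by norm_num) (by norm_num)
  have a1 := P 3 3 4 (by norm_num) (by norm_num)
  have a2 := P 1 1 3 (by norm_num) (by norm_num)
  have a3 := P 1 1 6652801 (by norm_num) (by norm_num)
  have a4 := P 1 3 6652801 (by norm_num) (by norm_num)
  have a5 := P 1 1 2 (by norm_num) (by norm_num)
  have a6 := P 1 2 3 (by norm_num) (by norm_num)
  have b0 : Real.exp (2 * (l : ℝ) ^ 3 - (l : ℝ) ^ 4) ≤ Real.exp (-((l : ℝ) / 100)) :=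
    Real.exp_le_exp.2 (by linarith)
  have b1 : (l : ℝ) * ((l : ℝ) ^ 3) ^ l * Real.exp (-((l : ℝ) ^ 3 / 2)) ≤
      Real.exp (-((l : ℝ) / 100)) := by
    refine (me_LP1 (Real.exp_pos _).le (me_LP1 (by positivity)
      ((show (l : ℝ) ≤ (l : ℝ) ^ 6652801 by linarith).trans hE)
      (pe_LP1 (by positivity) ((show (l : ℝ) ^ 3 ≤ (l : ℝ) ^ 6652801 by linarith).trans hE) l))
      le_rfl).trans (Real.exp_le_exp.2 ?_)
    linarith
  have b3 : Real.exp 2 * ((1 + 1 / (l : ℝ)) ^ 9900 / 2) ^ l ≤ Real.exp (-((l : ℝ) / 100)) := by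
    refine (half_LP1 x0 9900 l).trans (Real.exp_le_exp.2 ?_)
    rw [mul_add, mul_left_comm, mul_one_div_cancel x0.ne']
    push_cast
    linarith only [hx]
  have b4 := fin1_LP1 (a0.trans hE) (add_neg_cancel ((l : ℝ) / 100)).le
  have b5 := add_le_add (add_le_add b0 b1) b3
  generalize Real.exp (2 * (l : ℝ) ^ 3 - (l : ℝ) ^ 4) +
    (l : ℝ) * ((l : ℝ) ^ 3) ^ l * Real.exp (-((l : ℝ) ^ 3 / 2)) +
    Real.exp 2 * ((1 + 1 / (l : ℝ)) ^ 9900 / 2) ^ l = z at b5 ⊢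
  have b6 := mul_le_mul_of_nonneg_left b5 (show (0 : ℝ) ≤ 780 * (l : ℝ) ^ 2240 by positivity)
  linarith only [b4, b6]

include hE in
theorem ok_LP1 : (par_LP1 l).Ok := by
  have l1 : 1 ≤ l := le_trans (by norm_num) hl
  have x0 : (0 : ℝ) < l := by exact_mod_cast l1
  have o : ∀ a : ℕ, 1 ≤ l ^ a := fun a => Nat.one_le_pow _ _ l1
  have w : ∀ a : ℕ, (0 : ℝ) < (l : ℝ) ^ a := fun a => pow_pos x0 a
  have w' : ∀ a : ℕ, (0 : ℝ) < 1 / (l : ℝ) ^ a := fun a => one_div_pos.2 (w a)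
  exact {
    hN := o _
    hq := hq_LP1 hl
    hi := o _
    hk := rfl
    hG := o _
    hj := show 2 ≤ 3300 by norm_num
    hL := l1
    hMr := l1
    hc1 := l1
    hc2 := l1
    hs := o _
    hiu := o _
    hnu := o _
    hmu := o _
    hdu := o _
    hlx := hlx_LP1 hl
    hz0 := o _
    hz1 := o _
    hz3 := o _
    hz4 := o _
    hmu0 := o _
    hmu1 := hmu1_LP1 hl
    hR := o _
    heps := w' _
    heps4 := heps4_LP1 hl
    hdel := hdel_LP1 hl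
    hdel1 := hdel1_LP1 hl
    hlam := hlam_LP1 hl
    hV := w _
    hDel := w _
    hth := w' _
    hsmax0 := (w' _).le
    hsmax := hsmax_LP1 hl
    hbe1 := (w' _).le
    hbe1' := hbe1'_LP1 hl
    hbe2 := (w' _).le
    hbe2' := hbe2'_LP1 hl
    hbe3 := hbe3_LP1 hl
    hbe3' := hbe3'_LP1 hl
    f1 := f1_LP1 hl hE
    f1' := f1'_LP1 hl hE
    f2a := f2a_LP1 hl
    f2 := f2_LP1 hl hE
    f3 := f3_LP1 hl hE
    f4a := f4a_LP1 hl
    f4 := f4_LP1 hl hE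
    f9 := f9_LP1 hl hE
    g6 := g6_LP1 hl hE
    g7 := g7_LP1 hl hE
    h5 := h5_LP1 hl hE
    h8a := h8a_LP1 hl
    h8b := h8b_LP1 hl
    h8c := h8c_LP1 hl
    h8d := h8d_LP1 hl
    h8e := h8e_LP1 hl
    h8f := h8f_LP1 hl hE
    t1 := t1_LP1 hl hE
    t2 := t2_LP1 hl
    t3 := t3_LP1 hl
    x1 := x1_LP1 hl
    x2 := x2_LP1 hl
    x3 := x3_LP1 hl
    x4 := x4_LP1 hl
    x5 := x5_LP1 hl
    m1 := m1_LP1 hl
    m2 := m2_LP1 hl
    m3 := m3_LP1 hl
    m4 := m4_LP1 hl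
    m5 := m5_LP1 hl
    m6 := m6_LP1 hl
    m7 := m7_LP1 hl
    c1a := c1a_LP1 hl
    c2a := c2a_LP1 hl
    c3a := c3a_LP1 hl
    c3b := c3b_LP1 hl hE
    c3c := c3c_LP1 hl hE
    c4a := c4a_LP1 hl
    c4b := c4b_LP1 hl
    c5a := c5a_LP1 hl
    c5b := c5b_LP1 hl hE
    c6a := c6a_LP1 hl
    c6b := c6b_LP1 hl
    c7a := c7a_LP1 hl
    c7b := c7b_LP1 hl
    c7c := c7c_LP1 hl
    c7e := c7e_LP1 hl hE
    c8 := c8_LP1 hl hE }

end

theorem exists_par : ∃ P : Par, P.Ok := by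
  obtain ⟨l, hl, hE⟩ := exists_l_LP1 6652801
  exact ⟨_, ok_LP1 hl hE⟩

end Pool.Agent.P.MP_b5e666_co.Lar
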