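import Pool.Agent.P.MP_b5e666_co.LD0

set_option autoImplicit false

open Finset

noncomputable section

namespace Pool.Agent.P.MP_b5e666_co.Lar

variable {P : Par} {Φ : Fam P} {col : Fin P.N → (Fin P.k → SignType) → Fin P.n}

theorem card_erase_LT1 {α : Type} [DecidableEq α] {Z : Finset α} {a : α} (ha : a ∈ Z)
    (p : α → Prop) [Decidable (p a)] :
    (flt Z p).card = (flt (Z.erase a) p).card + if p a then 1 else 0 := by
  split_ifs with h
  · have e : flt Z p = insert a (flt (Z.erase a) p) := by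
      ext b
      simp only [mem_flt, mem_insert, mem_erase]
      constructor
      · intro hb
        by_cases hba : b = a
        · exact Or.inl hba
        · exact Or.inr ⟨⟨hba, hb.1⟩, hb.2⟩
      · rintro (rfl | hb)
        · exact ⟨ha, h⟩
        · exact ⟨hb.1.2, hb.2⟩
    rw [e, card_insert_of_notMem (by simp)]
  · rw [add_zero]
    congr 1
    ext b
    simp only [mem_flt, mem_erase]
    exact ⟨fun hb => ⟨⟨fun e => h (e ▸ hb.2), hb.1⟩, hb.2⟩, fun hb => ⟨hb.1.2, hb.2⟩⟩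

theorem flt_congr_LT1 {α : Type} {Z : Finset α} {p q : α → Prop} (h : ∀ a ∈ Z, p a ↔ q a) :
    flt Z p = flt Z q := by
  ext a
  simp only [mem_flt]
  exact and_congr_right (h a)

theorem card_compl_LT1 {α : Type} {Z : Finset α} {p q : α → Prop} (h : ∀ a ∈ Z, q a ↔ ¬ p a) :
    (flt Z p).card + (flt Z q).card = Z.card := by
  classical
  rw [flt_congr_LT1 h, flt_eq, flt_eq]
  exact card_filter_add_card_filter_not p

theorem ext_none_LT1 {k q : ℕ} {φ : Pat k q} {a : Fin k} (h : φ a = none) (w : Fin k → Bool) :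
    ext φ w a = sgn (w a) := by
  unfold ext
  rw [h]

theorem ext_some_LT1 {k q : ℕ} {φ : Pat k q} {a : Fin k} {b : Fin q} {v : SignType}
    (h : φ a = some (b, v)) (w : Fin k → Bool) : ext φ w a = v := by
  unfold ext
  rw [h]

theorem ext_congr_LT1 {k q : ℕ} {φ : Pat k q} {a : Fin k} {w w' : Fin k → Bool}
    (h : φ a = none → w a = w' a) : ext φ w a = ext φ w' a := by
  rcases hφ : φ a with _ | ⟨b, v⟩
  · rw [ext_none_LT1 hφ, ext_none_LT1 hφ, h hφ]
  · rw [ext_some_LT1 hφ, ext_some_LT1 hφ]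

theorem sgn_not_LT1 (b : Bool) : sgn (!b) = -1 ↔ ¬ sgn b = -1 := by
  cases b <;> simp [sgn]

theorem sgn_ne_LT1 (b : Bool) : sgn b ≠ sgn (!b) := by
  cases b <;> simp [sgn]

theorem sgn_zero_LT1 (b : Bool) : sgn b ≠ 0 := by
  cases b <;> simp [sgn]

theorem Pr_inv_LT1 {ι : Type} [Fintype ι] [DecidableEq ι] {Ψ : (ι → Bool) → (ι → Bool)}
    (h : Function.Involutive Ψ) (A : (ι → Bool) → Prop) :
    Pr (unif ι Bool) (fun w => A (Ψ w)) = Pr (unif ι Bool) A :=
  Pr_unif_equiv (h.toPerm Ψ) A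

theorem card_Z (hP : P.Ok) (hΦ : Φ.Ok) {x y : Fin P.N} (hxy : x ≠ y) : 3 ≤ (Φ.Z x y).card := by
  have h := hΦ.v6 x {y} (by simpa using hxy) (by simpa using hP.hdu)
  have e : xr (Φ.Z x) {y} = Φ.Z x y := by
    ext a
    simp only [xr, mem_flt, mem_univ, true_and]
    by_cases ha : a ∈ Φ.Z x y
    · have : flt ({y} : Finset (Fin P.N)) (fun y' => a ∈ Φ.Z x y') = {y} := by
        ext b
        simp only [mem_flt, mem_singleton]
        exact ⟨fun hb => hb.1, fun hb => ⟨hb, hb ▸ ha⟩⟩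
      rw [this]
      simp [ha]
    · have : flt ({y} : Finset (Fin P.N)) (fun y' => a ∈ Φ.Z x y') = ∅ := by
        ext b
        simp only [mem_flt, mem_singleton, notMem_empty, iff_false, not_and]
        rintro rfl
        exact ha
      rw [this]
      simp [ha]
  rw [e, card_singleton, mul_one] at h
  exact hP.hlx.trans h

/-- the parity condition holds for half of the sign vectors -/
theorem Pr_pary {x y : Fin P.N} {φ : Pat P.k P.q} (h : ∃ a ∈ Φ.Z x y, a ∉ cols φ) :
    Pr (unif (Fin P.k) Bool) (fun w => Φ.Pary x y (ext φ w)) = 1 / 2 := by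
  obtain ⟨a, ha, hc⟩ := h
  have hn : φ a = none := by simpa [cols] using hc
  have hinv : Function.Involutive (fun w : Fin P.k → Bool => Function.update w a (!w a)) := by
    intro w
    simp
  have key : ∀ w : Fin P.k → Bool,
      Φ.Pary x y (ext φ (Function.update w a (!w a))) ↔ ¬ Φ.Pary x y (ext φ w) := by
    intro w
    unfold Fam.Pary
    rw [card_erase_LT1 ha, card_erase_LT1 ha (fun b => ext φ w b = -1),
      flt_congr_LT1 (q := fun b => ext φ w b = -1) (fun b hb => by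
        rw [ext_congr_LT1 (w' := w) fun _ => Function.update_of_ne (mem_erase.1 hb).1 _ _]),
      ext_none_LT1 hn, ext_none_LT1 hn, Function.update_self]
    by_cases h1 : sgn (w a) = -1
    · rw [if_pos h1, if_neg (fun h2 => (sgn_not_LT1 _).1 h2 h1), Nat.even_iff, Nat.even_iff]
      omega
    · rw [if_neg h1, if_pos ((sgn_not_LT1 _).2 h1), Nat.even_iff, Nat.even_iff]
      omega
  have h1 := Pr_inv_LT1 hinv (fun w => Φ.Pary x y (ext φ w))
  rw [Pr_congr _ key, Pr_not isP_unif] at h1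
  linarith

/-- antipodal coupling: one of the two traces of a colour class is small -/
theorem coupling (hP : P.Ok) (hΦ : Φ.Ok) (hc : Φ.Proper col) (γ : Fin P.n) {x y : Fin P.N}
    (hxy : x ≠ y) {φ : Pat P.k P.q} (hφ : Alw φ) (h1 : ∀ a ∈ nz φ, a ∈ Φ.Z x y)
    (h0 : ∀ a ∈ zc φ, a ∉ Φ.Z x y) : Φ.Small col γ x y φ ∨ Φ.Small col γ y x φ := by
  have h3 := card_Z hP hΦ hxy
  obtain ⟨z, hz, hnz⟩ : ∃ z ∈ Φ.Z x y, ∀ a ∈ nz φ, a = z := by
    rcases (nz φ).eq_empty_or_nonempty with he | ⟨z, hz⟩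
    · obtain ⟨z, hz⟩ : (Φ.Z x y).Nonempty := card_pos.1 (by omega)
      exact ⟨z, hz, fun a ha => by rw [he] at ha; exact absurd ha (notMem_empty a)⟩
    · exact ⟨z, h1 z hz, fun a ha => card_le_one.1 hφ.2 a ha z hz⟩
  have hex : ∃ a ∈ Φ.Z x y, a ∉ cols φ :=
    exists_mem_notMem_of_card_lt_card (by have := hφ.1; omega)
  let Ψ : (Fin P.k → Bool) → (Fin P.k → Bool) := fun w a => if a = z then w a else !w a
  have hinv : Function.Involutive Ψ := by
    intro w
    funext a
    by_cases h : a = z <;> simp [Ψ, h]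
  have hΨz : ∀ w, ext φ (Ψ w) z = ext φ w z := fun w =>
    ext_congr_LT1 fun _ => by simp [Ψ]
  have hΨ : ∀ w a, a ≠ z → Ψ w a = !w a := fun w a ha => by simp [Ψ, ha]
  have hzero : ∀ a b v, a ≠ z → φ a = some (b, v) → v = 0 := by
    intro a b v ha h
    by_contra hv
    exact ha (hnz a (mem_flt.2 ⟨mem_univ _, b, v, h, hv⟩))
  have hnone : ∀ a ∈ Φ.Z x y, a ≠ z → φ a = none := by
    intro a haZ ha
    rcases h : φ a with _ | ⟨b, v⟩
    · rfl
    · obtain rfl := hzero a b v ha h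
      exact absurd haZ (h0 a (mem_flt.2 ⟨mem_univ _, b, h⟩))
  have hz0 : ∀ w, ext φ w z ≠ 0 := by
    intro w
    rcases h : φ z with _ | ⟨b, v⟩
    · rw [ext_none_LT1 h]
      exact sgn_zero_LT1 _
    · rw [ext_some_LT1 h]
      rintro rfl
      exact h0 z (mem_flt.2 ⟨mem_univ _, b, h⟩) hz
  have hboth : ∀ w, Φ.Hit col γ x y φ w → Φ.Hit col γ y x φ (Ψ w) → False := by
    rintro w ⟨-, s, hs, hcs, he⟩ ⟨-, s', hs', hcs', he'⟩
    rw [vw_symm] at he'
    refine hc x y s s' hxy hs hs' (hcs.trans hcs'.symm) (card_eq_one.2 ⟨z, ?_⟩)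
    ext a
    simp only [Fam.agr, mem_flt, mem_singleton]
    constructor
    · rintro ⟨ha, h2, h4⟩
      by_contra haz
      rw [he a ha] at h2 h4
      rw [he' a ha] at h2
      rcases h : φ a with _ | ⟨b, v⟩
      · rw [ext_none_LT1 h, ext_none_LT1 h, hΨ w a haz] at h2
        exact sgn_ne_LT1 _ h2
      · rw [ext_some_LT1 h] at h4
        exact h4 (hzero a b v haz h)
    · rintro rfl
      have ha := hΦ.Zs x y hz
      rw [he a ha, he' a ha]
      exact ⟨ha, (hΨz w).symm, hz0 w⟩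
  have hcp : Φ.cp x y + Φ.cp y x = (Φ.Z x y).card + 1 := by
    unfold Fam.cp
    rcases lt_or_gt_of_ne hxy with h | h
    · rw [if_pos h, if_neg (not_lt.2 h.le), ← hΦ.Zc x y, zero_add]
    · rw [if_neg (not_lt.2 h.le), if_pos h]
  have hpar : ∀ w, Φ.Pary y x (ext φ (Ψ w)) → Φ.Pary x y (ext φ w) := by
    intro w
    unfold Fam.Pary
    have hA := card_compl_LT1 (Z := (Φ.Z x y).erase z) (p := fun a => ext φ w a = -1)
      (q := fun a => ext φ (Ψ w) a = -1) fun a ha => by
        have hn := hnone a (mem_erase.1 ha).2 (mem_erase.1 ha).1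
        rw [ext_none_LT1 hn, ext_none_LT1 hn, hΨ w a (mem_erase.1 ha).1]
        exact sgn_not_LT1 _
    rw [card_erase_of_mem hz] at hA
    rw [← hΦ.Zc x y, card_erase_LT1 hz, card_erase_LT1 hz (fun b => ext φ w b = -1), hΨz,
      Nat.even_iff, Nat.even_iff]
    omega
  have hle : Pr (unif (Fin P.k) Bool) (Φ.Hit col γ x y φ) +
      Pr (unif (Fin P.k) Bool) (fun w => Φ.Hit col γ y x φ (Ψ w)) ≤ 1 / 2 := by
    rw [← Pr_pary hex]
    unfold Pr
    rw [← Ex_add]
    refine Ex_mono isP_unif fun w => ?_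
    by_cases ha : Φ.Hit col γ x y φ w
    · rw [ind_pos ha, ind_neg (hboth w ha), ind_pos ha.1, add_zero]
    · rw [ind_neg ha, zero_add]
      exact ind_mono fun hb => hpar w hb.1
  rw [Pr_inv_LT1 hinv (Φ.Hit col γ y x φ)] at hle
  unfold Fam.Small
  by_contra hn
  push Not at hn
  linarith [hn.1, hn.2]

theorem dep_Hit (hΦ : Φ.Ok) (γ : Fin P.n) (x y : Fin P.N) (φ : Pat P.k P.q) :
    Dep (Φ.Hit col γ x y φ) (vw Φ.f x y \ cols φ) := by
  intro w w' h
  have e : ∀ a ∈ vw Φ.f x y, ext φ w a = ext φ w' a := fun a ha =>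
    ext_congr_LT1 fun hn => h a (mem_sdiff.2 ⟨ha, by simp [cols, hn]⟩)
  unfold Fam.Hit Fam.Pary
  rw [flt_congr_LT1 (q := fun a => ext φ w' a = -1) fun a ha => by rw [e a (hΦ.Zs x y ha)]]
  refine propext (and_congr_right fun _ => exists_congr fun s => and_congr_right fun _ =>
    and_congr_right fun _ => forall₂_congr fun a ha => ?_)
  rw [e a ha]

end Pool.Agent.P.MP_b5e666_co.Lar
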