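import Pool.Agent.P.MP_b5e666_co.LD0
import Pool.Agent.P.MP_b5e666_co.LB1
import Pool.Agent.P.MP_b5e666_co.LB2

set_option autoImplicit false

open Finset

noncomputable section

namespace Pool.Agent.P.MP_b5e666_co.Lar

variable {N k q : ℕ}

/-- a sum of terms, each at most n / (c m), over at most m indices -/
theorem sum_small_LT2 {α : Type} (U : Finset α) (g : α → ℕ) (c m n : ℕ) (hm : 1 ≤ m)
    (hU : U.card ≤ m) (hg : ∀ a ∈ U, c * m * g a ≤ n) : c * ∑ a ∈ U, g a ≤ n := by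
  have h1 : m * (c * ∑ a ∈ U, g a) ≤ m * n := by
    calc m * (c * ∑ a ∈ U, g a) = ∑ a ∈ U, c * m * g a := by
          rw [← mul_assoc, mul_sum]; exact sum_congr rfl fun a _ => by ring
      _ ≤ U.card * n := by
          have := sum_le_card_nsmul U (fun a => c * m * g a) n hg
          simpa using this
      _ ≤ m * n := Nat.mul_le_mul_right _ hU
  exact Nat.le_of_mul_le_mul_left h1 hm

/-- few cells are heavy -/
theorem heavy_LT2 (f : Fin N → Fin k → Fin q) (j Mr z0 z2 μ : ℕ) (b2 : ℝ)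
    (X' : Finset (Fin N)) (Q : Finset (Fin k × Fin q))
    (hb2 : ∀ Q : Finset (Fin k × Fin q), Q.card ≤ z2 →
      ((flt univ (fun y => j ≤ (cel f y ∩ Q).card)).card : ℝ) ≤ b2)
    (hz2 : 128 * Mr * z0 * j ≤ z2) (hμ : z2 * b2 ≤ μ) (hj : 1 ≤ j) (hMr : 1 ≤ Mr) (hz0 : 1 ≤ z0)
    (hn : μ < X'.card)
    (hQ : ∀ p ∈ Q, X'.card < 64 * Mr * z0 * (flt X' (fun y => p ∈ cel f y)).card) :
    Q.card ≤ z2 := by
  by_contra hc
  obtain ⟨Q', hQ', hcard⟩ := exists_subset_card_eq (le_of_lt (not_le.1 hc))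
  have h1 := sum_inter_le (cel f) (fun y => ind (y ∈ X')) j (smax := 1) (D := X'.card) (b := b2)
    (fun y => ind_nonneg _) (fun y => ind_le_one _)
    (by
      rw [← card_flt]
      exact_mod_cast card_le_card fun y hy => (mem_flt.1 hy).2) Q' (hb2 Q' hcard.le) zero_le_one
  have h2 : ∀ p, ∑ y, ind (y ∈ X') * ind (p ∈ cel f y) =
      ((flt X' (fun y => p ∈ cel f y)).card : ℝ) := by
    intro p
    simp only [← ind_and]
    rw [← card_flt]
    congr 2
    ext y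
    simp
  simp only [h2] at h1
  rw [hcard, mul_one] at h1
  have h3 : ∑ p ∈ Q', (flt X' (fun y => p ∈ cel f y)).card ≤ j * X'.card + μ := by
    have : ((∑ p ∈ Q', (flt X' (fun y => p ∈ cel f y)).card : ℕ) : ℝ) ≤
        ((j * X'.card + μ : ℕ) : ℝ) := by
      push_cast; linarith
    exact_mod_cast this
  have h4 : z2 * X'.card ≤ 64 * Mr * z0 * ∑ p ∈ Q', (flt X' (fun y => p ∈ cel f y)).card := by
    rw [mul_sum]
    have := card_nsmul_le_sum Q' (fun p => 64 * Mr * z0 * (flt X' (fun y => p ∈ cel f y)).card)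
      X'.card fun p hp => (hQ p (hQ' hp)).le
    rwa [hcard, smul_eq_mul] at this
  have h5 : 64 * Mr * z0 * (2 * (j * X'.card)) ≤ 64 * Mr * z0 * (j * X'.card + μ) := by
    calc 64 * Mr * z0 * (2 * (j * X'.card)) = 128 * Mr * z0 * j * X'.card := by ring
      _ ≤ z2 * X'.card := Nat.mul_le_mul_right _ hz2
      _ ≤ _ := h4
      _ ≤ _ := Nat.mul_le_mul_left _ h3
  have h6 := Nat.le_of_mul_le_mul_left h5 (by positivity)
  have h7 : X'.card ≤ j * X'.card := Nat.le_mul_of_pos_left _ hj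
  omega

/-- cover lemma for an abstract arc relation -/
theorem cover (f : Fin N → Fin k → Fin q) (j Mr z0 z2 s μ : ℕ) (b2 : ℝ) (F : Finset (Fin k))
    (X : Finset (Fin N)) (R : Fin N → Fin N → Prop)
    (hb2 : ∀ Q : Finset (Fin k × Fin q), Q.card ≤ z2 →
      ((flt univ (fun y => j ≤ (cel f y ∩ Q).card)).card : ℝ) ≤ b2)
    (hR : ∀ X1 ⊆ X, Mr ≤ X1.card → ∃ x ∈ X1, ∃ y ∈ X1, x ≠ y ∧ R x y)
    (hs : (N : ℝ) < Real.exp (s / (64 * (Mr : ℝ) * j))) (hz2 : 128 * Mr * z0 * j ≤ z2)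
    (hμ : z2 * b2 ≤ μ) (hj : 1 ≤ j) (hMr : 1 ≤ Mr) (hz0 : 1 ≤ z0) (hμ1 : 1 ≤ μ) :
    ∃ Cov : Finset (Fin k × Fin q), Cov.card ≤ s ∧ (∀ p ∈ Cov, p.1 ∉ F) ∧
      ((flt X (fun x => ∀ p ∈ Cov, p ∉ cel f x)).card ≤ 8 * Mr * μ ∨
        ∃ x ∈ X, ∃ Pl : Finset (Fin N), μ ≤ Pl.card ∧ (∀ y ∈ Pl, y ∈ X ∧ R x y) ∧
          Spread (vw f x) F z0 4 Pl) := by
  classical
  have hpos : (0 : ℝ) < 64 * (Mr : ℝ) * j := by
    have h1 : (0 : ℝ) < Mr := by exact_mod_cast hMr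
    have h2 : (0 : ℝ) < j := by exact_mod_cast hj
    positivity
  obtain ⟨Cov, hCov, hcs, hg⟩ := greedy X (cel f) (flt univ (fun p : Fin k × Fin q => p.1 ∉ F))
    (κ := 1 / (64 * (Mr : ℝ) * j)) (by positivity) s (by
      have h1 : (X.card : ℝ) ≤ N := by
        have := card_le_univ X
        rw [Fintype.card_fin] at this
        exact_mod_cast this
      have h2 : 1 / (64 * (Mr : ℝ) * j) * s = s / (64 * (Mr : ℝ) * j) := by ring
      rw [h2]; linarith)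
  refine ⟨Cov, hcs, fun p hp => (mem_flt.1 (hCov hp)).2, ?_⟩
  obtain ⟨X', hX'⟩ : ∃ X', X' = flt X (fun x => ∀ p ∈ Cov, p ∉ cel f x) := ⟨_, rfl⟩
  rw [← hX'] at hg ⊢
  have hXX : X' ⊆ X := hX' ▸ flt_subset _ _
  have hlight : ∀ p : Fin k × Fin q, p.1 ∉ F →
      64 * Mr * j * (flt X' (fun y => p ∈ cel f y)).card ≤ X'.card := by
    intro p hp
    have h1 := hg p (mem_flt.2 ⟨mem_univ _, hp⟩)
    have h2 : flt X (fun y => (∀ c ∈ Cov, c ∉ cel f y) ∧ p ∈ cel f y) =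
        flt X' (fun y => p ∈ cel f y) := by
      ext y; rw [hX']; simp only [mem_flt, and_assoc]
    rw [h2, one_div, inv_mul_eq_div, le_div_iff₀ hpos] at h1
    have h3 : ((64 * Mr * j * (flt X' (fun y => p ∈ cel f y)).card : ℕ) : ℝ) ≤ X'.card := by
      push_cast; linarith
    exact_mod_cast h3
  by_cases hsm : X'.card ≤ 8 * Mr * μ
  · exact Or.inl hsm
  right
  rw [not_le] at hsm
  have hμM : μ ≤ Mr * μ := Nat.le_mul_of_pos_left _ hMr
  have h8 : 8 * μ < X'.card := by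
    have : 8 * Mr * μ = 8 * (Mr * μ) := by ring
    omega
  obtain ⟨Q, hQ⟩ : ∃ Q : Finset (Fin k × Fin q), Q = flt univ (fun p =>
      X'.card < 64 * Mr * z0 * (flt X' (fun y => p ∈ cel f y)).card ∧ p.1 ∉ F) := ⟨_, rfl⟩
  have hQc : Q.card ≤ z2 := heavy_LT2 f j Mr z0 z2 μ b2 X' Q hb2 hz2 hμ hj hMr hz0 (by omega)
    fun p hp => by rw [hQ] at hp; exact (mem_flt.1 hp).2.1
  have hb0 : 0 ≤ b2 := le_trans (Nat.cast_nonneg _) (hb2 Q hQc)
  have hz1 : 1 ≤ z2 := le_trans (by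
    have : 0 < 128 * Mr * z0 * j := by positivity
    omega) hz2
  have hbμ : b2 ≤ μ := by
    have : (1 : ℝ) ≤ z2 := by exact_mod_cast hz1
    nlinarith
  obtain ⟨X2, hX2⟩ : ∃ X2, X2 = flt X' (fun x => (cel f x ∩ Q).card < j) := ⟨_, rfl⟩
  have hX2s : X2 ⊆ X' := hX2 ▸ flt_subset _ _
  have hX2c : X'.card ≤ X2.card + μ := by
    have h1 : X' ⊆ X2 ∪ flt univ (fun y => j ≤ (cel f y ∩ Q).card) := by
      intro y hy
      rw [mem_union, hX2, mem_flt, mem_flt]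
      by_cases h : (cel f y ∩ Q).card < j
      · exact Or.inl ⟨hy, h⟩
      · exact Or.inr ⟨mem_univ _, not_lt.1 h⟩
    have h2 : (flt univ (fun y => j ≤ (cel f y ∩ Q).card)).card ≤ μ := by
      exact_mod_cast (hb2 Q hQc).trans hbμ
    have h3 := (card_le_card h1).trans (card_union_le _ _)
    omega
  obtain ⟨d, hd⟩ : ∃ d, d = X'.card / (8 * Mr) := ⟨_, rfl⟩
  have hM8 : 0 < 8 * Mr := by positivity
  have hd1 : μ ≤ d := by
    rw [hd, Nat.le_div_iff_mul_le hM8]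
    have : μ * (8 * Mr) = 8 * Mr * μ := by ring
    omega
  have hd2 : 8 * (Mr * d) ≤ X'.card := by
    have := Nat.mul_div_le X'.card (8 * Mr)
    rw [← hd, mul_assoc] at this
    exact this
  have hd3 : X'.card < 8 * Mr * (d + 1) := by
    rw [hd]; exact Nat.lt_mul_div_succ _ hM8
  have hex : ∃ x ∈ X2, d < (flt X2 (fun y => R x y)).card := by
    by_contra hc
    push Not at hc
    obtain ⟨X1, hX1, hc1, hi⟩ := indep_of_outdeg X2 R d hc
    have h1 : X1.card ≤ Mr := by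
      by_contra h
      obtain ⟨x, hx, y, hy, hxy, hr⟩ := hR X1 (hX1.trans (hX2s.trans hXX)) (not_le.1 h).le
      exact hi x hx y hy hxy hr
    have h2 : (2 * d + 1) * X1.card ≤ 3 * (Mr * d) := by
      calc (2 * d + 1) * X1.card ≤ (3 * d) * Mr := Nat.mul_le_mul (by omega) h1
        _ = _ := by ring
    omega
  obtain ⟨x, hx, hxd⟩ := hex
  refine ⟨x, hXX (hX2s hx), flt X2 (fun y => R x y), by omega,
    fun y hy => ⟨hXX (hX2s (mem_flt.1 hy).1), (mem_flt.1 hy).2⟩, fun U hU hUc => ?_⟩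
  have hxQ : (cel f x ∩ Q).card < j := by rw [hX2] at hx; exact (mem_flt.1 hx).2
  have hUF : ∀ a ∈ U, a ∉ F := fun a ha => disjoint_left.1 hU ha
  have h1 : (flt (flt X2 (fun y => R x y)) (fun y => (vw f x y ∩ U).Nonempty)).card ≤
      ∑ a ∈ U, (flt X' (fun y => (a, f x a) ∈ cel f y)).card := by
    refine le_trans (card_le_card ?_) card_biUnion_le
    intro y hy
    obtain ⟨hy1, a, ha⟩ := mem_flt.1 hy
    rw [mem_inter, mem_vw] at ha
    exact mem_biUnion.2 ⟨a, ha.2, mem_flt.2 ⟨hX2s (mem_flt.1 hy1).1, mem_cel.2 ha.1.2.symm⟩⟩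
  have h2 := sum_small_LT2 (U.filter fun a => (a, f x a) ∈ Q)
    (fun a => (flt X' (fun y => (a, f x a) ∈ cel f y)).card) (64 * Mr) j X'.card hj
    (by
      refine le_trans (card_le_card_of_injOn (fun a => (a, f x a)) (fun a ha => ?_)
        fun a _ b _ hab => (Prod.ext_iff.1 hab).1) hxQ.le
      rw [coe_filter] at ha
      exact mem_coe.2 (mem_inter.2 ⟨mem_cel.2 rfl, ha.2⟩))
    fun a ha => hlight (a, f x a) (hUF a (mem_filter.1 ha).1)
  have h3 := sum_small_LT2 (U.filter fun a => ¬ (a, f x a) ∈ Q)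
    (fun a => (flt X' (fun y => (a, f x a) ∈ cel f y)).card) (64 * Mr) z0 X'.card hz0
    ((card_filter_le _ _).trans hUc)
    fun a ha => by
      obtain ⟨ha1, ha2⟩ := mem_filter.1 ha
      by_contra hc
      exact ha2 (hQ ▸ mem_flt.2 ⟨mem_univ _, not_le.1 hc, hUF a ha1⟩)
  rw [← sum_filter_add_sum_filter_not U (fun a => (a, f x a) ∈ Q)] at h1
  have h4 : 16 * Mr * (4 * (flt (flt X2 (fun y => R x y))
      (fun y => (vw f x y ∩ U).Nonempty)).card) ≤ 16 * Mr * (flt X2 (fun y => R x y)).card := by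
    have h5 := Nat.mul_le_mul_left (64 * Mr) h1
    have h6 := Nat.mul_le_mul_left (8 * Mr) (Nat.succ_le_of_lt hxd)
    rw [mul_add] at h5
    have e1 : ∀ t, 16 * Mr * (4 * t) = 64 * Mr * t := fun t => by ring
    have e2 : ∀ t, 16 * Mr * t = 2 * (8 * Mr * t) := fun t => by ring
    rw [e1, e2]
    rw [Nat.succ_eq_add_one] at h6
    omega
  exact Nat.le_of_mul_le_mul_left h4 (by positivity)

end Pool.Agent.P.MP_b5e666_co.Lar
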