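import Pool.Agent.P.MP_b5e666_co.LD0

set_option autoImplicit false

open Finset

noncomputable section

namespace Pool.Agent.P.MP_b5e666_co.Lar

variable {N k q : ℕ}

/-- one more cell with a value -/
def up_LT3 (φ : Pat k q) (a : (Fin k × Fin q) × SignType) : Pat k q :=
  Function.update φ a.1.1 (some (a.1.2, a.2))

theorem cols_LT3 (φ : Pat k q) (a : (Fin k × Fin q) × SignType) (c : Fin k) :
    c ∈ cols (up_LT3 φ a) ↔ c = a.1.1 ∨ c ∈ cols φ := by
  by_cases h : c = a.1.1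
  · subst h; simp [cols, up_LT3]
  · simp [cols, up_LT3, h]

theorem nz_LT3 (φ : Pat k q) (a : (Fin k × Fin q) × SignType) (c : Fin k)
    (h : c ∈ nz (up_LT3 φ a)) : (c = a.1.1 ∧ a.2 ≠ 0) ∨ c ∈ nz φ := by
  by_cases e : c = a.1.1
  · subst e
    simp only [nz, up_LT3, mem_flt, mem_univ, true_and, Function.update_self,
      Option.some.injEq, Prod.mk.injEq] at h
    obtain ⟨b, v, ⟨-, h1⟩, h2⟩ := h
    exact Or.inl ⟨rfl, h1 ▸ h2⟩
  · right
    simpa [nz, up_LT3, e] using h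

theorem has_LT3 {f : Fin N → Fin k → Fin q} {x : Fin N} {φ : Pat k q} (h : Has f x φ)
    {p : Fin k × Fin q} (hp : p ∈ cel f x) (v : SignType) : Has f x (up_LT3 φ (p, v)) := by
  intro a b w e
  by_cases h' : a = p.1
  · subst h'
    simp only [up_LT3, Function.update_self, Option.some.injEq, Prod.mk.injEq] at e
    rw [← e.1]; exact mem_cel.1 hp
  · exact h a b w (by simpa [up_LT3, h'] using e)

theorem fit_LT3 {sv : Fin k → SignType} {φ : Pat k q} (h : Fit sv φ) (p : Fin k × Fin q) :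
    Fit sv (up_LT3 φ (p, sv p.1)) := by
  intro a b w e
  by_cases h' : a = p.1
  · subst h'
    simp only [up_LT3, Function.update_self, Option.some.injEq, Prod.mk.injEq] at e
    exact e.2
  · exact h a b w (by simpa [up_LT3, h'] using e)

/-- the tree of patterns of depth two -/
theorem tree (f : Fin N → Fin k → Fin q) (s B : ℕ) (hs : 1 ≤ s) (Kl : Pat k q → Fin N → Prop)
    (hcov : ∀ φ : Pat k q, Alw φ → ∃ Cov : Finset (Fin k × Fin q), Cov.card ≤ s ∧
      (∀ p ∈ Cov, p.1 ∉ cols φ) ∧ ∃ Lf : Finset (Fin N), Lf.card ≤ B ∧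
        ∀ x, Has f x φ → Kl φ x ∨ x ∈ Lf ∨ ∃ p ∈ Cov, p ∈ cel f x) :
    ∃ (Nd : Finset (Pat k q)) (Lf : Finset (Fin N))
      (Γ : Finset ((Fin k × Fin q) × (Fin k × Fin q))) (Tr : Finset (Finset (Fin k × Fin q))),
      Nd.card ≤ 13 * s ^ 2 ∧ Lf.card ≤ 13 * s ^ 2 * B ∧ Γ.card ≤ 13 * s ^ 2 ∧
      (∀ e ∈ Γ, e.1.1 ≠ e.2.1) ∧ Tr.card ≤ 13 * s ^ 3 ∧ (∀ t ∈ Tr, t.card = 3) ∧
      ∀ x, x ∉ Lf → (∀ t ∈ Tr, ¬ t ⊆ cel f x) → ∀ sv : Fin k → SignType,
        (∀ e ∈ edg f Γ x, sv e.1.1 = 0 ∨ sv e.2.1 = 0) → ∃ φ ∈ Nd, Fit sv φ ∧ Kl φ x := by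
  classical
  have h0 : ∀ φ : Pat k q, ∃ Cov : Finset (Fin k × Fin q), Cov.card ≤ s ∧
      (∀ p ∈ Cov, p.1 ∉ cols φ) ∧ ∃ Lf : Finset (Fin N), Lf.card ≤ B ∧
        (Alw φ → ∀ x, Has f x φ → Kl φ x ∨ x ∈ Lf ∨ ∃ p ∈ Cov, p ∈ cel f x) := by
    intro φ
    by_cases h : Alw φ
    · obtain ⟨C, h1, h2, L, h3, h4⟩ := hcov φ h
      exact ⟨C, h1, h2, L, h3, fun _ => h4⟩
    · exact ⟨∅, by simp, by simp, ∅, by simp, fun h' => absurd h' h⟩
  choose Cov h1 h2 Lf h3 h4 using h0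
  let r : Pat k q := fun _ => none
  let A : Pat k q → Finset ((Fin k × Fin q) × SignType) := fun φ => Cov φ ×ˢ univ
  have hA : ∀ φ, (A φ).card ≤ 3 * s := fun φ => by
    have : Fintype.card SignType = 3 := rfl
    have := h1 φ
    simp only [A, card_product, card_univ]
    nlinarith
  have mA : ∀ φ p v, (p, v) ∈ A φ ↔ p ∈ Cov φ := fun φ p v => by simp [A]
  let Nd : Finset (Pat k q) := insert r ((A r).image (up_LT3 r) ∪
    (A r).biUnion fun a => (A (up_LT3 r a)).image (up_LT3 (up_LT3 r a)))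
  have hNd : Nd.card ≤ 13 * s ^ 2 := by
    have e1 : ((A r).image (up_LT3 r)).card ≤ 3 * s := card_image_le.trans (hA r)
    have e2 : ((A r).biUnion fun a => (A (up_LT3 r a)).image (up_LT3 (up_LT3 r a))).card ≤
        3 * s * (3 * s) :=
      (card_biUnion_le_card_mul _ _ _ fun a _ => card_image_le.trans (hA _)).trans
        (Nat.mul_le_mul_right _ (hA r))
    have e3 := (card_insert_le r _).trans (Nat.add_le_add_right ((card_union_le _ _).trans
      (Nat.add_le_add e1 e2)) 1)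
    refine e3.trans ?_
    nlinarith
  refine ⟨Nd, Nd.biUnion Lf, (A r).biUnion fun a => (Cov (up_LT3 r a)).image fun p => (a.1, p),
    (A r).biUnion fun a => (A (up_LT3 r a)).biUnion fun b =>
      (Cov (up_LT3 (up_LT3 r a) b)).image fun p => {a.1, b.1, p}, hNd,
    (card_biUnion_le_card_mul _ _ _ fun a _ => h3 a).trans (Nat.mul_le_mul_right _ hNd),
    ?_, ?_, ?_, ?_, ?_⟩
  · refine ((card_biUnion_le_card_mul _ _ _ fun a _ => card_image_le.trans (h1 _)).trans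
      (Nat.mul_le_mul_right _ (hA r))).trans ?_
    nlinarith
  · intro e he
    obtain ⟨a, -, he⟩ := mem_biUnion.1 he
    obtain ⟨p, hp, rfl⟩ := mem_image.1 he
    exact fun h => h2 _ p hp ((cols_LT3 _ _ _).2 (Or.inl h.symm))
  · refine ((card_biUnion_le_card_mul _ _ _ fun a _ => (card_biUnion_le_card_mul _ _ _
      fun b _ => card_image_le.trans (h1 _)).trans (Nat.mul_le_mul_right _ (hA _))).trans
      (Nat.mul_le_mul_right _ (hA r))).trans ?_
    nlinarith [Nat.zero_le (s ^ 3)]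
  · intro t ht
    obtain ⟨a, -, ht⟩ := mem_biUnion.1 ht
    obtain ⟨b, hb, ht⟩ := mem_biUnion.1 ht
    obtain ⟨p, hp, rfl⟩ := mem_image.1 ht
    have e1 := h2 _ b.1 ((mA _ b.1 b.2).1 hb)
    have e2 := h2 _ p hp
    simp only [cols_LT3, not_or] at e1 e2
    refine card_eq_three.2 ⟨_, _, _, fun h => e1.1 ?_, fun h => e2.2.1 ?_, fun h => e2.1 ?_, rfl⟩ <;>
      rw [h]
  · intro x hx hT sv hsv
    have hL : ∀ φ ∈ Nd, x ∉ Lf φ := fun φ hφ h => hx (mem_biUnion.2 ⟨φ, hφ, h⟩)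
    have c0 : ∀ c, c ∉ cols r := fun c => by simp [cols, r]
    have n0 : ∀ c, c ∉ nz r := fun c => by simp [nz, r]
    have H0 : Has f x r := fun a b v e => by simp [r] at e
    have F0 : Fit sv r := fun a b v e => by simp [r] at e
    have m0 : r ∈ Nd := mem_insert_self _ _
    have A0 : Alw r := ⟨by rw [eq_empty_of_forall_notMem c0]; simp,
      by rw [eq_empty_of_forall_notMem n0]; simp⟩
    rcases h4 r A0 x H0 with h | h | ⟨p, hp, hp'⟩
    · exact ⟨r, m0, F0, h⟩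
    · exact absurd h (hL r m0)
    have a1 := (mA r p (sv p.1)).2 hp
    have m1 : up_LT3 r (p, sv p.1) ∈ Nd :=
      mem_insert_of_mem (mem_union_left _ (mem_image_of_mem _ a1))
    have A1 : Alw (up_LT3 r (p, sv p.1)) := by
      refine ⟨(card_le_card (t := {p.1}) fun c hc => ?_).trans (by simp),
        (card_le_card (t := {p.1}) fun c hc => ?_).trans (by simp)⟩
      · exact mem_singleton.2 (((cols_LT3 _ _ _).1 hc).resolve_right (c0 c))
      · exact mem_singleton.2 ((nz_LT3 _ _ _ hc).resolve_right (n0 c)).1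
    rcases h4 _ A1 x (has_LT3 H0 hp' _) with h | h | ⟨p2, hp2, hp2'⟩
    · exact ⟨_, m1, fit_LT3 F0 p, h⟩
    · exact absurd h (hL _ m1)
    have a2 := (mA _ p2 (sv p2.1)).2 hp2
    have m2 : up_LT3 (up_LT3 r (p, sv p.1)) (p2, sv p2.1) ∈ Nd :=
      mem_insert_of_mem (mem_union_right _ (mem_biUnion.2 ⟨_, a1, mem_image_of_mem _ a2⟩))
    have hz := hsv (p, p2) (mem_flt.2 ⟨mem_biUnion.2 ⟨_, a1, mem_image_of_mem _ hp2⟩, hp', hp2'⟩)
    have A2 : Alw (up_LT3 (up_LT3 r (p, sv p.1)) (p2, sv p2.1)) := by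
      refine ⟨(card_le_card (t := {p2.1, p.1}) fun c hc => ?_).trans card_le_two, ?_⟩
      · simpa [cols_LT3, c0] using hc
      have hn : ∀ c ∈ nz (up_LT3 (up_LT3 r (p, sv p.1)) (p2, sv p2.1)),
          (c = p2.1 ∧ sv p2.1 ≠ 0) ∨ (c = p.1 ∧ sv p.1 ≠ 0) := fun c hc =>
        (nz_LT3 _ _ _ hc).imp_right fun h => (nz_LT3 _ _ _ h).resolve_right (n0 c)
      rcases hz with hz | hz
      · exact (card_le_card (t := {p2.1}) fun c hc =>
          mem_singleton.2 ((hn c hc).resolve_right fun h => h.2 hz).1).trans (by simp)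
      · exact (card_le_card (t := {p.1}) fun c hc =>
          mem_singleton.2 ((hn c hc).resolve_left fun h => h.2 hz).1).trans (by simp)
    rcases h4 _ A2 x (has_LT3 (has_LT3 H0 hp' _) hp2' _) with h | h | ⟨p3, hp3, hp3'⟩
    · exact ⟨_, m2, fit_LT3 (fit_LT3 F0 p) p2, h⟩
    · exact absurd h (hL _ m2)
    refine absurd (fun c hc => ?_) (hT {p, p2, p3} (mem_biUnion.2 ⟨_, a1, mem_biUnion.2
      ⟨_, a2, mem_image_of_mem _ hp3⟩⟩))
    simp only [mem_insert, mem_singleton] at hc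
    rcases hc with rfl | rfl | rfl <;> assumption

end Pool.Agent.P.MP_b5e666_co.Lar
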