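import Pool.Agent.P.MP_b5e666_co.LT1
import Pool.Agent.P.MP_b5e666_co.LT2
import Pool.Agent.P.MP_b5e666_co.LT3

set_option autoImplicit false

open Finset

noncomputable section

namespace Pool.Agent.P.MP_b5e666_co.Lar

variable {P : Par} {Φ : Fam P} {col : Fin P.N → (Fin P.k → SignType) → Fin P.n}

theorem cover_killed (hP : P.Ok) (hΦ : Φ.Ok) (hc : Φ.Proper col) (γ : Fin P.n) {μ : ℕ}
    (hμ : P.mu0 ≤ μ) (φ : Pat P.k P.q) (hφ : Alw φ) :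
    ∃ Cov : Finset (Fin P.k × Fin P.q), Cov.card ≤ P.s ∧ (∀ p ∈ Cov, p.1 ∉ cols φ) ∧
      ∃ Lf : Finset (Fin P.N), Lf.card ≤ 8 * P.Mr * μ ∧
        ∀ x, Has Φ.f x φ → Φ.Killed col γ μ φ x ∨ x ∈ Lf ∨ ∃ p ∈ Cov, p ∈ cel Φ.f x := by
  have hq : (0 : ℝ) < P.q := by exact_mod_cast (by have := hP.hq; omega : 0 < P.q)
  have hb2 : ∀ Q : Finset (Fin P.k × Fin P.q), Q.card ≤ P.z2 →
      ((flt univ (fun y => P.j ≤ (cel Φ.f y ∩ Q).card)).card : ℝ) ≤ P.b2 := fun Q hQ =>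
    count_j (cel Φ.f) P.j (β := P.bq P.j) (fun K hK => by
      have := hΦ.v3 K (by omega)
      rw [hK] at this
      exact this) (by unfold Par.bq; positivity) Q hQ
  have hdis : Disjoint (nz φ) (zc φ) := by
    refine disjoint_left.2 fun a h1 h2 => ?_
    obtain ⟨b, v, e1, hv⟩ := (mem_flt.1 h1).2
    obtain ⟨b', e2⟩ := (mem_flt.1 h2).2
    rw [e1] at e2
    exact hv (congrArg Prod.snd (Option.some.inj e2))
  have hcard : (nz φ).card + (zc φ).card ≤ 2 := by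
    rw [← card_union_of_disjoint hdis]
    refine le_trans (card_le_card fun a ha => mem_flt.2 ⟨mem_univ _, ?_⟩) hφ.1
    rcases mem_union.1 ha with h | h
    · obtain ⟨b, v, e1, -⟩ := (mem_flt.1 h).2
      rw [e1]
      exact Option.some_ne_none _
    · obtain ⟨b, e1⟩ := (mem_flt.1 h).2
      rw [e1]
      exact Option.some_ne_none _
  have hμ' : (P.z2 : ℝ) * P.b2 ≤ μ := hP.t3.trans (by exact_mod_cast hμ)
  obtain ⟨Cov, c1, c2, c3⟩ := cover Φ.f P.j P.Mr P.z0 P.z2 P.s μ P.b2 (cols φ)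
    (flt univ (fun x => Has Φ.f x φ ∧ ¬ Φ.Killed col γ μ φ x)) (Φ.Arc col γ φ) hb2
    (fun X1 hX1 hM => by
      obtain ⟨x, hx, y, hy, hxy, a1, a0⟩ := hΦ.v7 X1 hM (nz φ) (zc φ) hdis hcard
      have hx' := (mem_flt.1 (hX1 hx)).2.1
      have hy' := (mem_flt.1 (hX1 hy)).2.1
      have a2 : ∀ a ∈ nz φ, a ∈ Φ.Z x y := fun a ha => a1 a ha (by
        obtain ⟨b, v, e1, -⟩ := (mem_flt.1 ha).2
        exact mem_vw.2 ⟨hxy, (hx' a b v e1).trans (hy' a b v e1).symm⟩)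
      rcases coupling hP hΦ hc γ hxy hφ a2 a0 with h | h
      · exact ⟨x, hx, y, hy, hxy, hxy, hy', a0, h⟩
      · exact ⟨y, hy, x, hx, hxy.symm, hxy.symm, hx', fun a ha => hΦ.Zc x y ▸ a0 a ha, h⟩)
    hP.t1 hP.t2 hμ' (by have := hP.hj; omega) hP.hMr hP.hz0 (hP.hmu0.trans hμ)
  refine ⟨Cov, c1, c2, ?_⟩
  rcases c3 with c3 | ⟨x, hx, Pl, p1, p2, p3⟩
  · refine ⟨_, c3, fun x hx => ?_⟩
    by_cases hk : Φ.Killed col γ μ φ x
    · exact Or.inl hk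
    by_cases hp : ∃ p ∈ Cov, p ∈ cel Φ.f x
    · exact Or.inr (Or.inr hp)
    · exact Or.inr (Or.inl (mem_flt.2 ⟨mem_flt.2 ⟨mem_univ _, hx, hk⟩,
        fun p h1 h2 => hp ⟨p, h1, h2⟩⟩))
  · exact absurd ⟨Pl, p1, fun y hy => (p2 y hy).2, p3⟩ (mem_flt.1 hx).2.2

/-- choice of the universe: counting -/
theorem choose_x (hP : P.Ok) (hΦ : Φ.Ok) (Lf0 Lf1 : Fin P.n → Finset (Fin P.N))
    (h0 : ∀ γ, (Lf0 γ).card ≤ P.s2 * (8 * P.Mr * P.mu0))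
    (h1 : ∀ γ, (Lf1 γ).card ≤ P.s2 * (8 * P.Mr * P.mu1))
    (Γ : Finset ((Fin P.k × Fin P.q) × (Fin P.k × Fin P.q))) (hΓ : Γ.card ≤ P.e0)
    (hΓ' : ∀ e ∈ Γ, e.1.1 ≠ e.2.1) (Tr : Finset (Finset (Fin P.k × Fin P.q)))
    (hT : Tr.card ≤ 2 * P.n * (13 * P.s ^ 3)) (hT' : ∀ t ∈ Tr, t.card = 3) :
    ∃ x, (∀ γ, x ∉ Lf0 γ) ∧ (∀ t ∈ Tr, ¬ t ⊆ cel Φ.f x) ∧
      (flt univ (fun γ => x ∈ Lf1 γ)).card ≤ P.R ∧ ∃ C, Zer Φ.f Φ.M Γ P.z1 P.nu x C := by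
  have hq : (0 : ℝ) < P.q := by exact_mod_cast (by have := hP.hq; omega : 0 < P.q)
  have hN : (0 : ℝ) < P.N := by exact_mod_cast hP.hN
  have hj := hP.hj
  have hfl : ∀ S : Finset (Fin P.N), flt univ (fun y => y ∈ S) = S := fun S => by
    ext y
    simp
  have b1 : ((flt univ (fun x : Fin P.N => ∃ γ, x ∈ Lf0 γ)).card : ℝ) ≤ P.N / 10 := by
    refine (union_bound_LB2 univ (fun γ y => y ∈ Lf0 γ) _
      (β := ((P.s2 * (8 * P.Mr * P.mu0) : ℕ) : ℝ)) (fun γ _ => ?_)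
      (fun y ⟨γ, h⟩ => ⟨γ, mem_univ _, h⟩)).trans ?_
    · rw [hfl]
      exact_mod_cast h0 γ
    · have := (Nat.cast_le (α := ℝ)).2 hP.x1
      rw [card_univ, Fintype.card_fin]
      push_cast at this ⊢
      linarith
  have b2 : ((flt univ (fun x : Fin P.N => ∃ t ∈ Tr, t ⊆ cel Φ.f x)).card : ℝ) ≤ P.N / 10 := by
    refine (union_bound_LB2 Tr (fun t y => t ⊆ cel Φ.f y) _
      (β := 6 * P.N / (P.q : ℝ) ^ 3) (fun t ht => ?_) (fun y h => h)).trans ?_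
    · have := hΦ.v3 t (by rw [hT' t ht]; omega)
      rwa [hT' t ht] at this
    · have h1 := (Nat.cast_le (α := ℝ)).2 hP.x2
      have h2 := (Nat.cast_le (α := ℝ)).2 hT
      push_cast at h1 h2
      rw [← mul_div_assoc, div_le_div_iff₀ (by positivity) (by norm_num)]
      nlinarith
  have b3 : ((flt univ (fun x : Fin P.N => P.z1 < (edg Φ.f Γ x).card)).card : ℝ) ≤ P.N / 10 := by
    refine card_markov univ (fun x => (edg Φ.f Γ x).card) P.z1 hP.hz1 ?_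
    have e1 : ∑ x : Fin P.N, ((edg Φ.f Γ x).card : ℝ) =
        ∑ e ∈ Γ, ∑ x : Fin P.N, ind (e.1 ∈ cel Φ.f x ∧ e.2 ∈ cel Φ.f x) := by
      rw [sum_comm]
      exact sum_congr rfl fun x _ => card_flt _ _
    have e2 : ∀ e ∈ Γ, ∑ x : Fin P.N, ind (e.1 ∈ cel Φ.f x ∧ e.2 ∈ cel Φ.f x) ≤
        6 * P.N / (P.q : ℝ) ^ 2 := by
      intro e he
      have hc : ({e.1, e.2} : Finset (Fin P.k × Fin P.q)).card = 2 :=
        card_pair fun h => hΓ' e he (congrArg Prod.fst h)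
      have := hΦ.v3 {e.1, e.2} (by omega)
      rw [hc, card_flt] at this
      refine le_trans (le_of_eq (sum_congr rfl fun x _ => ind_congr ?_)) this
      rw [insert_subset_iff, singleton_subset_iff]
    rw [e1]
    refine (sum_le_card_nsmul _ _ _ e2).trans ?_
    have h1 := (Nat.cast_le (α := ℝ)).2 hP.x4
    have h2 := (Nat.cast_le (α := ℝ)).2 hΓ
    push_cast at h1 h2
    rw [nsmul_eq_mul, ← mul_div_assoc, ← mul_div_assoc,
      div_le_div_iff₀ (by positivity) (by norm_num)]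
    nlinarith
  have b4 : ((flt univ (fun x : Fin P.N =>
      P.R < (flt univ (fun γ => x ∈ Lf1 γ)).card)).card : ℝ) ≤ P.N / 10 := by
    refine card_markov univ (fun x => (flt univ (fun γ => x ∈ Lf1 γ)).card) P.R hP.hR ?_
    have e1 : ∑ x : Fin P.N, ((flt univ (fun γ => x ∈ Lf1 γ)).card : ℝ) =
        ∑ γ, ((Lf1 γ).card : ℝ) := by
      rw [sum_congr rfl fun x _ => card_flt univ (fun γ => x ∈ Lf1 γ), sum_comm]
      refine sum_congr rfl fun γ _ => ?_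
      rw [← card_flt univ (fun x => x ∈ Lf1 γ), hfl]
    rw [e1]
    refine (sum_le_card_nsmul _ _ ((P.s2 * (8 * P.Mr * P.mu1) : ℕ) : ℝ)
      (fun γ _ => by exact_mod_cast h1 γ)).trans ?_
    have := (Nat.cast_le (α := ℝ)).2 hP.x5
    rw [card_univ, Fintype.card_fin, nsmul_eq_mul]
    push_cast at this ⊢
    linarith
  have b5 := (Nat.cast_le (α := ℝ)).2 (hΦ.v8 Γ hΓ hΓ')
  push_cast at b5
  by_contra hn
  rw [card_flt] at b1 b2 b3 b4 b5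
  have hall : ∀ x : Fin P.N, (1 : ℝ) ≤ ind (∃ γ, x ∈ Lf0 γ) + ind (∃ t ∈ Tr, t ⊆ cel Φ.f x) +
      ind (P.z1 < (edg Φ.f Γ x).card) + ind (P.R < (flt univ (fun γ => x ∈ Lf1 γ)).card) +
      ind ((edg Φ.f Γ x).card ≤ P.z1 ∧ ¬ ∃ C, Zer Φ.f Φ.M Γ P.z1 P.nu x C) := by
    intro x
    have n1 := ind_nonneg (∃ γ, x ∈ Lf0 γ)
    have n2 := ind_nonneg (∃ t ∈ Tr, t ⊆ cel Φ.f x)
    have n3 := ind_nonneg (P.z1 < (edg Φ.f Γ x).card)
    have n4 := ind_nonneg (P.R < (flt univ (fun γ => x ∈ Lf1 γ)).card)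
    have n5 := ind_nonneg ((edg Φ.f Γ x).card ≤ P.z1 ∧ ¬ ∃ C, Zer Φ.f Φ.M Γ P.z1 P.nu x C)
    by_cases k1 : ∃ γ, x ∈ Lf0 γ
    · linarith [ind_pos k1]
    by_cases k2 : ∃ t ∈ Tr, t ⊆ cel Φ.f x
    · linarith [ind_pos k2]
    by_cases k3 : P.z1 < (edg Φ.f Γ x).card
    · linarith [ind_pos k3]
    by_cases k4 : P.R < (flt univ (fun γ => x ∈ Lf1 γ)).card
    · linarith [ind_pos k4]
    have k5 : (edg Φ.f Γ x).card ≤ P.z1 ∧ ¬ ∃ C, Zer Φ.f Φ.M Γ P.z1 P.nu x C :=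
      ⟨not_lt.1 k3, fun h => hn ⟨x, fun γ k => k1 ⟨γ, k⟩, fun t ht k => k2 ⟨t, ht, k⟩,
        not_lt.1 k4, h⟩⟩
    linarith [ind_pos k5]
  have hs := sum_le_sum fun x (_ : x ∈ (univ : Finset (Fin P.N))) => hall x
  rw [sum_add_distrib, sum_add_distrib, sum_add_distrib, sum_add_distrib, sum_const, card_univ,
    Fintype.card_fin, nsmul_eq_mul, mul_one] at hs
  linarith

end Pool.Agent.P.MP_b5e666_co.Lar
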