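import Pool.Agent.P.MP_b5e666_co.LT4

set_option autoImplicit false

open Finset

noncomputable section

namespace Pool.Agent.P.MP_b5e666_co.Lar

variable {P : Par} {Φ : Fam P} {col : Fin P.N → (Fin P.k → SignType) → Fin P.n}

theorem card_bi_LT5 {n B : ℕ} {α : Type} [DecidableEq α] (A0 A1 : Fin n → Finset α)
    (h0 : ∀ γ, (A0 γ).card ≤ B) (h1 : ∀ γ, (A1 γ).card ≤ B) :
    (univ.biUnion fun γ => A0 γ ∪ A1 γ).card ≤ 2 * n * B := by
  have h : (univ.biUnion fun γ => A0 γ ∪ A1 γ).card ≤ (univ : Finset (Fin n)).card * (2 * B) :=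
    card_biUnion_le_card_mul _ _ _ fun γ _ => by
      have := card_union_le (A0 γ) (A1 γ)
      have := h0 γ
      have := h1 γ
      omega
  rw [card_univ, Fintype.card_fin] at h
  calc _ ≤ n * (2 * B) := h
    _ = 2 * n * B := by ring

/-- the universe, its zero columns, the low colours and the killed nodes -/
theorem select (hP : P.Ok) (hΦ : Φ.Ok) (hc : Φ.Proper col) :
    ∃ (x : Fin P.N) (C : Finset (Fin P.k)) (Low : Finset (Fin P.n))
      (Nd : Fin P.n → Finset (Pat P.k P.q)),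
      C.card ≤ 2 * P.z1 ∧ (∀ y, (C ∩ Φ.M x y).card ≤ P.nu) ∧ Low.card ≤ P.R ∧
      (∀ γ, (Nd γ).card ≤ P.s2) ∧
      ∀ γ (w : Fin P.k → Bool), ∃ φ ∈ Nd γ, Fit (zer C w) φ ∧
        Φ.Killed col γ (if γ ∈ Low then P.mu0 else P.mu1) φ x := by
  classical
  have T := fun (μ : ℕ) (hμ : P.mu0 ≤ μ) (γ : Fin P.n) =>
    tree Φ.f P.s (8 * P.Mr * μ) hP.hs (Φ.Killed col γ μ)
      (fun φ hφ => cover_killed hP hΦ hc γ hμ φ hφ)
  choose N0 L0 G0 T0 a1 a2 a3 a4 a5 a6 a7 using T P.mu0 le_rfl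
  choose N1 L1 G1 T1 b1 b2 b3 b4 b5 b6 b7 using T P.mu1 hP.hmu1
  obtain ⟨x, hx0, hxT, hxR, C, hC1, hC2, hC3⟩ := choose_x hP hΦ L0 L1 a2 b2
    (univ.biUnion fun γ => G0 γ ∪ G1 γ) ((card_bi_LT5 G0 G1 a3 b3).trans hP.x3)
    (fun e he => by
      obtain ⟨γ, -, h⟩ := mem_biUnion.1 he
      rcases mem_union.1 h with h | h
      · exact a4 γ e h
      · exact b4 γ e h)
    (univ.biUnion fun γ => T0 γ ∪ T1 γ) (card_bi_LT5 T0 T1 a5 b5)
    (fun t ht => by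
      obtain ⟨γ, -, h⟩ := mem_biUnion.1 ht
      rcases mem_union.1 h with h | h
      · exact a6 γ t h
      · exact b6 γ t h)
  have hz : ∀ (γ : Fin P.n) (w : Fin P.k → Bool) (G : Finset ((Fin P.k × Fin P.q) × (Fin P.k × Fin P.q))),
      G ⊆ G0 γ ∪ G1 γ → ∀ e ∈ edg Φ.f G x, zer C w e.1.1 = 0 ∨ zer C w e.2.1 = 0 := by
    intro γ w G hG e he
    have he' : e ∈ edg Φ.f (univ.biUnion fun γ => G0 γ ∪ G1 γ) x :=
      mem_flt.2 ⟨mem_biUnion.2 ⟨γ, mem_univ _, hG (mem_flt.1 he).1⟩, (mem_flt.1 he).2⟩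
    rcases hC2 e he' with h | h
    · exact Or.inl (if_pos h)
    · exact Or.inr (if_pos h)
  refine ⟨x, C, flt univ (fun γ => x ∈ L1 γ), fun γ => if x ∈ L1 γ then N0 γ else N1 γ,
    hC1, hC3, hxR, fun γ => ?_, fun γ w => ?_⟩
  · by_cases h : x ∈ L1 γ
    · simp only [if_pos h]; exact a1 γ
    · simp only [if_neg h]; exact b1 γ
  · by_cases h : x ∈ L1 γ
    · have h' : γ ∈ flt univ (fun γ => x ∈ L1 γ) := mem_flt.2 ⟨mem_univ _, h⟩
      simp only [if_pos h, if_pos h']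
      exact a7 γ x (hx0 γ)
        (fun t ht => hxT t (mem_biUnion.2 ⟨γ, mem_univ _, mem_union_left _ ht⟩)) _
        (hz γ w _ subset_union_left)
    · have h' : γ ∉ flt univ (fun γ => x ∈ L1 γ) := fun hh => h (mem_flt.1 hh).2
      simp only [if_neg h, if_neg h']
      exact b7 γ x h
        (fun t ht => hxT t (mem_biUnion.2 ⟨γ, mem_univ _, mem_union_right _ ht⟩)) _
        (hz γ w _ subset_union_right)

end Pool.Agent.P.MP_b5e666_co.Lar
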