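import Pool.Agent.P.MP_b5e666_co.LC0

set_option autoImplicit false

open Finset

noncomputable section

namespace Pool.Agent.P.MP_b5e666_co.Lar

variable {P : Par} {Φ : Fam P} {col : Fin P.N → (Fin P.k → SignType) → Fin P.n}

/-- the local picture at x with zero columns C -/
def locOf (Φ : Fam P) (x : Fin P.N) (C : Finset (Fin P.k)) (σ : Fin P.N → ℝ) : Loc P where
  I := vw Φ.f x
  Z := Φ.Z x
  M := fun y => Φ.M x y \ C
  Ys := flt univ (fun y => x ≠ y ∧ Disjoint (Φ.Z x y) C)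
  cp := Φ.cp x
  σ := σ

theorem locOf_ok (hΦ : Φ.Ok) (x : Fin P.N) (C : Finset (Fin P.k)) {σ : Fin P.N → ℝ}
    (h0 : ∀ y, 0 ≤ σ y) (h1 : ∀ y, σ y ≤ P.smax) (hs : ∀ y, y ∉ (locOf Φ x C σ).Ys → σ y = 0)
    (ht : ∑ y, σ y ≤ P.Del) : (locOf Φ x C σ).Ok := by
  refine ⟨hΦ.v1 x, hΦ.v2 x, hΦ.Zs x, fun y => sdiff_subset.trans (hΦ.Ms x y), fun y => ?_,
    fun Q hQ => ?_, fun U hU hc => hΦ.v6 x U (fun h => (mem_flt.1 (hU h)).2.1 rfl) hc, h0, h1,
    hs, ht⟩
  · refine (card_le_card (sdiff_subset : Φ.M x y \ C ⊆ _)).trans ?_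
    by_cases h : x = y
    · subst h
      have := card_le_card (hΦ.Ms x x)
      rw [vw_self, card_empty] at this
      omega
    · exact (hΦ.v5 x y h).2
  · have e : (Q.image fun a => (a, Φ.f x a)).card = Q.card :=
      card_image_of_injective _ fun a b h => congrArg Prod.fst h
    have h2 := hΦ.v3 (Q.image fun a => (a, Φ.f x a)) (e ▸ hQ)
    rw [e] at h2
    refine le_trans ?_ h2
    refine Nat.cast_le.2 (card_le_card (flt_mono fun y hy h => ⟨hy, fun p hp => ?_⟩))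
    obtain ⟨a, ha, rfl⟩ := mem_image.1 hp
    exact mem_cel.2 (mem_vw.1 (h ha)).2.symm

theorem zer_off_LT6 {k : ℕ} {C : Finset (Fin k)} (w : Fin k → Bool) {a : Fin k} (h : a ∉ C) :
    zer C w a = sgn (w a) := if_neg h

theorem zer_on_LT6 {k : ℕ} {C : Finset (Fin k)} (w : Fin k → Bool) {a : Fin k} (h : a ∈ C) :
    zer C w a = 0 := if_pos h

theorem score_LT6 {k : ℕ} (A C : Finset (Fin k)) (w : Fin k → Bool) :
    (score A (zer C w) : ℝ) = ∑ p ∈ A \ C, sg (w p) - (C ∩ A).card := by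
  unfold score
  rw [← sum_inter_add_sum_sdiff A C, inter_comm C A]
  push_cast
  have e1 : ∑ a ∈ A ∩ C, (if zer C w a = 1 then (1 : ℝ) else -1) = -((A ∩ C).card : ℝ) := by
    rw [sum_congr rfl (g := fun _ => (-1 : ℝ)) fun a ha => by
      rw [zer_on_LT6 w (mem_inter.1 ha).2, if_neg (by decide)]]
    simp
  have e2 : ∑ a ∈ A \ C, (if zer C w a = 1 then (1 : ℝ) else -1) = ∑ p ∈ A \ C, sg (w p) :=
    sum_congr rfl fun a ha => by
      rw [zer_off_LT6 w (mem_sdiff.1 ha).2]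
      cases w a <;> simp [sgn]
  rw [e1, e2]
  ring

theorem pary_of_par {x : Fin P.N} {C : Finset (Fin P.k)} {w : Fin P.k → Bool} {y : Fin P.N}
    (hd : Disjoint (Φ.Z x y) C)
    (h : Even ((flt (Φ.Z x y) (fun a => w a = false)).card + Φ.cp x y)) :
    Φ.Pary x y (zer C w) := by
  have e : flt (Φ.Z x y) (fun a => zer C w a = -1) = flt (Φ.Z x y) (fun a => w a = false) := by
    ext a
    simp only [mem_flt]
    refine and_congr_right fun ha => ?_
    rw [zer_off_LT6 w (disjoint_left.1 hd ha)]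
    cases w a <;> simp [sgn]
  unfold Fam.Pary
  rwa [e]

theorem valid_of_core (hP : P.Ok) (hΦ : Φ.Ok) {x : Fin P.N} {C : Finset (Fin P.k)}
    (hC : ∀ y, (C ∩ Φ.M x y).card ≤ P.nu) {S : Finset (Fin P.N)} {w : Fin P.k → Bool}
    (hS : ∀ y ∈ S, Disjoint (Φ.Z x y) C) (hc : S.card ≤ P.du) (hp : par (Φ.Z x) (Φ.cp x) S w)
    (hw : ∀ y, (if y ∈ S then 0 else P.eps * (Φ.M x y \ C).card) - 2 * P.nu ≤
      ∑ p ∈ Φ.M x y \ C, sg (w p)) : Φ.Valid x (zer C w) := by
  have hC' : ∀ y, ((C ∩ Φ.M x y).card : ℝ) ≤ P.nu := fun y => by exact_mod_cast hC y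
  have big : ∀ y, x ≠ y → y ∉ S → Φ.Big x y (zer C w) := fun y hxy hy => by
    have h1 := hw y
    rw [if_neg hy] at h1
    have h2 : P.ml ≤ (Φ.M x y \ C).card + P.nu := by
      have a1 := (hΦ.v5 x y hxy).1
      have a2 := card_sdiff_add_card_inter (Φ.M x y) C
      have a3 := hC y
      rw [inter_comm] at a3
      omega
    have h3 : (P.ml : ℝ) ≤ (Φ.M x y \ C).card + P.nu := by exact_mod_cast h2
    have h4 := mul_le_mul_of_nonneg_left h3 hP.heps.le
    have h5 := mul_le_mul_of_nonneg_right hP.heps4 (Nat.cast_nonneg (α := ℝ) P.nu)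
    have h6 : (0 : ℝ) ≤ P.nu := Nat.cast_nonneg _
    have h7 : 3 * (P.nu : ℝ) + 1 ≤ score (Φ.M x y) (zer C w) := by
      rw [score_LT6]
      linarith [hP.m6, hC' y]
    unfold Fam.Big
    exact_mod_cast h7
  refine ⟨fun y hxy => ?_, ?_⟩
  · by_cases hy : y ∈ S
    · refine Or.inr ⟨?_, fun a ha => ?_, pary_of_par (hS y hy) (hp y hy)⟩
      · have h1 := hw y
        rw [if_pos hy] at h1
        have h7 : -(3 * (P.nu : ℝ)) ≤ score (Φ.M x y) (zer C w) := by
          rw [score_LT6]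
          linarith [hC' y]
        exact_mod_cast h7
      · rw [zer_off_LT6 w (disjoint_left.1 (hS y hy) ha)]
        cases w a <;> simp [sgn]
    · exact Or.inl (big y hxy hy)
  · have h1 : (insert x S)ᶜ ⊆ flt univ (fun y => Φ.Big x y (zer C w)) := fun y hy => by
      rw [mem_compl, mem_insert, not_or] at hy
      exact mem_flt.2 ⟨mem_univ _, big y (Ne.symm hy.1) hy.2⟩
    have h2 := card_le_card h1
    have h3 := card_insert_le x S
    have h4 := hP.m7
    rw [card_compl, Fintype.card_fin] at h2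
    omega

theorem thin (hP : P.Ok) (hΦ : Φ.Ok) {γ : Fin P.n} {μ : ℕ} {φ : Pat P.k P.q} {x : Fin P.N}
    {C : Finset (Fin P.k)} (hK : Φ.Killed col γ μ φ x) (hC : C.card ≤ 2 * P.z1)
    (hf : ∃ w, Fit (zer C w) φ) :
    ∃ Pl : Finset (Fin P.N), 3 * μ ≤ 4 * Pl.card ∧
      (∀ y ∈ Pl, Φ.Arc col γ φ x y ∧ Disjoint (Φ.Z x y) C ∧ Disjoint (vw Φ.f x y) (C \ cols φ)) ∧
      Spread (vw Φ.f x) (cols φ) P.z0 3 Pl := by
  classical
  obtain ⟨Pl, h1, h2, h3⟩ := hK
  obtain ⟨w, hw⟩ := hf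
  have h4 := h3 (C \ cols φ) sdiff_disjoint
    ((card_le_card sdiff_subset).trans (hC.trans hP.m1))
  have h5 : (flt Pl fun y => (vw Φ.f x y ∩ (C \ cols φ)).Nonempty).card +
      (flt Pl fun y => ¬ (vw Φ.f x y ∩ (C \ cols φ)).Nonempty).card = Pl.card := by
    rw [flt_eq, flt_eq, card_filter_add_card_filter_not]
  refine ⟨flt Pl fun y => ¬ (vw Φ.f x y ∩ (C \ cols φ)).Nonempty, by omega, fun y hy => ?_,
    fun U hU hc => ?_⟩
  · obtain ⟨hy, hn⟩ := mem_flt.1 hy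
    have hd : Disjoint (vw Φ.f x y) (C \ cols φ) :=
      disjoint_iff_inter_eq_empty.2 (not_nonempty_iff_eq_empty.1 hn)
    refine ⟨h2 y hy, disjoint_left.2 fun a ha hc => ?_, hd⟩
    by_cases h : a ∈ cols φ
    · obtain ⟨⟨b, v⟩, e⟩ := Option.ne_none_iff_exists'.1 (mem_flt.1 h).2
      have := hw a b v e
      rw [zer_on_LT6 w hc] at this
      subst this
      exact (h2 y hy).2.2.1 a (mem_flt.2 ⟨mem_univ _, b, e⟩) ha
    · exact disjoint_left.1 hd (hΦ.Zs x y ha) (mem_sdiff.2 ⟨hc, h⟩)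
  · have h6 := h3 U hU hc
    have h7 : (flt (flt Pl fun y => ¬ (vw Φ.f x y ∩ (C \ cols φ)).Nonempty)
        fun y => (vw Φ.f x y ∩ U).Nonempty).card ≤
        (flt Pl fun y => (vw Φ.f x y ∩ U).Nonempty).card :=
      card_le_card (flt_mono fun y hy h => ⟨(mem_flt.1 hy).1, h⟩)
    omega

theorem exists_sigma (hP : P.Ok) (Ys : Finset (Fin P.N)) {τ : Type} (Ts : Finset τ)
    (Pl : τ → Finset (Fin P.N)) (low : τ → Prop) (hsub : ∀ t ∈ Ts, Pl t ⊆ Ys)
    (hb0 : ∀ t ∈ Ts, 3 * P.mu0 ≤ 4 * (Pl t).card)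
    (hb1 : ∀ t ∈ Ts, ¬ low t → 3 * P.mu1 ≤ 4 * (Pl t).card)
    (hlow : (flt Ts low).card ≤ P.R * P.s2) :
    ∃ σ : Fin P.N → ℝ, (∀ y, 0 ≤ σ y) ∧ (∀ y, σ y ≤ P.smax) ∧ (∀ y, y ∉ Ys → σ y = 0) ∧
      ∑ y, σ y ≤ P.Del ∧ ∀ t ∈ Ts, ∀ y ∈ Pl t, P.lam / (Pl t).card ≤ σ y := by
  have hN : (0 : ℝ) < P.N := by exact_mod_cast hP.hN
  have hm : (0 : ℝ) < P.mu0 := by exact_mod_cast hP.hmu0
  have hl : 0 ≤ P.lam := by linarith [hP.hlam]
  have hD := hP.hDel
  have hb : 0 ≤ P.Del / (2 * P.N) := by positivity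
  have hpos : ∀ t ∈ Ts, (0 : ℝ) < (Pl t).card := fun t ht => by
    have := hb0 t ht
    have := hP.hmu0
    exact_mod_cast (by omega : 0 < (Pl t).card)
  have hlow' : ((flt Ts low).card : ℝ) * P.lam ≤ P.Del / 2 := by
    have : ((flt Ts low).card : ℝ) ≤ P.R * P.s2 := by exact_mod_cast hlow
    exact (mul_le_mul_of_nonneg_right this hl).trans hP.m2
  have n1 : ∀ y, 0 ≤ (if y ∈ Ys then P.Del / (2 * P.N) else 0) := fun y => by
    split_ifs
    · exact hb
    · exact le_rfl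
  have n2 : ∀ y t, 0 ≤ (if y ∈ Pl t then P.lam / (Pl t).card else 0) := fun y t => by
    split_ifs
    · positivity
    · exact le_rfl
  have u1 : ∀ y, (if y ∈ Ys then P.Del / (2 * P.N) else 0) ≤ P.Del / (2 * P.N) := fun y => by
    split_ifs
    · exact le_rfl
    · exact hb
  refine ⟨fun y => (if y ∈ Ys then P.Del / (2 * P.N) else 0) +
    ∑ t ∈ flt Ts low, if y ∈ Pl t then P.lam / (Pl t).card else 0,
    fun y => add_nonneg (n1 y) (sum_nonneg fun t _ => n2 y t), fun y => ?_, fun y hy => ?_, ?_,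
    fun t ht y hy => ?_⟩
  · have a1 : P.Del / (2 * P.N) ≤ P.smax / 4 := by
      have b1 : (P.mu0 : ℝ) ≤ P.N := by exact_mod_cast hP.m5
      have b2 := mul_le_mul_of_nonneg_left b1 hP.hsmax0
      rw [div_le_div_iff₀ (by positivity) (by positivity)]
      linarith [hP.m4]
    have a2 : ∑ t ∈ flt Ts low, (if y ∈ Pl t then P.lam / (Pl t).card else 0) ≤
        (flt Ts low).card • (P.lam * (4 / (3 * P.mu0))) := sum_le_card_nsmul _ _ _ fun t ht => by
      split_ifs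
      · have b1 : 3 * (P.mu0 : ℝ) ≤ 4 * (Pl t).card := by exact_mod_cast hb0 t (mem_flt.1 ht).1
        rw [div_eq_mul_one_div]
        refine mul_le_mul_of_nonneg_left ?_ hl
        rw [div_le_div_iff₀ (hpos t (mem_flt.1 ht).1) (by positivity)]
        linarith
      · positivity
    have a3 : P.Del / 2 * (4 / (3 * P.mu0)) ≤ P.smax / 3 := by
      rw [div_mul_div_comm, div_le_div_iff₀ (by positivity) (by positivity)]
      linarith [hP.m4]
    rw [nsmul_eq_mul, ← mul_assoc] at a2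
    have a4 := mul_le_mul_of_nonneg_right hlow' (by positivity : (0 : ℝ) ≤ 4 / (3 * P.mu0))
    have a5 := u1 y
    have a6 := hP.hsmax0
    dsimp only
    linarith
  · dsimp only
    rw [if_neg hy, zero_add]
    exact sum_eq_zero fun t ht => if_neg fun h => hy (hsub t (mem_flt.1 ht).1 h)
  · rw [sum_add_distrib, sum_comm]
    have a1 : ∑ y, (if y ∈ Ys then P.Del / (2 * P.N) else 0) ≤ P.Del / 2 := by
      refine (sum_le_card_nsmul _ _ _ fun y _ => u1 y).trans (le_of_eq ?_)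
      rw [card_univ, Fintype.card_fin, nsmul_eq_mul]
      field_simp
    have a2 : ∑ t ∈ flt Ts low, ∑ y, (if y ∈ Pl t then P.lam / (Pl t).card else 0) ≤
        (flt Ts low).card • P.lam := sum_le_card_nsmul _ _ _ fun t ht => by
      rw [sum_ite_mem, univ_inter, sum_const, nsmul_eq_mul,
        mul_div_cancel₀ _ (hpos t (mem_flt.1 ht).1).ne']
    rw [nsmul_eq_mul] at a2
    linarith
  · by_cases h : low t
    · refine le_trans ?_ (le_add_of_nonneg_left (n1 y))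
      have := single_le_sum (f := fun t => if y ∈ Pl t then P.lam / (Pl t).card else 0)
        (fun t _ => n2 y t) (mem_flt.2 ⟨ht, h⟩)
      rwa [if_pos hy] at this
    · refine le_trans ?_ (le_add_of_nonneg_right (sum_nonneg fun t _ => n2 y t))
      have b1 : 3 * (P.mu1 : ℝ) ≤ 4 * (Pl t).card := by exact_mod_cast hb1 t ht h
      have b2 := mul_le_mul_of_nonneg_left b1 hD.le
      rw [if_pos (hsub t ht hy), div_le_div_iff₀ (hpos t ht) (by positivity)]
      linarith [hP.m3]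

theorem hit_of_fit (hΦ : Φ.Ok) {x y : Fin P.N} {C : Finset (Fin P.k)} {w : Fin P.k → Bool}
    {φ : Pat P.k P.q} (hv : Φ.Valid x (zer C w)) (hf : Fit (zer C w) φ)
    (hd : Disjoint (vw Φ.f x y) (C \ cols φ)) (hp : Φ.Pary x y (zer C w)) :
    Φ.Hit col (col x (zer C w)) x y φ w := by
  have key : ∀ a ∈ vw Φ.f x y, zer C w a = ext φ w a := fun a ha => by
    unfold ext
    rcases e : φ a with _ | ⟨b, v⟩
    · exact zer_off_LT6 w fun hc => disjoint_left.1 hd ha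
        (mem_sdiff.2 ⟨hc, fun h => (mem_flt.1 h).2 e⟩)
    · exact hf a b v e
  refine ⟨?_, _, hv, rfl, key⟩
  have e : flt (Φ.Z x y) (fun a => ext φ w a = -1) = flt (Φ.Z x y) (fun a => zer C w a = -1) := by
    ext a
    simp only [mem_flt]
    exact and_congr_right fun ha => by rw [key a (hΦ.Zs x y ha)]
  unfold Fam.Pary at hp ⊢
  rwa [e]

end Pool.Agent.P.MP_b5e666_co.Lar
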