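import Pool.Agent.P.MP_b5e666_co.LT5
import Pool.Agent.P.MP_b5e666_co.LT6
import Pool.Agent.P.MP_b5e666_co.LC7

set_option autoImplicit false

open Finset

noncomputable section

namespace Pool.Agent.P.MP_b5e666_co.Lar

variable {P : Par} {Φ : Fam P}

theorem card_pairs_LT7 {α β : Type} [DecidableEq α] [DecidableEq β] (A : Finset α)
    (Nd : α → Finset β) (s : ℕ) (h : ∀ a, (Nd a).card ≤ s) :
    (A.biUnion (fun a => (Nd a).image (fun b => (a, b)))).card ≤ A.card * s := by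
  refine card_biUnion_le.trans ?_
  calc ∑ a ∈ A, ((Nd a).image (fun b => (a, b))).card ≤ ∑ _a ∈ A, s :=
        sum_le_sum fun a _ => card_image_le.trans (h a)
    _ = A.card * s := by rw [sum_const, smul_eq_mul]

theorem no_col (hP : P.Ok) (hΦ : Φ.Ok) (col : Fin P.N → (Fin P.k → SignType) → Fin P.n) :
    ¬ Φ.Proper col := by
  classical
  intro hc
  obtain ⟨x, C, Low, Nd, hC, hCM, hLow, hNd, hsel⟩ := select hP hΦ hc
  let G : Fin P.n × Pat P.k P.q → Prop := fun t =>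
    (∃ w, Fit (zer C w) t.2) ∧ Φ.Killed col t.1 (if t.1 ∈ Low then P.mu0 else P.mu1) t.2 x
  let Ts : Finset (Fin P.n × Pat P.k P.q) :=
    flt (univ.biUnion (fun γ => (Nd γ).image (fun φ => (γ, φ)))) G
  have hTs : Ts.card ≤ P.n * P.s2 := by
    refine (card_flt_le _ _).trans ?_
    have h := card_pairs_LT7 (univ : Finset (Fin P.n)) Nd P.s2 hNd
    rwa [card_univ, Fintype.card_fin] at h
  have hlow : (flt Ts (fun t => t.1 ∈ Low)).card ≤ P.R * P.s2 := by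
    have hsub : flt Ts (fun t => t.1 ∈ Low) ⊆
        Low.biUnion (fun γ => (Nd γ).image (fun φ => (γ, φ))) := by
      intro t ht
      obtain ⟨h1, h2⟩ := mem_flt.1 ht
      obtain ⟨γ, -, hγ⟩ := mem_biUnion.1 (mem_flt.1 h1).1
      obtain ⟨φ, hφ, rfl⟩ := mem_image.1 hγ
      exact mem_biUnion.2 ⟨γ, h2, mem_image.2 ⟨φ, hφ, rfl⟩⟩
    exact (card_le_card hsub).trans
      ((card_pairs_LT7 Low Nd P.s2 hNd).trans (Nat.mul_le_mul_right _ hLow))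
  have hex : ∀ t : Fin P.n × Pat P.k P.q, ∃ Pl : Finset (Fin P.N), t ∈ Ts →
      3 * (if t.1 ∈ Low then P.mu0 else P.mu1) ≤ 4 * Pl.card ∧
      (∀ y ∈ Pl, Φ.Arc col t.1 t.2 x y ∧ Disjoint (Φ.Z x y) C ∧
        Disjoint (vw Φ.f x y) (C \ cols t.2)) ∧
      Spread (vw Φ.f x) (cols t.2) P.z0 3 Pl := by
    intro t
    by_cases ht : t ∈ Ts
    · obtain ⟨h1, h2⟩ := (mem_flt.1 ht).2
      obtain ⟨Pl, h⟩ := thin hP hΦ h2 hC h1
      exact ⟨Pl, fun _ => h⟩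
    · exact ⟨∅, fun h => absurd h ht⟩
  choose Pl hPl using hex
  have hb0 : ∀ t ∈ Ts, 3 * P.mu0 ≤ 4 * (Pl t).card := by
    intro t ht
    have h := (hPl t ht).1
    have h1 := hP.hmu1
    split_ifs at h
    · exact h
    · omega
  have hb1 : ∀ t ∈ Ts, ¬ t.1 ∈ Low → 3 * P.mu1 ≤ 4 * (Pl t).card := by
    intro t ht hl
    have h := (hPl t ht).1
    rwa [if_neg hl] at h
  have hsub : ∀ t ∈ Ts, Pl t ⊆ flt univ (fun y => x ≠ y ∧ Disjoint (Φ.Z x y) C) := by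
    intro t ht y hy
    obtain ⟨h1, h2, -⟩ := (hPl t ht).2.1 y hy
    exact mem_flt.2 ⟨mem_univ _, h1.1, h2⟩
  obtain ⟨σ, h0, h1, hs, ht, hwt⟩ :=
    exists_sigma hP _ Ts Pl (fun t => t.1 ∈ Low) hsub hb0 hb1 hlow
  have hD : (locOf Φ x C σ).Ok := locOf_ok hΦ x C h0 h1 hs ht
  let T : Fin P.n × Pat P.k P.q → Tgt P := fun t =>
    ⟨cols t.2, Pl t, fun y => Φ.Hit col t.1 x y t.2⟩
  have hT : ∀ t ∈ Ts, (locOf Φ x C σ).TOk (T t) := fun t ht =>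
    { big := hb0 t ht
      wt := hwt t ht
      spr := (hPl t ht).2.2
      dep := fun y _ => dep_Hit hΦ t.1 x y t.2
      sm := fun y hy => ((hPl t ht).2.1 y hy).1.2.2.2 }
  obtain ⟨S, w, hS, hSc, hpar, hw, hlast⟩ := Loc.core hP hD Ts T hT hTs
  have hSd : ∀ y ∈ S, Disjoint (Φ.Z x y) C := fun y hy => (mem_flt.1 (hS hy)).2.2
  have hv : Φ.Valid x (zer C w) := valid_of_core hP hΦ hCM hSd hSc hpar hw
  obtain ⟨φ, hφ, hfit, hK⟩ := hsel (col x (zer C w)) w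
  have hmem : (col x (zer C w), φ) ∈ Ts :=
    mem_flt.2 ⟨mem_biUnion.2 ⟨_, mem_univ _, mem_image.2 ⟨φ, hφ, rfl⟩⟩, ⟨w, hfit⟩, hK⟩
  obtain ⟨y, hyS, hyP, hn⟩ := hlast _ hmem
  obtain ⟨-, -, h3⟩ := (hPl _ hmem).2.1 y hyP
  exact hn (hit_of_fit hΦ hv hfit h3 (pary_of_par (hSd y hyS) (hpar y hyS)))

end Pool.Agent.P.MP_b5e666_co.Lar
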