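import Pool.Agent.P.MP_b5e666_co.LD0

set_option autoImplicit false

open Finset

noncomputable section

namespace Pool.Agent.P.MP_b5e666_co.Lar

variable {P : Par} {Φ : Fam P}

theorem score_add_LT8 {k : ℕ} (A : Finset (Fin k)) (s s' : Fin k → SignType)
    (h : ∀ a ∈ A, ¬ (s a = 1 ∧ s' a = 1)) : score A s + score A s' ≤ 0 := by
  unfold score
  rw [← sum_add_distrib]
  refine sum_nonpos fun a ha => ?_
  have := h a ha
  by_cases h1 : s a = 1 <;> by_cases h2 : s' a = 1 <;> simp_all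

theorem score_le_LT8 {k : ℕ} (A : Finset (Fin k)) (s : Fin k → SignType) :
    score A s ≤ ((flt univ (fun a => s a ≠ 0)).card : ℤ) := by
  unfold score
  rw [flt_eq, card_filter]
  push_cast
  calc (∑ a ∈ A, if s a = 1 then (1 : ℤ) else -1) ≤ ∑ a ∈ A, if s a ≠ 0 then (1 : ℤ) else 0 := by
        refine sum_le_sum fun a _ => ?_
        by_cases h1 : s a = 1
        · rw [if_pos h1, if_pos (by rw [h1]; decide)]
        · rw [if_neg h1]; split_ifs <;> norm_num
    _ ≤ _ := sum_le_sum_of_subset_of_nonneg (subset_univ A) fun a _ _ => by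
        split_ifs <;> norm_num

theorem sign_ne_LT8 {u v : SignType} (hu : u ≠ 0) (hv : v ≠ 0) (h : u ≠ v) :
    v = -1 ↔ ¬ u = -1 := by
  revert u v; decide

theorem sign_eq_LT8 {u v : SignType} (hu : u ≠ 0) (hv : v ≠ 0)
    (h : decide (u = 1) = decide (v = 1)) : u = v := by
  revert u v; decide

theorem inter_ne (hΦ : Φ.Ok) {x y : Fin P.N} (hxy : x ≠ y) {s s' : Fin P.k → SignType}
    (h : Φ.Valid x s) (h' : Φ.Valid y s') : (Φ.agr x y s s').Nonempty := by
  by_contra hne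
  have hno : ∀ a ∈ vw Φ.f x y, ¬ (s a = s' a ∧ s a ≠ 0) := fun a ha hc =>
    hne ⟨a, mem_flt.2 ⟨ha, hc⟩⟩
  have h1 : score (Φ.M x y) s + score (Φ.M y x) s' ≤ 0 := by
    rw [hΦ.Mc y x]
    refine score_add_LT8 _ _ _ fun a ha hc => hno a (hΦ.Ms x y ha) ⟨hc.1.trans hc.2.symm, ?_⟩
    rw [hc.1]; decide
  have w1 := h.1 y hxy
  have w2 := h'.1 x hxy.symm
  unfold Fam.Win Fam.Big at w1 w2
  have hnu : (0 : ℤ) ≤ P.nu := Nat.cast_nonneg _
  rcases w1 with w1 | ⟨w1, z1, p1⟩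
  · rcases w2 with w2 | ⟨w2, -⟩ <;> omega
  rcases w2 with w2 | ⟨w2, z2, p2⟩
  · omega
  unfold Fam.Pary at p1 p2
  have hZ := hΦ.Zc y x
  have e1 : (flt (Φ.Z x y) (fun a => s a = -1)).card + (flt (Φ.Z y x) (fun a => s' a = -1)).card =
      (Φ.Z x y).card := by
    have e2 : flt (Φ.Z y x) (fun a => s' a = -1) = (Φ.Z x y).filter (fun a => ¬ s a = -1) := by
      ext a
      rw [mem_flt, mem_filter, hZ]
      refine and_congr_right fun ha => sign_ne_LT8 (z1 a ha) (z2 a (hZ ▸ ha)) fun hc => ?_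
      exact hno a (hΦ.Zs x y ha) ⟨hc, z1 a ha⟩
    rw [e2, flt_eq, card_filter_add_card_filter_not]
  have e3 : Φ.cp x y + Φ.cp y x = (Φ.Z x y).card + 1 := by
    unfold Fam.cp
    rw [hZ]
    rcases lt_or_gt_of_ne hxy with hl | hl
    · rw [if_pos hl, if_neg hl.not_gt]; omega
    · rw [if_neg hl.not_gt, if_pos hl]
  obtain ⟨a, ha⟩ := p1
  obtain ⟨b, hb⟩ := p2
  omega

theorem inter_eq {x : Fin P.N} {s s' : Fin P.k → SignType} (h : Φ.Valid x s)
    (h' : Φ.Valid x s') : ∃ a, s a = 1 ∧ s' a = 1 := by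
  classical
  have h1 : ∃ y, Φ.Big x y s ∧ Φ.Big x y s' := by
    by_contra hc
    have hd : Disjoint (flt univ (fun y => Φ.Big x y s)) (flt univ (fun y => Φ.Big x y s')) :=
      disjoint_left.2 fun y h1 h2 => hc ⟨y, (mem_flt.1 h1).2, (mem_flt.1 h2).2⟩
    have h2 := card_le_univ (flt univ (fun y => Φ.Big x y s) ∪ flt univ (fun y => Φ.Big x y s'))
    rw [card_union_of_disjoint hd, Fintype.card_fin] at h2
    have := h.2
    have := h'.2
    omega
  obtain ⟨y, b1, b2⟩ := h1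
  by_contra hc
  have h2 := score_add_LT8 (Φ.M x y) s s' fun a _ ha => hc ⟨a, ha⟩
  unfold Fam.Big at b1 b2
  have hnu : (0 : ℤ) ≤ P.nu := Nat.cast_nonneg _
  omega

theorem two_le (hP : P.Ok) {x : Fin P.N} {s : Fin P.k → SignType} (h : Φ.Valid x s) :
    2 ≤ (flt univ (fun a => s a ≠ 0)).card := by
  have h1 : 0 < (flt univ (fun y => Φ.Big x y s)).card := by
    have := h.2
    omega
  obtain ⟨y, hy⟩ := card_pos.1 h1
  have h2 := (mem_flt.1 hy).2
  unfold Fam.Big at h2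
  have h3 := score_le_LT8 (Φ.M x y) s
  have h4 := hP.hnu
  omega

/-- a decomposition of all intersecting families gives a proper colouring -/
theorem col_of_dec (hP : P.Ok) (hΦ : Φ.Ok)
    (h : ∀ H : Finset (Finset (Fin P.n)), (H : Set (Finset (Fin P.n))).Intersecting →
      ∃ f : Finset (Fin P.n) → Fin P.n,
        ∀ F ∈ H, ∀ F' ∈ H, F ≠ F' → f F = f F' → 2 ≤ (F ∩ F').card) :
    ∃ col : Fin P.N → (Fin P.k → SignType) → Fin P.n, Φ.Proper col := by
  classical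
  let e : Fin P.k × Fin P.q × Bool ≃ Fin P.n :=
    Fintype.equivFinOfCardEq (by simp [Par.n]; ring)
  let pt : Fin P.N → (Fin P.k → SignType) → Fin P.k → Fin P.n :=
    fun x s a => e (a, Φ.f x a, decide (s a = 1))
  have hpt : ∀ x y s s' a a', pt x s a = pt y s' a' →
      a = a' ∧ Φ.f x a = Φ.f y a' ∧ decide (s a = 1) = decide (s' a' = 1) := by
    intro x y s s' a a' hh
    have := e.injective hh
    simpa only [Prod.mk.injEq] using this
  have hinj : ∀ x s, Function.Injective (pt x s) := fun x s a a' hh => (hpt _ _ _ _ _ _ hh).1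
  let edge : Fin P.N → (Fin P.k → SignType) → Finset (Fin P.n) :=
    fun x s => (flt univ (fun a => s a ≠ 0)).image (pt x s)
  have hmem : ∀ x s z, z ∈ edge x s ↔ ∃ a, s a ≠ 0 ∧ pt x s a = z := by
    intro x s z
    simp only [edge, mem_image, mem_flt, mem_univ, true_and]
  have hint : ∀ x y s s', x ≠ y → edge x s ∩ edge y s' = (Φ.agr x y s s').image (pt x s) := by
    intro x y s s' hxy
    ext z
    rw [mem_inter, hmem, hmem, mem_image]
    constructor
    · rintro ⟨⟨a, ha, rfl⟩, a', ha', hh⟩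
      obtain ⟨rfl, h2, h3⟩ := hpt _ _ _ _ _ _ hh
      exact ⟨a', mem_flt.2 ⟨mem_vw.2 ⟨hxy, h2.symm⟩, (sign_eq_LT8 ha' ha h3).symm, ha⟩, rfl⟩
    · rintro ⟨a, ha, rfl⟩
      obtain ⟨h1, h2, h3⟩ := mem_flt.1 ha
      refine ⟨⟨a, h3, rfl⟩, a, h2 ▸ h3, ?_⟩
      simp only [pt, ← h2, (mem_vw.1 h1).2]
  let H : Finset (Finset (Fin P.n)) :=
    (flt univ (fun p : Fin P.N × (Fin P.k → SignType) => Φ.Valid p.1 p.2)).image
      (fun p => edge p.1 p.2)
  have hH : ∀ x s, Φ.Valid x s → edge x s ∈ H := fun x s hv =>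
    mem_image.2 ⟨(x, s), mem_flt.2 ⟨mem_univ _, hv⟩, rfl⟩
  obtain ⟨f, hf⟩ := h H (by
    intro F hF F' hF'
    obtain ⟨⟨x, s⟩, h1, rfl⟩ := mem_image.1 (mem_coe.1 hF)
    obtain ⟨⟨y, s'⟩, h2, rfl⟩ := mem_image.1 (mem_coe.1 hF')
    have v1 : Φ.Valid x s := (mem_flt.1 h1).2
    have v2 : Φ.Valid y s' := (mem_flt.1 h2).2
    rw [not_disjoint_iff_nonempty_inter]
    show (edge x s ∩ edge y s').Nonempty
    by_cases hxy : x = y
    · subst hxy
      obtain ⟨a, h3, h4⟩ := inter_eq v1 v2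
      refine ⟨pt x s a, mem_inter.2 ⟨(hmem _ _ _).2 ⟨a, by rw [h3]; decide, rfl⟩,
        (hmem _ _ _).2 ⟨a, by rw [h4]; decide, ?_⟩⟩⟩
      simp only [pt, h3, h4]
    · rw [hint x y s s' hxy]
      exact (inter_ne hΦ hxy v1 v2).image _)
  refine ⟨fun x s => f (edge x s), fun x y s s' hxy v1 v2 hc => ?_⟩
  have h2 : 2 ≤ (edge x s ∩ edge y s').card := by
    by_cases he : edge x s = edge y s'
    · rw [← he, inter_self, card_image_of_injective _ (hinj x s)]
      exact two_le hP v1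
    · exact hf _ (hH x s v1) _ (hH y s' v2) he hc
  rw [hint x y s s' hxy, card_image_of_injective _ (hinj x s)] at h2
  omega

end Pool.Agent.P.MP_b5e666_co.Lar
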