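import Pool.Agent.P.MP_b5e666_co.LT7
import Pool.Agent.P.MP_b5e666_co.LT8
import Pool.Agent.P.MP_b5e666_co.LFZ
import Pool.Agent.P.MP_b5e666_co.LP1

set_option autoImplicit false

open Finset

noncomputable section

namespace Pool.Agent.P.MP_b5e666_co.Lar

theorem main :
    ¬ (∀ n : ℕ, 1 ≤ n → ∀ H : Finset (Finset (Fin n)),
      (H : Set (Finset (Fin n))).Intersecting →
      ∃ f : Finset (Fin n) → Fin n,
        ∀ F ∈ H, ∀ F' ∈ H, F ≠ F' → f F = f F' → 2 ≤ (F ∩ F').card) := by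
  intro h
  obtain ⟨P, hP⟩ := exists_par
  obtain ⟨Φ, hΦ⟩ := exists_fam hP
  have hn : 1 ≤ P.n := by
    have h1 := hP.hq; have h2 := hP.hi; have h3 := hP.hk
    unfold Par.n
    have : 0 < 2 * P.k * P.q := by rw [h3]; positivity
    omega
  obtain ⟨col, hc⟩ := col_of_dec hP hΦ (h P.n hn)
  exact no_col hP hΦ col hc

end Pool.Agent.P.MP_b5e666_co.Lar
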