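import Mathlib

namespace Pool.Agent.P.MP_b5e666_co

open Finset

variable {α : Type} [DecidableEq α]

/-- the family can be split into `m` classes that are 2-intersecting -/
def Col (H : Finset (Finset α)) (m : ℕ) : Prop :=
  ∃ f : Finset α → ℕ, (∀ F ∈ H, f F < m) ∧
    ∀ F ∈ H, ∀ F' ∈ H, F ≠ F' → f F = f F' → 2 ≤ (F ∩ F').card

theorem Col.mono {H : Finset (Finset α)} {m m' : ℕ} (h : Col H m) (hm : m ≤ m') : Col H m' := by
  obtain ⟨f, h1, h2⟩ := h
  exact ⟨f, fun F hF => (h1 F hF).trans_le hm, h2⟩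

theorem Col.split {H : Finset (Finset α)} (p : Finset α → Prop) [DecidablePred p] {m m' : ℕ}
    (h : Col (H.filter p) m) (h' : Col (H.filter (fun F => ¬ p F)) m') : Col H (m + m') := by
  obtain ⟨f, h1, h2⟩ := h
  obtain ⟨g, g1, g2⟩ := h'
  refine ⟨fun F => if p F then f F else m + g F, ?_, ?_⟩
  · intro F hF
    by_cases hp : p F
    · have := h1 F (mem_filter.2 ⟨hF, hp⟩)
      simp only [hp, if_true]; omega
    · have := g1 F (mem_filter.2 ⟨hF, hp⟩)
      simp only [hp, if_false]; omega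
  · intro F hF F' hF' hne he
    by_cases hp : p F <;> by_cases hp' : p F'
    · simp only [hp, hp', if_true] at he
      exact h2 F (mem_filter.2 ⟨hF, hp⟩) F' (mem_filter.2 ⟨hF', hp'⟩) hne he
    · simp only [hp, hp', if_true, if_false] at he
      have := h1 F (mem_filter.2 ⟨hF, hp⟩)
      omega
    · simp only [hp, hp', if_true, if_false] at he
      have := h1 F' (mem_filter.2 ⟨hF', hp'⟩)
      omega
    · simp only [hp, hp', if_false] at he
      exact g2 F (mem_filter.2 ⟨hF, hp⟩) F' (mem_filter.2 ⟨hF', hp'⟩) hne (by omega)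

theorem col_one {H : Finset (Finset α)}
    (h : ∀ F ∈ H, ∀ F' ∈ H, F ≠ F' → 2 ≤ (F ∩ F').card) : Col H 1 :=
  ⟨fun _ => 0, fun _ _ => Nat.one_pos, fun F hF F' hF' hne _ => h F hF F' hF' hne⟩

theorem col_pairs {H : Finset (Finset α)} (P : Finset (α × α))
    (h : ∀ F ∈ H, ∃ p ∈ P, p.1 ≠ p.2 ∧ p.1 ∈ F ∧ p.2 ∈ F) : Col H P.card := by
  classical
  choose c hc using fun F (hF : F ∈ H) => (show ∃ q : P, q.1.1 ≠ q.1.2 ∧ q.1.1 ∈ F ∧ q.1.2 ∈ F from
    let ⟨p, hp, h'⟩ := h F hF; ⟨⟨p, hp⟩, h'⟩)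
  refine ⟨fun F => if hF : F ∈ H then (P.equivFin (c F hF) : ℕ) else 0, ?_, ?_⟩
  · intro F hF
    simp only [hF, dif_pos]
    exact (P.equivFin (c F hF)).2
  · intro F hF F' hF' _ he
    simp only [hF, hF', dif_pos] at he
    have e : c F hF = c F' hF' := P.equivFin.injective (Fin.ext he)
    obtain ⟨a1, a2, a3⟩ := hc F hF
    obtain ⟨_, b2, b3⟩ := hc F' hF'
    rw [← e] at b2 b3
    rw [← card_pair a1]
    apply card_le_card
    intro x hx
    rcases mem_insert.1 hx with rfl | hx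
    · exact mem_inter.2 ⟨a2, b2⟩
    · rw [mem_singleton.1 hx]; exact mem_inter.2 ⟨a3, b3⟩

theorem Col.toFin {H : Finset (Finset α)} {m : ℕ} (hm : 1 ≤ m) (h : Col H m) :
    ∃ f : Finset α → Fin m, ∀ F ∈ H, ∀ F' ∈ H, F ≠ F' → f F = f F' → 2 ≤ (F ∩ F').card := by
  obtain ⟨f, h1, h2⟩ := h
  refine ⟨fun F => ⟨f F % m, Nat.mod_lt _ hm⟩, fun F hF F' hF' hne he => h2 F hF F' hF' hne ?_⟩
  have := congrArg Fin.val he
  simpa [Nat.mod_eq_of_lt (h1 F hF), Nat.mod_eq_of_lt (h1 F' hF')] using this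

theorem meet {H : Finset (Finset α)} (hH : (H : Set (Finset α)).Intersecting) {F G : Finset α}
    (hF : F ∈ H) (hG : G ∈ H) : ∃ x, x ∈ F ∧ x ∈ G := by
  have := hH (mem_coe.2 hF) (mem_coe.2 hG)
  exact not_disjoint_iff.1 this

theorem col_three {H : Finset (Finset α)} (hH : (H : Set (Finset α)).Intersecting)
    {B B' B'' : Finset α} {z : α} (hB : B ∈ H) (hB' : B' ∈ H) (hB'' : B'' ∈ H)
    (hz : B ∩ B' = {z}) (hz' : z ∉ B'') :
    Col H ((B.card - 1) * (B'.card - 1) + B''.card) := by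
  have hzB : z ∈ B ∩ B' := hz ▸ mem_singleton_self z
  have h := col_pairs (H := H) ((B.erase z ×ˢ B'.erase z) ∪ ({z} ×ˢ B'')) (by
    intro F hF
    by_cases hzF : z ∈ F
    · obtain ⟨y, hy1, hy2⟩ := meet hH hF hB''
      refine ⟨(z, y), mem_union_right _ (mem_product.2 ⟨mem_singleton_self z, hy2⟩), ?_, hzF, hy1⟩
      intro e
      exact hz' ((show z = y from e) ▸ hy2)
    · obtain ⟨x, hx1, hx2⟩ := meet hH hF hB
      obtain ⟨y, hy1, hy2⟩ := meet hH hF hB'
      refine ⟨(x, y), mem_union_left _ (mem_product.2 ⟨mem_erase.2 ⟨?_, hx2⟩,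
        mem_erase.2 ⟨?_, hy2⟩⟩), ?_, hx1, hy1⟩
      · rintro rfl; exact hzF hx1
      · rintro rfl; exact hzF hy1
      · intro e
        have e' : x = y := e
        have : x ∈ B ∩ B' := mem_inter.2 ⟨hx2, e' ▸ hy2⟩
        rw [hz, mem_singleton] at this
        exact hzF (this ▸ hx1))
  refine h.mono ((card_union_le _ _).trans ?_)
  rw [card_product, card_product, card_singleton, one_mul, card_erase_of_mem (mem_inter.1 hzB).1,
    card_erase_of_mem (mem_inter.1 hzB).2]

theorem col_star [Fintype α] {H : Finset (Finset α)} {z : α} (h : ∀ F ∈ H, z ∈ F) :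
    Col H (Fintype.card α) := by
  have h1 : Col (H.filter (fun F => F = {z})) 1 := by
    apply col_one
    intro F hF F' hF' hne
    exact absurd ((mem_filter.1 hF).2.trans (mem_filter.1 hF').2.symm) hne
  have h2 := col_pairs (H := H.filter (fun F => ¬ F = {z})) ({z} ×ˢ (univ.erase z)) (by
    intro F hF
    obtain ⟨hF1, hF2⟩ := mem_filter.1 hF
    have hz := h F hF1
    obtain ⟨y, hy1, hy2⟩ : ∃ y ∈ F, y ≠ z := by
      by_contra hc
      push Not at hc
      exact hF2 (eq_singleton_iff_unique_mem.2 ⟨hz, hc⟩)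
    exact ⟨(z, y), mem_product.2 ⟨mem_singleton_self z, mem_erase.2 ⟨hy2, mem_univ _⟩⟩,
      hy2.symm, hz, hy1⟩)
  refine (Col.split _ h1 h2).mono ?_
  rw [card_product, card_singleton, one_mul, card_erase_of_mem (mem_univ z), card_univ]
  have : 0 < Fintype.card α := Fintype.card_pos_iff.2 ⟨z⟩
  omega

/-- either all of `H` needs few classes, or the small edges need at most `card α` classes -/
theorem small_cases [Fintype α] [Nonempty α] {H : Finset (Finset α)}
    (hH : (H : Set (Finset α)).Intersecting) (k : ℕ) :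
    Col H ((k - 1) * (k - 1) + k) ∨ Col (H.filter (fun F => F.card ≤ k)) (Fintype.card α) := by
  by_cases h1 : ∀ F ∈ H.filter (fun F => F.card ≤ k), ∀ F' ∈ H.filter (fun F => F.card ≤ k),
      F ≠ F' → 2 ≤ (F ∩ F').card
  · exact Or.inr ((col_one h1).mono Fintype.card_pos)
  push Not at h1
  obtain ⟨B, hB, B', hB', -, hlt⟩ := h1
  obtain ⟨hB1, hB2⟩ := mem_filter.1 hB
  obtain ⟨hB1', hB2'⟩ := mem_filter.1 hB'
  obtain ⟨z, hz1, hz2⟩ := meet hH hB1 hB1'
  have hz : B ∩ B' = {z} := by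
    symm
    apply eq_of_subset_of_card_le
    · exact singleton_subset_iff.2 (mem_inter.2 ⟨hz1, hz2⟩)
    · rw [card_singleton]; omega
  by_cases h2 : ∀ F ∈ H.filter (fun F => F.card ≤ k), z ∈ F
  · exact Or.inr (col_star h2)
  push Not at h2
  obtain ⟨B'', hB'', hz'⟩ := h2
  obtain ⟨hB1'', hB2''⟩ := mem_filter.1 hB''
  refine Or.inl ((col_three hH hB1 hB1' hB1'' hz hz').mono ?_)
  exact Nat.add_le_add (Nat.mul_le_mul (by omega) (by omega)) hB2''

theorem col_rank {n k : ℕ} (hn : 1 ≤ n) (hk : k * k + 1 ≤ n + k) {H : Finset (Finset (Fin n))}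
    (hH : (H : Set (Finset (Fin n))).Intersecting) (hs : ∀ F ∈ H, F.card ≤ k) : Col H n := by
  have : Nonempty (Fin n) := ⟨⟨0, hn⟩⟩
  rcases small_cases hH k with h | h
  · refine h.mono ?_
    rcases k with _ | k
    · simp
    · simp only [Nat.add_sub_cancel]
      nlinarith
  · rwa [filter_true_of_mem hs, Fintype.card_fin] at h

theorem col_large {n k : ℕ} (hk : 1 ≤ k) {H : Finset (Finset (Fin n))}
    (hs : ∀ F ∈ H, k < F.card) : ∃ m : ℕ, 2 * k * m ≤ n * n ∧ Col H m := by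
  let P : Finset (Fin n × Fin n) := univ.filter (fun p => p.1 < p.2 ∧ p.1.1 % k = p.2.1 % k)
  refine ⟨P.card, ?_, col_pairs P ?_⟩
  · have h1 : P.card = ∑ j : Fin n, (univ.filter (fun i : Fin n => i < j ∧ i.1 % k = j.1 % k)).card := by
      rw [card_eq_sum_card_fiberwise (f := Prod.snd) (t := univ) (fun _ _ => mem_univ _)]
      apply sum_congr rfl
      intro j _
      apply card_bij (fun p _ => p.1)
      · intro p hp
        simp only [P, mem_filter, mem_univ, true_and] at hp ⊢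
        obtain ⟨h, rfl⟩ := hp
        exact h
      · intro p hp q hq e
        simp only [P, mem_filter, mem_univ, true_and] at hp hq
        exact Prod.ext e (hp.2.trans hq.2.symm)
      · intro i hi
        simp only [mem_filter, mem_univ, true_and] at hi
        exact ⟨(i, j), by simp only [P, mem_filter, mem_univ, true_and]; exact ⟨hi, trivial⟩, rfl⟩
    have h2 : ∀ j : Fin n,
        k * (univ.filter (fun i : Fin n => i < j ∧ i.1 % k = j.1 % k)).card ≤ j.1 := by
      intro j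
      have : (univ.filter (fun i : Fin n => i < j ∧ i.1 % k = j.1 % k)).card ≤
          (range (j.1 / k)).card := by
        apply card_le_card_of_injOn (fun i => i.1 / k)
        · intro i hi
          simp only [coe_filter, mem_univ, true_and, Set.mem_ofPred_eq] at hi
          simp only [coe_range, Set.mem_Iio]
          have a1 := Nat.div_add_mod i.1 k
          have a2 := Nat.div_add_mod j.1 k
          have a3 : i.1 < j.1 := hi.1
          apply Nat.lt_of_mul_lt_mul_left (a := k)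
          omega
        · intro i hi i' hi' e
          simp only [coe_filter, mem_univ, true_and, Set.mem_ofPred_eq] at hi hi'
          have a1 := Nat.div_add_mod i.1 k
          have a2 := Nat.div_add_mod i'.1 k
          have e' : i.1 / k = i'.1 / k := e
          apply Fin.ext
          rw [e'] at a1
          omega
      rw [card_range] at this
      exact (Nat.mul_le_mul_left k this).trans (Nat.mul_div_le _ _)
    have h3 : k * P.card ≤ ∑ j : Fin n, j.1 := by
      rw [h1, mul_sum]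
      exact sum_le_sum (fun j _ => h2 j)
    rw [Fin.sum_univ_eq_sum_range (fun i => i) n] at h3
    have h4 := sum_range_id_mul_two n
    have h5 : n * (n - 1) ≤ n * n := Nat.mul_le_mul_left n (Nat.sub_le _ _)
    nlinarith
  · intro F hF
    obtain ⟨x, hx, y, hy, hne, he⟩ := exists_ne_map_eq_of_card_lt_of_maps_to
      (s := F) (t := range k) (by rw [card_range]; exact hs F hF) (f := fun i => i.1 % k)
      (fun i _ => mem_coe.2 (mem_range.2 (Nat.mod_lt _ hk)))
    rcases lt_or_gt_of_ne hne with hlt | hlt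
    · exact ⟨(x, y), by simp only [P, mem_filter, mem_univ, true_and]; exact ⟨hlt, he⟩, hne, hx, hy⟩
    · exact ⟨(y, x), by simp only [P, mem_filter, mem_univ, true_and]; exact ⟨hlt, he.symm⟩,
        hne.symm, hy, hx⟩

theorem col_general {n : ℕ} (hn : 1 ≤ n) {H : Finset (Finset (Fin n))}
    (hH : (H : Set (Finset (Fin n))).Intersecting) :
    ∃ m : ℕ, 1 ≤ m ∧ (m : ℝ) ≤ ((n : ℝ) ^ 2 / 2) ^ ((2 : ℝ) / 3) + 2 * n ∧ Col H m := by
  have : Nonempty (Fin n) := ⟨⟨0, hn⟩⟩
  have hn' : (1 : ℝ) ≤ n := by exact_mod_cast hn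
  set t : ℝ := ((n : ℝ) ^ 2 / 2) ^ ((1 : ℝ) / 3) with ht
  have hb : (0 : ℝ) < (n : ℝ) ^ 2 / 2 := by positivity
  have ht0 : 0 < t := Real.rpow_pos_of_pos hb _
  have ht2 : ((n : ℝ) ^ 2 / 2) ^ ((2 : ℝ) / 3) = t ^ 2 := by
    rw [ht, ← Real.rpow_natCast (_ ^ ((1 : ℝ) / 3)), ← Real.rpow_mul hb.le]; norm_num
  have ht3 : t ^ 3 = (n : ℝ) ^ 2 / 2 := by
    rw [ht, ← Real.rpow_natCast (_ ^ ((1 : ℝ) / 3)), ← Real.rpow_mul hb.le]; norm_num
  have htn : t ≤ n := by
    by_contra hc
    push Not at hc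
    have := pow_lt_pow_left₀ hc (by positivity) (show 3 ≠ 0 by norm_num)
    nlinarith
  rw [ht2]
  set k := ⌈t⌉₊ with hk
  have hk1 : t ≤ k := Nat.le_ceil t
  have hk2 : (k : ℝ) < t + 1 := Nat.ceil_lt_add_one ht0.le
  have hk0 : 1 ≤ k := Nat.ceil_pos.2 ht0
  rcases small_cases hH k with h | h
  · refine ⟨_, by omega, ?_, h⟩
    have e : (((k - 1) * (k - 1) + k : ℕ) : ℝ) = (k - 1) * (k - 1) + k := by
      push_cast [Nat.cast_sub hk0]; ring
    have hk0' : (1 : ℝ) ≤ k := by exact_mod_cast hk0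
    rw [e]
    nlinarith
  · rw [Fintype.card_fin] at h
    obtain ⟨m, hm1, hm2⟩ := col_large (n := n) hk0 (H := H.filter (fun F => ¬ F.card ≤ k))
      (fun F hF => not_le.1 (mem_filter.1 hF).2)
    refine ⟨n + m, by omega, ?_, Col.split _ h hm2⟩
    have h1 : 2 * (k : ℝ) * m ≤ n * n := by exact_mod_cast hm1
    have hm0 : (0 : ℝ) ≤ m := by positivity
    have h2 : t * m ≤ t * t ^ 2 := by nlinarith
    have h3 := le_of_mul_le_mul_left h2 ht0
    push_cast
    linarith

theorem col_derangement [Fintype α] {H : Finset (Finset α)}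
    (hH : (H : Set (Finset α)).Intersecting) (π : Equiv.Perm α) (h1 : ∀ x, π x ≠ x)
    (h2 : ∀ F ∈ H, F.image π ∈ H) : Col H (Fintype.card α) := by
  have h := col_pairs (H := H) (univ.image (fun x => (x, π x))) (by
    intro F hF
    obtain ⟨y, hy1, hy2⟩ := meet hH hF (h2 F hF)
    obtain ⟨x, hx, rfl⟩ := mem_image.1 hy2
    exact ⟨(x, π x), mem_image.2 ⟨x, mem_univ _, rfl⟩, (h1 x).symm, hx, hy1⟩)
  exact h.mono (card_image_le.trans (by rw [card_univ]))

theorem exists_derangement {n : ℕ} (hn : 2 ≤ n) (Γ : Subgroup (Equiv.Perm (Fin n)))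
    (h : ∀ x y, ∃ π ∈ Γ, π x = y) : ∃ π ∈ Γ, ∀ x, π x ≠ x := by
  classical
  by_contra hc
  push Not at hc
  have : MulAction.IsPretransitive Γ (Fin n) :=
    ⟨fun x y => let ⟨π, h1, h2⟩ := h x y; ⟨⟨π, h1⟩, h2⟩⟩
  have : Nonempty (Fin n) := ⟨⟨0, by omega⟩⟩
  have hB := MulAction.sum_card_fixedBy_eq_card_orbits_mul_card_group Γ (Fin n)
  have h1 : Fintype.card (MulAction.orbitRel.Quotient Γ (Fin n)) = 1 := by
    rw [Fintype.card_eq_one_iff_nonempty_unique]
    exact (MulAction.pretransitive_iff_unique_quotient_of_nonempty Γ (Fin n)).1 inferInstance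
  rw [h1, one_mul] at hB
  have h2 : ∑ _g : Γ, 1 < ∑ g : Γ, Fintype.card (MulAction.fixedBy (Fin n) g) := by
    apply sum_lt_sum
    · intro g _
      obtain ⟨x, hx⟩ := hc g.1 g.2
      exact Fintype.card_pos_iff.2 ⟨⟨x, hx⟩⟩
    · refine ⟨1, mem_univ _, ?_⟩
      simp only [MulAction.fixedBy_one_eq_univ, Fintype.card_setUniv, Fintype.card_fin]
      omega
  rw [sum_const, card_univ, smul_eq_mul, mul_one] at h2
  omega

end Pool.Agent.P.MP_b5e666_co
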