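import Pool.Agent.K.MP_b5e666_co.C2

set_option autoImplicit false

open Finset

noncomputable section

namespace Pool.Agent.P.MP_b5e666_co.Lar

/-- the five side conditions that see the number of colours -/
structure Par.OkW (P : Par) (mc : ℕ) : Prop where
  x1 : 10 * mc * P.s2 * (8 * P.Mr * P.mu0) ≤ P.N
  x2 : 120 * mc * (13 * P.s ^ 3) ≤ P.q ^ 3
  x3 : 2 * mc * P.s2 ≤ P.e0
  x5 : 10 * mc * P.s2 * (8 * P.Mr * P.mu1) ≤ P.R * P.N
  c8 : 20 * ((mc * P.s2 : ℕ) : ℝ) * P.kb ≤ 1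

namespace Fam
variable {P : Par} (Φ : Fam P) {mc : ℕ}

def ProperW (col : Fin P.N → (Fin P.k → SignType) → Fin mc) : Prop :=
  ∀ x y s s', x ≠ y → Φ.Valid x s → Φ.Valid y s' → col x s = col y s' → (Φ.agr x y s s').card ≠ 1

variable (col : Fin P.N → (Fin P.k → SignType) → Fin mc)

def HitW (γ : Fin mc) (x y : Fin P.N) (φ : Pat P.k P.q) (w : Fin P.k → Bool) : Prop :=
  Φ.Pary x y (ext φ w) ∧ ∃ s, Φ.Valid x s ∧ col x s = γ ∧ ∀ a ∈ vw Φ.f x y, s a = ext φ w a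

def SmallW (γ : Fin mc) (x y : Fin P.N) (φ : Pat P.k P.q) : Prop :=
  Pr (unif (Fin P.k) Bool) (Φ.HitW col γ x y φ) ≤ 1 / 4

def ArcW (γ : Fin mc) (φ : Pat P.k P.q) (x y : Fin P.N) : Prop :=
  x ≠ y ∧ Has Φ.f y φ ∧ (∀ a ∈ zc φ, a ∉ Φ.Z x y) ∧ Φ.SmallW col γ x y φ

def KilledW (γ : Fin mc) (μ : ℕ) (φ : Pat P.k P.q) (x : Fin P.N) : Prop :=
  ∃ Pl : Finset (Fin P.N), μ ≤ Pl.card ∧ (∀ y ∈ Pl, Φ.ArcW col γ φ x y) ∧
    Spread (vw Φ.f x) (cols φ) P.z0 4 Pl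

end Fam

variable {P : Par} {Φ : Fam P} {mc : ℕ} {col : Fin P.N → (Fin P.k → SignType) → Fin mc}

theorem couplingW (hP : P.Ok) (hΦ : Φ.Ok) (hc : Φ.ProperW col) (γ : Fin mc) {x y : Fin P.N}
    (hxy : x ≠ y) {φ : Pat P.k P.q} (hφ : Alw φ) (h1 : ∀ a ∈ nz φ, a ∈ Φ.Z x y)
    (h0 : ∀ a ∈ zc φ, a ∉ Φ.Z x y) : Φ.SmallW col γ x y φ ∨ Φ.SmallW col γ y x φ := by
  have h3 := card_Z hP hΦ hxy
  obtain ⟨z, hz, hnz⟩ : ∃ z ∈ Φ.Z x y, ∀ a ∈ nz φ, a = z := by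
    rcases (nz φ).eq_empty_or_nonempty with he | ⟨z, hz⟩
    · obtain ⟨z, hz⟩ : (Φ.Z x y).Nonempty := card_pos.1 (by omega)
      exact ⟨z, hz, fun a ha => by rw [he] at ha; exact absurd ha (notMem_empty a)⟩
    · exact ⟨z, h1 z hz, fun a ha => card_le_one.1 hφ.2 a ha z hz⟩
  have hex : ∃ a ∈ Φ.Z x y, a ∉ cols φ :=
    exists_mem_notMem_of_card_lt_card (by have := hφ.1; omega)
  let Ψ : (Fin P.k → Bool) → (Fin P.k → Bool) := fun w a => if a = z then w a else !w a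
  have hinv : Function.Involutive Ψ := by
    intro w
    funext a
    by_cases h : a = z <;> simp [Ψ, h]
  have hΨz : ∀ w, ext φ (Ψ w) z = ext φ w z := fun w =>
    ext_congr_LT1 fun _ => by simp [Ψ]
  have hΨ : ∀ w a, a ≠ z → Ψ w a = !w a := fun w a ha => by simp [Ψ, ha]
  have hzero : ∀ a b v, a ≠ z → φ a = some (b, v) → v = 0 := by
    intro a b v ha h
    by_contra hv
    exact ha (hnz a (mem_flt.2 ⟨mem_univ _, b, v, h, hv⟩))
  have hnone : ∀ a ∈ Φ.Z x y, a ≠ z → φ a = none := by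
    intro a haZ ha
    rcases h : φ a with _ | ⟨b, v⟩
    · rfl
    · obtain rfl := hzero a b v ha h
      exact absurd haZ (h0 a (mem_flt.2 ⟨mem_univ _, b, h⟩))
  have hz0 : ∀ w, ext φ w z ≠ 0 := by
    intro w
    rcases h : φ z with _ | ⟨b, v⟩
    · rw [ext_none_LT1 h]
      exact sgn_zero_LT1 _
    · rw [ext_some_LT1 h]
      rintro rfl
      exact h0 z (mem_flt.2 ⟨mem_univ _, b, h⟩) hz
  have hboth : ∀ w, Φ.HitW col γ x y φ w → Φ.HitW col γ y x φ (Ψ w) → False := by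
    rintro w ⟨-, s, hs, hcs, he⟩ ⟨-, s', hs', hcs', he'⟩
    rw [vw_symm] at he'
    refine hc x y s s' hxy hs hs' (hcs.trans hcs'.symm) (card_eq_one.2 ⟨z, ?_⟩)
    ext a
    simp only [Fam.agr, mem_flt, mem_singleton]
    constructor
    · rintro ⟨ha, h2, h4⟩
      by_contra haz
      rw [he a ha] at h2 h4
      rw [he' a ha] at h2
      rcases h : φ a with _ | ⟨b, v⟩
      · rw [ext_none_LT1 h, ext_none_LT1 h, hΨ w a haz] at h2
        exact sgn_ne_LT1 _ h2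
      · rw [ext_some_LT1 h] at h4
        exact h4 (hzero a b v haz h)
    · rintro rfl
      have ha := hΦ.Zs x y hz
      rw [he a ha, he' a ha]
      exact ⟨ha, (hΨz w).symm, hz0 w⟩
  have hcp : Φ.cp x y + Φ.cp y x = (Φ.Z x y).card + 1 := by
    unfold Fam.cp
    rcases lt_or_gt_of_ne hxy with h | h
    · rw [if_pos h, if_neg (not_lt.2 h.le), ← hΦ.Zc x y, zero_add]
    · rw [if_neg (not_lt.2 h.le), if_pos h]
  have hpar : ∀ w, Φ.Pary y x (ext φ (Ψ w)) → Φ.Pary x y (ext φ w) := by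
    intro w
    unfold Fam.Pary
    have hA := card_compl_LT1 (Z := (Φ.Z x y).erase z) (p := fun a => ext φ w a = -1)
      (q := fun a => ext φ (Ψ w) a = -1) fun a ha => by
        have hn := hnone a (mem_erase.1 ha).2 (mem_erase.1 ha).1
        rw [ext_none_LT1 hn, ext_none_LT1 hn, hΨ w a (mem_erase.1 ha).1]
        exact sgn_not_LT1 _
    rw [card_erase_of_mem hz] at hA
    rw [← hΦ.Zc x y, card_erase_LT1 hz, card_erase_LT1 hz (fun b => ext φ w b = -1), hΨz,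
      Nat.even_iff, Nat.even_iff]
    omega
  have hle : Pr (unif (Fin P.k) Bool) (Φ.HitW col γ x y φ) +
      Pr (unif (Fin P.k) Bool) (fun w => Φ.HitW col γ y x φ (Ψ w)) ≤ 1 / 2 := by
    rw [← Pr_pary hex]
    unfold Pr
    rw [← Ex_add]
    refine Ex_mono isP_unif fun w => ?_
    by_cases ha : Φ.HitW col γ x y φ w
    · rw [ind_pos ha, ind_neg (hboth w ha), ind_pos ha.1, add_zero]
    · rw [ind_neg ha, zero_add]
      exact ind_mono fun hb => hpar w hb.1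
  rw [Pr_inv_LT1 hinv (Φ.HitW col γ y x φ)] at hle
  unfold Fam.SmallW
  by_contra hn
  push Not at hn
  linarith [hn.1, hn.2]

theorem dep_HitW (hΦ : Φ.Ok) (γ : Fin mc) (x y : Fin P.N) (φ : Pat P.k P.q) :
    Dep (Φ.HitW col γ x y φ) (vw Φ.f x y \ cols φ) := by
  intro w w' h
  have e : ∀ a ∈ vw Φ.f x y, ext φ w a = ext φ w' a := fun a ha =>
    ext_congr_LT1 fun hn => h a (mem_sdiff.2 ⟨ha, by simp [cols, hn]⟩)
  unfold Fam.HitW Fam.Pary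
  rw [flt_congr_LT1 (q := fun a => ext φ w' a = -1) fun a ha => by rw [e a (hΦ.Zs x y ha)]]
  refine propext (and_congr_right fun _ => exists_congr fun s => and_congr_right fun _ =>
    and_congr_right fun _ => forall₂_congr fun a ha => ?_)
  rw [e a ha]

theorem cover_killedW (hP : P.Ok) (hΦ : Φ.Ok) (hc : Φ.ProperW col) (γ : Fin mc) {μ : ℕ}
    (hμ : P.mu0 ≤ μ) (φ : Pat P.k P.q) (hφ : Alw φ) :
    ∃ Cov : Finset (Fin P.k × Fin P.q), Cov.card ≤ P.s ∧ (∀ p ∈ Cov, p.1 ∉ cols φ) ∧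
      ∃ Lf : Finset (Fin P.N), Lf.card ≤ 8 * P.Mr * μ ∧
        ∀ x, Has Φ.f x φ → Φ.KilledW col γ μ φ x ∨ x ∈ Lf ∨ ∃ p ∈ Cov, p ∈ cel Φ.f x := by
  have hq : (0 : ℝ) < P.q := by exact_mod_cast (by have := hP.hq; omega : 0 < P.q)
  have hb2 : ∀ Q : Finset (Fin P.k × Fin P.q), Q.card ≤ P.z2 →
      ((flt univ (fun y => P.j ≤ (cel Φ.f y ∩ Q).card)).card : ℝ) ≤ P.b2 := fun Q hQ =>
    count_j (cel Φ.f) P.j (β := P.bq P.j) (fun K hK => by
      have := hΦ.v3 K (by omega)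
      rw [hK] at this
      exact this) (by unfold Par.bq; positivity) Q hQ
  have hdis : Disjoint (nz φ) (zc φ) := by
    refine disjoint_left.2 fun a h1 h2 => ?_
    obtain ⟨b, v, e1, hv⟩ := (mem_flt.1 h1).2
    obtain ⟨b', e2⟩ := (mem_flt.1 h2).2
    rw [e1] at e2
    exact hv (congrArg Prod.snd (Option.some.inj e2))
  have hcard : (nz φ).card + (zc φ).card ≤ 2 := by
    rw [← card_union_of_disjoint hdis]
    refine le_trans (card_le_card fun a ha => mem_flt.2 ⟨mem_univ _, ?_⟩) hφ.1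
    rcases mem_union.1 ha with h | h
    · obtain ⟨b, v, e1, -⟩ := (mem_flt.1 h).2
      rw [e1]
      exact Option.some_ne_none _
    · obtain ⟨b, e1⟩ := (mem_flt.1 h).2
      rw [e1]
      exact Option.some_ne_none _
  have hμ' : (P.z2 : ℝ) * P.b2 ≤ μ := hP.t3.trans (by exact_mod_cast hμ)
  obtain ⟨Cov, c1, c2, c3⟩ := cover Φ.f P.j P.Mr P.z0 P.z2 P.s μ P.b2 (cols φ)
    (flt univ (fun x => Has Φ.f x φ ∧ ¬ Φ.KilledW col γ μ φ x)) (Φ.ArcW col γ φ) hb2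
    (fun X1 hX1 hM => by
      obtain ⟨x, hx, y, hy, hxy, a1, a0⟩ := hΦ.v7 X1 hM (nz φ) (zc φ) hdis hcard
      have hx' := (mem_flt.1 (hX1 hx)).2.1
      have hy' := (mem_flt.1 (hX1 hy)).2.1
      have a2 : ∀ a ∈ nz φ, a ∈ Φ.Z x y := fun a ha => a1 a ha (by
        obtain ⟨b, v, e1, -⟩ := (mem_flt.1 ha).2
        exact mem_vw.2 ⟨hxy, (hx' a b v e1).trans (hy' a b v e1).symm⟩)
      rcases couplingW hP hΦ hc γ hxy hφ a2 a0 with h | h
      · exact ⟨x, hx, y, hy, hxy, hxy, hy', a0, h⟩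
      · exact ⟨y, hy, x, hx, hxy.symm, hxy.symm, hx', fun a ha => hΦ.Zc x y ▸ a0 a ha, h⟩)
    hP.t1 hP.t2 hμ' (by have := hP.hj; omega) hP.hMr hP.hz0 (hP.hmu0.trans hμ)
  refine ⟨Cov, c1, c2, ?_⟩
  rcases c3 with c3 | ⟨x, hx, Pl, p1, p2, p3⟩
  · refine ⟨_, c3, fun x hx => ?_⟩
    by_cases hk : Φ.KilledW col γ μ φ x
    · exact Or.inl hk
    by_cases hp : ∃ p ∈ Cov, p ∈ cel Φ.f x
    · exact Or.inr (Or.inr hp)
    · exact Or.inr (Or.inl (mem_flt.2 ⟨mem_flt.2 ⟨mem_univ _, hx, hk⟩,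
        fun p h1 h2 => hp ⟨p, h1, h2⟩⟩))
  · exact absurd ⟨Pl, p1, fun y hy => (p2 y hy).2, p3⟩ (mem_flt.1 hx).2.2

theorem choose_xW (hP : P.Ok) (hm : P.OkW mc) (hΦ : Φ.Ok) (Lf0 Lf1 : Fin mc → Finset (Fin P.N))
    (h0 : ∀ γ, (Lf0 γ).card ≤ P.s2 * (8 * P.Mr * P.mu0))
    (h1 : ∀ γ, (Lf1 γ).card ≤ P.s2 * (8 * P.Mr * P.mu1))
    (Γ : Finset ((Fin P.k × Fin P.q) × (Fin P.k × Fin P.q))) (hΓ : Γ.card ≤ P.e0)
    (hΓ' : ∀ e ∈ Γ, e.1.1 ≠ e.2.1) (Tr : Finset (Finset (Fin P.k × Fin P.q)))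
    (hT : Tr.card ≤ 2 * mc * (13 * P.s ^ 3)) (hT' : ∀ t ∈ Tr, t.card = 3) :
    ∃ x, (∀ γ, x ∉ Lf0 γ) ∧ (∀ t ∈ Tr, ¬ t ⊆ cel Φ.f x) ∧
      (flt univ (fun γ => x ∈ Lf1 γ)).card ≤ P.R ∧ ∃ C, Zer Φ.f Φ.M Γ P.z1 P.nu x C := by
  have hq : (0 : ℝ) < P.q := by exact_mod_cast (by have := hP.hq; omega : 0 < P.q)
  have hN : (0 : ℝ) < P.N := by exact_mod_cast hP.hN
  have hj := hP.hj
  have hfl : ∀ S : Finset (Fin P.N), flt univ (fun y => y ∈ S) = S := fun S => by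
    ext y
    simp
  have b1 : ((flt univ (fun x : Fin P.N => ∃ γ, x ∈ Lf0 γ)).card : ℝ) ≤ P.N / 10 := by
    refine (union_bound_LB2 univ (fun γ y => y ∈ Lf0 γ) _
      (β := ((P.s2 * (8 * P.Mr * P.mu0) : ℕ) : ℝ)) (fun γ _ => ?_)
      (fun y ⟨γ, h⟩ => ⟨γ, mem_univ _, h⟩)).trans ?_
    · rw [hfl]
      exact_mod_cast h0 γ
    · have := (Nat.cast_le (α := ℝ)).2 hm.x1
      rw [card_univ, Fintype.card_fin]
      push_cast at this ⊢
      linarith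
  have b2 : ((flt univ (fun x : Fin P.N => ∃ t ∈ Tr, t ⊆ cel Φ.f x)).card : ℝ) ≤ P.N / 10 := by
    refine (union_bound_LB2 Tr (fun t y => t ⊆ cel Φ.f y) _
      (β := 6 * P.N / (P.q : ℝ) ^ 3) (fun t ht => ?_) (fun y h => h)).trans ?_
    · have := hΦ.v3 t (by rw [hT' t ht]; omega)
      rwa [hT' t ht] at this
    · have h1 := (Nat.cast_le (α := ℝ)).2 hm.x2
      have h2 := (Nat.cast_le (α := ℝ)).2 hT
      push_cast at h1 h2
      rw [← mul_div_assoc, div_le_div_iff₀ (by positivity) (by norm_num)]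
      nlinarith
  have b3 : ((flt univ (fun x : Fin P.N => P.z1 < (edg Φ.f Γ x).card)).card : ℝ) ≤ P.N / 10 := by
    refine card_markov univ (fun x => (edg Φ.f Γ x).card) P.z1 hP.hz1 ?_
    have e1 : ∑ x : Fin P.N, ((edg Φ.f Γ x).card : ℝ) =
        ∑ e ∈ Γ, ∑ x : Fin P.N, ind (e.1 ∈ cel Φ.f x ∧ e.2 ∈ cel Φ.f x) := by
      rw [sum_comm]
      exact sum_congr rfl fun x _ => card_flt _ _
    have e2 : ∀ e ∈ Γ, ∑ x : Fin P.N, ind (e.1 ∈ cel Φ.f x ∧ e.2 ∈ cel Φ.f x) ≤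
        6 * P.N / (P.q : ℝ) ^ 2 := by
      intro e he
      have hc : ({e.1, e.2} : Finset (Fin P.k × Fin P.q)).card = 2 :=
        card_pair fun h => hΓ' e he (congrArg Prod.fst h)
      have := hΦ.v3 {e.1, e.2} (by omega)
      rw [hc, card_flt] at this
      refine le_trans (le_of_eq (sum_congr rfl fun x _ => ind_congr ?_)) this
      rw [insert_subset_iff, singleton_subset_iff]
    rw [e1]
    refine (sum_le_card_nsmul _ _ _ e2).trans ?_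
    have h1 := (Nat.cast_le (α := ℝ)).2 hP.x4
    have h2 := (Nat.cast_le (α := ℝ)).2 hΓ
    push_cast at h1 h2
    rw [nsmul_eq_mul, ← mul_div_assoc, ← mul_div_assoc,
      div_le_div_iff₀ (by positivity) (by norm_num)]
    nlinarith
  have b4 : ((flt univ (fun x : Fin P.N =>
      P.R < (flt univ (fun γ => x ∈ Lf1 γ)).card)).card : ℝ) ≤ P.N / 10 := by
    refine card_markov univ (fun x => (flt univ (fun γ => x ∈ Lf1 γ)).card) P.R hP.hR ?_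
    have e1 : ∑ x : Fin P.N, ((flt univ (fun γ => x ∈ Lf1 γ)).card : ℝ) =
        ∑ γ, ((Lf1 γ).card : ℝ) := by
      rw [sum_congr rfl fun x _ => card_flt univ (fun γ => x ∈ Lf1 γ), sum_comm]
      refine sum_congr rfl fun γ _ => ?_
      rw [← card_flt univ (fun x => x ∈ Lf1 γ), hfl]
    rw [e1]
    refine (sum_le_card_nsmul _ _ ((P.s2 * (8 * P.Mr * P.mu1) : ℕ) : ℝ)
      (fun γ _ => by exact_mod_cast h1 γ)).trans ?_
    have := (Nat.cast_le (α := ℝ)).2 hm.x5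
    rw [card_univ, Fintype.card_fin, nsmul_eq_mul]
    push_cast at this ⊢
    linarith
  have b5 := (Nat.cast_le (α := ℝ)).2 (hΦ.v8 Γ hΓ hΓ')
  push_cast at b5
  by_contra hn
  rw [card_flt] at b1 b2 b3 b4 b5
  have hall : ∀ x : Fin P.N, (1 : ℝ) ≤ ind (∃ γ, x ∈ Lf0 γ) + ind (∃ t ∈ Tr, t ⊆ cel Φ.f x) +
      ind (P.z1 < (edg Φ.f Γ x).card) + ind (P.R < (flt univ (fun γ => x ∈ Lf1 γ)).card) +
      ind ((edg Φ.f Γ x).card ≤ P.z1 ∧ ¬ ∃ C, Zer Φ.f Φ.M Γ P.z1 P.nu x C) := by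
    intro x
    have n1 := ind_nonneg (∃ γ, x ∈ Lf0 γ)
    have n2 := ind_nonneg (∃ t ∈ Tr, t ⊆ cel Φ.f x)
    have n3 := ind_nonneg (P.z1 < (edg Φ.f Γ x).card)
    have n4 := ind_nonneg (P.R < (flt univ (fun γ => x ∈ Lf1 γ)).card)
    have n5 := ind_nonneg ((edg Φ.f Γ x).card ≤ P.z1 ∧ ¬ ∃ C, Zer Φ.f Φ.M Γ P.z1 P.nu x C)
    by_cases k1 : ∃ γ, x ∈ Lf0 γ
    · linarith [ind_pos k1]
    by_cases k2 : ∃ t ∈ Tr, t ⊆ cel Φ.f x
    · linarith [ind_pos k2]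
    by_cases k3 : P.z1 < (edg Φ.f Γ x).card
    · linarith [ind_pos k3]
    by_cases k4 : P.R < (flt univ (fun γ => x ∈ Lf1 γ)).card
    · linarith [ind_pos k4]
    have k5 : (edg Φ.f Γ x).card ≤ P.z1 ∧ ¬ ∃ C, Zer Φ.f Φ.M Γ P.z1 P.nu x C :=
      ⟨not_lt.1 k3, fun h => hn ⟨x, fun γ k => k1 ⟨γ, k⟩, fun t ht k => k2 ⟨t, ht, k⟩,
        not_lt.1 k4, h⟩⟩
    linarith [ind_pos k5]
  have hs := sum_le_sum fun x (_ : x ∈ (univ : Finset (Fin P.N))) => hall x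
  rw [sum_add_distrib, sum_add_distrib, sum_add_distrib, sum_add_distrib, sum_const, card_univ,
    Fintype.card_fin, nsmul_eq_mul, mul_one] at hs
  linarith

theorem selectW (hP : P.Ok) (hm : P.OkW mc) (hΦ : Φ.Ok) (hc : Φ.ProperW col) :
    ∃ (x : Fin P.N) (C : Finset (Fin P.k)) (Low : Finset (Fin mc))
      (Nd : Fin mc → Finset (Pat P.k P.q)),
      C.card ≤ 2 * P.z1 ∧ (∀ y, (C ∩ Φ.M x y).card ≤ P.nu) ∧ Low.card ≤ P.R ∧
      (∀ γ, (Nd γ).card ≤ P.s2) ∧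
      ∀ γ (w : Fin P.k → Bool), ∃ φ ∈ Nd γ, Fit (zer C w) φ ∧
        Φ.KilledW col γ (if γ ∈ Low then P.mu0 else P.mu1) φ x := by
  classical
  have T := fun (μ : ℕ) (hμ : P.mu0 ≤ μ) (γ : Fin mc) =>
    tree Φ.f P.s (8 * P.Mr * μ) hP.hs (Φ.KilledW col γ μ)
      (fun φ hφ => cover_killedW hP hΦ hc γ hμ φ hφ)
  choose N0 L0 G0 T0 a1 a2 a3 a4 a5 a6 a7 using T P.mu0 le_rfl
  choose N1 L1 G1 T1 b1 b2 b3 b4 b5 b6 b7 using T P.mu1 hP.hmu1
  obtain ⟨x, hx0, hxT, hxR, C, hC1, hC2, hC3⟩ := choose_xW hP hm hΦ L0 L1 a2 b2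
    (univ.biUnion fun γ => G0 γ ∪ G1 γ) ((card_bi_LT5 G0 G1 a3 b3).trans hm.x3)
    (fun e he => by
      obtain ⟨γ, -, h⟩ := mem_biUnion.1 he
      rcases mem_union.1 h with h | h
      · exact a4 γ e h
      · exact b4 γ e h)
    (univ.biUnion fun γ => T0 γ ∪ T1 γ) (card_bi_LT5 T0 T1 a5 b5)
    (fun t ht => by
      obtain ⟨γ, -, h⟩ := mem_biUnion.1 ht
      rcases mem_union.1 h with h | h
      · exact a6 γ t h
      · exact b6 γ t h)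
  have hz : ∀ (γ : Fin mc) (w : Fin P.k → Bool) (G : Finset ((Fin P.k × Fin P.q) × (Fin P.k × Fin P.q))),
      G ⊆ G0 γ ∪ G1 γ → ∀ e ∈ edg Φ.f G x, zer C w e.1.1 = 0 ∨ zer C w e.2.1 = 0 := by
    intro γ w G hG e he
    have he' : e ∈ edg Φ.f (univ.biUnion fun γ => G0 γ ∪ G1 γ) x :=
      mem_flt.2 ⟨mem_biUnion.2 ⟨γ, mem_univ _, hG (mem_flt.1 he).1⟩, (mem_flt.1 he).2⟩
    rcases hC2 e he' with h | h
    · exact Or.inl (if_pos h)
    · exact Or.inr (if_pos h)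
  refine ⟨x, C, flt univ (fun γ => x ∈ L1 γ), fun γ => if x ∈ L1 γ then N0 γ else N1 γ,
    hC1, hC3, hxR, fun γ => ?_, fun γ w => ?_⟩
  · by_cases h : x ∈ L1 γ
    · simp only [if_pos h]; exact a1 γ
    · simp only [if_neg h]; exact b1 γ
  · by_cases h : x ∈ L1 γ
    · have h' : γ ∈ flt univ (fun γ => x ∈ L1 γ) := mem_flt.2 ⟨mem_univ _, h⟩
      simp only [if_pos h, if_pos h']
      exact a7 γ x (hx0 γ)
        (fun t ht => hxT t (mem_biUnion.2 ⟨γ, mem_univ _, mem_union_left _ ht⟩)) _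
        (hz γ w _ subset_union_left)
    · have h' : γ ∉ flt univ (fun γ => x ∈ L1 γ) := fun hh => h (mem_flt.1 hh).2
      simp only [if_neg h, if_neg h']
      exact b7 γ x h
        (fun t ht => hxT t (mem_biUnion.2 ⟨γ, mem_univ _, mem_union_right _ ht⟩)) _
        (hz γ w _ subset_union_right)

theorem thinW (hP : P.Ok) (hΦ : Φ.Ok) {γ : Fin mc} {μ : ℕ} {φ : Pat P.k P.q} {x : Fin P.N}
    {C : Finset (Fin P.k)} (hK : Φ.KilledW col γ μ φ x) (hC : C.card ≤ 2 * P.z1)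
    (hf : ∃ w, Fit (zer C w) φ) :
    ∃ Pl : Finset (Fin P.N), 3 * μ ≤ 4 * Pl.card ∧
      (∀ y ∈ Pl, Φ.ArcW col γ φ x y ∧ Disjoint (Φ.Z x y) C ∧ Disjoint (vw Φ.f x y) (C \ cols φ)) ∧
      Spread (vw Φ.f x) (cols φ) P.z0 3 Pl := by
  classical
  obtain ⟨Pl, h1, h2, h3⟩ := hK
  obtain ⟨w, hw⟩ := hf
  have h4 := h3 (C \ cols φ) sdiff_disjoint
    ((card_le_card sdiff_subset).trans (hC.trans hP.m1))
  have h5 : (flt Pl fun y => (vw Φ.f x y ∩ (C \ cols φ)).Nonempty).card +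
      (flt Pl fun y => ¬ (vw Φ.f x y ∩ (C \ cols φ)).Nonempty).card = Pl.card := by
    rw [flt_eq, flt_eq, card_filter_add_card_filter_not]
  refine ⟨flt Pl fun y => ¬ (vw Φ.f x y ∩ (C \ cols φ)).Nonempty, by omega, fun y hy => ?_,
    fun U hU hc => ?_⟩
  · obtain ⟨hy, hn⟩ := mem_flt.1 hy
    have hd : Disjoint (vw Φ.f x y) (C \ cols φ) :=
      disjoint_iff_inter_eq_empty.2 (not_nonempty_iff_eq_empty.1 hn)
    refine ⟨h2 y hy, disjoint_left.2 fun a ha hc => ?_, hd⟩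
    by_cases h : a ∈ cols φ
    · obtain ⟨⟨b, v⟩, e⟩ := Option.ne_none_iff_exists'.1 (mem_flt.1 h).2
      have := hw a b v e
      rw [zer_on_LT6 w hc] at this
      subst this
      exact (h2 y hy).2.2.1 a (mem_flt.2 ⟨mem_univ _, b, e⟩) ha
    · exact disjoint_left.1 hd (hΦ.Zs x y ha) (mem_sdiff.2 ⟨hc, h⟩)
  · have h6 := h3 U hU hc
    have h7 : (flt (flt Pl fun y => ¬ (vw Φ.f x y ∩ (C \ cols φ)).Nonempty)
        fun y => (vw Φ.f x y ∩ U).Nonempty).card ≤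
        (flt Pl fun y => (vw Φ.f x y ∩ U).Nonempty).card :=
      card_le_card (flt_mono fun y hy h => ⟨(mem_flt.1 hy).1, h⟩)
    omega

theorem hit_of_fitW (hΦ : Φ.Ok) {x y : Fin P.N} {C : Finset (Fin P.k)} {w : Fin P.k → Bool}
    {φ : Pat P.k P.q} (hv : Φ.Valid x (zer C w)) (hf : Fit (zer C w) φ)
    (hd : Disjoint (vw Φ.f x y) (C \ cols φ)) (hp : Φ.Pary x y (zer C w)) :
    Φ.HitW col (col x (zer C w)) x y φ w := by
  have key : ∀ a ∈ vw Φ.f x y, zer C w a = ext φ w a := fun a ha => by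
    unfold ext
    rcases e : φ a with _ | ⟨b, v⟩
    · exact zer_off_LT6 w fun hc => disjoint_left.1 hd ha
        (mem_sdiff.2 ⟨hc, fun h => (mem_flt.1 h).2 e⟩)
    · exact hf a b v e
  refine ⟨?_, _, hv, rfl, key⟩
  have e : flt (Φ.Z x y) (fun a => ext φ w a = -1) = flt (Φ.Z x y) (fun a => zer C w a = -1) := by
    ext a
    simp only [mem_flt]
    exact and_congr_right fun ha => by rw [key a (hΦ.Zs x y ha)]
  unfold Fam.Pary at hp ⊢
  rwa [e]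

namespace Loc
variable {D : Loc P}

theorem coreW (hP : P.Ok) (hm : P.OkW mc) (hD : D.Ok) {τ : Type} (Ts : Finset τ) (T : τ → Tgt P)
    (hT : ∀ t ∈ Ts, D.TOk (T t)) (hc : Ts.card ≤ mc * P.s2) :
    ∃ (S : Finset (Fin P.N)) (w : Fin P.k → Bool), S ⊆ D.Ys ∧ S.card ≤ P.du ∧ par D.Z D.cp S w ∧
      (∀ y, (if y ∈ S then 0 else P.eps * (D.M y).card) - 2 * P.nu ≤ ∑ p ∈ D.M y, sg (w p)) ∧
      ∀ t ∈ Ts, ∃ y ∈ S, y ∈ (T t).Pl ∧ ¬ (T t).H y w := by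
  by_contra hcon
  have hpt : ∀ S : Finset (Fin P.N), D.Qs (fun _ _ => True) S ≤
      D.Qs (fun S w => ¬ ∀ y, (if y ∈ S then 0 else P.eps * (D.M y).card) - 2 * P.nu ≤
        ∑ p ∈ D.M y, sg (w p)) S +
      ∑ t ∈ Ts, D.Qs (fun S w => ∀ y ∈ S, y ∈ (T t).Pl → (T t).H y w) S := by
    intro S
    by_cases hG : D.Good S
    · unfold Qs
      simp only [ind_pos hG, one_mul]
      rw [← mul_sum, ← mul_add]
      refine mul_le_mul_of_nonneg_left ?_ (by positivity)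
      have hl : IsP (D.law S) := D.isP_law hP hG.2.2.1
      refine le_trans ?_ (add_le_add le_rfl (Pr_exists_le hl Ts
        (fun t w => par D.Z D.cp S w ∧ ∀ y ∈ S, y ∈ (T t).Pl → (T t).H y w)))
      refine le_trans (Pr_mono hl ?_) (Pr_or_le hl _ _)
      rintro w ⟨hw, -⟩
      by_cases hv : ∀ y, (if y ∈ S then 0 else P.eps * (D.M y).card) - 2 * P.nu ≤
          ∑ p ∈ D.M y, sg (w p)
      · right
        by_contra hno
        refine hcon ⟨S, w, hG.1, hG.2.1, hw, hv, fun t ht => ?_⟩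
        by_contra hno2
        refine hno ⟨t, ht, hw, fun y hy hy2 => ?_⟩
        by_contra hH
        exact hno2 ⟨y, hy, hy2, hH⟩
      · exact Or.inl ⟨hw, hv⟩
    · unfold Qs
      simp only [ind_neg hG, zero_mul, sum_const_zero, add_zero, le_refl]
  have h1 := mass hP hD
  have h2 := invalid hP hD
  have h3 : ∑ t ∈ Ts, D.Qm (fun S w => ∀ y ∈ S, y ∈ (T t).Pl → (T t).H y w) ≤ Ts.card * P.kb := by
    rw [← nsmul_eq_mul]
    exact sum_le_card_nsmul _ _ _ fun t ht => kill hP hD (hT t ht)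
  have h4 : (Ts.card : ℝ) * P.kb ≤ ((mc * P.s2 : ℕ) : ℝ) * P.kb :=
    mul_le_mul_of_nonneg_right (by exact_mod_cast hc) (kb_nonneg_LC7 hP)
  have h5 := hm.c8
  have h6 := Ex_mono (D.isP_sig hP hD) (fun ξ => hpt (supp ξ))
  rw [Ex_add, Ex_sum] at h6
  unfold Qm at h1 h2 h3
  linarith

end Loc

theorem no_colW (hP : P.Ok) (hm : P.OkW mc) (hΦ : Φ.Ok) (col : Fin P.N → (Fin P.k → SignType) → Fin mc) :
    ¬ Φ.ProperW col := by
  classical
  intro hc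
  obtain ⟨x, C, Low, Nd, hC, hCM, hLow, hNd, hsel⟩ := selectW hP hm hΦ hc
  let G : Fin mc × Pat P.k P.q → Prop := fun t =>
    (∃ w, Fit (zer C w) t.2) ∧ Φ.KilledW col t.1 (if t.1 ∈ Low then P.mu0 else P.mu1) t.2 x
  let Ts : Finset (Fin mc × Pat P.k P.q) :=
    flt (univ.biUnion (fun γ => (Nd γ).image (fun φ => (γ, φ)))) G
  have hTs : Ts.card ≤ mc * P.s2 := by
    refine (card_flt_le _ _).trans ?_
    have h := card_pairs_LT7 (univ : Finset (Fin mc)) Nd P.s2 hNd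
    rwa [card_univ, Fintype.card_fin] at h
  have hlow : (flt Ts (fun t => t.1 ∈ Low)).card ≤ P.R * P.s2 := by
    have hsub : flt Ts (fun t => t.1 ∈ Low) ⊆
        Low.biUnion (fun γ => (Nd γ).image (fun φ => (γ, φ))) := by
      intro t ht
      obtain ⟨h1, h2⟩ := mem_flt.1 ht
      obtain ⟨γ, -, hγ⟩ := mem_biUnion.1 (mem_flt.1 h1).1
      obtain ⟨φ, hφ, rfl⟩ := mem_image.1 hγ
      exact mem_biUnion.2 ⟨γ, h2, mem_image.2 ⟨φ, hφ, rfl⟩⟩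
    exact (card_le_card hsub).trans
      ((card_pairs_LT7 Low Nd P.s2 hNd).trans (Nat.mul_le_mul_right _ hLow))
  have hex : ∀ t : Fin mc × Pat P.k P.q, ∃ Pl : Finset (Fin P.N), t ∈ Ts →
      3 * (if t.1 ∈ Low then P.mu0 else P.mu1) ≤ 4 * Pl.card ∧
      (∀ y ∈ Pl, Φ.ArcW col t.1 t.2 x y ∧ Disjoint (Φ.Z x y) C ∧
        Disjoint (vw Φ.f x y) (C \ cols t.2)) ∧
      Spread (vw Φ.f x) (cols t.2) P.z0 3 Pl := by
    intro t
    by_cases ht : t ∈ Ts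
    · obtain ⟨h1, h2⟩ := (mem_flt.1 ht).2
      obtain ⟨Pl, h⟩ := thinW hP hΦ h2 hC h1
      exact ⟨Pl, fun _ => h⟩
    · exact ⟨∅, fun h => absurd h ht⟩
  choose Pl hPl using hex
  have hb0 : ∀ t ∈ Ts, 3 * P.mu0 ≤ 4 * (Pl t).card := by
    intro t ht
    have h := (hPl t ht).1
    have h1 := hP.hmu1
    split_ifs at h
    · exact h
    · omega
  have hb1 : ∀ t ∈ Ts, ¬ t.1 ∈ Low → 3 * P.mu1 ≤ 4 * (Pl t).card := by
    intro t ht hl
    have h := (hPl t ht).1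
    rwa [if_neg hl] at h
  have hsub : ∀ t ∈ Ts, Pl t ⊆ flt univ (fun y => x ≠ y ∧ Disjoint (Φ.Z x y) C) := by
    intro t ht y hy
    obtain ⟨h1, h2, -⟩ := (hPl t ht).2.1 y hy
    exact mem_flt.2 ⟨mem_univ _, h1.1, h2⟩
  obtain ⟨σ, h0, h1, hs, ht, hwt⟩ :=
    exists_sigma hP _ Ts Pl (fun t => t.1 ∈ Low) hsub hb0 hb1 hlow
  have hD : (locOf Φ x C σ).Ok := locOf_ok hΦ x C h0 h1 hs ht
  let T : Fin mc × Pat P.k P.q → Tgt P := fun t =>
    ⟨cols t.2, Pl t, fun y => Φ.HitW col t.1 x y t.2⟩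
  have hT : ∀ t ∈ Ts, (locOf Φ x C σ).TOk (T t) := fun t ht =>
    { big := hb0 t ht
      wt := hwt t ht
      spr := (hPl t ht).2.2
      dep := fun y _ => dep_HitW hΦ t.1 x y t.2
      sm := fun y hy => ((hPl t ht).2.1 y hy).1.2.2.2 }
  obtain ⟨S, w, hS, hSc, hpar, hw, hlast⟩ := Loc.coreW hP hm hD Ts T hT hTs
  have hSd : ∀ y ∈ S, Disjoint (Φ.Z x y) C := fun y hy => (mem_flt.1 (hS hy)).2.2
  have hv : Φ.Valid x (zer C w) := valid_of_core hP hΦ hCM hSd hSc hpar hw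
  obtain ⟨φ, hφ, hfit, hK⟩ := hsel (col x (zer C w)) w
  have hmem : (col x (zer C w), φ) ∈ Ts :=
    mem_flt.2 ⟨mem_biUnion.2 ⟨_, mem_univ _, mem_image.2 ⟨φ, hφ, rfl⟩⟩, ⟨w, hfit⟩, hK⟩
  obtain ⟨y, hyS, hyP, hn⟩ := hlast _ hmem
  obtain ⟨-, -, h3⟩ := (hPl _ hmem).2.1 y hyP
  exact hn (hit_of_fitW hΦ hv hfit h3 (pary_of_par (hSd y hyS) (hpar y hyS)))

theorem fam_W (hP : P.Ok) (hΦ : Φ.Ok) :
    ∃ H : Finset (Finset (Fin P.n)), (H : Set (Finset (Fin P.n))).Intersecting ∧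
      ∀ (mc : ℕ) (f : Finset (Fin P.n) → Fin mc),
        (∀ F ∈ H, ∀ F' ∈ H, F ≠ F' → f F = f F' → 2 ≤ (F ∩ F').card) →
        ∃ col : Fin P.N → (Fin P.k → SignType) → Fin mc, Φ.ProperW col := by
  classical
  let e : Fin P.k × Fin P.q × Bool ≃ Fin P.n :=
    Fintype.equivFinOfCardEq (by simp [Par.n]; ring)
  let pt : Fin P.N → (Fin P.k → SignType) → Fin P.k → Fin P.n :=
    fun x s a => e (a, Φ.f x a, decide (s a = 1))
  have hpt : ∀ x y s s' a a', pt x s a = pt y s' a' →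
      a = a' ∧ Φ.f x a = Φ.f y a' ∧ decide (s a = 1) = decide (s' a' = 1) := by
    intro x y s s' a a' hh
    have := e.injective hh
    simpa only [Prod.mk.injEq] using this
  have hinj : ∀ x s, Function.Injective (pt x s) := fun x s a a' hh => (hpt _ _ _ _ _ _ hh).1
  let edge : Fin P.N → (Fin P.k → SignType) → Finset (Fin P.n) :=
    fun x s => (flt univ (fun a => s a ≠ 0)).image (pt x s)
  have hmem : ∀ x s z, z ∈ edge x s ↔ ∃ a, s a ≠ 0 ∧ pt x s a = z := by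
    intro x s z
    simp only [edge, mem_image, mem_flt, mem_univ, true_and]
  have hint : ∀ x y s s', x ≠ y → edge x s ∩ edge y s' = (Φ.agr x y s s').image (pt x s) := by
    intro x y s s' hxy
    ext z
    rw [mem_inter, hmem, hmem, mem_image]
    constructor
    · rintro ⟨⟨a, ha, rfl⟩, a', ha', hh⟩
      obtain ⟨rfl, h2, h3⟩ := hpt _ _ _ _ _ _ hh
      exact ⟨a', mem_flt.2 ⟨mem_vw.2 ⟨hxy, h2.symm⟩, (sign_eq_LT8 ha' ha h3).symm, ha⟩, rfl⟩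
    · rintro ⟨a, ha, rfl⟩
      obtain ⟨h1, h2, h3⟩ := mem_flt.1 ha
      refine ⟨⟨a, h3, rfl⟩, a, h2 ▸ h3, ?_⟩
      simp only [pt, ← h2, (mem_vw.1 h1).2]
  let H : Finset (Finset (Fin P.n)) :=
    (flt univ (fun p : Fin P.N × (Fin P.k → SignType) => Φ.Valid p.1 p.2)).image
      (fun p => edge p.1 p.2)
  have hH : ∀ x s, Φ.Valid x s → edge x s ∈ H := fun x s hv =>
    mem_image.2 ⟨(x, s), mem_flt.2 ⟨mem_univ _, hv⟩, rfl⟩
  have hI : (H : Set (Finset (Fin P.n))).Intersecting := (by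
    intro F hF F' hF'
    obtain ⟨⟨x, s⟩, h1, rfl⟩ := mem_image.1 (mem_coe.1 hF)
    obtain ⟨⟨y, s'⟩, h2, rfl⟩ := mem_image.1 (mem_coe.1 hF')
    have v1 : Φ.Valid x s := (mem_flt.1 h1).2
    have v2 : Φ.Valid y s' := (mem_flt.1 h2).2
    rw [not_disjoint_iff_nonempty_inter]
    show (edge x s ∩ edge y s').Nonempty
    by_cases hxy : x = y
    · subst hxy
      obtain ⟨a, h3, h4⟩ := inter_eq v1 v2
      refine ⟨pt x s a, mem_inter.2 ⟨(hmem _ _ _).2 ⟨a, by rw [h3]; decide, rfl⟩,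
        (hmem _ _ _).2 ⟨a, by rw [h4]; decide, ?_⟩⟩⟩
      simp only [pt, h3, h4]
    · rw [hint x y s s' hxy]
      exact (inter_ne hΦ hxy v1 v2).image _)
  refine ⟨H, hI, fun mc f hf => ?_⟩
  refine ⟨fun x s => f (edge x s), fun x y s s' hxy v1 v2 hc => ?_⟩
  have h2 : 2 ≤ (edge x s ∩ edge y s').card := by
    by_cases he : edge x s = edge y s'
    · rw [← he, inter_self, card_image_of_injective _ (hinj x s)]
      exact two_le hP v1
    · exact hf _ (hH x s v1) _ (hH y s' v2) he hc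
  rw [hint x y s s' hxy, card_image_of_injective _ (hinj x s)] at h2
  omega

end Pool.Agent.P.MP_b5e666_co.Lar
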