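import Pool.Agent.P.MP_b5e666_co.W1

set_option autoImplicit false

open Finset

noncomputable section

namespace Pool.Agent.P.MP_b5e666_co.Lar

section
variable {l : ℕ} (hl : 10 ^ 9 ≤ l) (hE : (l : ℝ) ^ 6652801 ≤ Real.exp (l / 100))
  {mc : ℕ} (hm : 26 * mc ≤ l ^ 2235)
include hl hm

theorem x1_W2 : 10 * mc * (par_LP1 l).s2 * (8 * (par_LP1 l).Mr * (par_LP1 l).mu0) ≤
    (par_LP1 l).N := by
  have P := pn_LP1 hl
  simp only [Par.s2, par_LP1]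
  calc _ = 26 * mc * (40 * l ^ 6650565) := by ring
    _ ≤ l ^ 2235 * (40 * l ^ 6650565) := Nat.mul_le_mul_right _ hm
    _ = 40 * l ^ 6652800 := by ring
    _ ≤ l ^ 6652801 := P 40 6652800 6652801 (by norm_num) (by norm_num)

theorem x2_W2 : 120 * mc * (13 * (par_LP1 l).s ^ 3) ≤ (par_LP1 l).q ^ 3 := by
  have P := pn_LP1 hl
  simp only [par_LP1]
  calc _ = 26 * mc * (60 * l ^ 9) := by ring
    _ ≤ l ^ 2235 * (60 * l ^ 9) := Nat.mul_le_mul_right _ hm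
    _ = 60 * l ^ 2244 := by ring
    _ ≤ l ^ 3024 := P 60 2244 3024 (by norm_num) (by norm_num)
    _ = _ := by ring

omit hl in
theorem x3_W2 : 2 * mc * (par_LP1 l).s2 ≤ (par_LP1 l).e0 := by
  simp only [Par.s2, par_LP1]
  calc _ = 26 * mc * l ^ 6 := by ring
    _ ≤ l ^ 2235 * l ^ 6 := Nat.mul_le_mul_right _ hm
    _ = _ := by ring

theorem x5_W2 : 10 * mc * (par_LP1 l).s2 * (8 * (par_LP1 l).Mr * (par_LP1 l).mu1) ≤
    (par_LP1 l).R * (par_LP1 l).N := by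
  have P := pn_LP1 hl
  simp only [Par.s2, par_LP1]
  calc _ = 26 * mc * (40 * l ^ 6651683) := by ring
    _ ≤ l ^ 2235 * (40 * l ^ 6651683) := Nat.mul_le_mul_right _ hm
    _ = 40 * l ^ 6653918 := by ring
    _ ≤ l ^ 6653919 := P 40 6653918 6653919 (by norm_num) (by norm_num)
    _ = _ := by ring

include hE in
theorem c8_W2 : 20 * ((mc * (par_LP1 l).s2 : ℕ) : ℝ) * (par_LP1 l).kb ≤ 1 := by
  have hx : (10 : ℝ) ^ 9 ≤ l := by exact_mod_cast hl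
  have x0 : (0 : ℝ) < l := lt_of_lt_of_le (by norm_num) hx
  have P := pw_LP1 hx
  have hm' : 26 * (mc : ℝ) ≤ (l : ℝ) ^ 2235 := by exact_mod_cast hm
  have hm2 : 26 * (mc : ℝ) * (l : ℝ) ^ 6 ≤ (l : ℝ) ^ 2241 :=
    (mul_le_mul_of_nonneg_right hm' (by positivity)).trans (le_of_eq (by ring))
  simp only [Par.s2, Par.kb, par_LP1]
  push_cast
  have a0 := P 45 2241 6652801 (by norm_num) (by norm_num)
  have a1 := P 3 3 4 (by norm_num) (by norm_num)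
  have a2 := P 1 1 3 (by norm_num) (by norm_num)
  have a3 := P 1 1 6652801 (by norm_num) (by norm_num)
  have a4 := P 1 3 6652801 (by norm_num) (by norm_num)
  have a5 := P 1 1 2 (by norm_num) (by norm_num)
  have a6 := P 1 2 3 (by norm_num) (by norm_num)
  have b0 : Real.exp (2 * (l : ℝ) ^ 3 - (l : ℝ) ^ 4) ≤ Real.exp (-((l : ℝ) / 100)) :=
    Real.exp_le_exp.2 (by linarith)
  have b1 : (l : ℝ) * ((l : ℝ) ^ 3) ^ l * Real.exp (-((l : ℝ) ^ 3 / 2)) ≤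
      Real.exp (-((l : ℝ) / 100)) := by
    refine (me_LP1 (Real.exp_pos _).le (me_LP1 (by positivity)
      ((show (l : ℝ) ≤ (l : ℝ) ^ 6652801 by linarith).trans hE)
      (pe_LP1 (by positivity) ((show (l : ℝ) ^ 3 ≤ (l : ℝ) ^ 6652801 by linarith).trans hE) l))
      le_rfl).trans (Real.exp_le_exp.2 ?_)
    linarith
  have b3 : Real.exp 2 * ((1 + 1 / (l : ℝ)) ^ 9900 / 2) ^ l ≤ Real.exp (-((l : ℝ) / 100)) := by
    refine (half_LP1 x0 9900 l).trans (Real.exp_le_exp.2 ?_)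
    rw [mul_add, mul_left_comm, mul_one_div_cancel x0.ne']
    push_cast
    linarith only [hx]
  have b4 := fin1_LP1 (a0.trans hE) (add_neg_cancel ((l : ℝ) / 100)).le
  have b5 := add_le_add (add_le_add b0 b1) b3
  have z0 : 0 ≤ Real.exp (2 * (l : ℝ) ^ 3 - (l : ℝ) ^ 4) +
    (l : ℝ) * ((l : ℝ) ^ 3) ^ l * Real.exp (-((l : ℝ) ^ 3 / 2)) +
    Real.exp 2 * ((1 + 1 / (l : ℝ)) ^ 9900 / 2) ^ l := by positivity
  generalize Real.exp (2 * (l : ℝ) ^ 3 - (l : ℝ) ^ 4) +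
    (l : ℝ) * ((l : ℝ) ^ 3) ^ l * Real.exp (-((l : ℝ) ^ 3 / 2)) +
    Real.exp 2 * ((1 + 1 / (l : ℝ)) ^ 9900 / 2) ^ l = z at b5 z0 ⊢
  have b6 := mul_le_mul_of_nonneg_left b5 (show (0 : ℝ) ≤ 15 * (l : ℝ) ^ 2241 by positivity)
  have b7 := mul_le_mul_of_nonneg_right hm2 (show (0 : ℝ) ≤ 15 * z by positivity)
  linarith only [b4, b6, b7]

include hE in
theorem okW_W2 : (par_LP1 l).OkW mc :=
  ⟨x1_W2 hl hm, x2_W2 hl hm, x3_W2 hm, x5_W2 hl hm, c8_W2 hl hE hm⟩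

end

theorem ev_l_W2 (E : ℕ) : ∃ L : ℕ, ∀ l : ℕ, L ≤ l → (l : ℝ) ^ E ≤ Real.exp (l / 100) := by
  have h1 := (Real.tendsto_exp_div_pow_atTop E).comp
    (tendsto_natCast_atTop_atTop.atTop_div_const (show (0 : ℝ) < 100 by norm_num))
  obtain ⟨L, hL⟩ := Filter.eventually_atTop.1 ((h1.eventually_ge_atTop ((100 : ℝ) ^ E)).and
    (Filter.eventually_ge_atTop 1))
  refine ⟨L, fun l hl => ?_⟩
  obtain ⟨h2, h3⟩ := hL l hl
  have h4 : (0 : ℝ) < l := by exact_mod_cast h3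
  simp only [Function.comp] at h2
  rw [le_div_iff₀ (by positivity), ← mul_pow] at h2
  rwa [show (100 : ℝ) * (l / 100) = l by ring] at h2

theorem root_W2 (a L n : ℕ) (ha : a ≠ 0) (hL : 1 ≤ L) (h : 2 * L ^ a ≤ n) :
    ∃ l, L ≤ l ∧ 2 * l ^ a ≤ n ∧ n < 2 * (l + 1) ^ a := by
  classical
  have hex : ∃ l, n < 2 * (l + 1) ^ a :=
    ⟨n, by have := Nat.le_self_pow ha (n + 1); omega⟩
  have h1 := Nat.find_spec hex
  have h2 : L ≤ Nat.find hex := by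
    by_contra hc
    have h3 : (Nat.find hex + 1) ^ a ≤ L ^ a := Nat.pow_le_pow_left (by omega) a
    omega
  refine ⟨Nat.find hex, h2, ?_, h1⟩
  have h4 := Nat.find_min hex (m := Nat.find hex - 1) (by omega)
  rw [show Nat.find hex - 1 + 1 = Nat.find hex by omega] at h4
  omega

theorem num_W2 (a b c d K l n m : ℕ) (hb : b ≠ 0) (hd : d ≠ 0) (he : a * c + d = (a + 1) * b)
    (hK : K = 26 ^ b * (2 * 2 ^ a) ^ c) (hl : K ≤ l) (l1 : 1 ≤ l) (hn : n < 2 * (l + 1) ^ a)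
    (hm : m ^ b ≤ n ^ c) : 26 * m ≤ l ^ (a + 1) := by
  have h1 : n ≤ 2 * 2 ^ a * l ^ a := by
    have : (l + 1) ^ a ≤ (2 * l) ^ a := Nat.pow_le_pow_left (by omega) a
    rw [mul_pow] at this
    rw [mul_assoc]
    omega
  have h2 : (26 * m) ^ b ≤ (l ^ (a + 1)) ^ b := by
    calc (26 * m) ^ b = 26 ^ b * m ^ b := mul_pow _ _ _
      _ ≤ 26 ^ b * (2 * 2 ^ a * l ^ a) ^ c :=
          Nat.mul_le_mul_left _ (hm.trans (Nat.pow_le_pow_left h1 c))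
      _ = K * l ^ (a * c) := by rw [hK, mul_pow (2 * 2 ^ a), ← pow_mul l, mul_assoc]
      _ ≤ l ^ d * l ^ (a * c) := Nat.mul_le_mul_right _ (hl.trans (Nat.le_self_pow hd l))
      _ = (l ^ (a + 1)) ^ b := by rw [← pow_add, ← pow_mul, ← he, add_comm]
  exact (Nat.pow_le_pow_iff_left hb).1 h2

theorem lift_W2 {n0 n : ℕ} (h : n0 ≤ n) (H : Finset (Finset (Fin n0)))
    (hI : (H : Set (Finset (Fin n0))).Intersecting) :
    ∃ H' : Finset (Finset (Fin n)), (H' : Set (Finset (Fin n))).Intersecting ∧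
      ∀ (m : ℕ) (f : Finset (Fin n) → Fin m),
        (∀ F ∈ H', ∀ F' ∈ H', F ≠ F' → f F = f F' → 2 ≤ (F ∩ F').card) →
        ∃ g : Finset (Fin n0) → Fin m,
          ∀ F ∈ H, ∀ F' ∈ H, F ≠ F' → g F = g F' → 2 ≤ (F ∩ F').card := by
  let e : Fin n0 ↪ Fin n := Fin.castLEEmb h
  refine ⟨H.image (fun F => F.map e), ?_, fun m f hf => ⟨fun F => f (F.map e), ?_⟩⟩
  · intro F hF F' hF'
    obtain ⟨A, hA, rfl⟩ := mem_image.1 (mem_coe.1 hF)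
    obtain ⟨B, hB, rfl⟩ := mem_image.1 (mem_coe.1 hF')
    rw [disjoint_map]
    exact hI (mem_coe.2 hA) (mem_coe.2 hB)
  · intro F hF F' hF' hne hc
    have := hf _ (mem_image_of_mem _ hF) _ (mem_image_of_mem _ hF')
      (fun k => hne (map_injective e k)) hc
    rwa [← map_inter, card_map] at this

theorem mainW : ∃ n0 : ℕ, ∀ n : ℕ, n0 ≤ n → ∃ H : Finset (Finset (Fin n)),
    (H : Set (Finset (Fin n))).Intersecting ∧
    ∀ m : ℕ, m ^ 3000 ≤ n ^ 3001 → ¬ ∃ f : Finset (Fin n) → Fin m,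
      ∀ F ∈ H, ∀ F' ∈ H, F ≠ F' → f F = f F' → 2 ≤ (F ∩ F').card := by
  obtain ⟨L1, hL1⟩ := ev_l_W2 6652801
  obtain ⟨K, hK⟩ : ∃ K : ℕ, ∀ l n m : ℕ, K ≤ l → 1 ≤ l → n < 2 * (l + 1) ^ 2234 →
      m ^ 3000 ≤ n ^ 3001 → 26 * m ≤ l ^ (2234 + 1) :=
    ⟨_, fun l n m => num_W2 2234 3000 3001 766 _ l n m (by norm_num) (by norm_num)
      (by norm_num) rfl⟩
  obtain ⟨L, a1, a2, a3⟩ : ∃ L : ℕ, 10 ^ 9 ≤ L ∧ L1 ≤ L ∧ K ≤ L :=
    ⟨10 ^ 9 + L1 + K, by omega, by omega, by omega⟩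
  refine ⟨2 * L ^ 2234, fun n hn => ?_⟩
  obtain ⟨l, b1, b2, b3⟩ := root_W2 2234 L n (by norm_num) (by omega) hn
  have hl : 10 ^ 9 ≤ l := a1.trans b1
  have hE : (l : ℝ) ^ 6652801 ≤ Real.exp (l / 100) := hL1 l (a2.trans b1)
  have hP := ok_LP1 hl hE
  obtain ⟨Φ, hΦ⟩ := exists_fam hP
  obtain ⟨H, hI, hH⟩ := fam_W hP hΦ
  have hn0 : (par_LP1 l).n ≤ n := by
    refine le_trans (le_of_eq ?_) b2
    simp only [Par.n, par_LP1]
    ring
  obtain ⟨H', hI', hH'⟩ := lift_W2 hn0 H hI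
  refine ⟨H', hI', fun m hm => ?_⟩
  rintro ⟨f, hf⟩
  obtain ⟨g, hg⟩ := hH' m f hf
  obtain ⟨col, hc⟩ := hH m g hg
  exact no_colW hP (okW_W2 hl hE (hK l n m (a3.trans b1) (by omega) b3 hm)) hΦ col hc

end Pool.Agent.P.MP_b5e666_co.Lar
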